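import Mathlib

set_option autoImplicit false

/-!
# Jensen's inequality for functions of exponential type
-/

open Complex Set MeasureTheory Metric

namespace Pool.Agent.Helper156_SP

lemma integral_abs_sin : ∫ θ in (0:ℝ)..2 * Real.pi, |Real.sin θ| = 4 := by
  have hpi := Real.pi_pos
  have hc : ∀ a b : ℝ, IntervalIntegrable (fun θ : ℝ => |Real.sin θ|) volume a b := fun a b =>
    Continuous.intervalIntegrable (by fun_prop) _ _
  rw [← intervalIntegral.integral_add_adjacent_intervals (hc 0 Real.pi) (hc Real.pi (2 * Real.pi))]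
  have h1 : ∫ θ in (0:ℝ)..Real.pi, |Real.sin θ| = ∫ θ in (0:ℝ)..Real.pi, Real.sin θ := by
    apply intervalIntegral.integral_congr
    intro θ hθ
    rw [uIcc_of_le hpi.le] at hθ
    exact abs_of_nonneg (Real.sin_nonneg_of_mem_Icc hθ)
  have h2 : ∫ θ in Real.pi..2 * Real.pi, |Real.sin θ| = ∫ θ in Real.pi..2 * Real.pi, -Real.sin θ := by
    apply intervalIntegral.integral_congr
    intro θ hθ
    rw [uIcc_of_le (by linarith)] at hθ
    have h3 : Real.sin θ ≤ 0 := by
      have h4 : 0 ≤ Real.sin (θ - Real.pi) := Real.sin_nonneg_of_mem_Icc ⟨by linarith [hθ.1], by linarith [hθ.2]⟩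
      rw [Real.sin_sub_pi] at h4
      linarith
    exact abs_of_nonpos h3
  rw [h1, h2, intervalIntegral.integral_neg, integral_sin, integral_sin, Real.cos_zero, Real.cos_pi,
    Real.cos_two_pi]
  norm_num

/-- the mean of `|Im w|` over a circle -/
lemma avg_im {r : ℝ} (hr : 0 < r) (a b : ℝ) :
    Real.circleAverage (fun w : ℂ => a + b * |w.im|) 0 r = a + b * (2 * r / Real.pi) := by
  have hpi := Real.pi_pos
  rw [Real.circleAverage_def]
  have e : ∀ θ : ℝ, (fun w : ℂ => a + b * |w.im|) (circleMap 0 r θ) = a + b * r * |Real.sin θ| := by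
    intro θ
    have : (circleMap 0 r θ).im = r * Real.sin θ := by simp [circleMap, Complex.exp_ofReal_mul_I_im]
    simp only [this, abs_mul, abs_of_pos hr]
    ring
  simp only [e]
  rw [intervalIntegral.integral_add (Continuous.intervalIntegrable (by fun_prop) _ _)
    (Continuous.intervalIntegrable (by fun_prop) _ _), intervalIntegral.integral_const_mul, integral_abs_sin]
  simp only [intervalIntegral.integral_const, smul_eq_mul]
  field_simp
  ring

lemma ci_im (r a b : ℝ) : CircleIntegrable (fun w : ℂ => a + b * |w.im|) 0 r := by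
  unfold CircleIntegrable
  apply Continuous.intervalIntegrable
  have : Continuous (fun θ : ℝ => circleMap 0 r θ) := continuous_circleMap 0 r
  fun_prop

theorem jensen_zeros {g : ℂ → ℂ} (hg : Differentiable ℂ g) {r C τ : ℝ} (hr : 0 < r) (hC : 1 ≤ C)
    (hτ : 0 ≤ τ) (h0 : g 0 ≠ 0) (hb : ∀ w : ℂ, ‖w‖ = r → ‖g w‖ ≤ C * Real.exp (τ * |w.im|))
    (S : Finset ℝ) (hS : ∀ s ∈ S, |s| ≤ r ∧ g s = 0) :
    ∑ s ∈ S, Real.log (r / |s|) + Real.log ‖g 0‖ ≤ Real.log C + τ * (2 * r / Real.pi) := by
  have hA : AnalyticOnNhd ℂ g (closedBall 0 |r|) := fun z _ => hg.analyticAt z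
  have hJ := hA.circleAverage_log_norm hr.ne' h0
  have habs : |r| = r := abs_of_pos hr
  -- the mean value
  have hmean : Real.circleAverage (fun w => Real.log ‖g w‖) 0 r ≤ Real.log C + τ * (2 * r / Real.pi) := by
    rw [← avg_im hr (Real.log C) τ]
    apply Real.circleAverage_mono
    · exact (hA.mono sphere_subset_closedBall).meromorphicOn.circleIntegrable_log_norm
    · exact ci_im r _ _
    · intro w hw
      rw [mem_sphere_zero_iff_norm, habs] at hw
      have h1 := hb w hw
      rcases eq_or_ne (g w) 0 with h2 | h2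
      · simp only [h2, norm_zero, Real.log_zero]
        have := Real.log_nonneg hC
        positivity
      · have h3 := Real.log_le_log (norm_pos_iff.2 h2) h1
        rwa [Real.log_mul (by linarith) (Real.exp_pos _).ne', Real.log_exp] at h3
  -- the zeros
  set dv := MeromorphicOn.divisor g (closedBall 0 |r|) with hdv
  have hfin : (Function.support dv).Finite := dv.finiteSupport (isCompact_closedBall 0 |r|)
  have hnn : ∀ u : ℂ, 0 ≤ dv u := fun u => MeromorphicOn.AnalyticOnNhd.divisor_nonneg hA u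
  have hlog : ∀ u : ℂ, ‖u‖ ≤ r → 0 ≤ Real.log (r * ‖0 - u‖⁻¹) := by
    intro u hu
    rw [zero_sub, norm_neg]
    rcases eq_or_ne u 0 with rfl | hu0
    · simp
    · apply Real.log_nonneg
      have hup : 0 < ‖u‖ := norm_pos_iff.2 hu0
      rw [← div_eq_mul_inv, one_le_div hup]
      exact hu
  have hterm : ∀ u : ℂ, 0 ≤ (dv u : ℝ) * Real.log (r * ‖0 - u‖⁻¹) := by
    intro u
    by_cases hu : u ∈ closedBall (0:ℂ) |r|
    · refine mul_nonneg (by exact_mod_cast hnn u) (hlog u ?_)
      rwa [mem_closedBall_zero_iff, habs] at hu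
    · have : dv u = 0 := dv.apply_eq_zero_of_notMem hu
      rw [this]; simp
  have hone : ∀ s ∈ S, (1:ℝ) ≤ dv (s : ℂ) := by
    intro s hs
    obtain ⟨h1, h2⟩ := hS s hs
    have hmem : (s : ℂ) ∈ closedBall (0:ℂ) |r| := by
      rw [mem_closedBall_zero_iff, Complex.norm_real, Real.norm_eq_abs, habs]
      exact h1
    have hne : analyticOrderAt g (s : ℂ) ≠ ⊤ := by
      intro htop
      rw [analyticOrderAt_eq_top] at htop
      have hall : EqOn g 0 univ := by
        apply AnalyticOnNhd.eqOn_of_preconnected_of_eventuallyEq (z₀ := (s : ℂ))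
          (fun z _ => hg.analyticAt z) (fun z _ => analyticAt_const) isPreconnected_univ (mem_univ _)
        exact htop
      exact h0 (hall (mem_univ 0))
    have h3 : analyticOrderAt g (s : ℂ) ≠ 0 := by
      rw [(hg.analyticAt (s:ℂ)).analyticOrderAt_ne_zero]
      exact h2
    rw [hdv, MeromorphicOn.AnalyticOnNhd.divisor_apply hA hmem]
    obtain ⟨n, hn⟩ := ENat.ne_top_iff_exists.1 hne
    rw [← hn] at h3 ⊢
    have hn0 : n ≠ 0 := by
      intro h; rw [h] at h3; exact h3 rfl
    simp only [ENat.map_natCast, WithTop.untop₀_coe]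
    have : 1 ≤ n := by omega
    exact_mod_cast this
  have hsum : ∑ s ∈ S, Real.log (r / |s|) ≤
      ∑ᶠ u, (dv u : ℝ) * Real.log (r * ‖0 - u‖⁻¹) := by
    classical
    have hsup : (Function.support fun u => (dv u : ℝ) * Real.log (r * ‖0 - u‖⁻¹)) ⊆
        ((hfin.toFinset ∪ S.image (fun s : ℝ => (s : ℂ)) : Finset ℂ) : Set ℂ) := by
      intro u hu
      rw [Finset.coe_union, Set.Finite.coe_toFinset]
      left
      intro h
      apply hu
      simp only [h]
      simp
    rw [finsum_eq_sum_of_support_subset _ hsup]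
    refine le_trans ?_ (Finset.sum_le_sum_of_subset_of_nonneg (Finset.subset_union_right) fun u _ _ => hterm u)
    rw [Finset.sum_image (fun a _ b _ h => Complex.ofReal_injective h)]
    refine Finset.sum_le_sum fun s hs => ?_
    have h1 := hlog (s : ℂ) (by rw [Complex.norm_real, Real.norm_eq_abs]; exact (hS s hs).1)
    have e : r / |s| = r * ‖0 - (s : ℂ)‖⁻¹ := by
      rw [zero_sub, norm_neg, Complex.norm_real, Real.norm_eq_abs, div_eq_mul_inv]
    rw [e]
    have h2 := mul_le_mul_of_nonneg_right (hone s hs) h1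
    linarith
  have hJ' : Real.circleAverage (fun w => Real.log ‖g w‖) 0 r =
      ∑ᶠ u, (dv u : ℝ) * Real.log (r * ‖0 - u‖⁻¹) + Real.log ‖g 0‖ := hJ
  linarith

end Pool.Agent.Helper156_SP
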