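import Mathlib
import Pool.Agent.Helper156_SP.Jen

set_option autoImplicit false

/-!
# A quantitative form of Beurling's sampling theorem

A function of exponential type `τ < π D`, bounded on the real line, is controlled by its values on a separated set of
lower density `D`.
-/

open Complex Set MeasureTheory Metric

namespace Pool.Agent.Helper156_SP

lemma log_fact {N : ℕ} (hN : 1 ≤ N) :
    Real.log (N.factorial : ℝ) ≤ 1 + Real.log N + N * Real.log N - N := by
  induction N, hN using Nat.le_induction with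
  | base => simp
  | succ N hN ih =>
    have hN0 : (0:ℝ) < N := by exact_mod_cast (by omega : 0 < N)
    have hf : (0:ℝ) < N.factorial := by exact_mod_cast N.factorial_pos
    rw [Nat.factorial_succ, Nat.cast_mul, Real.log_mul (by positivity) hf.ne']
    push_cast
    have h1 := Real.one_sub_inv_le_log_of_pos (x := ((N:ℝ) + 1) / N) (by positivity)
    rw [Real.log_div (by positivity) hN0.ne', inv_div] at h1
    have h2 : 1 - (N:ℝ) / (N + 1) = 1 / (N + 1) := by field_simp; ring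
    rw [h2, div_le_iff₀ (by positivity)] at h1
    linarith

lemma sum_log (N : ℕ) : ∑ j ∈ Finset.range N, Real.log ((j:ℝ) + 1) = Real.log (N.factorial : ℝ) := by
  induction N with
  | zero => simp
  | succ N ih =>
    have hf : (0:ℝ) < N.factorial := by exact_mod_cast N.factorial_pos
    rw [Finset.sum_range_succ, ih, Nat.factorial_succ, Nat.cast_mul, Real.log_mul (by positivity) hf.ne']
    push_cast
    ring

lemma sum_log_div {N : ℕ} (hN : 1 ≤ N) :
    (N:ℝ) - 1 - Real.log N ≤ ∑ j ∈ Finset.range N, Real.log (N / ((j:ℝ) + 1)) := by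
  have hN0 : (0:ℝ) < N := by exact_mod_cast (by omega : 0 < N)
  have h1 : ∑ j ∈ Finset.range N, Real.log (N / ((j:ℝ) + 1)) =
      ∑ j ∈ Finset.range N, (Real.log N - Real.log ((j:ℝ) + 1)) := by
    refine Finset.sum_congr rfl fun j _ => ?_
    rw [Real.log_div hN0.ne' (by positivity)]
  rw [h1, Finset.sum_sub_distrib, sum_log, Finset.sum_const, Finset.card_range, nsmul_eq_mul]
  have := log_fact hN
  linarith

lemma exists_N {a b : ℝ} (ha : 0 < a) : ∃ N : ℕ, 1 ≤ N ∧ b * (1 + Real.log N) + b < a * N := by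
  have h1 := (Real.isLittleO_log_id_atTop.comp_tendsto tendsto_natCast_atTop_atTop).bound
    (show 0 < a / (2 * (|b| + 1)) by positivity)
  obtain ⟨N₁, hN₁⟩ := Filter.eventually_atTop.1 h1
  obtain ⟨N₂, hN₂⟩ := exists_nat_gt ((4 * |b| + 1) / a)
  refine ⟨max (max N₁ N₂) 1, le_max_right _ _, ?_⟩
  set N := max (max N₁ N₂) 1 with hN
  have hN1 : N₁ ≤ N := (le_max_left _ _).trans (le_max_left _ _)
  have hN2 : N₂ ≤ N := (le_max_right _ _).trans (le_max_left _ _)
  have hN3 : 1 ≤ N := le_max_right _ _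
  have hN3' : (1:ℝ) ≤ N := by exact_mod_cast hN3
  have h2 := hN₁ N hN1
  simp only [Function.comp_apply, id, Real.norm_eq_abs, Nat.abs_cast] at h2
  have hlog : 0 ≤ Real.log N := Real.log_nonneg hN3'
  rw [abs_of_nonneg hlog] at h2
  have h3 : (4 * |b| + 1) / a < N := hN₂.trans_le (by exact_mod_cast hN2)
  rw [div_lt_iff₀ ha] at h3
  have h4 : |b| * Real.log N ≤ a * N / 2 := by
    have h5 : (|b| + 1) * Real.log N ≤ (|b| + 1) * (a / (2 * (|b| + 1)) * N) :=
      mul_le_mul_of_nonneg_left h2 (by positivity)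
    have h6 : (|b| + 1) * (a / (2 * (|b| + 1)) * N) = a * N / 2 := by field_simp
    nlinarith
  have h5 : b * (1 + Real.log N) ≤ |b| * (1 + Real.log N) :=
    mul_le_mul_of_nonneg_right (le_abs_self b) (by linarith)
  have h6 := le_abs_self b
  nlinarith

/-- interpolation with separated nodes -/
lemma interp {r d M ρ : ℝ} (hd : 0 < d) (hdr : d ≤ 2 * r) (hM : 0 ≤ M) (hρ : 0 ≤ ρ) (S : Finset ℝ)
    (hS : ∀ s ∈ S, |s| ≤ r) (hsep : ∀ s ∈ S, ∀ s' ∈ S, s ≠ s' → d ≤ |s - s'|) (v : ℝ → ℂ)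
    (hv : ∀ s ∈ S, ‖v s‖ ≤ ρ * M) :
    ∃ P : ℂ → ℂ, Differentiable ℂ P ∧ (∀ s ∈ S, P s = v s) ∧
      ∀ w : ℂ, ‖w‖ ≤ r → ‖P w‖ ≤ S.card * (ρ * M * (2 * r / d) ^ S.card) := by
  classical
  set p := Lagrange.interpolate S (fun s : ℝ => (s : ℂ)) v with hp
  have hinj : Set.InjOn (fun s : ℝ => (s : ℂ)) (S : Set ℝ) := fun a _ b _ h => Complex.ofReal_injective h
  refine ⟨fun w => p.eval w, p.differentiable, fun s hs => ?_, fun w hw => ?_⟩
  · exact Lagrange.eval_interpolate_at_node v hinj hs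
  · simp only [hp, Lagrange.interpolate_apply, Polynomial.eval_finsetSum, Polynomial.eval_mul,
      Polynomial.eval_C]
    refine (norm_sum_le _ _).trans ?_
    rw [← nsmul_eq_mul, ← Finset.sum_const]
    refine Finset.sum_le_sum fun s hs => ?_
    rw [norm_mul]
    refine mul_le_mul (hv s hs) ?_ (norm_nonneg _) (by positivity)
    unfold Lagrange.basis
    rw [Polynomial.eval_prod, norm_prod]
    have h1 : ∀ s' ∈ S.erase s, ‖Polynomial.eval w (Lagrange.basisDivisor (s : ℂ) (s' : ℂ))‖ ≤ 2 * r / d := by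
      intro s' hs'
      rw [Finset.mem_erase] at hs'
      unfold Lagrange.basisDivisor
      rw [Polynomial.eval_mul, Polynomial.eval_C, Polynomial.eval_sub, Polynomial.eval_X,
        Polynomial.eval_C, norm_mul, norm_inv]
      have h2 : d ≤ ‖(s : ℂ) - s'‖ := by
        rw [← Complex.ofReal_sub, Complex.norm_real]
        exact hsep s hs s' hs'.2 (Ne.symm hs'.1)
      have h3 : ‖w - s'‖ ≤ 2 * r := by
        refine (norm_sub_le _ _).trans ?_
        rw [Complex.norm_real, Real.norm_eq_abs]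
        have := hS s' hs'.2
        linarith
      rw [inv_mul_eq_div]
      have hr : 0 ≤ 2 * r := by linarith
      exact div_le_div₀ hr h3 hd h2
    have h2 := Finset.prod_le_prod (s := S.erase s) (fun s' _ => norm_nonneg _) h1
    refine h2.trans ?_
    rw [Finset.prod_const]
    apply pow_le_pow_right₀
    · rw [one_le_div hd]; exact hdr
    · exact (Finset.card_erase_le)

/-- **Beurling sampling, quantitative and local** -/
theorem beurling {ε L d : ℝ} (hε : 0 < ε) (hε1 : ε ≤ 1) (hL : 0 < L) (hd : 0 < d) :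
    ∃ R ρ : ℝ, 1 ≤ R ∧ 0 < ρ ∧ ρ ≤ 1 ∧ ∀ (h : ℂ → ℂ) (M : ℝ), Differentiable ℂ h → 0 < M → ‖h 0‖ = M →
      (∀ w : ℂ, ‖w‖ ≤ R → ‖h w‖ ≤ M * Real.exp ((1 / 2 + ε / 8) * |w.im|)) →
      ∀ E : Set ℝ, (∀ x ∈ Icc (-R) R, ∃ S : Finset ℝ, (∀ s ∈ S, s ∈ E ∧ x ≤ s ∧ s ≤ x + 2 * Real.pi * L) ∧
        (∀ s ∈ S, ∀ s' ∈ S, s ≠ s' → d ≤ |s - s'|) ∧ (1 + ε) * L ≤ S.card) →
      ∃ s ∈ E, |s| ≤ R ∧ ρ * M ≤ ‖h s‖ := by
  classical
  have hpi := Real.pi_pos
  have hpi3 := Real.pi_gt_three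
  set n₀ : ℕ := ⌈(1 + ε) * L⌉₊ with hn₀
  have hn₀1 : (1 + ε) * L ≤ n₀ := Nat.le_ceil _
  have hn₀0 : 1 ≤ n₀ := by
    have : 0 < n₀ := Nat.ceil_pos.2 (by positivity)
    omega
  set d' : ℝ := min d (Real.pi * L * ε / 8) with hd'
  have hd'0 : 0 < d' := lt_min hd (by positivity)
  have hd'1 : d' ≤ d := min_le_left _ _
  have hd'2 : d' ≤ Real.pi * L * ε / 8 := min_le_right _ _
  set P : ℝ := 2 * Real.pi * L + d' with hP
  have hP0 : 0 < P := by positivity
  obtain ⟨N, hN1, hN⟩ : ∃ N : ℕ, 1 ≤ N ∧ (2 * (1 + ε) * L + 1 + 1 / P) * (1 + Real.log N) + (2 * (1 + ε) * L + 1 + 1 / P) <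
      min (2 * L * (5 * ε / 8)) 1 * N := exists_N (lt_min (by positivity) one_pos)
  have hNr : (1:ℝ) ≤ N := by exact_mod_cast hN1
  have hlogN : 0 ≤ Real.log N := Real.log_nonneg hNr
  have hN' : 2 * (1 + ε) * L * (1 + Real.log N) + 1 < 2 * L * (5 * ε / 8) * N := by
    have h1 : min (2 * L * (5 * ε / 8)) 1 * (N:ℝ) ≤ 2 * L * (5 * ε / 8) * N :=
      mul_le_mul_of_nonneg_right (min_le_left _ _) (by linarith)
    have h2 : 0 ≤ 2 * (1 + ε) * L := by positivity
    have h3 : 0 ≤ 1 / P := by positivity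
    nlinarith
  have hNP : 1 ≤ N * P := by
    have h1 : min (2 * L * (5 * ε / 8)) 1 * (N:ℝ) ≤ 1 * N :=
      mul_le_mul_of_nonneg_right (min_le_right _ _) (by linarith)
    have h2 : 0 ≤ 2 * (1 + ε) * L := by positivity
    have h3 : 0 ≤ 1 / P := by positivity
    have h4 : 1 / P ≤ N := by nlinarith
    rwa [div_le_iff₀ hP0] at h4
  set r : ℝ := N * P with hr
  have hr0 : 0 < r := by positivity
  have hd'r : d' ≤ 2 * r := by
    have h1 : d' ≤ P := by
      have : 0 ≤ 2 * Real.pi * L := by positivity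
      rw [hP]; linarith
    have h2 : P ≤ N * P := le_mul_of_one_le_left hP0.le hNr
    rw [hr]; linarith
  set n : ℕ := 2 * N * n₀ with hn
  have hn1 : (1:ℝ) ≤ n := by
    have : 1 ≤ 2 * N * n₀ := by
      have : 0 < 2 * N * n₀ := by positivity
      omega
    exact_mod_cast this
  have hbase : 1 ≤ 2 * r / d' := by rw [one_le_div hd'0]; exact hd'r
  have hpow : 1 ≤ (2 * r / d') ^ n := one_le_pow₀ hbase
  set ρ : ℝ := 1 / (4 * n * (2 * r / d') ^ n) with hρ
  have hρ0 : 0 < ρ := by positivity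
  have hρ1 : ρ ≤ 1 / 4 := by
    rw [hρ, div_le_div_iff₀ (by positivity) (by norm_num)]
    nlinarith
  have hρn : n * (ρ * (2 * r / d') ^ n) = 1 / 4 := by
    rw [hρ]; field_simp
  refine ⟨r, ρ, hNP, hρ0, by linarith, ?_⟩
  intro h M hh hM h0 hb E hE
  by_contra hcon
  push Not at hcon
  -- windows
  have hwin : ∀ k : ℤ, -(N:ℤ) ≤ k → k < N → ∃ S : Finset ℝ, (∀ s ∈ S, s ∈ E ∧ k * P ≤ s ∧ s ≤ k * P + 2 * Real.pi * L) ∧
      (∀ s ∈ S, ∀ s' ∈ S, s ≠ s' → d ≤ |s - s'|) ∧ S.card = n₀ := by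
    intro k hk1 hk2
    have hk1' : -(N:ℝ) ≤ k := by exact_mod_cast hk1
    have hk2' : (k:ℝ) ≤ N := by exact_mod_cast hk2.le
    obtain ⟨S, hS1, hS2, hS3⟩ := hE (k * P) ⟨by rw [hr]; nlinarith, by rw [hr]; nlinarith⟩
    have hcard : n₀ ≤ S.card := Nat.ceil_le.2 hS3
    obtain ⟨S', hS', hS'c⟩ := Finset.exists_subset_card_eq hcard
    exact ⟨S', fun s hs => hS1 s (hS' hs), fun s hs s' hs' => hS2 s (hS' hs) s' (hS' hs'), hS'c⟩
  choose! W hW1 hW2 hW3 using hwin
  -- indices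
  set κ : ℕ × Bool → ℤ := fun p => if p.2 then (p.1 : ℤ) else -((p.1 : ℤ) + 1) with hκ
  have hκinj : Function.Injective κ := by
    rintro ⟨a, b⟩ ⟨a', b'⟩ hab
    simp only [hκ] at hab
    cases b <;> cases b' <;> simp at hab <;> simp <;> omega
  set J : Finset (ℕ × Bool) := Finset.range N ×ˢ Finset.univ with hJ
  have hκr : ∀ p ∈ J, -(N:ℤ) ≤ κ p ∧ κ p < N := by
    rintro ⟨a, b⟩ hp
    rw [hJ, Finset.mem_product, Finset.mem_range] at hp
    have ha : a < N := hp.1
    simp only [hκ]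
    cases b <;> simp <;> omega
  set S : Finset ℝ := J.biUnion fun p => W (κ p) with hS
  have hSE : ∀ s ∈ S, s ∈ E := by
    intro s hs
    rw [hS, Finset.mem_biUnion] at hs
    obtain ⟨p, hp, hsp⟩ := hs
    obtain ⟨h1, h2⟩ := hκr p hp
    exact (hW1 (κ p) h1 h2 s hsp).1
  -- size of the points of a window
  have hsize : ∀ p ∈ J, ∀ s ∈ W (κ p), |s| ≤ ((p.1 : ℝ) + 1) * P := by
    rintro ⟨a, b⟩ hp s hs
    obtain ⟨h1, h2⟩ := hκr _ hp
    obtain ⟨-, h3, h4⟩ := hW1 _ h1 h2 s hs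
    have ha0 : (0:ℝ) ≤ a := Nat.cast_nonneg a
    have hPP : 2 * Real.pi * L = P - d' := by rw [hP]; ring
    rw [hPP] at h4
    simp only [hκ] at h3 h4
    cases b
    · simp only [Bool.false_eq_true, if_false] at h3 h4
      push_cast at h3 h4
      rw [abs_le]
      constructor
      · linarith
      · nlinarith
    · simp only [if_true] at h3 h4
      push_cast at h3 h4
      rw [abs_le]
      constructor
      · nlinarith
      · nlinarith
  have hSr : ∀ s ∈ S, |s| ≤ r := by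
    intro s hs
    rw [hS, Finset.mem_biUnion] at hs
    obtain ⟨p, hp, hsp⟩ := hs
    refine (hsize p hp s hsp).trans ?_
    rw [hJ, Finset.mem_product, Finset.mem_range] at hp
    have : (p.1:ℝ) + 1 ≤ N := by exact_mod_cast hp.1
    rw [hr]
    exact mul_le_mul_of_nonneg_right this hP0.le
  -- separation
  have hsepW : ∀ p ∈ J, ∀ p' ∈ J, p ≠ p' → ∀ s ∈ W (κ p), ∀ s' ∈ W (κ p'), d' ≤ |s - s'| := by
    intro p hp p' hp' hne s hs s' hs'
    obtain ⟨h1, h2⟩ := hκr _ hp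
    obtain ⟨h1', h2'⟩ := hκr _ hp'
    obtain ⟨-, h3, h4⟩ := hW1 _ h1 h2 s hs
    obtain ⟨-, h3', h4'⟩ := hW1 _ h1' h2' s' hs'
    have hPP : 2 * Real.pi * L = P - d' := by rw [hP]; ring
    rw [hPP] at h4 h4'
    have hk : κ p ≠ κ p' := fun h => hne (hκinj h)
    rcases lt_or_gt_of_ne hk with h5 | h5
    · have h6 : (κ p : ℝ) + 1 ≤ κ p' := by exact_mod_cast h5
      have h7 : ((κ p : ℝ) + 1) * P ≤ κ p' * P := mul_le_mul_of_nonneg_right h6 hP0.le
      rw [abs_sub_comm]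
      refine le_trans ?_ (le_abs_self _)
      linarith
    · have h6 : (κ p' : ℝ) + 1 ≤ κ p := by exact_mod_cast h5
      have h7 : ((κ p' : ℝ) + 1) * P ≤ κ p * P := mul_le_mul_of_nonneg_right h6 hP0.le
      refine le_trans ?_ (le_abs_self _)
      linarith
  have hdisj : Set.PairwiseDisjoint (J : Set (ℕ × Bool)) fun p => W (κ p) := by
    intro p hp p' hp' hne
    simp only [Function.onFun]
    rw [Finset.disjoint_left]
    intro s hs hs'
    have := hsepW p hp p' hp' hne s hs s hs'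
    rw [sub_self, abs_zero] at this
    linarith
  have hsep : ∀ s ∈ S, ∀ s' ∈ S, s ≠ s' → d' ≤ |s - s'| := by
    intro s hs s' hs' hne
    rw [hS, Finset.mem_biUnion] at hs hs'
    obtain ⟨p, hp, hsp⟩ := hs
    obtain ⟨p', hp', hsp'⟩ := hs'
    by_cases hpp : p = p'
    · subst hpp
      obtain ⟨h1, h2⟩ := hκr p hp
      exact hd'1.trans (hW2 _ h1 h2 s hsp s' hsp' hne)
    · exact hsepW p hp p' hp' hpp s hsp s' hsp'
  have hcard : S.card = n := by
    rw [hS, Finset.card_biUnion (fun p hp p' hp' hne => hdisj hp hp' hne),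
      Finset.sum_congr rfl (fun p hp => hW3 _ (hκr p hp).1 (hκr p hp).2), Finset.sum_const, hJ,
      Finset.card_product, Finset.card_range, Finset.card_univ, Fintype.card_bool, smul_eq_mul, hn]
    ring
  -- interpolation
  have hsmall : ∀ s ∈ S, ‖h s‖ ≤ ρ * M := fun s hs => (hcon s (hSE s hs) (hSr s hs)).le
  obtain ⟨Q, hQd, hQv, hQb⟩ := interp hd'0 hd'r hM.le hρ0.le S hSr hsep (fun s => h s) hsmall
  have hQ : ∀ w : ℂ, ‖w‖ ≤ r → ‖Q w‖ ≤ M / 4 := by
    intro w hw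
    refine (hQb w hw).trans ?_
    rw [hcard]
    have : (n:ℝ) * (ρ * M * (2 * r / d') ^ n) = M * (n * (ρ * (2 * r / d') ^ n)) := by ring
    rw [this, hρn]
    linarith
  have hne0 : ∀ s ∈ S, s ≠ 0 := by
    rintro s hs rfl
    have := hsmall 0 hs
    rw [Complex.ofReal_zero, h0] at this
    nlinarith
  -- Jensen
  set g : ℂ → ℂ := fun w => (M : ℂ)⁻¹ * (h w - Q w) with hg
  have hgd : Differentiable ℂ g := (hh.sub hQd).const_mul _
  have hMn : ‖(M : ℂ)⁻¹‖ = M⁻¹ := by rw [norm_inv, Complex.norm_real, Real.norm_eq_abs, abs_of_pos hM]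
  have hg0 : 3 / 4 ≤ ‖g 0‖ := by
    rw [hg]
    simp only
    rw [norm_mul, hMn, ← div_eq_inv_mul, le_div_iff₀ hM]
    have h1 := norm_sub_norm_le (h 0) (Q 0)
    have h2 := hQ 0 (by rw [norm_zero]; exact hr0.le)
    rw [h0] at h1
    linarith
  have hgb : ∀ w : ℂ, ‖w‖ = r → ‖g w‖ ≤ 5 / 4 * Real.exp ((1 / 2 + ε / 8) * |w.im|) := by
    intro w hw
    rw [hg]
    simp only
    rw [norm_mul, hMn, inv_mul_le_iff₀ hM]
    have h1 := norm_sub_le (h w) (Q w)
    have h2 := hQ w hw.le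
    have h3 := hb w hw.le
    have h4 : 1 ≤ Real.exp ((1 / 2 + ε / 8) * |w.im|) := Real.one_le_exp (by positivity)
    nlinarith
  have hJen := jensen_zeros hgd hr0 (by norm_num : (1:ℝ) ≤ 5 / 4) (by positivity : 0 ≤ 1 / 2 + ε / 8)
    (by intro h5; rw [h5, norm_zero] at hg0; norm_num at hg0) hgb S (fun s hs => ⟨hSr s hs, by
      rw [hg]
      simp only
      rw [hQv s hs, sub_self, mul_zero]⟩)
  -- the sum over the zeros
  have hlow : 2 * n₀ * ((N:ℝ) - 1 - Real.log N) ≤ ∑ s ∈ S, Real.log (r / |s|) := by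
    rw [hS, Finset.sum_biUnion hdisj]
    have h1 : ∀ p ∈ J, (n₀:ℝ) * Real.log (N / ((p.1:ℝ) + 1)) ≤ ∑ s ∈ W (κ p), Real.log (r / |s|) := by
      intro p hp
      obtain ⟨h1, h2⟩ := hκr p hp
      rw [← hW3 _ h1 h2, ← nsmul_eq_mul, ← Finset.sum_const]
      refine Finset.sum_le_sum fun s hs => ?_
      have hsS : s ∈ S := by
        rw [hS, Finset.mem_biUnion]
        exact ⟨p, hp, hs⟩
      have hs0 : 0 < |s| := abs_pos.2 (hne0 s hsS)
      apply Real.log_le_log (by positivity)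
      rw [div_le_div_iff₀ (by positivity) hs0, hr]
      have := hsize p hp s hs
      nlinarith
    refine le_trans ?_ (Finset.sum_le_sum h1)
    rw [hJ, Finset.sum_product]
    simp only [Finset.sum_const, Finset.card_univ, Fintype.card_bool, nsmul_eq_mul]
    rw [← Finset.mul_sum, ← Finset.mul_sum]
    have h2 := mul_le_mul_of_nonneg_left (sum_log_div hN1) (by positivity : (0:ℝ) ≤ 2 * n₀)
    refine h2.trans (le_of_eq ?_)
    push_cast
    ring
  have hlg0 : -(1 / 3) ≤ Real.log ‖g 0‖ := by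
    have h1 := Real.one_sub_inv_le_log_of_pos (x := ‖g 0‖) (by linarith)
    have h2 : ‖g 0‖⁻¹ ≤ 4 / 3 := by
      rw [inv_le_comm₀ (by linarith) (by norm_num)]
      norm_num
      linarith
    linarith
  have hlC : Real.log (5 / 4) ≤ 1 / 4 := by
    have := Real.log_le_sub_one_of_pos (by norm_num : (0:ℝ) < 5 / 4)
    linarith
  have htype : (1 / 2 + ε / 8) * (2 * r / Real.pi) ≤ 2 * L * (1 + 3 * ε / 8) * N := by
    have h1 : (1 / 2 + ε / 8) * (2 * r / Real.pi) = (1 + ε / 4) * (P / Real.pi) * N := by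
      rw [hr]; field_simp; ring
    have h2 : P / Real.pi ≤ 2 * L * (1 + ε / 16) := by
      rw [div_le_iff₀ hpi, hP]
      nlinarith
    rw [h1]
    apply mul_le_mul_of_nonneg_right _ (by linarith)
    have h3 : (1 + ε / 4) * (P / Real.pi) ≤ (1 + ε / 4) * (2 * L * (1 + ε / 16)) :=
      mul_le_mul_of_nonneg_left h2 (by positivity)
    refine h3.trans ?_
    have h4 : (1 + ε / 4) * (1 + ε / 16) ≤ 1 + 3 * ε / 8 := by nlinarith
    nlinarith
  have hNn : 0 ≤ (N:ℝ) - 1 - Real.log N := by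
    have := Real.log_le_sub_one_of_pos (by linarith : (0:ℝ) < N)
    linarith
  have hfin : 2 * ((1 + ε) * L) * ((N:ℝ) - 1 - Real.log N) ≤ 2 * n₀ * ((N:ℝ) - 1 - Real.log N) := by
    apply mul_le_mul_of_nonneg_right _ hNn
    linarith
  nlinarith

end Pool.Agent.Helper156_SP
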