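import Mathlib

set_option autoImplicit false

/-!
# A lower bound for integrals of `log |h|` over real segments

For an entire function `h` with `|h 0| ≥ 1` and `|h| ≤ e^m` on a disc.
-/

open Complex Set MeasureTheory Metric Filter Topology

namespace Pool.Agent.Helper156_SP

/-- normalised logarithm on a ball -/
lemma log_ball {g : ℂ → ℂ} {R : ℝ} (hR : 0 < R) (hg : Differentiable ℂ g)
    (h0 : ∀ z ∈ ball (0:ℂ) R, g z ≠ 0) :
    ∃ L : ℂ → ℂ, DifferentiableOn ℂ L (ball 0 R) ∧ L 0 = 0 ∧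
      ∀ z ∈ ball (0:ℂ) R, g z = g 0 * Complex.exp (L z) := by
  have h00 : (0:ℂ) ∈ ball (0:ℂ) R := mem_ball_self hR
  have hf : DifferentiableOn ℂ g (ball 0 R) := hg.differentiableOn
  have hd : DifferentiableOn ℂ (deriv g) (ball 0 R) := hf.deriv isOpen_ball
  have hq : DifferentiableOn ℂ (fun z => deriv g z / g z) (ball 0 R) := hd.div hf h0
  obtain ⟨L, hL0, hL⟩ := hq.isExactOn_ball.with_val_at 0 0
  have hLd : DifferentiableOn ℂ L (ball 0 R) := fun z hz => (hL z hz).differentiableAt.differentiableWithinAt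
  refine ⟨L, hLd, hL0, ?_⟩
  have hF : ∀ z ∈ ball (0:ℂ) R, HasDerivAt (fun z => g z * Complex.exp (-L z)) 0 z := by
    intro z hz
    have h1 : HasDerivAt g (deriv g z) z := (hg z).hasDerivAt
    have h2 : HasDerivAt (fun z => Complex.exp (-L z)) (Complex.exp (-L z) * (-(deriv g z / g z))) z :=
      (hL z hz).neg.cexp
    have h3 := h1.mul h2
    refine h3.congr_deriv ?_
    have := h0 z hz
    field_simp
    ring
  have hconst : ∀ z ∈ ball (0:ℂ) R, g z * Complex.exp (-L z) = g 0 * Complex.exp (-L 0) := by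
    intro z hz
    refine IsOpen.is_const_of_deriv_eq_zero (f := fun z => g z * Complex.exp (-L z)) isOpen_ball
      (convex_ball (0:ℂ) R).isPreconnected ?_ ?_ hz h00
    · intro w hw
      exact (hF w hw).differentiableAt.differentiableWithinAt
    · intro w hw
      exact (hF w hw).deriv
  intro z hz
  have h1 := hconst z hz
  rw [hL0, neg_zero, Complex.exp_zero, mul_one, Complex.exp_neg] at h1
  have h2 : Complex.exp (L z) ≠ 0 := Complex.exp_ne_zero _
  field_simp at h1
  rw [h1, mul_comm]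

/-- lower bound for a function without zeros -/
lemma zerofree_low {g : ℂ → ℂ} {R m : ℝ} (hR : 0 < R) (hg : Differentiable ℂ g)
    (h0 : ∀ z : ℂ, ‖z‖ ≤ R → g z ≠ 0) (hb : ∀ z : ℂ, ‖z‖ ≤ R → ‖g z‖ ≤ Real.exp m) {z : ℂ} (hz : ‖z‖ ≤ R / 2) :
    Real.log ‖g 0‖ - 2 * (m - Real.log ‖g 0‖ + 1) ≤ Real.log ‖g z‖ := by
  obtain ⟨L, hLd, hL0, hL⟩ := log_ball hR hg (fun z hz => h0 z (by
    rw [mem_ball_zero_iff] at hz; exact hz.le))
  have hg0 : g 0 ≠ 0 := h0 0 (by rw [norm_zero]; exact hR.le)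
  have hre : ∀ w ∈ ball (0:ℂ) R, Real.log ‖g w‖ = Real.log ‖g 0‖ + (L w).re := by
    intro w hw
    rw [hL w hw, norm_mul, Complex.norm_exp, Real.log_mul (norm_ne_zero_iff.2 hg0) (Real.exp_pos _).ne',
      Real.log_exp]
  have hM : 0 < m - Real.log ‖g 0‖ + 1 := by
    have h1 := Real.log_le_log (norm_pos_iff.2 hg0) (hb 0 (by rw [norm_zero]; exact hR.le))
    rw [Real.log_exp] at h1
    linarith
  have hzR : z ∈ ball (0:ℂ) R := by rw [mem_ball_zero_iff]; linarith
  have hBC := Complex.borelCaratheodory_zero hM hLd (fun w hw => by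
    have h1 := hre w hw
    rw [mem_ball_zero_iff] at hw
    have h2 := Real.log_le_log (norm_pos_iff.2 (h0 w hw.le)) (hb w hw.le)
    rw [Real.log_exp] at h2
    show (L w).re ≤ _
    linarith) hR hzR hL0
  have h1 : 2 * (m - Real.log ‖g 0‖ + 1) * ‖z‖ / (R - ‖z‖) ≤ 2 * (m - Real.log ‖g 0‖ + 1) := by
    rw [div_le_iff₀ (by linarith)]
    apply mul_le_mul_of_nonneg_left _ (by linarith)
    linarith
  have h2 := Complex.abs_re_le_norm (L z)
  have h3 := neg_abs_le (L z).re
  rw [hre z hzR]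
  linarith

/-- maximum principle on a ball -/
lemma max_ball {g : ℂ → ℂ} {R B : ℝ} (hR : 0 < R) (hg : Differentiable ℂ g)
    (hb : ∀ z : ℂ, ‖z‖ = R → ‖g z‖ ≤ B) {z : ℂ} (hz : ‖z‖ ≤ R) : ‖g z‖ ≤ B := by
  apply Complex.norm_le_of_forall_mem_frontier_norm_le (U := ball (0:ℂ) R) isBounded_ball hg.diffContOnCl
  · intro w hw
    rw [frontier_ball _ hR.ne', mem_sphere_zero_iff_norm] at hw
    exact hb w hw
  · rw [closure_ball _ hR.ne', mem_closedBall_zero_iff]
    exact hz

/-- factorisation -/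
def Fact (h : ℂ → ℂ) (r : ℝ) (n : ℕ) (u : ℕ → ℂ) (g : ℂ → ℂ) : Prop :=
  Differentiable ℂ g ∧ (∀ i < n, ‖u i‖ ≤ r) ∧ ∀ w, h w = (∏ i ∈ Finset.range n, (w - u i)) * g w

lemma Fact.bound {h : ℂ → ℂ} {r m : ℝ} {n : ℕ} {u : ℕ → ℂ} {g : ℂ → ℂ} (hF : Fact h r n u g) (hr : 1 ≤ r)
    (hb : ∀ w : ℂ, ‖w‖ ≤ 3 * r → ‖h w‖ ≤ Real.exp m) {w : ℂ} (hw : ‖w‖ ≤ 3 * r) :
    ‖g w‖ ≤ Real.exp m / (2 * r) ^ n := by
  obtain ⟨hg, hu, hfac⟩ := hF
  refine max_ball (by linarith : 0 < 3 * r) hg (fun z hz => ?_) hw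
  have h1 : (2 * r) ^ n ≤ ∏ i ∈ Finset.range n, ‖z - u i‖ := by
    have : ∏ _i ∈ Finset.range n, (2 * r) = (2 * r) ^ n := by simp
    rw [← this]
    refine Finset.prod_le_prod (fun i _ => by linarith) fun i hi => ?_
    have h2 := hu i (Finset.mem_range.1 hi)
    have h3 := norm_sub_norm_le z (u i)
    linarith
  have h2 := hb z hz.le
  rw [hfac z, norm_mul, norm_prod] at h2
  have h3 : 0 < (2 * r) ^ n := by positivity
  rw [le_div_iff₀ h3]
  calc ‖g z‖ * (2 * r) ^ n ≤ ‖g z‖ * ∏ i ∈ Finset.range n, ‖z - u i‖ :=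
        mul_le_mul_of_nonneg_left h1 (norm_nonneg _)
    _ ≤ Real.exp m := by linarith

lemma Fact.low {h : ℂ → ℂ} {r : ℝ} {n : ℕ} {u : ℕ → ℂ} {g : ℂ → ℂ} (hF : Fact h r n u g) (hr : 1 ≤ r)
    (h0 : 1 ≤ ‖h 0‖) : 1 / r ^ n ≤ ‖g 0‖ := by
  obtain ⟨hg, hu, hfac⟩ := hF
  rw [hfac 0, norm_mul, norm_prod] at h0
  have h1 : ∏ i ∈ Finset.range n, ‖0 - u i‖ ≤ r ^ n := by
    have : ∏ _i ∈ Finset.range n, r = r ^ n := by simp
    rw [← this]
    refine Finset.prod_le_prod (fun i _ => norm_nonneg _) fun i hi => ?_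
    rw [zero_sub, norm_neg]
    exact hu i (Finset.mem_range.1 hi)
  have h3 : 0 < r ^ n := by positivity
  rw [div_le_iff₀ h3]
  calc (1:ℝ) ≤ (∏ i ∈ Finset.range n, ‖0 - u i‖) * ‖g 0‖ := h0
    _ ≤ r ^ n * ‖g 0‖ := mul_le_mul_of_nonneg_right h1 (norm_nonneg _)
    _ = _ := mul_comm _ _

lemma Fact.count {h : ℂ → ℂ} {r m : ℝ} {n : ℕ} {u : ℕ → ℂ} {g : ℂ → ℂ} (hF : Fact h r n u g) (hr : 1 ≤ r)
    (h0 : 1 ≤ ‖h 0‖) (hb : ∀ w : ℂ, ‖w‖ ≤ 3 * r → ‖h w‖ ≤ Real.exp m) : (n : ℝ) * Real.log 2 ≤ m := by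
  have h1 := hF.bound hr hb (w := 0) (by rw [norm_zero]; linarith)
  have h2 := hF.low hr h0
  have h3 := h2.trans h1
  have hr0 : 0 < r := by linarith
  rw [div_le_div_iff₀ (by positivity) (by positivity), mul_pow, one_mul] at h3
  have h4 : (2:ℝ) ^ n ≤ Real.exp m := le_of_mul_le_mul_right h3 (by positivity)
  have h5 := Real.log_le_log (by positivity) h4
  rwa [Real.log_exp, Real.log_pow] at h5

/-- removing all zeros of a disc -/
theorem factor {h : ℂ → ℂ} (hh : Differentiable ℂ h) {r m : ℝ} (hr : 1 ≤ r)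
    (h0 : 1 ≤ ‖h 0‖) (hb : ∀ w : ℂ, ‖w‖ ≤ 3 * r → ‖h w‖ ≤ Real.exp m) :
    ∃ (n : ℕ) (u : ℕ → ℂ) (g : ℂ → ℂ), Fact h r n u g ∧ ∀ w : ℂ, ‖w‖ ≤ r → g w ≠ 0 := by
  by_contra hcon
  push Not at hcon
  have hall : ∀ n : ℕ, ∃ (u : ℕ → ℂ) (g : ℂ → ℂ), Fact h r n u g := by
    intro n
    induction n with
    | zero => exact ⟨fun _ => 0, h, hh, fun i hi => absurd hi (Nat.not_lt_zero i), fun w => by simp⟩
    | succ n ih =>
      obtain ⟨u, g, hF⟩ := ih
      obtain ⟨w₀, hw₀, hgw⟩ := hcon n u g hF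
      obtain ⟨hg, hu, hfac⟩ := hF
      refine ⟨Function.update u n w₀, dslope g w₀, ?_, ?_, ?_⟩
      · have : DifferentiableOn ℂ (dslope g w₀) univ :=
          (Complex.differentiableOn_dslope Filter.univ_mem).2 hg.differentiableOn
        exact differentiableOn_univ.1 this
      · intro i hi
        rcases Nat.lt_succ_iff_lt_or_eq.1 hi with h1 | h1
        · rw [Function.update_of_ne (by omega)]
          exact hu i h1
        · rw [h1, Function.update_self]
          exact hw₀
      · intro w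
        have h1 : g w = (w - w₀) * dslope g w₀ w := by
          have := sub_smul_dslope g w₀ w
          rw [hgw, sub_zero, smul_eq_mul] at this
          exact this.symm
        rw [hfac w, h1, Finset.prod_range_succ, Function.update_self]
        have h2 : ∏ i ∈ Finset.range n, (w - Function.update u n w₀ i) = ∏ i ∈ Finset.range n, (w - u i) := by
          refine Finset.prod_congr rfl fun i hi => ?_
          rw [Function.update_of_ne (by have := Finset.mem_range.1 hi; omega)]
        rw [h2]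
        ring
  obtain ⟨n, hn⟩ := exists_nat_gt (m / Real.log 2)
  obtain ⟨u, g, hF⟩ := hall n
  have h1 := hF.count hr h0 hb
  rw [div_lt_iff₀ (Real.log_pos (by norm_num))] at hn
  linarith

lemma phi_nonneg (y : ℝ) : 0 ≤ (y + 1) * Real.log (y + 1) - (y - 1) * Real.log (y - 1) := by
  -- reduce to `y ≥ 0`
  have key : ∀ y : ℝ, 0 ≤ y → 0 ≤ (y + 1) * Real.log (y + 1) - (y - 1) * Real.log (y - 1) := by
    intro y hy
    rcases lt_trichotomy y 1 with h | h | h
    · have h1 := Real.one_sub_inv_le_log_of_pos (x := y + 1) (by linarith)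
      have h2 := Real.one_sub_inv_le_log_of_pos (x := 1 - y) (by linarith)
      have e : Real.log (y - 1) = Real.log (1 - y) := by
        rw [← Real.log_neg_eq_log, neg_sub]
      rw [e]
      have h3 : y ≤ (y + 1) * Real.log (y + 1) := by
        have h4 := mul_le_mul_of_nonneg_left h1 (by linarith : 0 ≤ y + 1)
        have h5 : (y + 1) * (1 - (y + 1)⁻¹) = y := by
          have : y + 1 ≠ 0 := by linarith
          field_simp
          ring
        linarith
      have h4 : -y ≤ (1 - y) * Real.log (1 - y) := by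
        have h4 := mul_le_mul_of_nonneg_left h2 (by linarith : 0 ≤ 1 - y)
        have h5 : (1 - y) * (1 - (1 - y)⁻¹) = -y := by
          have : 1 - y ≠ 0 := by linarith
          field_simp
          ring
        linarith
      nlinarith
    · subst h
      simp
      exact Real.log_nonneg (by norm_num)
    · have h1 : Real.log (y - 1) ≤ Real.log (y + 1) := Real.log_le_log (by linarith) (by linarith)
      have h2 : 0 ≤ Real.log (y + 1) := Real.log_nonneg (by linarith)
      nlinarith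
  rcases le_total 0 y with h | h
  · exact key y h
  · have h1 := key (-y) (by linarith)
    have e1 : Real.log (-y + 1) = Real.log (y - 1) := by
      rw [← Real.log_neg_eq_log]; congr 1; ring
    have e2 : Real.log (-y - 1) = Real.log (y + 1) := by
      rw [← Real.log_neg_eq_log]; congr 1; ring
    rw [e1, e2] at h1
    linarith

lemma seg_log (v a : ℝ) : -2 ≤ ∫ x in (v - 1)..(v + 1), Real.log (x - a) := by
  rw [intervalIntegral.integral_comp_sub_right (fun x => Real.log x), integral_log]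
  have h := phi_nonneg (v - a)
  have e1 : v + 1 - a = v - a + 1 := by ring
  have e2 : v - 1 - a = v - a - 1 := by ring
  rw [e1, e2]
  linarith

lemma seg_log_int (v a : ℝ) : IntervalIntegrable (fun x : ℝ => Real.log (x - a)) volume (v - 1) (v + 1) := by
  have h : IntervalIntegrable Real.log volume (v - 1 - a) (v + 1 - a) := intervalIntegral.intervalIntegrable_log'
  have := h.comp_sub_right a
  simpa using this

/-- the constant -/
noncomputable def CL (m r : ℝ) : ℝ := 4 * m + 2 * (6 * m * Real.log r + 2 * m + 2)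

/-- **lower bound for the integral of the logarithm** -/
theorem log_int {h : ℂ → ℂ} (hh : Differentiable ℂ h) {r m : ℝ} (hr : 1 ≤ r) (hm : 0 ≤ m)
    (h0 : 1 ≤ ‖h 0‖) (hb : ∀ w : ℂ, ‖w‖ ≤ 3 * r → ‖h w‖ ≤ Real.exp m) :
    (∃ Z : Finset ℂ, ∀ w : ℂ, ‖w‖ ≤ r → h w = 0 → w ∈ Z) ∧
    ∀ v : ℝ, |v| + 1 ≤ r / 2 → IntervalIntegrable (fun x : ℝ => Real.log ‖h x‖) volume (v - 1) (v + 1) ∧
      -CL m r ≤ ∫ x in (v - 1)..(v + 1), Real.log ‖h x‖ := by
  classical
  obtain ⟨n, u, g, hF, hg0⟩ := factor hh hr h0 hb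
  have hr0 : 0 < r := by linarith
  have hn := hF.count hr h0 hb
  have hlow := hF.low hr h0
  have hgd := hF.1
  have hfac := hF.2.2
  have hgb : ∀ z : ℂ, ‖z‖ ≤ r → ‖g z‖ ≤ Real.exp m := by
    intro z hz
    refine (hF.bound hr hb (by linarith : ‖z‖ ≤ 3 * r)).trans (div_le_self (Real.exp_pos m).le ?_)
    exact one_le_pow₀ (by linarith)
  have hn2 : (n : ℝ) ≤ 2 * m := by
    have h1 : (1:ℝ) / 2 ≤ Real.log 2 := by
      have := Real.log_two_gt_d9; linarith
    have h2 : (n:ℝ) * (1 / 2) ≤ n * Real.log 2 := mul_le_mul_of_nonneg_left h1 (by positivity)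
    linarith
  have hlr : 0 ≤ Real.log r := Real.log_nonneg hr
  have hlg0 : -(n * Real.log r) ≤ Real.log ‖g 0‖ := by
    have h1 := Real.log_le_log (by positivity) hlow
    rw [one_div, Real.log_inv, Real.log_pow] at h1
    exact h1
  have hglow : ∀ z : ℂ, ‖z‖ ≤ r / 2 → -(6 * m * Real.log r + 2 * m + 2) ≤ Real.log ‖g z‖ := by
    intro z hz
    have h1 := zerofree_low hr0 hgd hg0 hgb hz
    have h2 : (n:ℝ) * Real.log r ≤ 2 * m * Real.log r := mul_le_mul_of_nonneg_right hn2 hlr
    linarith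
  constructor
  · refine ⟨(Finset.range n).image u, fun w hw hw0 => ?_⟩
    rw [hfac w] at hw0
    rcases mul_eq_zero.1 hw0 with h1 | h1
    · rw [Finset.prod_eq_zero_iff] at h1
      obtain ⟨i, hi, h2⟩ := h1
      rw [Finset.mem_image]
      exact ⟨i, hi, (sub_eq_zero.1 h2).symm⟩
    · exact absurd h1 (hg0 w hw)
  · intro v hv
    have hint : IntervalIntegrable (fun x : ℝ => Real.log ‖h x‖) volume (v - 1) (v + 1) := by
      have : MeromorphicOn (fun x : ℝ => h x) (uIcc (v - 1) (v + 1)) := by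
        intro x _
        have h1 : AnalyticAt ℝ (fun x : ℝ => h x) x :=
          ((hh.analyticAt (x:ℂ)).restrictScalars (𝕜 := ℝ)).comp (Complex.ofRealCLM.analyticAt x)
        exact h1.meromorphicAt
      exact this.intervalIntegrable_log_norm
    refine ⟨hint, ?_⟩
    set κ : ℝ := -(6 * m * Real.log r + 2 * m + 2) with hκ
    have hIs : IntervalIntegrable (fun x : ℝ => ∑ i ∈ Finset.range n, Real.log (x - (u i).re)) volume
        (v - 1) (v + 1) := by
      have := IntervalIntegrable.sum (μ := volume) (a := v - 1) (b := v + 1) (Finset.range n)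
        (f := fun i (x : ℝ) => Real.log (x - (u i).re)) fun i _ => seg_log_int v _
      have e : (∑ i ∈ Finset.range n, fun x : ℝ => Real.log (x - (u i).re)) =
          fun x : ℝ => ∑ i ∈ Finset.range n, Real.log (x - (u i).re) := by
        funext x
        simp
      rwa [e] at this
    have hmono : ∫ x in (v - 1)..(v + 1), ((∑ i ∈ Finset.range n, Real.log (x - (u i).re)) + κ) ≤
        ∫ x in (v - 1)..(v + 1), Real.log ‖h x‖ := by
      have hI1 : IntervalIntegrable (fun x : ℝ => (∑ i ∈ Finset.range n, Real.log (x - (u i).re)) + κ) volume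
          (v - 1) (v + 1) := by
        exact hIs.add (by simp)
      rw [intervalIntegral.integral_of_le (by linarith), intervalIntegral.integral_of_le (by linarith)]
      apply MeasureTheory.integral_mono_ae hI1.1 hint.1
      have hfin : ({x : ℝ | ∃ i < n, x = (u i).re} : Set ℝ).Finite := by
        have : ({x : ℝ | ∃ i < n, x = (u i).re} : Set ℝ) ⊆ ((Finset.range n).image fun i => (u i).re : Finset ℝ) := by
          rintro x ⟨i, hi, rfl⟩
          rw [Finset.coe_image]
          exact ⟨i, Finset.mem_coe.2 (Finset.mem_range.2 hi), rfl⟩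
        exact (Finset.finite_toSet _).subset this
      have hae : ∀ᵐ x ∂(volume.restrict (Ioc (v - 1) (v + 1))), x ∉ ({x : ℝ | ∃ i < n, x = (u i).re} : Set ℝ) :=
        ae_restrict_of_ae (hfin.countable.ae_notMem volume)
      filter_upwards [hae, ae_restrict_mem measurableSet_Ioc] with x hx hxI
      have hxr : ‖(x:ℂ)‖ ≤ r / 2 := by
        rw [Complex.norm_real, Real.norm_eq_abs]
        refine le_trans ?_ hv
        have h1 : |x - v| ≤ 1 := abs_le.2 ⟨by linarith [hxI.1], by linarith [hxI.2]⟩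
        have h2 := abs_add_le (x - v) v
        rw [sub_add_cancel] at h2
        linarith
      have hne : ∀ i ∈ Finset.range n, (x:ℂ) - u i ≠ 0 := by
        intro i hi h1
        apply hx
        refine ⟨i, Finset.mem_range.1 hi, ?_⟩
        have := congrArg Complex.re h1
        simp at this
        linarith
      have hgx : g x ≠ 0 := hg0 x (by linarith)
      show (∑ i ∈ Finset.range n, Real.log (x - (u i).re)) + κ ≤ Real.log ‖h x‖
      rw [hfac x, norm_mul, norm_prod, Real.log_mul (Finset.prod_ne_zero_iff.2 fun i hi => norm_ne_zero_iff.2 (hne i hi))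
        (norm_ne_zero_iff.2 hgx), Real.log_prod fun i hi => norm_ne_zero_iff.2 (hne i hi)]
      apply add_le_add
      · refine Finset.sum_le_sum fun i hi => ?_
        have hxi : x - (u i).re ≠ 0 := by
          intro h1
          exact hx ⟨i, Finset.mem_range.1 hi, by linarith⟩
        rw [← Real.log_abs]
        apply Real.log_le_log (abs_pos.2 hxi)
        have := Complex.abs_re_le_norm ((x:ℂ) - u i)
        simpa using this
      · exact hglow x hxr
    refine le_trans ?_ hmono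
    rw [intervalIntegral.integral_add hIs (by simp),
      intervalIntegral.integral_finsetSum fun i _ => seg_log_int v _]
    have h1 : ∑ i ∈ Finset.range n, (-2:ℝ) ≤ ∑ i ∈ Finset.range n, ∫ x in (v - 1)..(v + 1), Real.log (x - (u i).re) :=
      Finset.sum_le_sum fun i _ => seg_log v _
    rw [Finset.sum_const, Finset.card_range, nsmul_eq_mul] at h1
    have h2 : ∫ _x in (v - 1)..(v + 1), κ = 2 * κ := by
      rw [intervalIntegral.integral_const, smul_eq_mul]; ring
    rw [h2]
    have h3 : CL m r = 4 * m - 2 * κ := by unfold CL; rw [hκ]; ring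
    rw [h3]
    linarith

end Pool.Agent.Helper156_SP
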