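import Mathlib
import Pool.Agent.W181.Mom.App4
import Pool.Agent.TH158.FM.Main
import Pool.Agent.H388LH.ZG

set_option autoImplicit false

/-!
# Simple bounds for the moments of zeta, of every positive order
-/

open Complex Set MeasureTheory Filter Topology

namespace Pool.Agent.Helper156_SP

/-- `|ζ(1/2 + it)|` -/
noncomputable def az (t : ℝ) : ℝ := ‖riemannZeta (1 / 2 + t * I)‖

lemma az_nonneg (t : ℝ) : 0 ≤ az t := norm_nonneg _

lemma az_cont : Continuous az := by
  unfold az
  apply Continuous.norm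
  rw [continuous_iff_continuousAt]
  intro t
  have hne : (1 / 2 + (t : ℂ) * I) ≠ 1 := by
    intro h
    have := congrArg Complex.re h
    simp at this
  exact ContinuousAt.comp (f := fun t : ℝ => (1 / 2 + (t : ℂ) * I)) (g := riemannZeta)
    (differentiableAt_riemannZeta hne).continuousAt (by fun_prop)

lemma azp_cont {p : ℝ} (hp : 0 < p) : Continuous fun t => az t ^ p :=
  az_cont.rpow_const fun _ => Or.inr hp.le

lemma azp_int {p : ℝ} (hp : 0 < p) (a b : ℝ) : IntervalIntegrable (fun t => az t ^ p) volume a b :=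
  (azp_cont hp).intervalIntegrable _ _

lemma az_le (t : ℝ) : az t ≤ 9 * (1 + |t|) := by
  have h := Pool.Agent.H388LH.zeta_growth' (s := 1 / 2 + t * I) (by simp; norm_num) (by simp; norm_num)
  have e : (1 / 2 + (t : ℂ) * I).im = t := by simp
  rw [e] at h
  exact h

lemma ker_int {l : ℝ} (hl : 0 < l) (s : ℝ) {a b : ℝ} (hab : a ≤ b) :
    ∫ t in a..b, ((1 + l * |t - s|) ^ 2)⁻¹ ≤ Real.pi / l := by
  have h1 : ∫ t in a..b, ((1 + l * |t - s|) ^ 2)⁻¹ ≤ ∫ t in a..b, (fun x : ℝ => (1 + x ^ 2)⁻¹) (l * t - l * s) := by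
    apply intervalIntegral.integral_mono_on hab
    · apply Continuous.intervalIntegrable
      apply Continuous.inv₀ (by fun_prop)
      intro t
      positivity
    · apply Continuous.intervalIntegrable
      apply Continuous.inv₀ (by fun_prop)
      intro t
      positivity
    · intro t _
      apply inv_anti₀ (by positivity)
      have h2 : (l * t - l * s) ^ 2 = l ^ 2 * |t - s| ^ 2 := by rw [sq_abs]; ring
      rw [h2]
      have h3 : 0 ≤ l * |t - s| := by positivity
      nlinarith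
  refine h1.trans ?_
  rw [intervalIntegral.integral_comp_mul_sub (fun x : ℝ => (1 + x ^ 2)⁻¹) hl.ne', smul_eq_mul, inv_mul_eq_div]
  apply div_le_div_of_nonneg_right _ hl.le
  rw [integral_inv_one_add_sq]
  have h3 := Real.arctan_lt_pi_div_two (l * b - l * s)
  have h4 := Real.neg_pi_div_two_lt_arctan (l * a - l * s)
  linarith

lemma int_small {p : ℝ} (hp : 0 < p) {a : ℝ} (ha : 1 ≤ a) :
    ∫ t in (0:ℝ)..a, az t ^ p ≤ 18 ^ p * a ^ (p + 1) := by
  have h1 : ∫ t in (0:ℝ)..a, az t ^ p ≤ ∫ _t in (0:ℝ)..a, (18 * a) ^ p := by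
    apply intervalIntegral.integral_mono_on (by linarith) (azp_int hp _ _) (by simp)
    intro t ht
    apply Real.rpow_le_rpow (az_nonneg t) _ hp.le
    refine (az_le t).trans ?_
    rw [abs_of_nonneg ht.1]
    linarith [ht.2]
  refine h1.trans (le_of_eq ?_)
  rw [intervalIntegral.integral_const, smul_eq_mul, sub_zero, Real.mul_rpow (by norm_num) (by linarith),
    Real.rpow_add_one (by linarith)]
  ring

/-- second moment: lower bound -/
lemma two_low (C : ℝ) : ∀ᶠ T : ℝ in atTop, C * T ≤ ∫ t in (0:ℝ)..T, az t ^ (2:ℝ) := by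
  obtain ⟨c0, K0, hc0, hK01, hu⟩ := Pool.Agent.W181.Mom.uniform_real 1 one_pos (by
    rw [lt_div_iff₀ (Real.exp_pos 1)]
    have := Real.exp_one_lt_d9
    linarith)
  obtain ⟨B, hB, hev⟩ := hu 1 le_rfl c0 (Or.inl le_rfl)
  set c : ℝ := Pool.Agent.H306R2.aF 1 * (c0 * (1 ^ ((1:ℝ) ^ 2) / Real.Gamma ((1:ℝ) ^ 2 + 1))) with hc
  have hc1 : 0 < c := by
    have h1 : 0 < Pool.Agent.H306R2.aF 1 := Pool.Agent.H306R2.aF_pos one_pos
    have h2 : 0 < Real.Gamma ((1:ℝ) ^ 2 + 1) := Real.Gamma_pos_of_pos (by positivity)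
    positivity
  have h2 : Tendsto (fun T : ℝ => T / 2) atTop atTop := tendsto_id.atTop_div_const (by norm_num)
  have h3 : ∀ᶠ T : ℝ in atTop, Real.log T ^ B ≤ T := by
    have := (isLittleO_log_rpow_rpow_atTop B (by norm_num : (0 : ℝ) < 1)).bound one_pos
    filter_upwards [this, eventually_ge_atTop 1] with T hT hT1
    rw [Real.rpow_one, one_mul, Real.norm_eq_abs, Real.norm_eq_abs, abs_of_nonneg (by linarith : 0 ≤ T)] at hT
    exact (le_abs_self _).trans hT
  have h4 : ∀ᶠ T : ℝ in atTop, 2 * |C| / c ≤ Real.log T := Real.tendsto_log_atTop.eventually_ge_atTop _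
  filter_upwards [h2.eventually hev, h2.eventually h3, h2.eventually h4, eventually_ge_atTop 2] with T h5 h6 h7 hT
  have h8 := h5 (T / 2) h6
  rw [add_halves] at h8
  have e1 : ((1:ℝ) ^ 2) = 1 := by norm_num
  have h9 : |C| * T ≤ ∫ t in (T / 2)..T, az t ^ (2:ℝ) := by
    have h10 : ∫ t in (T / 2)..T, az t ^ (2:ℝ) = ∫ t in (T / 2)..T, ‖riemannZeta (1 / 2 + t * Complex.I)‖ ^ (2 * (1:ℝ)) := by
      rw [mul_one]; rfl
    rw [h10]
    refine le_trans ?_ h8
    rw [e1, Real.rpow_one]
    rw [div_le_iff₀ hc1] at h7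
    nlinarith
  have h11 : ∫ t in (T / 2)..T, az t ^ (2:ℝ) ≤ ∫ t in (0:ℝ)..T, az t ^ (2:ℝ) := by
    rw [← intervalIntegral.integral_add_adjacent_intervals (azp_int (by norm_num : (0:ℝ) < 2) 0 (T / 2))
      (azp_int (by norm_num : (0:ℝ) < 2) (T / 2) T)]
    have : 0 ≤ ∫ t in (0:ℝ)..(T / 2), az t ^ (2:ℝ) :=
      intervalIntegral.integral_nonneg (by linarith) fun t _ => Real.rpow_nonneg (az_nonneg t) _
    linarith
  have h12 : C * T ≤ |C| * T := mul_le_mul_of_nonneg_right (le_abs_self C) (by linarith)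
  linarith

/-- **lower bound for the moments of every positive order** -/
theorem mom_low {p η : ℝ} (hp : 0 < p) (hη : 0 < η) (C : ℝ) :
    ∀ᶠ T : ℝ in atTop, C * T ^ (1 - η) ≤ ∫ t in (0:ℝ)..T, az t ^ p := by
  have hη' : Tendsto (fun T : ℝ => T ^ (-η)) atTop (𝓝 0) := tendsto_rpow_neg_atTop hη
  rcases le_or_gt 2 p with h2 | h2
  · filter_upwards [two_low (|C| + 1), eventually_ge_atTop 1] with T h3 hT
    have h4 : ∫ t in (0:ℝ)..T, az t ^ (2:ℝ) ≤ (∫ t in (0:ℝ)..T, az t ^ p) + T := by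
      have h5 : (∫ t in (0:ℝ)..T, az t ^ p) + T = ∫ t in (0:ℝ)..T, (az t ^ p + 1) := by
        rw [intervalIntegral.integral_add (azp_int hp _ _) (by simp)]
        simp
      rw [h5]
      apply intervalIntegral.integral_mono_on (by linarith) (azp_int (by norm_num) _ _)
        ((azp_int hp _ _).add (by simp))
      intro t _
      rcases le_or_gt (az t) 1 with h6 | h6
      · have h7 : az t ^ (2:ℝ) ≤ 1 := Real.rpow_le_one (az_nonneg t) h6 (by norm_num)
        have h8 : 0 ≤ az t ^ p := Real.rpow_nonneg (az_nonneg t) _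
        linarith
      · have := Real.rpow_le_rpow_of_exponent_le h6.le h2
        linarith
    have h6 : T ^ (1 - η) ≤ T := by
      calc T ^ (1 - η) ≤ T ^ (1:ℝ) := Real.rpow_le_rpow_of_exponent_le hT (by linarith)
        _ = T := Real.rpow_one T
    have h7 : C * T ^ (1 - η) ≤ |C| * T := by
      have h8 : C * T ^ (1 - η) ≤ |C| * T ^ (1 - η) :=
        mul_le_mul_of_nonneg_right (le_abs_self C) (by positivity)
      have h9 : |C| * T ^ (1 - η) ≤ |C| * T := mul_le_mul_of_nonneg_left h6 (abs_nonneg C)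
      linarith
    linarith
  · have hlog : ∀ᶠ T : ℝ in atTop, (|C| + 1) * Real.log T ^ (2 * (2 - p)) ≤ T ^ η := by
      have := (isLittleO_log_rpow_rpow_atTop (2 * (2 - p)) hη).bound (show 0 < 1 / (|C| + 1) by positivity)
      filter_upwards [this, eventually_ge_atTop 1] with T hT hT1
      rw [Real.norm_eq_abs, Real.norm_eq_abs, abs_of_nonneg (by positivity : 0 ≤ T ^ η)] at hT
      have h3 := (le_abs_self _).trans hT
      have h4 := mul_le_mul_of_nonneg_left h3 (by positivity : 0 ≤ |C| + 1)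
      refine h4.trans (le_of_eq ?_)
      field_simp
    filter_upwards [two_low 2, eventually_ge_atTop 1000, hlog] with T h3 hT h4
    have hL : 1 ≤ Real.log T := by
      have h5 : Real.log (Real.exp 1) ≤ Real.log T := by
        apply Real.log_le_log (Real.exp_pos _)
        have := Real.exp_one_lt_d9
        linarith
      rwa [Real.log_exp] at h5
    have hL0 : 0 < Real.log T := by linarith
    have hfour := Pool.Agent.TH158.FM.fourth_all T hT
    have e4 : ∫ t in (0:ℝ)..T, ‖riemannZeta (Pool.Agent.TH158.FM.pt (1 / 2) t)‖ ^ 4 =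
        ∫ t in (0:ℝ)..T, az t ^ (4:ℝ) := by
      refine intervalIntegral.integral_congr fun t _ => ?_
      have e5 : Pool.Agent.TH158.FM.pt (1 / 2) t = 1 / 2 + t * I := by
        unfold Pool.Agent.TH158.FM.pt
        push_cast
        ring
      simp only [e5]
      unfold az
      rw [← Real.rpow_natCast]
      norm_num
    rw [e4] at hfour
    set A : ℝ := Real.log T ^ (2:ℝ) with hA
    have hA0 : 0 < A := by positivity
    have hpt : ∫ t in (0:ℝ)..T, az t ^ (2:ℝ) ≤ ∫ t in (0:ℝ)..T, (A ^ (2 - p) * az t ^ p + A ^ (-2:ℝ) * az t ^ (4:ℝ)) := by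
      apply intervalIntegral.integral_mono_on (by linarith) (azp_int (by norm_num) _ _)
        (((azp_int hp _ _).const_mul _).add ((azp_int (by norm_num) _ _).const_mul _))
      intro t _
      have h0 := az_nonneg t
      rcases le_or_gt (az t) A with h6 | h6
      · have h7 : az t ^ (2:ℝ) = az t ^ (2 - p) * az t ^ p := by
          rw [← Real.rpow_add_of_nonneg h0 (by linarith) hp.le]
          congr 1; ring
        rw [h7]
        have h8 : az t ^ (2 - p) ≤ A ^ (2 - p) := Real.rpow_le_rpow h0 h6 (by linarith)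
        have h9 : 0 ≤ az t ^ p := Real.rpow_nonneg h0 _
        have h10 : 0 ≤ A ^ (-2:ℝ) * az t ^ (4:ℝ) := by positivity
        nlinarith
      · have h7 : 0 < az t := hA0.trans h6
        have h8 : az t ^ (2:ℝ) = az t ^ (-2:ℝ) * az t ^ (4:ℝ) := by
          rw [← Real.rpow_add h7]; norm_num
        rw [h8]
        have h9 : az t ^ (-2:ℝ) ≤ A ^ (-2:ℝ) := Real.rpow_le_rpow_of_nonpos hA0 h6.le (by norm_num)
        have h10 : 0 ≤ az t ^ (4:ℝ) := by positivity
        have h11 : 0 ≤ A ^ (2 - p) * az t ^ p := by positivity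
        nlinarith
    rw [intervalIntegral.integral_add ((azp_int hp _ _).const_mul _) ((azp_int (by norm_num) _ _).const_mul _),
      intervalIntegral.integral_const_mul, intervalIntegral.integral_const_mul] at hpt
    have hA2 : A ^ (-2:ℝ) * (∫ t in (0:ℝ)..T, az t ^ (4:ℝ)) ≤ 4 / 5 * T := by
      have h6 : A ^ (-2:ℝ) * Real.log T ^ 4 = 1 := by
        rw [hA, ← Real.rpow_mul hL0.le, ← Real.rpow_natCast (Real.log T) 4, ← Real.rpow_add hL0]
        norm_num
      calc A ^ (-2:ℝ) * (∫ t in (0:ℝ)..T, az t ^ (4:ℝ)) ≤ A ^ (-2:ℝ) * (4 / 5 * (T * Real.log T ^ 4)) :=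
            mul_le_mul_of_nonneg_left hfour (by positivity)
        _ = 4 / 5 * T * (A ^ (-2:ℝ) * Real.log T ^ 4) := by ring
        _ = 4 / 5 * T := by rw [h6, mul_one]
    have h7 : T ≤ A ^ (2 - p) * ∫ t in (0:ℝ)..T, az t ^ p := by linarith
    have hA3 : A ^ (2 - p) = Real.log T ^ (2 * (2 - p)) := by
      rw [hA, ← Real.rpow_mul hL0.le]
    rw [hA3] at h7
    have hX : 0 < Real.log T ^ (2 * (2 - p)) := by positivity
    have hT0 : 0 < T := by linarith
    -- C T^(1-η) X ≤ T
    have h8 : (C * T ^ (1 - η)) * Real.log T ^ (2 * (2 - p)) ≤ T := by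
      have h9 : T ^ (1 - η) * T ^ η = T := by
        rw [← Real.rpow_add hT0]; simp
      have h10 : C * Real.log T ^ (2 * (2 - p)) ≤ T ^ η := by
        have h11 : C * Real.log T ^ (2 * (2 - p)) ≤ (|C| + 1) * Real.log T ^ (2 * (2 - p)) :=
          mul_le_mul_of_nonneg_right (by linarith [le_abs_self C]) hX.le
        linarith
      calc (C * T ^ (1 - η)) * Real.log T ^ (2 * (2 - p)) = T ^ (1 - η) * (C * Real.log T ^ (2 * (2 - p))) := by ring
        _ ≤ T ^ (1 - η) * T ^ η := mul_le_mul_of_nonneg_left h10 (by positivity)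
        _ = T := h9
    have h9 : (C * T ^ (1 - η)) * Real.log T ^ (2 * (2 - p)) ≤
        (∫ t in (0:ℝ)..T, az t ^ p) * Real.log T ^ (2 * (2 - p)) := by linarith
    exact le_of_mul_le_mul_right h9 hX

end Pool.Agent.Helper156_SP
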