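import Mathlib

set_option autoImplicit false

/-!
# The kernel `(sin w / w)^m`
-/

open Complex MeasureTheory Set

namespace Pool.Agent.Helper156_SP

/-- `sin w / w` -/
noncomputable def D (w : ℂ) : ℂ := dslope Complex.sin 0 w

lemma D_diff : Differentiable ℂ D := by
  have h : DifferentiableOn ℂ (dslope Complex.sin 0) univ :=
    (Complex.differentiableOn_dslope Filter.univ_mem).2 Complex.differentiable_sin.differentiableOn
  exact differentiableOn_univ.1 h

lemma D_zero : D 0 = 1 := by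
  unfold D
  rw [dslope_same, Complex.deriv_sin, Complex.cos_zero]

lemma D_ne {w : ℂ} (hw : w ≠ 0) : D w = Complex.sin w / w := by
  unfold D
  rw [dslope_of_ne _ hw, slope_def_field]
  simp

lemma D_int {w : ℂ} (hw : w ≠ 0) : D w = ∫ t in (0:ℝ)..1, Complex.cos (w * t) := by
  rw [D_ne hw, integral_cos_mul_complex hw]
  simp

lemma cos_le (w : ℂ) : ‖Complex.cos w‖ ≤ Real.exp |w.im| := by
  rw [Complex.cos, norm_div]
  have h1 : ‖Complex.exp (w * I) + Complex.exp (-w * I)‖ ≤
      ‖Complex.exp (w * I)‖ + ‖Complex.exp (-w * I)‖ := norm_add_le _ _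
  rw [Complex.norm_exp, Complex.norm_exp] at h1
  have e1 : (-w * I).re = w.im := by simp
  have e2 : (w * I).re = -w.im := by simp
  rw [e1, e2] at h1
  have h2 : Real.exp w.im ≤ Real.exp |w.im| := Real.exp_le_exp.2 (le_abs_self _)
  have h3 : Real.exp (-w.im) ≤ Real.exp |w.im| := Real.exp_le_exp.2 (neg_le_abs _)
  have h4 : ‖(2 : ℂ)‖ = 2 := by simp
  rw [h4]
  linarith

lemma D_le (w : ℂ) : ‖D w‖ ≤ Real.exp |w.im| := by
  rcases eq_or_ne w 0 with rfl | hw
  · rw [D_zero]; simp
  · rw [D_int hw]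
    have h := intervalIntegral.norm_integral_le_of_norm_le_const (C := Real.exp |w.im|) (a := 0) (b := 1)
      (f := fun t : ℝ => Complex.cos (w * t)) (fun t ht => by
        rw [uIoc_of_le (by norm_num : (0:ℝ) ≤ 1)] at ht
        refine (cos_le _).trans (Real.exp_le_exp.2 ?_)
        rw [Complex.im_mul_ofReal, abs_mul, abs_of_pos ht.1]
        have := abs_nonneg w.im
        nlinarith [ht.2])
    simpa using h

lemma D_real (y : ℝ) : (1 + |y|) * ‖D y‖ ≤ 2 := by
  have h1 : ‖D y‖ ≤ 1 := by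
    have := D_le (y : ℂ)
    simpa using this
  have h2 : |y| * ‖D y‖ ≤ 1 := by
    rcases eq_or_ne y 0 with rfl | hy
    · simp
    · have hyc : (y : ℂ) ≠ 0 := by exact_mod_cast hy
      rw [D_ne hyc, norm_div, Complex.norm_real, Real.norm_eq_abs, ← Complex.ofReal_sin,
        Complex.norm_real, Real.norm_eq_abs, mul_div_cancel₀ _ (abs_ne_zero.2 hy)]
      exact Real.abs_sin_le_one y
  linarith

lemma D_near {w : ℂ} (hw : ‖w‖ ≤ 1 / 4) : 1 / 2 ≤ ‖D w‖ := by
  rcases eq_or_ne w 0 with rfl | hw0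
  · rw [D_zero]; simp; norm_num
  · have h1 : ‖D w - 1‖ ≤ 1 / 2 := by
      have e : D w - 1 = ∫ t in (0:ℝ)..1, (Complex.cos (w * t) - 1) := by
        rw [intervalIntegral.integral_sub (Continuous.intervalIntegrable (by fun_prop) _ _)
          (Continuous.intervalIntegrable (by fun_prop) _ _), ← D_int hw0]
        simp
      rw [e]
      have h := intervalIntegral.norm_integral_le_of_norm_le_const (C := 1 / 2) (a := 0) (b := 1)
        (f := fun t : ℝ => Complex.cos (w * t) - 1) (fun t ht => by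
          rw [uIoc_of_le (by norm_num : (0:ℝ) ≤ 1)] at ht
          have ht0 := ht.1.le
          have hn : ‖w * t‖ ≤ 1 / 4 := by
            rw [norm_mul, Complex.norm_real, Real.norm_eq_abs, abs_of_nonneg ht0]
            nlinarith [ht.2, norm_nonneg w]
          have e2 : Complex.cos (w * t) - 1 =
              ((Complex.exp (w * t * I) - 1) + (Complex.exp (-(w * t) * I) - 1)) / 2 := by
            rw [Complex.cos]; ring
          rw [e2, norm_div]
          have h3 : ‖Complex.exp (w * t * I) - 1‖ ≤ 2 * ‖w * t * I‖ :=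
            Complex.norm_exp_sub_one_le (by rw [norm_mul, norm_I, mul_one]; linarith)
          have h4 : ‖Complex.exp (-(w * t) * I) - 1‖ ≤ 2 * ‖-(w * t) * I‖ :=
            Complex.norm_exp_sub_one_le (by rw [norm_mul, norm_I, mul_one, norm_neg]; linarith)
          rw [norm_mul, norm_I, mul_one] at h3 h4
          rw [norm_neg] at h4
          have h5 := norm_add_le (Complex.exp (w * t * I) - 1) (Complex.exp (-(w * t) * I) - 1)
          have h6 : ‖(2 : ℂ)‖ = 2 := by simp
          rw [h6]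
          linarith)
      simpa using h
    have h2 := norm_sub_norm_le (1 : ℂ) (1 - D w)
    rw [norm_one, ← norm_neg (1 - D w), neg_sub, sub_sub_cancel] at h2
    linarith

/-- the kernel -/
noncomputable def S (m : ℕ) (η : ℝ) (z : ℂ) : ℂ := D (((η / m : ℝ) : ℂ) * z * I) ^ m

lemma S_diff (m : ℕ) (η : ℝ) : Differentiable ℂ (S m η) := by
  unfold S
  exact (D_diff.comp (by fun_prop)).pow m

lemma S_le {m : ℕ} (hm : 1 ≤ m) {η : ℝ} (hη : 0 ≤ η) (x y : ℝ) :
    ‖S m η (x + y * I)‖ ≤ Real.exp (η * |x|) := by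
  have hm0 : (0:ℝ) < m := by exact_mod_cast (by omega : 0 < m)
  unfold S
  rw [norm_pow]
  have h1 := D_le (((η / m : ℝ) : ℂ) * (x + y * I) * I)
  have e : (((η / m : ℝ) : ℂ) * (x + y * I) * I).im = η / m * x := by
    simp
  rw [e] at h1
  calc ‖D (((η / m : ℝ) : ℂ) * (x + y * I) * I)‖ ^ m ≤ Real.exp |η / m * x| ^ m :=
        pow_le_pow_left₀ (norm_nonneg _) h1 m
    _ = Real.exp (η * |x|) := by
        rw [← Real.exp_nat_mul, abs_mul, abs_of_nonneg (by positivity : 0 ≤ η / m)]
        congr 1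
        field_simp

lemma S_dec {m : ℕ} (hm : 1 ≤ m) {η : ℝ} (hη : 0 ≤ η) (y : ℝ) :
    (1 + η / m * |y|) ^ m * ‖S m η (y * I)‖ ≤ 2 ^ m := by
  have hm0 : (0:ℝ) < m := by exact_mod_cast (by omega : 0 < m)
  unfold S
  have e : ((η / m : ℝ) : ℂ) * (y * I) * I = ((-(η / m * y) : ℝ) : ℂ) := by
    push_cast
    linear_combination ((η : ℂ) / m * y) * I_sq
  rw [norm_pow, e, ← mul_pow]
  have h1 := D_real (-(η / m * y))
  rw [abs_neg, abs_mul, abs_of_nonneg (by positivity : 0 ≤ η / m)] at h1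
  exact pow_le_pow_left₀ (by positivity) h1 m

lemma S_near {m : ℕ} (hm : 1 ≤ m) {η : ℝ} (hη : 0 ≤ η) {z : ℂ} (hz : η * ‖z‖ ≤ 1 / 4) :
    (1 / 2) ^ m ≤ ‖S m η z‖ := by
  have hm0 : (1:ℝ) ≤ m := by exact_mod_cast hm
  unfold S
  rw [norm_pow]
  apply pow_le_pow_left₀ (by norm_num)
  apply D_near
  rw [norm_mul, norm_I, mul_one, norm_mul, Complex.norm_real, Real.norm_eq_abs,
    abs_of_nonneg (by positivity : 0 ≤ η / m)]
  have h1 : η / m ≤ η := div_le_self hη hm0
  exact (mul_le_mul_of_nonneg_right h1 (norm_nonneg _)).trans hz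

end Pool.Agent.Helper156_SP
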