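import Mathlib
import Pool.Agent.TH804.MS1
import Pool.Agent.Helper156_SP.Core
import Pool.Agent.Helper156_SP.Beu

set_option autoImplicit false

/-!
# Local majorants and local sampling for zeta
-/

open Complex Set
open W587.PL

namespace Pool.Agent.Helper156_SP

lemma Pk.scale {F H : ℂ → ℂ} {ε Λ K W y₀ M : ℝ} {m : ℕ} {c : ℝ} (hc : 0 < c)
    (h : Pk (fun z => (c : ℂ) * F z) ε Λ K W m H y₀ M) :
    Pk F ε Λ K W m (fun z => (c : ℂ)⁻¹ * H z) y₀ (c⁻¹ * M) := by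
  have hn : ‖(c : ℂ)⁻¹‖ = c⁻¹ := by rw [norm_inv, Complex.norm_real, Real.norm_eq_abs, abs_of_pos hc]
  have hn' : ‖(c : ℂ)‖ = c := by rw [Complex.norm_real, Real.norm_eq_abs, abs_of_pos hc]
  have hci : 0 < c⁻¹ := inv_pos.2 hc
  refine ⟨h.diff.const_mul _, mul_pos hci h.pos, h.cen, ?_, ?_, ?_, ?_⟩
  · rw [norm_mul, hn, h.top]
  · intro x y hx hy
    rw [norm_mul, hn, mul_assoc]
    exact mul_le_mul_of_nonneg_left (h.box x y hx hy) hci.le
  · intro y hy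
    have h1 := h.dec y hy
    simp only [norm_mul, hn'] at h1
    rw [norm_mul, hn]
    have h2 := mul_le_mul_of_nonneg_left h1 hci.le
    calc (1 + Λ * |y|) ^ m * (c⁻¹ * ‖H (y * I)‖) = c⁻¹ * ((1 + Λ * |y|) ^ m * ‖H (y * I)‖) := by ring
      _ ≤ c⁻¹ * (K * (c * ‖F (y * I)‖)) := h2
      _ = K * ‖F (y * I)‖ := by field_simp
  · intro z hz
    have h1 := h.near z hz
    simp only [norm_mul, hn'] at h1
    have h2 := mul_le_mul_of_nonneg_left h1 hci.le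
    calc ‖F z‖ = c⁻¹ * (c * ‖F z‖) := by field_simp
      _ ≤ c⁻¹ * (K * M) := h2
      _ = K * (c⁻¹ * M) := by ring

lemma Loc.scale {F : ℂ → ℂ} {δ δ' W Λ : ℝ} (hΛ : 0 ≤ Λ) (hδ' : δ' ≤ 1)
    (h : Loc F (3 / 4) δ 3 W Λ Λ) :
    Loc (fun z => ((Real.exp (δ' * Λ) : ℝ) : ℂ) * F z) (3 / 4) (δ + δ') 4 W Λ Λ := by
  have hn : ‖((Real.exp (δ' * Λ) : ℝ) : ℂ)‖ = Real.exp (δ' * Λ) := by
    rw [Complex.norm_real, Real.norm_eq_abs, abs_of_pos (Real.exp_pos _)]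
  refine ⟨h.diff.const_mul _, h.l0, by linarith, ?_, ?_⟩
  · intro x y hx hy
    rw [norm_mul, hn]
    calc Real.exp (δ' * Λ) * ‖F (x + y * I)‖ ≤ Real.exp (δ' * Λ) * Real.exp (δ * Λ + (3 / 4 - x) * Λ / 2) :=
          mul_le_mul_of_nonneg_left (h.side x y hx hy) (Real.exp_pos _).le
      _ = _ := by rw [← Real.exp_add]; congr 1; ring
  · intro x y hx hy
    rw [norm_mul, hn]
    calc Real.exp (δ' * Λ) * ‖F (x + y * I)‖ ≤ Real.exp (δ' * Λ) * Real.exp (3 * Λ) :=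
          mul_le_mul_of_nonneg_left (h.crude x y hx hy) (Real.exp_pos _).le
      _ = Real.exp (δ' * Λ + 3 * Λ) := by rw [← Real.exp_add]
      _ ≤ _ := by
          apply Real.exp_le_exp.2
          have : δ' * Λ ≤ 1 * Λ := mul_le_mul_of_nonneg_right hδ' hΛ
          linarith

open Pool.Agent.TH804.MS in
/-- **local majorants for zeta** -/
theorem zeta_pk {ε : ℝ} (hε : 0 < ε) (hε1 : ε ≤ 1) {m : ℕ} (hm : 1 ≤ m) :
    ∃ W δ K T₁ : ℝ, 2 ≤ W ∧ 0 < δ ∧ 1 ≤ K ∧ 8 ≤ T₁ ∧ 2 * W ≤ T₁ ∧ ∀ t : ℝ, T₁ ≤ t →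
      (∀ z : ℂ, ‖z‖ ≤ 1 / Real.log t → ‖F t z‖ ≤ K * t ^ (-δ)) ∨
        ∃ H y₀ M, Pk (F t) ε (Real.log t) K W m H y₀ M := by
  obtain ⟨δ, W, Λ₀, K, hδ, hW, hΛ₀, hK, hcore⟩ := core hε hε1 (by norm_num : (1:ℝ) ≤ 4) hm
  obtain ⟨T₁, hT₁, hloc⟩ := loc (a := 3 / 4) (δ := δ / 2) (W := W) (by norm_num) le_rfl (by positivity)
    (by linarith)
  set δ' : ℝ := min (δ / 2) 1 with hδ'
  have hδ'0 : 0 < δ' := lt_min (by positivity) one_pos
  have hδ'1 : δ' ≤ δ / 2 := min_le_left _ _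
  have hδ'2 : δ' ≤ 1 := min_le_right _ _
  refine ⟨W, δ', K, max (max T₁ (2 * W)) (Real.exp Λ₀), hW, hδ'0, hK,
    hT₁.trans ((le_max_left _ _).trans (le_max_left _ _)),
    (le_max_right _ _).trans (le_max_left _ _), fun t ht => ?_⟩
  have ht1 : T₁ ≤ t := ((le_max_left _ _).trans (le_max_left _ _)).trans ht
  have ht2 : Real.exp Λ₀ ≤ t := (le_max_right _ _).trans ht
  have ht0 : 0 < t := by linarith
  have hΛ : Λ₀ ≤ Real.log t := by
    rw [Real.le_log_iff_exp_le ht0]; exact ht2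
  have hL := hloc t ht1
  have hL' : Loc (F t) (3 / 4) (δ - δ') 3 W (Real.log t) (Real.log t) := by
    refine ⟨hL.diff, hL.l0, hL.lB, fun x y hx hy => (hL.side x y hx hy).trans ?_, hL.crude⟩
    apply Real.exp_le_exp.2
    have : δ / 2 * Real.log t ≤ (δ - δ') * Real.log t := mul_le_mul_of_nonneg_right (by linarith) (by linarith)
    linarith
  have hS := Loc.scale (by linarith : 0 ≤ Real.log t) hδ'2 hL'
  rw [sub_add_cancel] at hS
  rcases hcore _ (Real.log t) hΛ hS with h | ⟨H, y₀, M, h⟩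
  · left
    intro z hz
    have h1 := h z hz
    rw [norm_mul, Complex.norm_real, Real.norm_eq_abs, abs_of_pos (Real.exp_pos _), ← rpow_exp ht0] at h1
    rw [Real.rpow_neg ht0.le, ← div_eq_mul_inv, le_div_iff₀ (by positivity), mul_comm]
    exact h1
  · right
    exact ⟨_, _, _, Pk.scale (Real.exp_pos _) h⟩

/-- local sampling for the majorant -/
theorem Pk.sample {ε L d : ℝ} (hε : 0 < ε) (hε1 : ε ≤ 1) (hL : 0 < L) (hd : 0 < d) :
    ∃ R ρ : ℝ, 1 ≤ R ∧ 0 < ρ ∧ ρ ≤ 1 ∧ ∀ (F H : ℂ → ℂ) (Λ K W : ℝ) (m : ℕ) (y₀ M : ℝ),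
      Pk F ε Λ K W m H y₀ M → 2 * R ≤ Λ → 1 ≤ K → ∀ E : Set ℝ,
      (∀ x : ℝ, |x - y₀| ≤ R / Λ → ∃ S : Finset ℝ, (∀ s ∈ S, s ∈ E ∧ x ≤ s ∧ s ≤ x + 2 * Real.pi * L / Λ) ∧
        (∀ s ∈ S, ∀ s' ∈ S, s ≠ s' → d / Λ ≤ |s - s'|) ∧ (1 + ε) * L ≤ S.card) →
      ∃ y ∈ E, |y| ≤ W ∧ (1 + Λ * |y|) ^ m * ‖F 0‖ ≤ K ^ 2 / ρ * ‖F (y * I)‖ := by
  classical
  obtain ⟨R, ρ, hR, hρ, hρ1, hB⟩ := beurling hε hε1 hL hd
  refine ⟨R, ρ, hR, hρ, hρ1, ?_⟩
  intro F H Λ K W m y₀ M hPk hΛ hK E hE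
  have hΛ0 : 0 < Λ := by linarith
  have hRΛ : R / Λ ≤ 1 / 2 := by rw [div_le_div_iff₀ hΛ0 (by norm_num)]; linarith
  obtain ⟨w, hwE, hwR, hw⟩ := hB (fun w => H ((y₀ + w / Λ) * I)) M (hPk.diff.comp (by fun_prop)) hPk.pos
    (by simp only [zero_div, add_zero]; exact hPk.top)
    (fun w hw => by
      have e : ((y₀ : ℂ) + w / Λ) * I = ((-(w.im / Λ) : ℝ) : ℂ) + ((y₀ + w.re / Λ : ℝ) : ℂ) * I := by
        apply Complex.ext
        · simp [Complex.div_ofReal_im]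
        · simp [Complex.div_ofReal_re]
      rw [e]
      have h1 : |w.im / Λ| ≤ 1 / 2 := by
        rw [abs_div, abs_of_pos hΛ0]
        exact (div_le_div_of_nonneg_right ((Complex.abs_im_le_norm w).trans hw) hΛ0.le).trans hRΛ
      have h2 : |w.re / Λ| ≤ 1 / 2 := by
        rw [abs_div, abs_of_pos hΛ0]
        exact (div_le_div_of_nonneg_right ((Complex.abs_re_le_norm w).trans hw) hΛ0.le).trans hRΛ
      have h3 := hPk.box (-(w.im / Λ)) (y₀ + w.re / Λ) (by rw [abs_neg]; exact h1) (by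
        have := abs_add_le y₀ (w.re / Λ)
        linarith [hPk.cen])
      refine h3.trans (le_of_eq ?_)
      congr 2
      rw [abs_neg, abs_div, abs_of_pos hΛ0]
      field_simp)
    {w : ℝ | y₀ + w / Λ ∈ E}
    (fun x hx => by
      obtain ⟨S, hS1, hS2, hS3⟩ := hE (y₀ + x / Λ) (by
        rw [add_sub_cancel_left, abs_div, abs_of_pos hΛ0]
        exact div_le_div_of_nonneg_right (abs_le.2 hx) hΛ0.le)
      have hinj : Function.Injective (fun s : ℝ => Λ * (s - y₀)) := by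
        intro a b hab
        have := mul_left_cancel₀ hΛ0.ne' hab
        linarith
      refine ⟨S.image (fun s : ℝ => Λ * (s - y₀)), ?_, ?_, ?_⟩
      · intro s hs
        rw [Finset.mem_image] at hs
        obtain ⟨s', hs', rfl⟩ := hs
        obtain ⟨h1, h2, h3⟩ := hS1 s' hs'
        refine ⟨?_, ?_, ?_⟩
        · show y₀ + Λ * (s' - y₀) / Λ ∈ E
          rw [mul_div_cancel_left₀ _ hΛ0.ne', add_sub_cancel]
          exact h1
        · have h4 : x / Λ ≤ s' - y₀ := by linarith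
          rw [div_le_iff₀ hΛ0] at h4
          linarith
        · have h4 : s' - y₀ ≤ (x + 2 * Real.pi * L) / Λ := by rw [add_div]; linarith
          rw [le_div_iff₀ hΛ0] at h4
          linarith
      · intro s hs s' hs' hne
        rw [Finset.mem_image] at hs hs'
        obtain ⟨a, ha, rfl⟩ := hs
        obtain ⟨b, hb, rfl⟩ := hs'
        have hab : a ≠ b := fun h => hne (by rw [h])
        have h4 := hS2 a ha b hb hab
        rw [div_le_iff₀ hΛ0] at h4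
        rw [← mul_sub, sub_sub_sub_cancel_right, abs_mul, abs_of_pos hΛ0]
        linarith
      · rw [Finset.card_image_of_injective _ hinj]
        exact hS3)
  -- the point
  set y : ℝ := y₀ + w / Λ with hy
  have hyW : |y| ≤ W := by
    have h1 : |w / Λ| ≤ 1 / 2 := by
      rw [abs_div, abs_of_pos hΛ0]
      exact (div_le_div_of_nonneg_right hwR hΛ0.le).trans hRΛ
    have := abs_add_le y₀ (w / Λ)
    rw [← hy] at this
    linarith [hPk.cen]
  refine ⟨y, hwE, hyW, ?_⟩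
  have h1 := hPk.dec y hyW
  have h2 := hPk.near 0 (by rw [norm_zero]; positivity)
  have h3 : ρ * M ≤ ‖H (y * I)‖ := by
    have e : ((y : ℝ) : ℂ) = y₀ + (w : ℂ) / Λ := by rw [hy]; push_cast; rfl
    rw [e]; exact hw
  have hp : 0 ≤ (1 + Λ * |y|) ^ m := by positivity
  calc (1 + Λ * |y|) ^ m * ‖F 0‖ ≤ (1 + Λ * |y|) ^ m * (K * (‖H (y * I)‖ / ρ)) := by
        apply mul_le_mul_of_nonneg_left _ hp
        refine h2.trans (mul_le_mul_of_nonneg_left ?_ (by linarith))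
        rw [le_div_iff₀ hρ]; linarith
    _ = K / ρ * ((1 + Λ * |y|) ^ m * ‖H (y * I)‖) := by ring
    _ ≤ K / ρ * (K * ‖F (y * I)‖) := mul_le_mul_of_nonneg_left h1 (by positivity)
    _ = K ^ 2 / ρ * ‖F (y * I)‖ := by ring

open Pool.Agent.TH804.MS in
/-- **local sampling for zeta** -/
theorem zeta_sample {ε L d κ : ℝ} (hε : 0 < ε) (hε1 : ε ≤ 1) (hL : 0 < L) (hd : 0 < d) (hκ : 0 < κ)
    {m : ℕ} (hm : 1 ≤ m) :
    ∃ W δ K T₁ : ℝ, 2 ≤ W ∧ 0 < δ ∧ 1 ≤ K ∧ 8 ≤ T₁ ∧ 2 * W ≤ T₁ ∧ ∀ T t : ℝ, T₁ ≤ t → t ≤ T →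
      κ * Real.log T ≤ Real.log t → ∀ S : Finset ℝ,
      (∀ x ∈ Icc (t - W) (t + W), ∃ S' ⊆ S, (∀ s ∈ S', x ≤ s ∧ s ≤ x + 2 * Real.pi * L / Real.log T) ∧
        (∀ s ∈ S', ∀ s' ∈ S', s ≠ s' → d / Real.log T ≤ |s - s'|) ∧ (1 + ε) * L ≤ S'.card) →
      ‖riemannZeta (1 / 2 + t * I)‖ ≤ K * t ^ (-δ) ∨
        ∃ s ∈ S, |s - t| ≤ W ∧
          (1 + Real.log t * |s - t|) ^ m * ‖riemannZeta (1 / 2 + t * I)‖ ≤ K * ‖riemannZeta (1 / 2 + s * I)‖ := by
  classical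
  obtain ⟨W, δ, K, T₁, hW, hδ, hK, hT₁, hT₁W, hz⟩ := zeta_pk hε hε1 hm
  obtain ⟨R, ρ, hR, hρ, hρ1, hS⟩ := Pk.sample hε hε1 hL (by positivity : 0 < κ * d)
  have hK2 : K ≤ 2 * (K ^ 2 / ρ) := by
    have h1 : K ^ 2 ≤ K ^ 2 / ρ := by
      rw [le_div_iff₀ hρ]
      have : 0 ≤ K ^ 2 := by positivity
      nlinarith
    nlinarith
  refine ⟨W, δ, 2 * (K ^ 2 / ρ), max T₁ (Real.exp (2 * R)), hW, hδ, by linarith, hT₁.trans (le_max_left _ _),
    hT₁W.trans (le_max_left _ _), ?_⟩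
  intro T t ht htT hlog S hSw
  have ht1 : T₁ ≤ t := (le_max_left _ _).trans ht
  have ht2 : Real.exp (2 * R) ≤ t := (le_max_right _ _).trans ht
  have ht0 : 0 < t := by linarith
  have ht8 : 8 ≤ t := by linarith
  have hΛ : 2 * R ≤ Real.log t := by
    rw [Real.le_log_iff_exp_le ht0]; exact ht2
  have hΛ0 : 0 < Real.log t := by linarith
  have hTt : Real.log t ≤ Real.log T := Real.log_le_log ht0 htT
  have hLT : 0 < Real.log T := by linarith
  have hF0 := le_F0 (T := t) ht8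
  have e0 : (1 / 2 + (t : ℂ) * I) = 1 / 2 + t * Complex.I := rfl
  rcases hz t ht1 with h | ⟨H, y₀, M, hPk⟩
  · left
    have h1 := h 0 (by rw [norm_zero]; positivity)
    refine (hF0.trans h1).trans ?_
    exact mul_le_mul_of_nonneg_right hK2 (by positivity)
  · right
    obtain ⟨y, hyE, hyW, hy⟩ := hS (F t) H (Real.log t) K W m y₀ M hPk hΛ hK {y | t + y ∈ S} (fun x hx => by
      have hx' : |x| ≤ W := by
        have h1 : R / Real.log t ≤ 1 / 2 := by rw [div_le_div_iff₀ hΛ0 (by norm_num)]; linarith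
        have h2 := abs_add_le (x - y₀) y₀
        rw [sub_add_cancel] at h2
        linarith [hPk.cen]
      obtain ⟨S', hS'S, hS'1, hS'2, hS'3⟩ := hSw (t + x) ⟨by linarith [(abs_le.1 hx').1], by linarith [(abs_le.1 hx').2]⟩
      have hinj : Function.Injective (fun s : ℝ => s - t) := sub_left_injective
      refine ⟨S'.image (fun s : ℝ => s - t), ?_, ?_, ?_⟩
      · intro s hs
        rw [Finset.mem_image] at hs
        obtain ⟨a, ha, rfl⟩ := hs
        obtain ⟨h1, h2⟩ := hS'1 a ha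
        refine ⟨?_, by linarith, ?_⟩
        · show t + (a - t) ∈ S
          rw [add_sub_cancel]
          exact hS'S ha
        · have h3 : 2 * Real.pi * L / Real.log T ≤ 2 * Real.pi * L / Real.log t :=
            div_le_div_of_nonneg_left (by have := Real.pi_pos; positivity) hΛ0 hTt
          linarith
      · intro s hs s' hs' hne
        rw [Finset.mem_image] at hs hs'
        obtain ⟨a, ha, rfl⟩ := hs
        obtain ⟨b, hb, rfl⟩ := hs'
        have hab : a ≠ b := fun h => hne (by rw [h])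
        have h4 := hS'2 a ha b hb hab
        rw [sub_sub_sub_cancel_right]
        refine le_trans ?_ h4
        rw [div_le_div_iff₀ hΛ0 hLT]
        have h5 := mul_le_mul_of_nonneg_left hlog hd.le
        linarith
      · rw [Finset.card_image_of_injective _ hinj]
        exact hS'3)
    refine ⟨t + y, hyE, by rw [add_sub_cancel_left]; exact hyW, ?_⟩
    rw [add_sub_cancel_left]
    have h1 := F_le (T := t) ht8 (z := (y : ℂ) * I) (by simp) (by
      have : (y * I : ℂ).im = y := by simp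
      rw [this]; linarith)
    have e1 : (1 / 2 + (t : ℂ) * Complex.I + (y : ℂ) * I) = 1 / 2 + ((t + y : ℝ) : ℂ) * I := by
      push_cast; ring
    rw [e1] at h1
    calc (1 + Real.log t * |y|) ^ m * ‖riemannZeta (1 / 2 + t * I)‖
        ≤ (1 + Real.log t * |y|) ^ m * ‖F t 0‖ := mul_le_mul_of_nonneg_left hF0 (by positivity)
      _ ≤ K ^ 2 / ρ * ‖F t (y * I)‖ := hy
      _ ≤ K ^ 2 / ρ * (2 * ‖riemannZeta (1 / 2 + ((t + y : ℝ) : ℂ) * I)‖) :=
          mul_le_mul_of_nonneg_left h1 (by positivity)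
      _ = _ := by ring

end Pool.Agent.Helper156_SP
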