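import Mathlib
import Pool.Agent.Helper156_SP.LogInt
import Pool.Agent.Helper156_SP.Zeta
import Pool.Agent.Helper156_SP.Low

set_option autoImplicit false

/-!
# Products of shifted values near a peak
-/

open Complex Set MeasureTheory Metric Filter Topology
open W587.PL

namespace Pool.Agent.Helper156_SP

/-- products of shifts of one function: uniform in the number of factors -/
theorem prod_low {A p : ℝ} (hA : 0 ≤ A) (hp : 0 < p) : ∃ R c : ℝ, 1 ≤ R ∧ 2 * (A + 1) ≤ R ∧ 0 < c ∧
    ∀ (h : ℂ → ℂ) (M : ℝ),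
    Differentiable ℂ h → 0 < M → ‖h 0‖ = M → (∀ w : ℂ, ‖w‖ ≤ R → ‖h w‖ ≤ M * Real.exp |w.im|) →
    ∀ (n : ℕ) (v q : Fin n → ℝ), (∀ j, |v j| ≤ A) → (∀ j, 0 ≤ q j) → ∑ j, q j = p →
      c * M ^ p ≤ ∫ b in (-1:ℝ)..1, ∏ j, ‖h ((v j + b : ℝ) : ℂ)‖ ^ q j := by
  classical
  set r : ℝ := 2 * (A + 1) with hr
  have hr1 : 1 ≤ r := by rw [hr]; linarith
  set m : ℝ := 3 * r with hm
  have hm0 : 0 ≤ m := by rw [hm]; linarith
  refine ⟨3 * r, 2 * Real.exp (-(p * CL m r / 2)), by linarith, by linarith, by positivity, ?_⟩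
  intro h M hh hM h0 hb n v q hv hq hsum
  set h₁ : ℂ → ℂ := fun w => (M : ℂ)⁻¹ * h w with hh₁
  have hMn : ‖(M : ℂ)⁻¹‖ = M⁻¹ := by rw [norm_inv, Complex.norm_real, Real.norm_eq_abs, abs_of_pos hM]
  have hh₁d : Differentiable ℂ h₁ := hh.const_mul _
  have hn1 : ∀ w, ‖h w‖ = M * ‖h₁ w‖ := by
    intro w
    rw [hh₁]
    simp only
    rw [norm_mul, hMn, ← mul_assoc, mul_inv_cancel₀ hM.ne', one_mul]
  have h₁0 : 1 ≤ ‖h₁ 0‖ := by
    have := hn1 0
    rw [h0] at this
    nlinarith [norm_nonneg (h₁ 0)]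
  have h₁b : ∀ w : ℂ, ‖w‖ ≤ 3 * r → ‖h₁ w‖ ≤ Real.exp m := by
    intro w hw
    have h1 := hb w hw
    rw [hn1] at h1
    have h2 := le_of_mul_le_mul_left h1 hM
    refine h2.trans (Real.exp_le_exp.2 ?_)
    exact (Complex.abs_im_le_norm w).trans hw
  obtain ⟨⟨Z, hZ⟩, hlog⟩ := log_int hh₁d hr1 hm0 h₁0 h₁b
  have hvr : ∀ j, |v j| + 1 ≤ r / 2 := by
    intro j
    have := hv j
    rw [hr]; linarith
  -- the logarithm
  set x : ℝ → ℝ := fun b => ∑ j, q j * Real.log ‖h₁ ((v j + b : ℝ) : ℂ)‖ with hx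
  have hxj : ∀ j, IntervalIntegrable (fun b : ℝ => q j * Real.log ‖h₁ ((v j + b : ℝ) : ℂ)‖) volume (-1) 1 := by
    intro j
    have h1 := (hlog (v j) (hvr j)).1
    have h2 := h1.comp_add_left (v j)
    have e1 : v j - 1 - v j = -1 := by ring
    have e2 : v j + 1 - v j = 1 := by ring
    rw [e1, e2] at h2
    exact h2.const_mul _
  have hxi : IntervalIntegrable x volume (-1) 1 := by
    have := IntervalIntegrable.sum (μ := volume) (a := -1) (b := 1) (Finset.univ)
      (f := fun j (b : ℝ) => q j * Real.log ‖h₁ ((v j + b : ℝ) : ℂ)‖) fun j _ => hxj j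
    have e : (∑ j, fun b : ℝ => q j * Real.log ‖h₁ ((v j + b : ℝ) : ℂ)‖) = x := by
      funext b
      simp [hx]
    rwa [e] at this
  have hxint : -(p * CL m r) ≤ ∫ b in (-1:ℝ)..1, x b := by
    rw [hx]
    rw [intervalIntegral.integral_finsetSum fun j _ => hxj j, ← hsum, Finset.sum_mul, ← Finset.sum_neg_distrib]
    refine Finset.sum_le_sum fun j _ => ?_
    rw [intervalIntegral.integral_const_mul]
    have h1 := (hlog (v j) (hvr j)).2
    have h2 : ∫ b in (-1:ℝ)..1, Real.log ‖h₁ ((v j + b : ℝ) : ℂ)‖ = ∫ y in (v j - 1)..(v j + 1), Real.log ‖h₁ y‖ := by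
      rw [intervalIntegral.integral_comp_add_left (fun y : ℝ => Real.log ‖h₁ (y : ℂ)‖) (v j)]
      rw [← sub_eq_add_neg]
    rw [h2]
    have h3 := mul_le_mul_of_nonneg_left h1 (hq j)
    linarith
  set c₀ : ℝ := (∫ b in (-1:ℝ)..1, x b) / 2 with hc₀
  -- continuity of the product
  have hqc : ∀ j, Continuous fun b : ℝ => ‖h₁ ((v j + b : ℝ) : ℂ)‖ ^ q j := by
    intro j
    apply Continuous.rpow_const
    · exact (hh₁d.continuous.comp (by fun_prop)).norm
    · intro b
      exact Or.inr (hq j)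
  have hPc : Continuous fun b : ℝ => ∏ j, ‖h₁ ((v j + b : ℝ) : ℂ)‖ ^ q j := by
    apply continuous_finsetProd
    intro j _
    exact hqc j
  have hmono : ∫ b in (-1:ℝ)..1, Real.exp c₀ * (1 + (x b - c₀)) ≤ ∫ b in (-1:ℝ)..1, ∏ j, ‖h₁ ((v j + b : ℝ) : ℂ)‖ ^ q j := by
    have hI : IntervalIntegrable (fun b => Real.exp c₀ * (1 + (x b - c₀))) volume (-1) 1 :=
      ((by simp : IntervalIntegrable (fun _ : ℝ => (1:ℝ)) volume (-1) 1).add
        (hxi.sub (by simp : IntervalIntegrable (fun _ : ℝ => c₀) volume (-1) 1))).const_mul _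
    rw [intervalIntegral.integral_of_le (by norm_num), intervalIntegral.integral_of_le (by norm_num)]
    apply MeasureTheory.integral_mono_ae hI.1 (hPc.intervalIntegrable (-1) 1).1
    have hfin : ({b : ℝ | ∃ j, ((v j + b : ℝ) : ℂ) ∈ Z} : Set ℝ).Finite := by
      have h1 : ({b : ℝ | ∃ j, ((v j + b : ℝ) : ℂ) ∈ Z} : Set ℝ) ⊆
          (((Finset.univ : Finset (Fin n)) ×ˢ Z).image fun a => a.2.re - v a.1 : Finset ℝ) := by
        rintro b ⟨j, hj⟩
        rw [Finset.coe_image]
        refine ⟨(j, ((v j + b : ℝ) : ℂ)), ?_, ?_⟩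
        · rw [Finset.mem_coe, Finset.mem_product]
          exact ⟨Finset.mem_univ _, hj⟩
        · simp
      exact (Finset.finite_toSet _).subset h1
    have hae : ∀ᵐ b ∂(volume.restrict (Ioc (-1:ℝ) 1)), b ∉ ({b : ℝ | ∃ j, ((v j + b : ℝ) : ℂ) ∈ Z} : Set ℝ) :=
      ae_restrict_of_ae (hfin.countable.ae_notMem volume)
    filter_upwards [hae, ae_restrict_mem measurableSet_Ioc] with b hb' hbI
    have hne : ∀ j, 0 < ‖h₁ ((v j + b : ℝ) : ℂ)‖ := by
      intro j
      rw [norm_pos_iff]
      intro h1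
      apply hb'
      refine ⟨j, hZ _ ?_ h1⟩
      rw [Complex.norm_real, Real.norm_eq_abs]
      have h2 : |b| ≤ 1 := abs_le.2 ⟨hbI.1.le, hbI.2⟩
      have h3 := abs_add_le (v j) b
      have h4 := hvr j
      linarith
    have h1 : ∏ j, ‖h₁ ((v j + b : ℝ) : ℂ)‖ ^ q j = Real.exp (x b) := by
      rw [hx]
      simp only
      rw [Real.exp_sum]
      refine Finset.prod_congr rfl fun j _ => ?_
      rw [Real.rpow_def_of_pos (hne j), mul_comm]
    show Real.exp c₀ * (1 + (x b - c₀)) ≤ ∏ j, ‖h₁ ((v j + b : ℝ) : ℂ)‖ ^ q j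
    rw [h1]
    have h2 := Real.add_one_le_exp (x b - c₀)
    have h3 : Real.exp (x b) = Real.exp c₀ * Real.exp (x b - c₀) := by
      rw [← Real.exp_add]; congr 1; ring
    rw [h3]
    apply mul_le_mul_of_nonneg_left _ (Real.exp_pos _).le
    linarith
  have hleft : ∫ b in (-1:ℝ)..1, Real.exp c₀ * (1 + (x b - c₀)) = 2 * Real.exp c₀ := by
    rw [intervalIntegral.integral_const_mul, intervalIntegral.integral_add (by simp) (hxi.sub (by simp)),
      intervalIntegral.integral_sub hxi (by simp), intervalIntegral.integral_const, intervalIntegral.integral_const]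
    simp only [smul_eq_mul]
    rw [hc₀]
    ring
  rw [hleft] at hmono
  have hexp : Real.exp (-(p * CL m r / 2)) ≤ Real.exp c₀ := by
    apply Real.exp_le_exp.2
    rw [hc₀]
    linarith
  have hscale : ∫ b in (-1:ℝ)..1, ∏ j, ‖h ((v j + b : ℝ) : ℂ)‖ ^ q j =
      M ^ p * ∫ b in (-1:ℝ)..1, ∏ j, ‖h₁ ((v j + b : ℝ) : ℂ)‖ ^ q j := by
    rw [← intervalIntegral.integral_const_mul]
    refine intervalIntegral.integral_congr fun b _ => ?_
    have h1 : ∀ j, ‖h ((v j + b : ℝ) : ℂ)‖ ^ q j = M ^ q j * ‖h₁ ((v j + b : ℝ) : ℂ)‖ ^ q j := by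
      intro j
      rw [hn1, Real.mul_rpow hM.le (norm_nonneg _)]
    show ∏ j, ‖h ((v j + b : ℝ) : ℂ)‖ ^ q j = M ^ p * ∏ j, ‖h₁ ((v j + b : ℝ) : ℂ)‖ ^ q j
    rw [Finset.prod_congr rfl fun j _ => h1 j, Finset.prod_mul_distrib, ← Real.rpow_sum_of_pos hM, hsum]
  rw [hscale]
  have hMp : 0 < M ^ p := Real.rpow_pos_of_pos hM p
  have h4 : 2 * Real.exp (-(p * CL m r / 2)) ≤ ∫ b in (-1:ℝ)..1, ∏ j, ‖h₁ ((v j + b : ℝ) : ℂ)‖ ^ q j := by
    linarith
  calc 2 * Real.exp (-(p * CL m r / 2)) * M ^ p = M ^ p * (2 * Real.exp (-(p * CL m r / 2))) := by ring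
    _ ≤ _ := mul_le_mul_of_nonneg_left h4 hMp.le

/-- products of shifted values of the majorant -/
theorem Pk.prod {A p ε : ℝ} (hε : 0 < ε) (hε1 : ε ≤ 1) (hA : 0 ≤ A) (hp : 0 < p) :
    ∃ R c : ℝ, 1 ≤ R ∧ 2 * (A + 1) ≤ R ∧ 0 < c ∧
    ∀ (F H : ℂ → ℂ) (Λ K W : ℝ) (m : ℕ) (y₀ M : ℝ), Pk F ε Λ K W m H y₀ M → 2 * R ≤ Λ →
      ∀ (n : ℕ) (v q : Fin n → ℝ), (∀ j, |v j| ≤ A) → (∀ j, 0 ≤ q j) → ∑ j, q j = p →
      c * M ^ p ≤ ∫ b in (-1:ℝ)..1, ∏ j, ‖H (((y₀ + (v j + b) / Λ : ℝ) : ℂ) * I)‖ ^ q j := by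
  obtain ⟨R, c, hR, hRA, hc, hB⟩ := prod_low hA hp
  refine ⟨R, c, hR, hRA, hc, ?_⟩
  intro F H Λ K W m y₀ M hPk hΛ n v q hv hq hsum
  have hΛ0 : 0 < Λ := by linarith
  have hRΛ : R / Λ ≤ 1 / 2 := by rw [div_le_div_iff₀ hΛ0 (by norm_num)]; linarith
  have h1 := hB (fun w => H ((y₀ + w / Λ) * I)) M (hPk.diff.comp (by fun_prop)) hPk.pos
    (by simp only [zero_div, add_zero]; exact hPk.top)
    (fun w hw => by
      have e : ((y₀ : ℂ) + w / Λ) * I = ((-(w.im / Λ) : ℝ) : ℂ) + ((y₀ + w.re / Λ : ℝ) : ℂ) * I := by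
        apply Complex.ext
        · simp [Complex.div_ofReal_im]
        · simp [Complex.div_ofReal_re]
      rw [e]
      have h1 : |w.im / Λ| ≤ 1 / 2 := by
        rw [abs_div, abs_of_pos hΛ0]
        exact (div_le_div_of_nonneg_right ((Complex.abs_im_le_norm w).trans hw) hΛ0.le).trans hRΛ
      have h2 : |w.re / Λ| ≤ 1 / 2 := by
        rw [abs_div, abs_of_pos hΛ0]
        exact (div_le_div_of_nonneg_right ((Complex.abs_re_le_norm w).trans hw) hΛ0.le).trans hRΛ
      have h3 := hPk.box (-(w.im / Λ)) (y₀ + w.re / Λ) (by rw [abs_neg]; exact h1) (by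
        have := abs_add_le y₀ (w.re / Λ)
        linarith [hPk.cen])
      refine h3.trans ?_
      apply mul_le_mul_of_nonneg_left _ hPk.pos.le
      apply Real.exp_le_exp.2
      rw [abs_neg, abs_div, abs_of_pos hΛ0]
      have e2 : Λ * (1 / 2 + ε / 8) * (|w.im| / Λ) = (1 / 2 + ε / 8) * |w.im| := by field_simp
      rw [e2]
      have := abs_nonneg w.im
      nlinarith) n v q hv hq hsum
  refine h1.trans (le_of_eq ?_)
  refine intervalIntegral.integral_congr fun b _ => ?_
  refine Finset.prod_congr rfl fun j _ => ?_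
  congr 3
  push_cast
  ring

open Pool.Agent.TH804.MS in
/-- **local inequality for products of shifted values of zeta** -/
theorem zeta_prod {A p κ : ℝ} (hA : 0 ≤ A) (hp : 0 < p) (hκ : 0 < κ) (hκ1 : κ ≤ 1) :
    ∃ W δ K T₁ : ℝ, 2 ≤ W ∧ 0 < δ ∧ 1 ≤ K ∧ 8 ≤ T₁ ∧ 2 * W ≤ T₁ ∧ ∀ T t : ℝ, T₁ ≤ t → t ≤ T →
      κ * Real.log T ≤ Real.log t → ∀ (n : ℕ) (α q : Fin n → ℝ), (∀ j, |α j| ≤ A) → (∀ j, 0 ≤ q j) →
      ∑ j, q j = p →
      az t ^ p ≤ K * t ^ (-δ) + K * Real.log T * ∫ y in (-W)..W, ((1 + κ * Real.log T * |y|) ^ 2)⁻¹ *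
        ∏ j, az (t + y + α j / Real.log T) ^ q j := by
  obtain ⟨m, hm1, hm2⟩ : ∃ m : ℕ, 1 ≤ m ∧ 2 ≤ m * p := by
    obtain ⟨m, hm⟩ := exists_nat_ge (2 / p)
    refine ⟨max m 1, le_max_right _ _, ?_⟩
    have h1 : 2 / p ≤ ((max m 1 : ℕ) : ℝ) := hm.trans (by exact_mod_cast le_max_left _ _)
    rwa [div_le_iff₀ hp] at h1
  obtain ⟨W, δ, K, T₁, hW, hδ, hK, hT₁, hT₁W, hz⟩ := zeta_pk (ε := 1) one_pos le_rfl hm1
  obtain ⟨R, c, hR, hRA, hc, hP⟩ := Pk.prod (ε := 1) one_pos le_rfl hA hp
  set K' : ℝ := max (max 1 (K ^ p)) (K ^ p / c * (2 * K * (1 + A) ^ m) ^ p) with hK'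
  have hK'1 : 1 ≤ K' := (le_max_left _ _).trans (le_max_left _ _)
  have hK'2 : K ^ p ≤ K' := (le_max_right _ _).trans (le_max_left _ _)
  have hK'3 : K ^ p / c * (2 * K * (1 + A) ^ m) ^ p ≤ K' := le_max_right _ _
  have hK0 : 0 < K := by linarith
  refine ⟨W, δ * p, K', max T₁ (Real.exp (2 * R)), hW, by positivity, hK'1, hT₁.trans (le_max_left _ _),
    hT₁W.trans (le_max_left _ _), ?_⟩
  intro T t ht htT hlog n α q hα hq hsum
  have ht1 : T₁ ≤ t := (le_max_left _ _).trans ht
  have ht2 : Real.exp (2 * R) ≤ t := (le_max_right _ _).trans ht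
  have ht0 : 0 < t := by linarith
  have ht8 : 8 ≤ t := by linarith
  have hΛ : 2 * R ≤ Real.log t := by
    rw [Real.le_log_iff_exp_le ht0]; exact ht2
  have hΛ0 : 0 < Real.log t := by linarith
  have hTt : Real.log t ≤ Real.log T := Real.log_le_log ht0 htT
  have hLT : 0 < Real.log T := by linarith
  have hF0 := le_F0 (T := t) ht8
  -- the integrand
  set g : ℝ → ℝ := fun y => ((1 + κ * Real.log T * |y|) ^ 2)⁻¹ * ∏ j, az (t + y + α j / Real.log T) ^ q j with hg
  have hgc : Continuous g := by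
    rw [hg]
    apply Continuous.mul
    · apply Continuous.inv₀ (by fun_prop)
      intro y
      positivity
    · apply continuous_finsetProd
      intro j _
      exact (az_cont.comp (by fun_prop)).rpow_const fun _ => Or.inr (hq j)
  have hg0 : ∀ y, 0 ≤ g y := by
    intro y
    rw [hg]
    simp only
    have : 0 ≤ ∏ j, az (t + y + α j / Real.log T) ^ q j :=
      Finset.prod_nonneg fun j _ => Real.rpow_nonneg (az_nonneg _) _
    positivity
  have hgI : 0 ≤ ∫ y in (-W)..W, g y := intervalIntegral.integral_nonneg (by linarith) fun y _ => hg0 y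
  show az t ^ p ≤ K' * t ^ (-(δ * p)) + K' * Real.log T * ∫ y in (-W)..W, g y
  rcases hz t ht1 with h | ⟨H, y₀, M, hPk⟩
  · have h1 := h 0 (by rw [norm_zero]; positivity)
    have h2 : az t ≤ K * t ^ (-δ) := hF0.trans h1
    have h3 := Real.rpow_le_rpow (az_nonneg t) h2 hp.le
    rw [Real.mul_rpow hK0.le (by positivity), ← Real.rpow_mul ht0.le] at h3
    have e : -δ * p = -(δ * p) := by ring
    rw [e] at h3
    have h4 : K ^ p * t ^ (-(δ * p)) ≤ K' * t ^ (-(δ * p)) := mul_le_mul_of_nonneg_right hK'2 (by positivity)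
    have h5 : 0 ≤ K' * Real.log T * ∫ y in (-W)..W, g y := by positivity
    linarith
  · have h1 := hP (F t) H (Real.log t) K W m y₀ M hPk hΛ n (fun j => Real.log t * α j / Real.log T) q (fun j => by
      rw [mul_div_assoc, abs_mul, abs_div, abs_of_pos hΛ0, abs_of_pos hLT]
      have h2 : Real.log t * (|α j| / Real.log T) = Real.log t / Real.log T * |α j| := by ring
      rw [h2]
      have h3 : Real.log t / Real.log T ≤ 1 := (div_le_one hLT).2 hTt
      have h4 := hα j
      have h5 := abs_nonneg (α j)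
      have h6 : 0 ≤ Real.log t / Real.log T := by positivity
      nlinarith) hq hsum
    -- pointwise bound of the product
    have hpt : ∀ b ∈ Icc (-1:ℝ) 1, ∏ j, ‖H (((y₀ + (Real.log t * α j / Real.log T + b) / Real.log t : ℝ) : ℂ) * I)‖ ^ q j ≤
        (2 * K * (1 + A) ^ m) ^ p * g (y₀ + b / Real.log t) := by
      intro b hb
      set y : ℝ := y₀ + b / Real.log t with hy
      have hbΛ : |b / Real.log t| ≤ 1 / 2 := by
        rw [abs_div, abs_of_pos hΛ0, div_le_div_iff₀ hΛ0 (by norm_num)]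
        have := abs_le.2 hb
        linarith
      have hX : 0 < 1 + Real.log t * |y| := by positivity
      have hj : ∀ j, ‖H (((y₀ + (Real.log t * α j / Real.log T + b) / Real.log t : ℝ) : ℂ) * I)‖ ≤
          (2 * K * (1 + A) ^ m) * ((1 + Real.log t * |y|) ^ m)⁻¹ * az (t + y + α j / Real.log T) := by
        intro j
        have e1 : y₀ + (Real.log t * α j / Real.log T + b) / Real.log t = y + α j / Real.log T := by
          rw [hy]; field_simp; ring
        rw [e1]
        set yj : ℝ := y + α j / Real.log T with hyj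
        have hαT : |α j / Real.log T| ≤ 1 / 2 := by
          rw [abs_div, abs_of_pos hLT, div_le_div_iff₀ hLT (by norm_num)]
          have := hα j
          linarith
        have hyjW : |yj| ≤ W := by
          have h2 := abs_add_le y (α j / Real.log T)
          have h3 := abs_add_le y₀ (b / Real.log t)
          rw [← hy] at h3
          rw [← hyj] at h2
          linarith [hPk.cen]
        have h2 := hPk.dec yj hyjW
        have h3 := F_le (T := t) ht8 (z := (yj : ℂ) * I) (by simp) (by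
          have : (yj * I : ℂ).im = yj := by simp
          rw [this]; linarith)
        have e2 : (1 / 2 + (t : ℂ) * Complex.I + (yj : ℂ) * I) = 1 / 2 + ((t + yj : ℝ) : ℂ) * I := by
          push_cast; ring
        rw [e2] at h3
        have e3 : t + y + α j / Real.log T = t + yj := by rw [hyj]; ring
        rw [e3]
        have h4 : 1 + Real.log t * |y| ≤ (1 + A) * (1 + Real.log t * |yj|) := by
          have h5 : |y| ≤ |yj| + |α j / Real.log T| := by
            have h6 := abs_sub yj (α j / Real.log T)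
            rw [hyj, add_sub_cancel_right] at h6
            rw [hyj]; exact h6
          have h6 : Real.log t * |α j / Real.log T| ≤ A := by
            rw [abs_div, abs_of_pos hLT]
            have h7 : Real.log t * (|α j| / Real.log T) = Real.log t / Real.log T * |α j| := by ring
            rw [h7]
            have h8 : Real.log t / Real.log T ≤ 1 := (div_le_one hLT).2 hTt
            have h9 := hα j
            have h10 := abs_nonneg (α j)
            have h11 : 0 ≤ Real.log t / Real.log T := by positivity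
            nlinarith
          have h7 : Real.log t * |y| ≤ Real.log t * |yj| + Real.log t * |α j / Real.log T| := by
            rw [← mul_add]
            exact mul_le_mul_of_nonneg_left h5 hΛ0.le
          have h8 : 0 ≤ A * (Real.log t * |yj|) := by positivity
          nlinarith
        have h5 : (1 + Real.log t * |y|) ^ m * ‖H (yj * I)‖ ≤ (1 + A) ^ m * (2 * K * az (t + yj)) := by
          calc (1 + Real.log t * |y|) ^ m * ‖H (yj * I)‖ ≤ ((1 + A) * (1 + Real.log t * |yj|)) ^ m * ‖H (yj * I)‖ := by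
                gcongr
            _ = (1 + A) ^ m * ((1 + Real.log t * |yj|) ^ m * ‖H (yj * I)‖) := by rw [mul_pow]; ring
            _ ≤ (1 + A) ^ m * (K * ‖F t (yj * I)‖) := by gcongr
            _ ≤ (1 + A) ^ m * (K * (2 * az (t + yj))) := by
                gcongr
                exact h3
            _ = _ := by ring
        have h6 : 0 < (1 + Real.log t * |y|) ^ m := by positivity
        calc ‖H (yj * I)‖ = ((1 + Real.log t * |y|) ^ m)⁻¹ * ((1 + Real.log t * |y|) ^ m * ‖H (yj * I)‖) := by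
              rw [← mul_assoc, inv_mul_cancel₀ h6.ne', one_mul]
          _ ≤ ((1 + Real.log t * |y|) ^ m)⁻¹ * ((1 + A) ^ m * (2 * K * az (t + yj))) :=
              mul_le_mul_of_nonneg_left h5 (by positivity)
          _ = _ := by ring
      have hC0 : 0 < (2 * K * (1 + A) ^ m) * ((1 + Real.log t * |y|) ^ m)⁻¹ := by positivity
      calc ∏ j, ‖H (((y₀ + (Real.log t * α j / Real.log T + b) / Real.log t : ℝ) : ℂ) * I)‖ ^ q j
          ≤ ∏ j, ((2 * K * (1 + A) ^ m) * ((1 + Real.log t * |y|) ^ m)⁻¹ * az (t + y + α j / Real.log T)) ^ q j := by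
            refine Finset.prod_le_prod (fun j _ => Real.rpow_nonneg (norm_nonneg _) _) fun j _ => ?_
            exact Real.rpow_le_rpow (norm_nonneg _) (hj j) (hq j)
        _ = ((2 * K * (1 + A) ^ m) * ((1 + Real.log t * |y|) ^ m)⁻¹) ^ p * ∏ j, az (t + y + α j / Real.log T) ^ q j := by
            have h2 : ∀ j, ((2 * K * (1 + A) ^ m) * ((1 + Real.log t * |y|) ^ m)⁻¹ * az (t + y + α j / Real.log T)) ^ q j =
                ((2 * K * (1 + A) ^ m) * ((1 + Real.log t * |y|) ^ m)⁻¹) ^ q j * az (t + y + α j / Real.log T) ^ q j := by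
              intro j
              rw [Real.mul_rpow hC0.le (az_nonneg _)]
            simp only [h2]
            rw [Finset.prod_mul_distrib, ← Real.rpow_sum_of_pos hC0, hsum]
        _ ≤ (2 * K * (1 + A) ^ m) ^ p * g y := by
            rw [Real.mul_rpow (by positivity) (by positivity), hg, mul_assoc]
            simp only
            apply mul_le_mul_of_nonneg_left _ (by positivity)
            apply mul_le_mul_of_nonneg_right _ (Finset.prod_nonneg fun j _ => Real.rpow_nonneg (az_nonneg _) _)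
            rw [Real.inv_rpow (by positivity)]
            apply inv_anti₀ (by positivity)
            rw [← Real.rpow_natCast (1 + Real.log t * |y|) m, ← Real.rpow_mul hX.le,
              ← Real.rpow_natCast (1 + κ * Real.log T * |y|) 2]
            calc (1 + κ * Real.log T * |y|) ^ ((2:ℕ):ℝ) ≤ (1 + Real.log t * |y|) ^ ((2:ℕ):ℝ) := by
                  apply Real.rpow_le_rpow (by positivity) _ (by positivity)
                  have := mul_le_mul_of_nonneg_right hlog (abs_nonneg y)
                  linarith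
              _ ≤ (1 + Real.log t * |y|) ^ ((m:ℝ) * p) := by
                  apply Real.rpow_le_rpow_of_exponent_le
                  · have : 0 ≤ Real.log t * |y| := by positivity
                    linarith
                  · push_cast; exact hm2
    -- integrate over b
    have hI : ∫ b in (-1:ℝ)..1, ∏ j, ‖H (((y₀ + (Real.log t * α j / Real.log T + b) / Real.log t : ℝ) : ℂ) * I)‖ ^ q j ≤
        (2 * K * (1 + A) ^ m) ^ p * (Real.log T * ∫ y in (-W)..W, g y) := by
      have h2 : ∫ b in (-1:ℝ)..1, ∏ j, ‖H (((y₀ + (Real.log t * α j / Real.log T + b) / Real.log t : ℝ) : ℂ) * I)‖ ^ q j ≤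
          ∫ b in (-1:ℝ)..1, (2 * K * (1 + A) ^ m) ^ p * g (y₀ + b / Real.log t) := by
        apply intervalIntegral.integral_mono_on (by norm_num)
        · apply Continuous.intervalIntegrable
          apply continuous_finsetProd
          intro j _
          apply Continuous.rpow_const
          · exact (hPk.diff.continuous.comp (by fun_prop)).norm
          · intro b
            exact Or.inr (hq j)
        · apply Continuous.intervalIntegrable
          exact continuous_const.mul (hgc.comp (by fun_prop))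
        · exact hpt
      refine h2.trans ?_
      rw [intervalIntegral.integral_const_mul]
      apply mul_le_mul_of_nonneg_left _ (by positivity)
      have h3 : ∫ b in (-1:ℝ)..1, g (y₀ + b / Real.log t) = Real.log t * ∫ y in (y₀ + -1 / Real.log t)..(y₀ + 1 / Real.log t), g y := by
        rw [intervalIntegral.integral_comp_add_div (fun y => g y) hΛ0.ne', smul_eq_mul]
      rw [h3]
      have h4 : ∫ y in (y₀ + -1 / Real.log t)..(y₀ + 1 / Real.log t), g y ≤ ∫ y in (-W)..W, g y := by
        have hΛi : 1 / Real.log t ≤ 1 / 2 := by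
          rw [div_le_div_iff₀ hΛ0 (by norm_num)]; linarith
        have hΛp : 0 < 1 / Real.log t := by positivity
        have hc1 := abs_le.1 (by linarith [hPk.cen] : |y₀| ≤ W - 1)
        have e : -1 / Real.log t = -(1 / Real.log t) := by ring
        rw [e]
        apply intervalIntegral.integral_mono_interval (by linarith) (by linarith) (by linarith)
        · exact Filter.Eventually.of_forall hg0
        · exact hgc.intervalIntegrable _ _
      have h5 : 0 ≤ ∫ y in (y₀ + -1 / Real.log t)..(y₀ + 1 / Real.log t), g y := by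
        apply intervalIntegral.integral_nonneg _ fun y _ => hg0 y
        have e : -1 / Real.log t = -(1 / Real.log t) := by ring
        have hΛp : 0 < 1 / Real.log t := by positivity
        rw [e]; linarith
      exact mul_le_mul hTt h4 h5 hLT.le
    have h3 := hPk.near 0 (by rw [norm_zero]; positivity)
    have h4 : az t ^ p ≤ K ^ p * M ^ p := by
      rw [← Real.mul_rpow hK0.le hPk.pos.le]
      exact Real.rpow_le_rpow (az_nonneg t) (hF0.trans h3) hp.le
    have h5 : M ^ p ≤ (2 * K * (1 + A) ^ m) ^ p * (Real.log T * ∫ y in (-W)..W, g y) / c := by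
      rw [le_div_iff₀ hc, mul_comm]
      exact h1.trans hI
    have h6 : az t ^ p ≤ K' * Real.log T * ∫ y in (-W)..W, g y := by
      calc az t ^ p ≤ K ^ p * M ^ p := h4
        _ ≤ K ^ p * ((2 * K * (1 + A) ^ m) ^ p * (Real.log T * ∫ y in (-W)..W, g y) / c) :=
            mul_le_mul_of_nonneg_left h5 (by positivity)
        _ = (K ^ p / c * (2 * K * (1 + A) ^ m) ^ p) * (Real.log T * ∫ y in (-W)..W, g y) := by ring
        _ ≤ K' * (Real.log T * ∫ y in (-W)..W, g y) := mul_le_mul_of_nonneg_right hK'3 (by positivity)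
        _ = _ := by ring
    have h7 : 0 ≤ K' * t ^ (-(δ * p)) := by positivity
    linarith

end Pool.Agent.Helper156_SP
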