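import Mathlib
import Pool.Agent.Helper156_SP.Prod

set_option autoImplicit false

/-!
# Moments with microscopic shifts
-/

open Complex Set MeasureTheory Filter Topology

namespace Pool.Agent.Helper156_SP

lemma ker_int0 {l : ℝ} (hl : 0 < l) {W : ℝ} (hW : 0 ≤ W) :
    ∫ y in (-W)..W, ((1 + l * |y|) ^ 2)⁻¹ ≤ Real.pi / l := by
  have h := ker_int hl 0 (by linarith : -W ≤ W)
  simpa using h

/-- averaging a nonnegative continuous function against the kernel -/
lemma avg_ker {l W a T : ℝ} (hl : 0 < l) (hW : 0 ≤ W) (haW : W ≤ a) (haT : a ≤ T) {G : ℝ → ℝ}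
    (hG : Continuous G) (hG0 : ∀ u, 0 ≤ G u) :
    ∫ t in a..T, (∫ y in (-W)..W, ((1 + l * |y|) ^ 2)⁻¹ * G (t + y)) ≤
      Real.pi / l * ∫ u in (0:ℝ)..(T + W), G u := by
  have hk : Continuous fun y : ℝ => ((1 + l * |y|) ^ 2)⁻¹ := by
    apply Continuous.inv₀ (by fun_prop)
    intro y
    positivity
  have hcont : Continuous (Function.uncurry fun t y : ℝ => ((1 + l * |y|) ^ 2)⁻¹ * G (t + y)) := by
    apply Continuous.mul
    · exact hk.comp continuous_snd
    · exact hG.comp (continuous_fst.add continuous_snd)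
  have hI : IntegrableOn (Function.uncurry fun t y : ℝ => ((1 + l * |y|) ^ 2)⁻¹ * G (t + y))
      (uIoc a T ×ˢ uIoc (-W) W) := by
    have h1 : IntegrableOn (Function.uncurry fun t y : ℝ => ((1 + l * |y|) ^ 2)⁻¹ * G (t + y))
        (Icc a T ×ˢ Icc (-W) W) := by
      exact hcont.continuousOn.integrableOn_compact (isCompact_Icc.prod isCompact_Icc)
    refine h1.mono_set ?_
    rw [uIoc_of_le haT, uIoc_of_le (by linarith)]
    exact Set.prod_mono Ioc_subset_Icc_self Ioc_subset_Icc_self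
  rw [intervalIntegral_intervalIntegral_swap hI]
  have h2 : ∀ y ∈ Icc (-W) W, ∫ t in a..T, ((1 + l * |y|) ^ 2)⁻¹ * G (t + y) ≤
      ((1 + l * |y|) ^ 2)⁻¹ * ∫ u in (0:ℝ)..(T + W), G u := by
    intro y hy
    rw [intervalIntegral.integral_const_mul]
    apply mul_le_mul_of_nonneg_left _ (by positivity)
    rw [intervalIntegral.integral_comp_add_right (fun u => G u)]
    apply intervalIntegral.integral_mono_interval (by linarith [hy.1]) (by linarith) (by linarith [hy.2])
    · exact Filter.Eventually.of_forall hG0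
    · exact hG.intervalIntegrable _ _
  have h3 : ∫ y in (-W)..W, (∫ t in a..T, ((1 + l * |y|) ^ 2)⁻¹ * G (t + y)) ≤
      ∫ y in (-W)..W, ((1 + l * |y|) ^ 2)⁻¹ * ∫ u in (0:ℝ)..(T + W), G u := by
    apply intervalIntegral.integral_mono_on (by linarith)
    · apply Continuous.intervalIntegrable
      have : (fun y : ℝ => ∫ t in a..T, ((1 + l * |y|) ^ 2)⁻¹ * G (t + y)) =
          fun y : ℝ => ∫ t in a..T, (Function.uncurry fun y t : ℝ => ((1 + l * |y|) ^ 2)⁻¹ * G (t + y)) (y, t) := by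
        rfl
      rw [this]
      apply intervalIntegral.continuous_parametric_intervalIntegral_of_continuous'
      apply Continuous.mul
      · exact hk.comp continuous_fst
      · exact hG.comp (continuous_snd.add continuous_fst)
    · exact (hk.mul continuous_const).intervalIntegrable _ _
    · exact h2
  refine h3.trans ?_
  rw [intervalIntegral.integral_mul_const]
  apply mul_le_mul_of_nonneg_right (ker_int0 hl hW)
  exact intervalIntegral.integral_nonneg (by linarith) fun u _ => hG0 u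

/-- **moments with microscopic shifts are not smaller than the unshifted moment** -/
theorem shifts_low {A p : ℝ} (hA : 0 ≤ A) (hp : 0 < p) :
    ∃ c W T₀ : ℝ, 0 < c ∧ 0 < W ∧ ∀ T : ℝ, T₀ ≤ T → ∀ (n : ℕ) (α q : Fin n → ℝ), (∀ j, |α j| ≤ A) →
      (∀ j, 0 ≤ q j) → ∑ j, q j = p →
      c * ∫ t in (0:ℝ)..T, az t ^ p ≤ ∫ t in (0:ℝ)..(T + W), ∏ j, az (t + α j / Real.log T) ^ q j := by
  set κ : ℝ := 1 / (2 * (p + 1)) with hκ
  have hκ0 : 0 < κ := by positivity
  have hκ1 : κ ≤ 1 := by
    rw [hκ, div_le_one (by positivity)]; linarith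
  have hκp : κ * (p + 1) = 1 / 2 := by rw [hκ]; field_simp
  obtain ⟨W, δ, K, T₁, hW, hδ, hK, hT₁, hT₁W, hz⟩ := zeta_prod hA hp hκ0 hκ1
  set η : ℝ := min (κ * δ / 2) (1 / 4) with hη
  have hη0 : 0 < η := lt_min (by positivity) (by norm_num)
  have hη1 : η ≤ κ * δ / 2 := min_le_left _ _
  have hη2 : η ≤ 1 / 4 := min_le_right _ _
  have hK0 : 0 < K := by linarith
  have hpi := Real.pi_pos
  set C : ℝ := 2 * (K + 18 ^ p) with hC
  have hev1 := mom_low hp hη0 C
  have hev2 : ∀ᶠ T : ℝ in atTop, max T₁ 1 ≤ T ^ κ := (tendsto_rpow_atTop hκ0).eventually_ge_atTop _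
  obtain ⟨T₀, hT₀⟩ := eventually_atTop.1 (hev1.and (hev2.and (eventually_ge_atTop (2:ℝ))))
  refine ⟨κ / (2 * (Real.pi * K)), W, T₀, by positivity, by linarith, fun T hT n α q hα hq hsum => ?_⟩
  obtain ⟨h1, h2, hT2⟩ := hT₀ T hT
  have hT0 : 0 < T := by linarith
  have hlT : 0 < Real.log T := Real.log_pos (by linarith)
  set a : ℝ := T ^ κ with ha
  have ha1 : 1 ≤ a := (le_max_right _ _).trans h2
  have haT1 : T₁ ≤ a := (le_max_left _ _).trans h2
  have haT : a ≤ T := by
    calc a ≤ T ^ (1:ℝ) := Real.rpow_le_rpow_of_exponent_le (by linarith) hκ1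
      _ = T := Real.rpow_one T
  have ha0 : 0 < a := by linarith
  set l : ℝ := κ * Real.log T with hl
  have hl0 : 0 < l := by positivity
  have hla : Real.log a = l := by rw [ha, Real.log_rpow hT0]
  set G : ℝ → ℝ := fun u => ∏ j, az (u + α j / Real.log T) ^ q j with hG
  have hGc : Continuous G := by
    rw [hG]
    apply continuous_finsetProd
    intro j _
    exact (az_cont.comp (by fun_prop)).rpow_const fun _ => Or.inr (hq j)
  have hG0 : ∀ u, 0 ≤ G u := fun u => Finset.prod_nonneg fun j _ => Real.rpow_nonneg (az_nonneg _) _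
  have hpt : ∀ t ∈ Icc a T, az t ^ p ≤ K * a ^ (-δ) + K * Real.log T *
      ∫ y in (-W)..W, ((1 + l * |y|) ^ 2)⁻¹ * G (t + y) := by
    intro t ht
    have hlt : l ≤ Real.log t := by rw [← hla]; exact Real.log_le_log ha0 ht.1
    have h3 := hz T t (haT1.trans ht.1) ht.2 hlt n α q hα hq hsum
    have h5 : t ^ (-δ) ≤ a ^ (-δ) := Real.rpow_le_rpow_of_nonpos ha0 ht.1 (by linarith)
    have h6 := mul_le_mul_of_nonneg_left h5 hK0.le
    have h7 : ∫ y in (-W)..W, ((1 + κ * Real.log T * |y|) ^ 2)⁻¹ * ∏ j, az (t + y + α j / Real.log T) ^ q j =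
        ∫ y in (-W)..W, ((1 + l * |y|) ^ 2)⁻¹ * G (t + y) := rfl
    rw [h7] at h3
    linarith
  have hkc : Continuous fun t : ℝ => ∫ y in (-W)..W, ((1 + l * |y|) ^ 2)⁻¹ * G (t + y) := by
    have : (fun t : ℝ => ∫ y in (-W)..W, ((1 + l * |y|) ^ 2)⁻¹ * G (t + y)) =
        fun t : ℝ => ∫ y in (-W)..W, (Function.uncurry fun t y : ℝ => ((1 + l * |y|) ^ 2)⁻¹ * G (t + y)) (t, y) := rfl
    rw [this]
    apply intervalIntegral.continuous_parametric_intervalIntegral_of_continuous'
    apply Continuous.mul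
    · have hk : Continuous fun y : ℝ => ((1 + l * |y|) ^ 2)⁻¹ := by
        apply Continuous.inv₀ (by fun_prop)
        intro y
        positivity
      exact hk.comp continuous_snd
    · exact hGc.comp (continuous_fst.add continuous_snd)
  have hint : ∫ t in a..T, az t ^ p ≤ K * a ^ (-δ) * T + K * Real.log T * (Real.pi / l * ∫ u in (0:ℝ)..(T + W), G u) := by
    have h3 : ∫ t in a..T, az t ^ p ≤ ∫ t in a..T, (K * a ^ (-δ) + K * Real.log T *
        ∫ y in (-W)..W, ((1 + l * |y|) ^ 2)⁻¹ * G (t + y)) := by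
      apply intervalIntegral.integral_mono_on haT (azp_int hp _ _) _ hpt
      exact (continuous_const.add (continuous_const.mul hkc)).intervalIntegrable _ _
    refine h3.trans ?_
    have hkI : IntervalIntegrable (fun t : ℝ => K * Real.log T * ∫ y in (-W)..W, ((1 + l * |y|) ^ 2)⁻¹ * G (t + y))
        volume a T := (continuous_const.mul hkc).intervalIntegrable _ _
    rw [intervalIntegral.integral_add (by simp) hkI]
    apply add_le_add
    · rw [intervalIntegral.integral_const, smul_eq_mul]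
      have : 0 ≤ K * a ^ (-δ) := by positivity
      nlinarith
    · rw [intervalIntegral.integral_const_mul]
      apply mul_le_mul_of_nonneg_left _ (by positivity)
      exact avg_ker hl0 (by linarith) (by linarith) haT hGc hG0
  have hsplit : ∫ t in (0:ℝ)..T, az t ^ p = (∫ t in (0:ℝ)..a, az t ^ p) + ∫ t in a..T, az t ^ p :=
    (intervalIntegral.integral_add_adjacent_intervals (azp_int hp 0 a) (azp_int hp a T)).symm
  have hsm := int_small hp ha1
  have hXT : K * a ^ (-δ) * T ≤ K * T ^ (1 - η) := by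
    rw [ha, ← Real.rpow_mul hT0.le, mul_assoc]
    apply mul_le_mul_of_nonneg_left _ (by positivity)
    rw [← Real.rpow_add_one hT0.ne']
    apply Real.rpow_le_rpow_of_exponent_le (by linarith)
    have : 0 < κ * δ := by positivity
    nlinarith
  have haT2 : 18 ^ p * a ^ (p + 1) ≤ 18 ^ p * T ^ (1 - η) := by
    apply mul_le_mul_of_nonneg_left _ (by positivity)
    rw [ha, ← Real.rpow_mul hT0.le, hκp]
    apply Real.rpow_le_rpow_of_exponent_le (by linarith)
    linarith
  have hfin : ∫ t in (0:ℝ)..T, az t ^ p ≤ 2 * (K * Real.log T * (Real.pi / l * ∫ u in (0:ℝ)..(T + W), G u)) := by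
    rw [hC] at h1
    have h5 : (K + 18 ^ p) * T ^ (1 - η) = K * T ^ (1 - η) + 18 ^ p * T ^ (1 - η) := by ring
    linarith
  have hc1 : κ / (2 * (Real.pi * K)) * (2 * (K * Real.log T * (Real.pi / l * ∫ u in (0:ℝ)..(T + W), G u))) =
      ∫ u in (0:ℝ)..(T + W), G u := by
    rw [hl]
    field_simp
  show κ / (2 * (Real.pi * K)) * ∫ t in (0:ℝ)..T, az t ^ p ≤ ∫ u in (0:ℝ)..(T + W), G u
  rw [← hc1]
  exact mul_le_mul_of_nonneg_left hfin (by positivity)

end Pool.Agent.Helper156_SP
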