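import Mathlib
import Pool.Agent.W587.PL.E
import Pool.Agent.Helper156_SP.Core

set_option autoImplicit false

/-!
# A local majorant of exponential type near the critical line, as a multiple of the function
-/

open Complex Set
open W587.PL

namespace Pool.Agent.Helper156_SP

theorem core2 {ε B : ℝ} (hε : 0 < ε) (hε1 : ε ≤ 1) (hB : 1 ≤ B) {m : ℕ} (hm : 1 ≤ m) :
    ∃ δ W Λ₀ K : ℝ, 0 < δ ∧ 2 ≤ W ∧ 2 ≤ Λ₀ ∧ 1 ≤ K ∧
    ∀ (F : ℂ → ℂ) (Λ : ℝ), Λ₀ ≤ Λ → Loc F (3 / 4) δ B W Λ Λ →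
      (∀ z : ℂ, ‖z‖ ≤ 1 / Λ → ‖F z‖ ≤ K) ∨ ∃ H y₀ M, Pk F ε Λ K W m H y₀ M ∧
        ∃ E : ℂ → ℂ, Differentiable ℂ E ∧ ∀ z, H z = F z * E z := by
  have hm0 : (1:ℝ) ≤ m := by exact_mod_cast hm
  set c : ℝ := ε / 64 with hc
  have hc0 : 0 < c := by positivity
  have hc1 : c ≤ 1 / 64 := by rw [hc]; linarith
  set V : ℝ := (2 * B + c + 1) / c + 1 with hV
  have hV1 : 1 ≤ V := by
    have : 0 ≤ (2 * B + c + 1) / c := by positivity
    linarith
  have hVc : 2 * B + c + 1 ≤ c * V ^ 2 := by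
    have h1 : (2 * B + c + 1) / c ≤ V := by rw [hV]; linarith
    have h2 : 2 * B + c + 1 ≤ c * V := by
      rw [div_le_iff₀ hc0] at h1
      linarith
    nlinarith
  set W : ℝ := V + 1 with hW
  set K₁ : ℝ := Real.exp 2 * 2 ^ m with hK₁
  set K₂ : ℝ := (32 * m / ε) ^ m with hK₂
  have hK₁1 : 1 ≤ K₁ := by
    have h1 : 1 ≤ Real.exp 2 := Real.one_le_exp (by norm_num)
    have h2 : (1:ℝ) ≤ 2 ^ m := one_le_pow₀ (by norm_num)
    nlinarith
  have hK₂0 : 0 ≤ K₂ := by positivity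
  refine ⟨c, W, 2, K₁ + K₂, hc0, by linarith, le_rfl, by linarith, ?_⟩
  intro F Λ hΛ hL
  have hΛ0 : 0 < Λ := by linarith
  set η : ℝ := ε * Λ / 16 with hη
  have hη0 : 0 < η := by positivity
  set H : ℂ → ℂ := fun z => GG F c Λ Λ z * S m η z with hH
  have hHd : Differentiable ℂ H := (GG_diff hL.diff c Λ Λ).mul (S_diff m η)
  have hHn : ∀ x y : ℝ, ‖H (x + y * I)‖ = ‖F (x + y * I)‖ *
      Real.exp (Λ / 2 * x + c * Λ * (x ^ 2 - y ^ 2)) * ‖S m η (x + y * I)‖ := by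
    intro x y
    rw [hH]
    simp only
    rw [norm_mul, GG_norm]
  -- edges
  have hedge : ∀ x y : ℝ, |x| ≤ 3 / 4 → V ≤ |y| → |y| ≤ W → ‖H (x + y * I)‖ ≤ 1 := by
    intro x y hx hy1 hy2
    rw [hHn]
    have h1 := hL.crude x y hx hy2
    have hS := S_le hm hη0.le x y
    have hx2 : x ^ 2 ≤ 1 := by
      rw [sq_le_one_iff_abs_le_one]; linarith
    have hxa : x ≤ 1 := by linarith [le_abs_self x]
    have h4 : V ^ 2 ≤ y ^ 2 := by
      rw [← sq_abs y]
      exact pow_le_pow_left₀ (by linarith) hy1 2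
    have h5 : Λ / 2 * x ≤ Λ / 2 := by
      have : Λ / 2 * x ≤ Λ / 2 * 1 := mul_le_mul_of_nonneg_left hxa (by linarith)
      linarith
    have h6 : c * Λ * (x ^ 2 - y ^ 2) ≤ c * Λ * (1 - V ^ 2) :=
      mul_le_mul_of_nonneg_left (by linarith) (by positivity)
    have h7 : (2 * B + c + 1) * Λ ≤ c * V ^ 2 * Λ := mul_le_mul_of_nonneg_right hVc hΛ0.le
    have h8 : η * |x| ≤ Λ / 2 := by
      have h81 : η * |x| ≤ η * 1 := mul_le_mul_of_nonneg_left (by linarith) hη0.le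
      have h82 : ε * Λ ≤ 1 * Λ := mul_le_mul_of_nonneg_right hε1 hΛ0.le
      rw [hη] at h81 ⊢
      linarith
    have h9 : 0 ≤ B * Λ := by positivity
    calc ‖F (x + y * I)‖ * Real.exp (Λ / 2 * x + c * Λ * (x ^ 2 - y ^ 2)) * ‖S m η (x + y * I)‖
        ≤ Real.exp (B * Λ) * Real.exp (Λ / 2 * x + c * Λ * (x ^ 2 - y ^ 2)) * Real.exp (η * |x|) := by
          gcongr
      _ ≤ 1 := by
          rw [← Real.exp_add, ← Real.exp_add, Real.exp_le_one_iff]
          linarith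
  -- sides
  set A : ℝ := Real.exp (2 * c * Λ + 3 / 4 * Λ / 2 + η * (3 / 4)) with hA
  have hA1 : 1 ≤ A := Real.one_le_exp (by positivity)
  have hlA : Real.log A = 2 * c * Λ + 3 / 4 * Λ / 2 + η * (3 / 4) := Real.log_exp _
  have hside : ∀ x y : ℝ, |x| = 3 / 4 → |y| ≤ W → ‖H (x + y * I)‖ ≤ A := by
    intro x y hx hy
    rw [hHn]
    have h2 := hL.side x y hx hy
    have hS := S_le hm hη0.le x y
    rw [hx] at hS
    have h3 : x ^ 2 ≤ 1 := by
      rw [sq_le_one_iff_abs_le_one, hx]; norm_num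
    have h31 : 0 ≤ y ^ 2 := sq_nonneg y
    have h4 : c * Λ * (x ^ 2 - y ^ 2) ≤ c * Λ * 1 :=
      mul_le_mul_of_nonneg_left (by linarith) (by positivity)
    rw [hA]
    calc ‖F (x + y * I)‖ * Real.exp (Λ / 2 * x + c * Λ * (x ^ 2 - y ^ 2)) * ‖S m η (x + y * I)‖
        ≤ Real.exp (c * Λ + (3 / 4 - x) * Λ / 2) * Real.exp (Λ / 2 * x + c * Λ * 1) *
          Real.exp (η * (3 / 4)) := by gcongr
      _ = _ := by rw [← Real.exp_add, ← Real.exp_add]; congr 1; ring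
  have htype : Real.log A / (3 / 4) ≤ Λ * (1 / 2 + ε / 8) := by
    rw [hlA, div_le_iff₀ (by norm_num), hη, hc]
    have : 0 < ε * Λ := by positivity
    linarith
  have hbox : ∀ M : ℝ, 1 ≤ M → (∀ y : ℝ, |y| ≤ W → ‖H (y * I)‖ ≤ M) → ∀ x y : ℝ, |x| ≤ 3 / 4 → |y| ≤ W →
      ‖H (x + y * I)‖ ≤ M * Real.exp (Λ * (1 / 2 + ε / 8) * |x|) := by
    intro M hM1 hmax x y hx hy
    have h1 := W587.PL.box hHd (by norm_num : (0:ℝ) < 3 / 4) (by linarith : (0:ℝ) < W) hM1 hA1 hmax hside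
      (fun x y hx hy => hedge x y hx (by rw [hy]; linarith) hy.le) hx hy
    refine h1.trans ?_
    apply mul_le_mul_of_nonneg_left _ (by linarith : (0:ℝ) ≤ M)
    apply Real.exp_le_exp.2
    rw [mul_comm (Λ * (1 / 2 + ε / 8))]
    apply mul_le_mul_of_nonneg_left _ (abs_nonneg x)
    refine le_trans ?_ htype
    apply div_le_div_of_nonneg_right _ (by norm_num)
    have := Real.log_nonneg hM1
    linarith
  -- decay
  have hdec : ∀ y : ℝ, |y| ≤ W → (1 + Λ * |y|) ^ m * ‖H (y * I)‖ ≤ K₂ * ‖F (y * I)‖ := by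
    intro y hy
    have h1 := hHn 0 y
    rw [Complex.ofReal_zero, zero_add] at h1
    have h2 := S_dec hm hη0.le y
    have h3 : Real.exp (Λ / 2 * 0 + c * Λ * (0 ^ 2 - y ^ 2)) ≤ 1 := by
      rw [Real.exp_le_one_iff]
      have : 0 ≤ c * Λ * y ^ 2 := by positivity
      linarith
    have h4 : 1 + Λ * |y| ≤ 16 * m / ε * (1 + η / m * |y|) := by
      have e : 16 * m / ε * (1 + η / m * |y|) = 16 * m / ε + Λ * |y| := by
        rw [hη]; field_simp
      rw [e]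
      have : 1 ≤ 16 * m / ε := by
        rw [le_div_iff₀ hε]; linarith
      linarith
    rw [h1]
    calc (1 + Λ * |y|) ^ m * (‖F (y * I)‖ * Real.exp (Λ / 2 * 0 + c * Λ * (0 ^ 2 - y ^ 2)) * ‖S m η (y * I)‖)
        ≤ (16 * m / ε * (1 + η / m * |y|)) ^ m * (‖F (y * I)‖ * 1 * ‖S m η (y * I)‖) := by gcongr
      _ = (16 * m / ε) ^ m * ‖F (y * I)‖ * ((1 + η / m * |y|) ^ m * ‖S m η (y * I)‖) := by
          rw [mul_pow]; ring
      _ ≤ (16 * m / ε) ^ m * ‖F (y * I)‖ * 2 ^ m := by gcongr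
      _ = K₂ * ‖F (y * I)‖ := by
          rw [hK₂, show (32 * (m:ℝ) / ε) = (16 * m / ε) * 2 by ring, mul_pow]; ring
  -- near zero
  have hnear : ∀ M : ℝ, 1 ≤ M → (∀ y : ℝ, |y| ≤ W → ‖H (y * I)‖ ≤ M) → ∀ z : ℂ, ‖z‖ ≤ 1 / Λ →
      ‖F z‖ ≤ K₁ * M := by
    intro M hM1 hmax z hz
    have hz1 : 1 / Λ ≤ 1 / 2 := by
      rw [div_le_div_iff₀ hΛ0 (by norm_num)]; linarith
    have hx := (Complex.abs_re_le_norm z).trans hz
    have hy := (Complex.abs_im_le_norm z).trans hz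
    have ez : (z.re : ℂ) + z.im * I = z := Complex.re_add_im z
    have h1 := hbox M hM1 hmax z.re z.im (by linarith) (by linarith)
    rw [hHn, ez] at h1
    have hS := S_near (z := z) hm hη0.le (by
      have : η * ‖z‖ ≤ η * (1 / Λ) := mul_le_mul_of_nonneg_left hz hη0.le
      refine this.trans ?_
      rw [hη]
      have e : ε * Λ / 16 * (1 / Λ) = ε / 16 := by field_simp
      rw [e]; linarith)
    have hxΛ : Λ * |z.re| ≤ 1 := by
      rw [le_div_iff₀ hΛ0] at hx; linarith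
    have hyΛ : Λ * |z.im| ≤ 1 := by
      rw [le_div_iff₀ hΛ0] at hy; linarith
    have h2 : Real.exp (-1) ≤ Real.exp (Λ / 2 * z.re + c * Λ * (z.re ^ 2 - z.im ^ 2)) := by
      apply Real.exp_le_exp.2
      have h21 : -(1 / 2) ≤ Λ / 2 * z.re := by
        have h211 : Λ * (-|z.re|) ≤ Λ * z.re := mul_le_mul_of_nonneg_left (neg_abs_le _) hΛ0.le
        linarith
      have h22 : -(1 / 2) ≤ c * Λ * (z.re ^ 2 - z.im ^ 2) := by
        have h221 : Λ * z.im ^ 2 ≤ 1 := by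
          have : z.im ^ 2 = |z.im| * |z.im| := by rw [← sq, sq_abs]
          rw [this, ← mul_assoc]
          have h3 : |z.im| ≤ 1 := by linarith
          have h4 := abs_nonneg z.im
          nlinarith
        have h222 : 0 ≤ c * Λ * z.re ^ 2 := by positivity
        have h223 : c * (Λ * z.im ^ 2) ≤ c * 1 := mul_le_mul_of_nonneg_left h221 hc0.le
        have e : c * Λ * (z.re ^ 2 - z.im ^ 2) = c * Λ * z.re ^ 2 - c * (Λ * z.im ^ 2) := by ring
        rw [e]; linarith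
      linarith
    have h3 : Real.exp (Λ * (1 / 2 + ε / 8) * |z.re|) ≤ Real.exp 1 := by
      apply Real.exp_le_exp.2
      have : Λ * (1 / 2 + ε / 8) * |z.re| = (1 / 2 + ε / 8) * (Λ * |z.re|) := by ring
      rw [this]
      have h4 : (1 / 2 + ε / 8) * (Λ * |z.re|) ≤ (1 / 2 + ε / 8) * 1 :=
        mul_le_mul_of_nonneg_left hxΛ (by positivity)
      linarith
    have h4 : ‖F z‖ * Real.exp (-1) * (1 / 2) ^ m ≤ M * Real.exp 1 := by
      refine le_trans ?_ (h1.trans (mul_le_mul_of_nonneg_left h3 (by linarith)))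
      gcongr
    have h5 : ‖F z‖ = ‖F z‖ * Real.exp (-1) * (1 / 2) ^ m * (Real.exp 1 * 2 ^ m) := by
      have e1 : Real.exp (-1) * Real.exp 1 = 1 := by rw [← Real.exp_add]; simp
      have e2 : (1 / 2 : ℝ) ^ m * 2 ^ m = 1 := by rw [← mul_pow]; norm_num
      calc ‖F z‖ = ‖F z‖ * 1 * 1 := by ring
        _ = ‖F z‖ * (Real.exp (-1) * Real.exp 1) * ((1 / 2 : ℝ) ^ m * 2 ^ m) := by rw [e1, e2]
        _ = _ := by ring
    rw [h5]
    calc ‖F z‖ * Real.exp (-1) * (1 / 2) ^ m * (Real.exp 1 * 2 ^ m)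
        ≤ M * Real.exp 1 * (Real.exp 1 * 2 ^ m) := mul_le_mul_of_nonneg_right h4 (by positivity)
      _ = K₁ * M := by
          rw [hK₁, show (2:ℝ) = 1 + 1 by norm_num, Real.exp_add]; ring
  -- the maximum
  obtain ⟨y₁, hy₁, hmax⟩ := (isCompact_Icc (a := -W) (b := W)).exists_isMaxOn
    (nonempty_Icc.2 (by linarith)) (f := fun y : ℝ => ‖H (y * I)‖) (by
      apply Continuous.continuousOn
      exact (hHd.continuous.comp (by fun_prop)).norm)
  have hmax' : ∀ y : ℝ, |y| ≤ W → ‖H (y * I)‖ ≤ ‖H (y₁ * I)‖ := fun y hy => hmax (abs_le.1 hy)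
  rcases le_or_gt ‖H (y₁ * I)‖ 1 with h1 | h1
  · left
    intro z hz
    have := hnear 1 le_rfl (fun y hy => (hmax' y hy).trans h1) z hz
    linarith
  · right
    have hy₀ : |y₁| < V := by
      by_contra h2
      push Not at h2
      have h3 := hedge 0 y₁ (by rw [abs_zero]; norm_num) h2 (abs_le.2 hy₁)
      rw [Complex.ofReal_zero, zero_add] at h3
      linarith
    refine ⟨H, y₁, ‖H (y₁ * I)‖, ⟨hHd, by linarith, by linarith, rfl, ?_, ?_, ?_⟩,
      fun z => Complex.exp ((Λ / 2 : ℝ) * z + (c * Λ : ℝ) * z ^ 2) * S m η z, ?_, fun z => ?_⟩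
    · intro x y hx hy
      exact hbox _ h1.le hmax' x y (by linarith) hy
    · intro y hy
      refine (hdec y hy).trans ?_
      apply mul_le_mul_of_nonneg_right _ (norm_nonneg _)
      linarith
    · intro z hz
      refine (hnear _ h1.le hmax' z hz).trans ?_
      apply mul_le_mul_of_nonneg_right _ (by linarith)
      linarith
    · exact (by fun_prop : Differentiable ℂ fun z : ℂ => Complex.exp ((Λ / 2 : ℝ) * z + (c * Λ : ℝ) * z ^ 2)).mul
        (S_diff m η)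
    · show F z * Complex.exp ((Λ / 2 : ℝ) * z + (c * Λ : ℝ) * z ^ 2) * S m η z = _
      rw [mul_assoc]

end Pool.Agent.Helper156_SP
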