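import Mathlib
import Pool.Agent.Helper156_SP.Jen

set_option autoImplicit false

/-!
# Jensen's formula with multiplicities
-/

open Complex Set MeasureTheory Metric

namespace Pool.Agent.Helper156_SP

theorem jensen_mult {g : ℂ → ℂ} (hg : Differentiable ℂ g) {r C τ : ℝ} (hr : 0 < r) (hC : 1 ≤ C)
    (hτ : 0 ≤ τ) (h0 : g 0 ≠ 0) (hb : ∀ w : ℂ, ‖w‖ = r → ‖g w‖ ≤ C * Real.exp (τ * |w.im|))
    (S : Finset ℂ) (hS : ∀ s ∈ S, ‖s‖ ≤ r) :
    ∑ s ∈ S, (analyticOrderNatAt g s : ℝ) * Real.log (r / ‖s‖) + Real.log ‖g 0‖ ≤ Real.log C + τ * (2 * r / Real.pi) := by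
  have hA : AnalyticOnNhd ℂ g (closedBall 0 |r|) := fun z _ => hg.analyticAt z
  have hJ := hA.circleAverage_log_norm hr.ne' h0
  have habs : |r| = r := abs_of_pos hr
  -- the mean value
  have hmean : Real.circleAverage (fun w => Real.log ‖g w‖) 0 r ≤ Real.log C + τ * (2 * r / Real.pi) := by
    rw [← avg_im hr (Real.log C) τ]
    apply Real.circleAverage_mono
    · exact (hA.mono sphere_subset_closedBall).meromorphicOn.circleIntegrable_log_norm
    · exact ci_im r _ _
    · intro w hw
      rw [mem_sphere_zero_iff_norm, habs] at hw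
      have h1 := hb w hw
      rcases eq_or_ne (g w) 0 with h2 | h2
      · simp only [h2, norm_zero, Real.log_zero]
        have := Real.log_nonneg hC
        positivity
      · have h3 := Real.log_le_log (norm_pos_iff.2 h2) h1
        rwa [Real.log_mul (by linarith) (Real.exp_pos _).ne', Real.log_exp] at h3
  -- the zeros
  set dv := MeromorphicOn.divisor g (closedBall 0 |r|) with hdv
  have hfin : (Function.support dv).Finite := dv.finiteSupport (isCompact_closedBall 0 |r|)
  have hnn : ∀ u : ℂ, 0 ≤ dv u := fun u => MeromorphicOn.AnalyticOnNhd.divisor_nonneg hA u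
  have hlog : ∀ u : ℂ, ‖u‖ ≤ r → 0 ≤ Real.log (r * ‖0 - u‖⁻¹) := by
    intro u hu
    rw [zero_sub, norm_neg]
    rcases eq_or_ne u 0 with rfl | hu0
    · simp
    · apply Real.log_nonneg
      have hup : 0 < ‖u‖ := norm_pos_iff.2 hu0
      rw [← div_eq_mul_inv, one_le_div hup]
      exact hu
  have hterm : ∀ u : ℂ, 0 ≤ (dv u : ℝ) * Real.log (r * ‖0 - u‖⁻¹) := by
    intro u
    by_cases hu : u ∈ closedBall (0:ℂ) |r|
    · refine mul_nonneg (by exact_mod_cast hnn u) (hlog u ?_)
      rwa [mem_closedBall_zero_iff, habs] at hu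
    · have : dv u = 0 := dv.apply_eq_zero_of_notMem hu
      rw [this]; simp
  have hone : ∀ s ∈ S, (analyticOrderNatAt g s : ℝ) ≤ dv s := by
    intro s hs
    have hmem : s ∈ closedBall (0:ℂ) |r| := by
      rw [mem_closedBall_zero_iff, habs]
      exact hS s hs
    have hne : analyticOrderAt g s ≠ ⊤ := by
      intro htop
      rw [analyticOrderAt_eq_top] at htop
      have hall : EqOn g 0 univ := by
        apply AnalyticOnNhd.eqOn_of_preconnected_of_eventuallyEq (z₀ := s)
          (fun z _ => hg.analyticAt z) (fun z _ => analyticAt_const) isPreconnected_univ (mem_univ _)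
        exact htop
      exact h0 (hall (mem_univ 0))
    rw [hdv, MeromorphicOn.AnalyticOnNhd.divisor_apply hA hmem]
    obtain ⟨n, hn⟩ := ENat.ne_top_iff_exists.1 hne
    unfold analyticOrderNatAt
    rw [← hn]
    simp
  have hsum : ∑ s ∈ S, (analyticOrderNatAt g s : ℝ) * Real.log (r / ‖s‖) ≤
      ∑ᶠ u, (dv u : ℝ) * Real.log (r * ‖0 - u‖⁻¹) := by
    classical
    have hsup : (Function.support fun u => (dv u : ℝ) * Real.log (r * ‖0 - u‖⁻¹)) ⊆
        ((hfin.toFinset ∪ S : Finset ℂ) : Set ℂ) := by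
      intro u hu
      rw [Finset.coe_union, Set.Finite.coe_toFinset]
      left
      intro h
      apply hu
      simp only [h]
      simp
    rw [finsum_eq_sum_of_support_subset _ hsup]
    refine le_trans ?_ (Finset.sum_le_sum_of_subset_of_nonneg (Finset.subset_union_right) fun u _ _ => hterm u)
    refine Finset.sum_le_sum fun s hs => ?_
    have h1 := hlog s (hS s hs)
    have e : r / ‖s‖ = r * ‖0 - s‖⁻¹ := by
      rw [zero_sub, norm_neg, div_eq_mul_inv]
    rw [e]
    exact mul_le_mul_of_nonneg_right (hone s hs) h1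
  have hJ' : Real.circleAverage (fun w => Real.log ‖g w‖) 0 r =
      ∑ᶠ u, (dv u : ℝ) * Real.log (r * ‖0 - u‖⁻¹) + Real.log ‖g 0‖ := hJ
  linarith

end Pool.Agent.Helper156_SP
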