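import Mathlib
import Pool.Agent.W587.PL.D
import Pool.Agent.Helper156_SP.Zeta
import Pool.Agent.Helper156_SP.Low

set_option autoImplicit false

/-!
# Plateaus around the peaks of the local majorant
-/

open Complex Set
open W587.PL

namespace Pool.Agent.Helper156_SP

theorem Pk.plateau {ε : ℝ} (hε : 0 < ε) (hε1 : ε ≤ 1) :
    ∃ R s : ℝ, 4 ≤ R ∧ 0 < s ∧
    ∀ (F H : ℂ → ℂ) (Λ K W : ℝ) (m : ℕ) (y₀ M : ℝ), Pk F ε Λ K W m H y₀ M → R ≤ Λ →
      ∀ b : ℝ, |b| * Λ ≤ (1 - ε) * Real.pi → s * M ≤ ‖H (((y₀ + b : ℝ) : ℂ) * I)‖ := by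
  have hpi := Real.pi_pos
  set S₀ : ℝ := Real.sin ((1 / 2 + ε / 8) * (1 - ε) * Real.pi) with hS₀
  have harg : (1 / 2 + ε / 8) * (1 - ε) * Real.pi < Real.pi / 2 := by
    have : (1 / 2 + ε / 8) * (1 - ε) < 1 / 2 := by nlinarith
    nlinarith
  have harg0 : 0 ≤ (1 / 2 + ε / 8) * (1 - ε) * Real.pi := by
    have : 0 ≤ 1 - ε := by linarith
    positivity
  have hS1 : S₀ < 1 := by
    have h1 := Real.sin_lt_sin_of_lt_of_le_pi_div_two (by linarith) le_rfl harg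
    rwa [Real.sin_pi_div_two] at h1
  set s : ℝ := (1 - S₀) / 2 with hs
  have hs0 : 0 < s := by rw [hs]; linarith
  obtain ⟨N, hN⟩ := exists_nat_ge (max 1 (6 / s))
  have hN1 : (1:ℝ) ≤ N := (le_max_left _ _).trans hN
  have hN6 : 6 / s ≤ N := (le_max_right _ _).trans hN
  have hN1' : 1 ≤ N := by exact_mod_cast hN1
  have hN0 : (0:ℝ) < N := by linarith
  have h6N : 6 / (N:ℝ) ≤ s := by
    rw [div_le_iff₀ hN0]
    rw [div_le_iff₀ hs0] at hN6
    linarith
  refine ⟨max 4 (4 * Real.pi * (N + 1)), s, le_max_left _ _, hs0, ?_⟩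
  intro F H Λ K W m y₀ M hPk hΛ b hb
  have hΛ4 : 4 ≤ Λ := (le_max_left _ _).trans hΛ
  have hΛN : 4 * Real.pi * (N + 1) ≤ Λ := (le_max_right _ _).trans hΛ
  have hΛ0 : 0 < Λ := by linarith
  set τ : ℝ := Λ * (1 / 2 + ε / 8) with hτ
  have hτ0 : 0 < τ := by positivity
  have hτb : τ * |b| ≤ (1 / 2 + ε / 8) * (1 - ε) * Real.pi := by
    have e : τ * |b| = (1 / 2 + ε / 8) * (|b| * Λ) := by rw [hτ]; ring
    rw [e, mul_assoc]
    exact mul_le_mul_of_nonneg_left hb (by positivity)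
  have hτb2 : τ * |b| < Real.pi / 2 := lt_of_le_of_lt hτb harg
  have h := LS (g := fun w => H ((y₀ + w) * I)) (hPk.diff.comp (by fun_prop)) hτ0 hPk.pos hτb2 hN1'
    (fun w hw => by
      have hw2 : ‖w‖ ≤ 1 / 2 := by
        refine hw.trans ?_
        rw [div_le_iff₀ hτ0]
        have h1 : Λ / 2 ≤ τ := by
          rw [hτ]
          have : 0 < Λ * (ε / 8) := by positivity
          nlinarith
        nlinarith
      have e : ((y₀ : ℂ) + w) * I = ((-(w.im) : ℝ) : ℂ) + ((y₀ + w.re : ℝ) : ℂ) * I := by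
        apply Complex.ext
        · simp
        · simp
      show ‖H (((y₀ : ℂ) + w) * I)‖ ≤ _
      rw [e]
      have h1 : |w.im| ≤ 1 / 2 := (Complex.abs_im_le_norm w).trans hw2
      have h2 : |w.re| ≤ 1 / 2 := (Complex.abs_re_le_norm w).trans hw2
      have h3 := hPk.box (-(w.im)) (y₀ + w.re) (by rw [abs_neg]; exact h1) (by
        have := abs_add_le y₀ w.re
        linarith [hPk.cen])
      rwa [abs_neg, ← hτ] at h3)
  have hg0 : ‖H (((y₀ : ℂ) + 0) * I)‖ = M := by rw [add_zero]; exact hPk.top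
  have hsin : Real.sin (τ * |b|) ≤ S₀ := by
    rw [hS₀]
    exact Real.sin_le_sin_of_le_of_le_pi_div_two (by
      have : 0 ≤ τ * |b| := by positivity
      linarith) harg.le hτb
  have hb' : H (((y₀ : ℂ) + (b : ℂ)) * I) = H (((y₀ + b : ℝ) : ℂ) * I) := by push_cast; rfl
  simp only [hg0, hb'] at h
  have hM := hPk.pos
  have h1 : M * (Real.sin (τ * |b|) + 6 / N) ≤ M * (S₀ + s) := mul_le_mul_of_nonneg_left (by linarith) hM.le
  have h2 : M * (S₀ + s) = M - s * M := by rw [hs]; ring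
  linarith

open Pool.Agent.TH804.MS in
/-- **plateaus of zeta with a decaying weight** -/
theorem zeta_plateau {ε : ℝ} (hε : 0 < ε) (hε1 : ε ≤ 1) {m : ℕ} (hm : 1 ≤ m) :
    ∃ W δ K T₁ : ℝ, 2 ≤ W ∧ 0 < δ ∧ 1 ≤ K ∧ 8 ≤ T₁ ∧ 2 * W ≤ T₁ ∧ ∀ t : ℝ, T₁ ≤ t →
      az t ≤ K * t ^ (-δ) ∨ ∃ y₀ : ℝ, |y₀| + 1 ≤ W ∧ ∀ b : ℝ, |b| * Real.log t ≤ (1 - ε) * Real.pi →
        (1 + Real.log t * |y₀|) ^ m * az t ≤ K * az (t + y₀ + b) := by
  obtain ⟨W, δ, K, T₁, hW, hδ, hK, hT₁, hT₁W, hz⟩ := zeta_pk hε hε1 hm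
  obtain ⟨R, s, hR, hs, hP⟩ := Pk.plateau hε hε1
  have hpi := Real.pi_pos
  have hK0 : 0 < K := by linarith
  set K' : ℝ := max K (K * ((1 + Real.pi) ^ m * (K * 2) / s)) with hK'
  have hK'1 : K ≤ K' := le_max_left _ _
  have hK'2 : K * ((1 + Real.pi) ^ m * (K * 2) / s) ≤ K' := le_max_right _ _
  refine ⟨W, δ, K', max T₁ (Real.exp R), hW, hδ, hK.trans hK'1, hT₁.trans (le_max_left _ _),
    hT₁W.trans (le_max_left _ _), fun t ht => ?_⟩
  have ht1 : T₁ ≤ t := (le_max_left _ _).trans ht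
  have ht2 : Real.exp R ≤ t := (le_max_right _ _).trans ht
  have ht0 : 0 < t := by linarith
  have ht8 : 8 ≤ t := by linarith
  have hΛ : R ≤ Real.log t := by
    rw [Real.le_log_iff_exp_le ht0]; exact ht2
  have hΛ0 : 0 < Real.log t := by linarith
  have hF0 := le_F0 (T := t) ht8
  rcases hz t ht1 with h | ⟨H, y₀, M, hPk⟩
  · left
    have h1 := h 0 (by rw [norm_zero]; positivity)
    have h2 : az t ≤ K * t ^ (-δ) := hF0.trans h1
    exact h2.trans (mul_le_mul_of_nonneg_right hK'1 (by positivity))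
  · right
    refine ⟨y₀, hPk.cen, fun b hb => ?_⟩
    have h1 := hP (F t) H (Real.log t) K W m y₀ M hPk hΛ b hb
    have h2 : az t ≤ K * M := hF0.trans (hPk.near 0 (by rw [norm_zero]; positivity))
    have hbΛ : |b| * Real.log t ≤ Real.pi := hb.trans (by nlinarith)
    have hb1 : |b| ≤ 1 := by
      have : |b| * 4 ≤ |b| * Real.log t := mul_le_mul_of_nonneg_left (by linarith) (abs_nonneg b)
      have := Real.pi_lt_four
      linarith
    have hyW : |y₀ + b| ≤ W := by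
      have := abs_add_le y₀ b
      linarith [hPk.cen]
    have h3 := hPk.dec (y₀ + b) hyW
    have h4 := F_le (T := t) ht8 (z := ((y₀ + b : ℝ) : ℂ) * I) (by simp) (by
      have : ((((y₀ + b : ℝ) : ℂ) * I : ℂ)).im = y₀ + b := by simp
      rw [this]; linarith)
    have e2 : (1 / 2 + (t : ℂ) * Complex.I + ((y₀ + b : ℝ) : ℂ) * I) = 1 / 2 + ((t + y₀ + b : ℝ) : ℂ) * I := by
      push_cast; ring
    rw [e2] at h4
    have h4' : ‖F t (((y₀ + b : ℝ) : ℂ) * I)‖ ≤ 2 * az (t + y₀ + b) := h4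
    have h5 : 1 + Real.log t * |y₀| ≤ (1 + Real.pi) * (1 + Real.log t * |y₀ + b|) := by
      have h6 : |y₀| ≤ |y₀ + b| + |b| := by
        have h7 := abs_sub (y₀ + b) b
        rwa [add_sub_cancel_right] at h7
      have h7 : Real.log t * |y₀| ≤ Real.log t * |y₀ + b| + Real.pi := by
        have := mul_le_mul_of_nonneg_left h6 hΛ0.le
        nlinarith
      have h8 : 0 ≤ Real.log t * |y₀ + b| := by positivity
      nlinarith
    have h6 : (1 + Real.log t * |y₀|) ^ m ≤ (1 + Real.pi) ^ m * (1 + Real.log t * |y₀ + b|) ^ m := by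
      rw [← mul_pow]
      exact pow_le_pow_left₀ (by positivity) h5 m
    have hX : 0 ≤ (1 + Real.log t * |y₀|) ^ m := by positivity
    have hM := hPk.pos
    calc (1 + Real.log t * |y₀|) ^ m * az t ≤ (1 + Real.log t * |y₀|) ^ m * (K * M) :=
          mul_le_mul_of_nonneg_left h2 hX
      _ = K * ((1 + Real.log t * |y₀|) ^ m * (s * M)) / s := by field_simp
      _ ≤ K * (((1 + Real.pi) ^ m * (1 + Real.log t * |y₀ + b|) ^ m) * ‖H (((y₀ + b : ℝ) : ℂ) * I)‖) / s := by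
          gcongr
      _ = K * ((1 + Real.pi) ^ m * ((1 + Real.log t * |y₀ + b|) ^ m * ‖H (((y₀ + b : ℝ) : ℂ) * I)‖)) / s := by ring
      _ ≤ K * ((1 + Real.pi) ^ m * (K * (2 * az (t + y₀ + b)))) / s := by
          have h7 := h3.trans (mul_le_mul_of_nonneg_left h4' hK0.le)
          gcongr
      _ = K * ((1 + Real.pi) ^ m * (K * 2) / s) * az (t + y₀ + b) := by ring
      _ ≤ K' * az (t + y₀ + b) := mul_le_mul_of_nonneg_right hK'2 (az_nonneg _)

end Pool.Agent.Helper156_SP
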