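import Mathlib
import Pool.Agent.Helper156_SP.Core2
import Pool.Agent.Helper156_SP.Jen2
import Pool.Agent.Helper156_SP.Plat

set_option autoImplicit false

/-!
# Peaks of the local majorant: plateau on the line and sparsity of the zeros nearby
-/

open Complex Set
open W587.PL

namespace Pool.Agent.Helper156_SP

open Pool.Agent.TH804.MS in
/-- **local majorants for zeta**, as multiples of the function -/
theorem zeta_pk2 {ε : ℝ} (hε : 0 < ε) (hε1 : ε ≤ 1) {m : ℕ} (hm : 1 ≤ m) :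
    ∃ W δ K T₁ : ℝ, 2 ≤ W ∧ 0 < δ ∧ 1 ≤ K ∧ 8 ≤ T₁ ∧ 2 * W ≤ T₁ ∧ ∀ t : ℝ, T₁ ≤ t →
      (∀ z : ℂ, ‖z‖ ≤ 1 / Real.log t → ‖F t z‖ ≤ K * t ^ (-δ)) ∨
        ∃ H y₀ M, Pk (F t) ε (Real.log t) K W m H y₀ M ∧
          ∃ E : ℂ → ℂ, Differentiable ℂ E ∧ ∀ z, H z = F t z * E z := by
  obtain ⟨δ, W, Λ₀, K, hδ, hW, hΛ₀, hK, hcore⟩ := core2 hε hε1 (by norm_num : (1:ℝ) ≤ 4) hm
  obtain ⟨T₁, hT₁, hloc⟩ := loc (a := 3 / 4) (δ := δ / 2) (W := W) (by norm_num) le_rfl (by positivity)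
    (by linarith)
  set δ' : ℝ := min (δ / 2) 1 with hδ'
  have hδ'0 : 0 < δ' := lt_min (by positivity) one_pos
  have hδ'1 : δ' ≤ δ / 2 := min_le_left _ _
  have hδ'2 : δ' ≤ 1 := min_le_right _ _
  refine ⟨W, δ', K, max (max T₁ (2 * W)) (Real.exp Λ₀), hW, hδ'0, hK,
    hT₁.trans ((le_max_left _ _).trans (le_max_left _ _)),
    (le_max_right _ _).trans (le_max_left _ _), fun t ht => ?_⟩
  have ht1 : T₁ ≤ t := ((le_max_left _ _).trans (le_max_left _ _)).trans ht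
  have ht2 : Real.exp Λ₀ ≤ t := (le_max_right _ _).trans ht
  have ht0 : 0 < t := by linarith
  have hΛ : Λ₀ ≤ Real.log t := by
    rw [Real.le_log_iff_exp_le ht0]; exact ht2
  have hL := hloc t ht1
  have hL' : Loc (F t) (3 / 4) (δ - δ') 3 W (Real.log t) (Real.log t) := by
    refine ⟨hL.diff, hL.l0, hL.lB, fun x y hx hy => (hL.side x y hx hy).trans ?_, hL.crude⟩
    apply Real.exp_le_exp.2
    have : δ / 2 * Real.log t ≤ (δ - δ') * Real.log t := mul_le_mul_of_nonneg_right (by linarith) (by linarith)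
    linarith
  have hS := Loc.scale (by linarith : 0 ≤ Real.log t) hδ'2 hL'
  rw [sub_add_cancel] at hS
  rcases hcore _ (Real.log t) hΛ hS with h | ⟨H, y₀, M, h, E, hE, hHE⟩
  · left
    intro z hz
    have h1 := h z hz
    rw [norm_mul, Complex.norm_real, Real.norm_eq_abs, abs_of_pos (Real.exp_pos _), ← rpow_exp ht0] at h1
    rw [Real.rpow_neg ht0.le, ← div_eq_mul_inv, le_div_iff₀ (by positivity), mul_comm]
    exact h1
  · right
    refine ⟨_, _, _, Pk.scale (Real.exp_pos _) h, E, hE, fun z => ?_⟩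
    have hne : ((Real.exp (δ' * Real.log t) : ℝ) : ℂ) ≠ 0 := by
      exact_mod_cast (Real.exp_pos _).ne'
    show ((Real.exp (δ' * Real.log t) : ℝ) : ℂ)⁻¹ * H z = F t z * E z
    rw [hHE z]
    field_simp

open Pool.Agent.TH804.MS in
/-- the order of zeta is at most the order of the rescaled majorant -/
lemma order_le {t Λ y₀ : ℝ} (ht : 0 < t) (hΛ : 0 < Λ) {H E : ℂ → ℂ} (hE : Differentiable ℂ E)
    (hHE : ∀ z, H z = F t z * E z) {M : ℝ} (hM : 0 < M) (hHd : Differentiable ℂ H) (h0 : H (y₀ * I) ≠ 0) {w : ℂ}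
    (hw : 1 / 2 + (t : ℂ) * I + (y₀ + w / Λ) * I ≠ 1) :
    analyticOrderNatAt riemannZeta (1 / 2 + (t : ℂ) * I + (y₀ + w / Λ) * I) ≤
      analyticOrderNatAt (fun w : ℂ => (M : ℂ)⁻¹ * H ((y₀ + w / Λ) * I)) w := by
  have hΛc : (Λ : ℂ) ≠ 0 := by exact_mod_cast hΛ.ne'
  have htc : (t : ℂ) ≠ 0 := by exact_mod_cast ht.ne'
  have hMc : (M : ℂ) ≠ 0 := by exact_mod_cast hM.ne'
  set g : ℂ → ℂ := fun w : ℂ => (M : ℂ)⁻¹ * H ((y₀ + w / Λ) * I) with hg
  set ψ : ℂ → ℂ := fun w : ℂ => 1 / 2 + (t : ℂ) * I + (y₀ + w / Λ) * I with hψ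
  have hgd : Differentiable ℂ g := (hHd.comp (by fun_prop : Differentiable ℂ fun w : ℂ => (y₀ + w / Λ) * I)).const_mul _
  have hψd : Differentiable ℂ ψ := by rw [hψ]; fun_prop
  have hζ : AnalyticAt ℂ riemannZeta (ψ w) := by
    have h1 : ∀ᶠ s in nhds (ψ w), s ≠ 1 := isOpen_ne.mem_nhds hw
    rw [Complex.analyticAt_iff_eventually_differentiableAt]
    exact h1.mono fun s hs => differentiableAt_riemannZeta hs
  have hder : deriv ψ w = I / Λ := by
    have h1 : HasDerivAt ψ (I / Λ) w := by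
      have h2 : HasDerivAt (fun w : ℂ => (y₀ + w / Λ) * I) (1 / Λ * I) w :=
        (((hasDerivAt_id w).div_const (Λ : ℂ)).const_add (y₀ : ℂ)).mul_const I
      have h3 := h2.const_add (1 / 2 + (t : ℂ) * I)
      refine h3.congr_deriv ?_
      ring
    exact h1.deriv
  have hcomp : analyticOrderAt (riemannZeta ∘ ψ) w = analyticOrderAt riemannZeta (ψ w) :=
    analyticOrderAt_comp_of_deriv_ne_zero (hψd.analyticAt w) (by
      rw [hder]; exact div_ne_zero I_ne_zero hΛc)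
  set rest : ℂ → ℂ := fun w : ℂ => (M : ℂ)⁻¹ * ((ψ w - 1) / t * E ((y₀ + w / Λ) * I)) with hrest
  have hrd : Differentiable ℂ rest := by
    have h1 : Differentiable ℂ fun w : ℂ => E ((y₀ + w / Λ) * I) :=
      hE.comp (by fun_prop : Differentiable ℂ fun w : ℂ => (y₀ + w / Λ) * I)
    exact (((hψd.sub_const 1).div_const _).mul h1).const_mul _
  have hev : g =ᶠ[nhds w] (riemannZeta ∘ ψ) * rest := by
    have h1 : ∀ᶠ v in nhds w, ψ v ≠ 1 := hψd.continuous.continuousAt.eventually_ne hw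
    filter_upwards [h1] with v hv
    show (M : ℂ)⁻¹ * H ((y₀ + v / Λ) * I) = riemannZeta (ψ v) * ((M : ℂ)⁻¹ * ((ψ v - 1) / t * E ((y₀ + v / Λ) * I)))
    rw [hHE]
    unfold F
    have e : (1 / 2 + (t : ℂ) * Complex.I + (y₀ + v / Λ) * I) = ψ v := rfl
    rw [e, z1_ne hv]
    ring
  have hord : analyticOrderAt g w = analyticOrderAt riemannZeta (ψ w) + analyticOrderAt rest w := by
    rw [analyticOrderAt_congr hev, analyticOrderAt_mul (hζ.comp_of_eq (hψd.analyticAt w) rfl) (hrd.analyticAt w), hcomp]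
  have hle : analyticOrderAt riemannZeta (ψ w) ≤ analyticOrderAt g w := by
    rw [hord]; exact le_self_add
  have hne : analyticOrderAt g w ≠ ⊤ := by
    intro htop
    rw [analyticOrderAt_eq_top] at htop
    have hall : EqOn g 0 univ := by
      apply AnalyticOnNhd.eqOn_of_preconnected_of_eventuallyEq (z₀ := w)
        (fun z _ => hgd.analyticAt z) (fun z _ => analyticAt_const) isPreconnected_univ (mem_univ _)
      exact htop
    have h2 := hall (mem_univ 0)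
    have h3 : (M : ℂ)⁻¹ * H ((y₀ + 0 / Λ) * I) = 0 := h2
    rw [zero_div, add_zero] at h3
    exact h0 ((mul_eq_zero.1 h3).resolve_left (inv_ne_zero hMc))
  exact ENat.toNat_le_toNat hle hne

/-- the zeros of zeta near `1/2 + iu` are, in the logarithmic mean, at most as dense as on average: `L` is the logarithm of
the height, so that the mean spacing of the zeros is `2π / L` -/
def FewZeros (ε u L : ℝ) : Prop := ∀ r : ℝ, 0 < r → r ≤ L / 2 → ∀ Z : Finset ℂ,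
  (∀ ρ ∈ Z, ‖ρ - (1 / 2 + u * I)‖ ≤ r / L) →
  ∑ ρ ∈ Z, (analyticOrderNatAt riemannZeta ρ : ℝ) * Real.log (r / (L * ‖ρ - (1 / 2 + u * I)‖)) ≤
    (1 + ε) * r / Real.pi

open Pool.Agent.TH804.MS in
lemma few_zeros {ε Λ K W t y₀ M : ℝ} {m : ℕ} {H E : ℂ → ℂ} (hε : 0 < ε) (ht : 8 ≤ t) (hΛ : 0 < Λ)
    (hPk : Pk (F t) ε Λ K W m H y₀ M) (hE : Differentiable ℂ E) (hHE : ∀ z, H z = F t z * E z)
    (htW : 1 < t + y₀) : FewZeros ε (t + y₀) Λ := by
  classical
  intro r hr hrL Z hZ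
  have hpi := Real.pi_pos
  have hM := hPk.pos
  have hΛc : (Λ : ℂ) ≠ 0 := by exact_mod_cast hΛ.ne'
  have hMc : (M : ℂ) ≠ 0 := by exact_mod_cast hM.ne'
  set su : ℂ := 1 / 2 + ((t + y₀ : ℝ) : ℂ) * I with hsu
  set g : ℂ → ℂ := fun w : ℂ => (M : ℂ)⁻¹ * H ((y₀ + w / Λ) * I) with hg
  have hgd : Differentiable ℂ g :=
    (hPk.diff.comp (by fun_prop : Differentiable ℂ fun w : ℂ => (y₀ + w / Λ) * I)).const_mul _
  have hH0 : H (y₀ * I) ≠ 0 := by
    rw [← norm_ne_zero_iff, hPk.top]; exact hM.ne'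
  have hg0 : ‖g 0‖ = 1 := by
    show ‖(M : ℂ)⁻¹ * H ((y₀ + 0 / Λ) * I)‖ = 1
    rw [zero_div, add_zero, norm_mul, norm_inv, hPk.top, Complex.norm_real, Real.norm_eq_abs, abs_of_pos hM]
    exact inv_mul_cancel₀ hM.ne'
  have hrΛ : r / Λ ≤ 1 / 2 := by
    rw [div_le_iff₀ hΛ]; linarith
  have hbd : ∀ w : ℂ, ‖w‖ = r → ‖g w‖ ≤ 1 * Real.exp ((1 / 2 + ε / 8) * |w.im|) := by
    intro w hw
    have e : ((y₀ : ℂ) + w / Λ) * I = ((-(w.im / Λ) : ℝ) : ℂ) + ((y₀ + w.re / Λ : ℝ) : ℂ) * I := by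
      apply Complex.ext
      · simp [Complex.div_ofReal_im]
      · simp [Complex.div_ofReal_re]
    have h1 : |w.im / Λ| ≤ 1 / 2 := by
      rw [abs_div, abs_of_pos hΛ]
      exact (div_le_div_of_nonneg_right ((Complex.abs_im_le_norm w).trans hw.le) hΛ.le).trans hrΛ
    have h2 : |w.re / Λ| ≤ 1 / 2 := by
      rw [abs_div, abs_of_pos hΛ]
      exact (div_le_div_of_nonneg_right ((Complex.abs_re_le_norm w).trans hw.le) hΛ.le).trans hrΛ
    have h3 := hPk.box (-(w.im / Λ)) (y₀ + w.re / Λ) (by rw [abs_neg]; exact h1) (by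
      have := abs_add_le y₀ (w.re / Λ)
      linarith [hPk.cen])
    show ‖(M : ℂ)⁻¹ * H ((y₀ + w / Λ) * I)‖ ≤ _
    rw [e, norm_mul, norm_inv, Complex.norm_real, Real.norm_eq_abs, abs_of_pos hM, one_mul, inv_mul_le_iff₀ hM]
    refine h3.trans (le_of_eq ?_)
    rw [abs_neg, abs_div, abs_of_pos hΛ]
    congr 2
    field_simp
  set wf : ℂ → ℂ := fun ρ => -I * Λ * (ρ - su) with hwf
  have hwn : ∀ ρ, ‖wf ρ‖ = Λ * ‖ρ - su‖ := by
    intro ρ
    rw [hwf]
    simp only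
    rw [norm_mul, norm_mul, norm_neg, Complex.norm_I, one_mul, Complex.norm_real, Real.norm_eq_abs, abs_of_pos hΛ]
  have hψ : ∀ ρ, 1 / 2 + (t : ℂ) * I + (y₀ + wf ρ / Λ) * I = ρ := by
    intro ρ
    have e1 : wf ρ / Λ = -I * (ρ - su) := by
      rw [hwf]; field_simp
    rw [e1, hsu]
    push_cast
    linear_combination (-(ρ - (1 / 2 + (t + y₀) * I)) : ℂ) * I_sq
  have hinj : ∀ x ∈ Z, ∀ y ∈ Z, wf x = wf y → x = y := by
    intro x _ y _ hxy
    rw [← hψ x, ← hψ y, hxy]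
  have hJ := jensen_mult hgd hr (le_refl (1:ℝ)) (by positivity : (0:ℝ) ≤ 1 / 2 + ε / 8) (by
    rw [← norm_ne_zero_iff, hg0]; norm_num) hbd (Z.image wf) (by
    intro s hs
    rw [Finset.mem_image] at hs
    obtain ⟨ρ, hρ, rfl⟩ := hs
    rw [hwn]
    have := hZ ρ hρ
    rw [le_div_iff₀ hΛ] at this
    linarith)
  rw [hg0, Real.log_one, add_zero, zero_add, Finset.sum_image hinj] at hJ
  have hle : ∑ ρ ∈ Z, (analyticOrderNatAt riemannZeta ρ : ℝ) * Real.log (r / (Λ * ‖ρ - su‖)) ≤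
      ∑ ρ ∈ Z, (analyticOrderNatAt g (wf ρ) : ℝ) * Real.log (r / ‖wf ρ‖) := by
    refine Finset.sum_le_sum fun ρ hρ => ?_
    rw [hwn]
    have hρ1 := hZ ρ hρ
    have hne : ρ ≠ 1 := by
      rintro rfl
      have h1 := Complex.abs_im_le_norm ((1:ℂ) - su)
      have h2 : ((1:ℂ) - su).im = -(t + y₀) := by rw [hsu]; simp
      rw [h2, abs_neg, abs_of_pos (by linarith)] at h1
      linarith
    have h1 := order_le (t := t) (Λ := Λ) (y₀ := y₀) (by linarith) hΛ hE hHE hM hPk.diff hH0 (w := wf ρ)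
      (by rw [hψ ρ]; exact hne)
    rw [hψ ρ] at h1
    have h2 : (analyticOrderNatAt riemannZeta ρ : ℝ) ≤ analyticOrderNatAt g (wf ρ) := (Nat.cast_le (α := ℝ)).2 h1
    apply mul_le_mul_of_nonneg_right h2
    rcases eq_or_ne ρ su with h3 | h3
    · rw [h3]; simp
    · apply Real.log_nonneg
      have h4 : 0 < ‖ρ - su‖ := norm_pos_iff.2 (sub_ne_zero.2 h3)
      rw [one_le_div (by positivity)]
      rw [le_div_iff₀ hΛ] at hρ1
      linarith
  refine hle.trans (hJ.trans ?_)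
  rw [mul_div_assoc', div_le_div_iff_of_pos_right hpi]
  nlinarith

open Pool.Agent.TH804.MS in
/-- **plateaus of zeta with a decaying weight and few zeros nearby** -/
theorem zeta_plateau2 {ε : ℝ} (hε : 0 < ε) (hε1 : ε ≤ 1) {m : ℕ} (hm : 1 ≤ m) :
    ∃ W δ K T₁ : ℝ, 2 ≤ W ∧ 0 < δ ∧ 1 ≤ K ∧ 8 ≤ T₁ ∧ 2 * W ≤ T₁ ∧ ∀ t : ℝ, T₁ ≤ t →
      az t ≤ K * t ^ (-δ) ∨ ∃ y₀ : ℝ, |y₀| + 1 ≤ W ∧ FewZeros ε (t + y₀) (Real.log t) ∧
        ∀ b : ℝ, |b| * Real.log t ≤ (1 - ε) * Real.pi →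
        (1 + Real.log t * |y₀|) ^ m * az t ≤ K * az (t + y₀ + b) := by
  obtain ⟨W, δ, K, T₁, hW, hδ, hK, hT₁, hT₁W, hz⟩ := zeta_pk2 hε hε1 hm
  obtain ⟨R, s, hR, hs, hP⟩ := Pk.plateau hε hε1
  have hpi := Real.pi_pos
  have hK0 : 0 < K := by linarith
  set K' : ℝ := max K (K * ((1 + Real.pi) ^ m * (K * 2) / s)) with hK'
  have hK'1 : K ≤ K' := le_max_left _ _
  have hK'2 : K * ((1 + Real.pi) ^ m * (K * 2) / s) ≤ K' := le_max_right _ _
  refine ⟨W, δ, K', max T₁ (Real.exp R), hW, hδ, hK.trans hK'1, hT₁.trans (le_max_left _ _),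
    hT₁W.trans (le_max_left _ _), fun t ht => ?_⟩
  have ht1 : T₁ ≤ t := (le_max_left _ _).trans ht
  have ht2 : Real.exp R ≤ t := (le_max_right _ _).trans ht
  have ht0 : 0 < t := by linarith
  have ht8 : 8 ≤ t := by linarith
  have hΛ : R ≤ Real.log t := by
    rw [Real.le_log_iff_exp_le ht0]; exact ht2
  have hΛ0 : 0 < Real.log t := by linarith
  have hF0 := le_F0 (T := t) ht8
  rcases hz t ht1 with h | ⟨H, y₀, M, hPk, E, hE, hHE⟩
  · left
    have h1 := h 0 (by rw [norm_zero]; positivity)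
    have h2 : az t ≤ K * t ^ (-δ) := hF0.trans h1
    exact h2.trans (mul_le_mul_of_nonneg_right hK'1 (by positivity))
  · right
    refine ⟨y₀, hPk.cen, few_zeros hε ht8 hΛ0 hPk hE hHE (by
      have := neg_abs_le y₀
      linarith [hPk.cen]), fun b hb => ?_⟩
    have h1 := hP (F t) H (Real.log t) K W m y₀ M hPk hΛ b hb
    have h2 : az t ≤ K * M := hF0.trans (hPk.near 0 (by rw [norm_zero]; positivity))
    have hbΛ : |b| * Real.log t ≤ Real.pi := hb.trans (by nlinarith)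
    have hb1 : |b| ≤ 1 := by
      have : |b| * 4 ≤ |b| * Real.log t := mul_le_mul_of_nonneg_left (by linarith) (abs_nonneg b)
      have := Real.pi_lt_four
      linarith
    have hyW : |y₀ + b| ≤ W := by
      have := abs_add_le y₀ b
      linarith [hPk.cen]
    have h3 := hPk.dec (y₀ + b) hyW
    have h4 := F_le (T := t) ht8 (z := ((y₀ + b : ℝ) : ℂ) * I) (by simp) (by
      have : ((((y₀ + b : ℝ) : ℂ) * I : ℂ)).im = y₀ + b := by simp
      rw [this]; linarith)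
    have e2 : (1 / 2 + (t : ℂ) * Complex.I + ((y₀ + b : ℝ) : ℂ) * I) = 1 / 2 + ((t + y₀ + b : ℝ) : ℂ) * I := by
      push_cast; ring
    rw [e2] at h4
    have h4' : ‖F t (((y₀ + b : ℝ) : ℂ) * I)‖ ≤ 2 * az (t + y₀ + b) := h4
    have h5 : 1 + Real.log t * |y₀| ≤ (1 + Real.pi) * (1 + Real.log t * |y₀ + b|) := by
      have h6 : |y₀| ≤ |y₀ + b| + |b| := by
        have h7 := abs_sub (y₀ + b) b
        rwa [add_sub_cancel_right] at h7
      have h7 : Real.log t * |y₀| ≤ Real.log t * |y₀ + b| + Real.pi := by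
        have := mul_le_mul_of_nonneg_left h6 hΛ0.le
        nlinarith
      have h8 : 0 ≤ Real.log t * |y₀ + b| := by positivity
      nlinarith
    have h6 : (1 + Real.log t * |y₀|) ^ m ≤ (1 + Real.pi) ^ m * (1 + Real.log t * |y₀ + b|) ^ m := by
      rw [← mul_pow]
      exact pow_le_pow_left₀ (by positivity) h5 m
    have hX : 0 ≤ (1 + Real.log t * |y₀|) ^ m := by positivity
    have hM := hPk.pos
    calc (1 + Real.log t * |y₀|) ^ m * az t ≤ (1 + Real.log t * |y₀|) ^ m * (K * M) :=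
          mul_le_mul_of_nonneg_left h2 hX
      _ = K * ((1 + Real.log t * |y₀|) ^ m * (s * M)) / s := by field_simp
      _ ≤ K * (((1 + Real.pi) ^ m * (1 + Real.log t * |y₀ + b|) ^ m) * ‖H (((y₀ + b : ℝ) : ℂ) * I)‖) / s := by
          gcongr
      _ = K * ((1 + Real.pi) ^ m * ((1 + Real.log t * |y₀ + b|) ^ m * ‖H (((y₀ + b : ℝ) : ℂ) * I)‖)) / s := by ring
      _ ≤ K * ((1 + Real.pi) ^ m * (K * (2 * az (t + y₀ + b)))) / s := by
          have h7 := h3.trans (mul_le_mul_of_nonneg_left h4' hK0.le)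
          gcongr
      _ = K * ((1 + Real.pi) ^ m * (K * 2) / s) * az (t + y₀ + b) := by ring
      _ ≤ K' * az (t + y₀ + b) := mul_le_mul_of_nonneg_right hK'2 (az_nonneg _)

end Pool.Agent.Helper156_SP
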