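import Mathlib
import Pool.Agent.Helper156_SP.Zeta2
import Pool.Agent.Helper156_SP.Fin3

set_option autoImplicit false

/-!
# The moments of zeta are carried by the neighbourhoods of plateaus
-/

open Complex Set MeasureTheory Filter Topology

namespace Pool.Agent.Helper156_SP

/-- at distance at most `κ` from `t` there is a point `u`, the zeros near which are few, and which is the centre of an
interval of length `(1 - ε) 2π / log t` on which `|ζ(1/2 + is)|` is positive and at least `c |ζ(1/2 + it)|` -/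
def NearPlateau (ε c κ t : ℝ) : Prop := ∃ u : ℝ, |u - t| ≤ κ ∧ FewZeros ε u (Real.log t) ∧
  ∀ s : ℝ, |s - u| * Real.log t ≤ (1 - ε) * Real.pi →
    riemannZeta (1 / 2 + s * I) ≠ 0 ∧ c * ‖riemannZeta (1 / 2 + t * I)‖ ≤ ‖riemannZeta (1 / 2 + s * I)‖

lemma int_log_small (A η C : ℝ) (hη : 0 < η) : ∀ᶠ T : ℝ in atTop,
    C * T ^ (1 - η) * Real.log T ^ A ≤ T ^ (1 - η / 2) := by
  have h1 : ∀ᶠ T : ℝ in atTop, C * (Real.log T ^ A / T ^ (η / 2)) ≤ 1 := by
    have h2 : Tendsto (fun T : ℝ => Real.log T ^ A / T ^ (η / 2)) atTop (𝓝 0) :=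
      (isLittleO_log_rpow_rpow_atTop A (by linarith : 0 < η / 2)).tendsto_div_nhds_zero
    have h3 := h2.const_mul C
    rw [mul_zero] at h3
    exact (h3.eventually (gt_mem_nhds one_pos)).mono fun _ h => h.le
  filter_upwards [h1, eventually_gt_atTop 0] with T h2 hT
  have e : T ^ (1 - η / 2) = T ^ (1 - η) * T ^ (η / 2) := by
    rw [← Real.rpow_add hT]; congr 1; ring
  have hp : 0 < T ^ (η / 2) := by positivity
  have hq : 0 < T ^ (1 - η) := by positivity
  rw [← mul_div_assoc, div_le_one hp] at h2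
  rw [e]
  calc C * T ^ (1 - η) * Real.log T ^ A = T ^ (1 - η) * (C * Real.log T ^ A) := by ring
    _ ≤ T ^ (1 - η) * T ^ (η / 2) := mul_le_mul_of_nonneg_left h2 hq.le

theorem carried {p ε A : ℝ} (hp : 0 < p) (hε : 0 < ε) (hε1 : ε < 1) (hA : 0 ≤ A) :
    ∃ c C W T₀ : ℝ, 0 < c ∧ 0 < C ∧ 0 < W ∧ ∀ T : ℝ, T₀ ≤ T → ∀ K : ℝ, 1 ≤ K → K ≤ Real.log T →
      ∀ E : Set ℝ, MeasurableSet E → E ⊆ Icc 2 T → (∀ t ∈ E, ¬ NearPlateau ε c (K / Real.log T) t) →
      ∫ t in E, az t ^ p ≤ C * K ^ (-A) * ∫ t in (0:ℝ)..(T + W), az t ^ p := by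
  have hpi := Real.pi_pos
  obtain ⟨m, hm1, hm2⟩ : ∃ m : ℕ, 1 ≤ m ∧ 2 + A ≤ m * p := by
    obtain ⟨m, hm⟩ := exists_nat_ge ((2 + A) / p)
    refine ⟨max m 1, le_max_right _ _, ?_⟩
    have h1 : (2 + A) / p ≤ ((max m 1 : ℕ) : ℝ) := hm.trans (by exact_mod_cast le_max_left _ _)
    rwa [div_le_iff₀ hp] at h1
  obtain ⟨W, δ, K₀, T₁, hW, hδ, hK₀, hT₁, hT₁W, hz⟩ := zeta_plateau2 hε hε1.le hm1
  have hK₀0 : 0 < K₀ := by linarith
  set κ : ℝ := 1 / (2 * (p + 1)) with hκ
  have hκ0 : 0 < κ := by positivity
  have hκ1 : κ ≤ 1 := by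
    rw [hκ, div_le_one (by positivity)]; linarith
  have hκp : κ * (p + 1) = 1 / 2 := by rw [hκ]; field_simp
  set η : ℝ := min (κ * (δ * p)) (1 / 2) with hη
  have hη0 : 0 < η := lt_min (by positivity) (by norm_num)
  have hη1 : η ≤ κ * (δ * p) := min_le_left _ _
  have hη2 : η ≤ 1 / 2 := min_le_right _ _
  set b₀ : ℝ := min ((1 - ε) * Real.pi) 1 with hb₀
  have hb₀0 : 0 < b₀ := lt_min (mul_pos (by linarith) hpi) one_pos
  have hb₀1 : b₀ ≤ 1 := min_le_right _ _
  have hb₀2 : b₀ ≤ (1 - ε) * Real.pi := min_le_left _ _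
  set C₁ : ℝ := K₀ ^ p * (2 / b₀) * κ ^ (-A) with hC₁
  have hC₁0 : 0 < C₁ := by positivity
  set C₂ : ℝ := 18 ^ p + K₀ ^ p with hC₂
  obtain ⟨T₀, hT₀⟩ := eventually_atTop.1 ((mom_low hp (by linarith : 0 < η / 2) 1).and
    ((int_log_small A η C₂ hη0).and (((tendsto_rpow_atTop hκ0).eventually_ge_atTop (max T₁ 2)).and
      (eventually_ge_atTop (3:ℝ)))))
  refine ⟨1 / K₀, 1 + C₁ * (Real.pi / κ), W, T₀, by positivity, by positivity, by linarith, ?_⟩
  intro T hT K hK1 hKT E hE hET hnear
  obtain ⟨h1, h2, h3, hT3⟩ := hT₀ T hT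
  have hT0 : 0 < T := by linarith
  have hlT : 0 < Real.log T := Real.log_pos (by linarith)
  have hK0 : 0 < K := by linarith
  set a : ℝ := T ^ κ with ha
  have ha2 : 2 ≤ a := (le_max_right _ _).trans h3
  have haT1 : T₁ ≤ a := (le_max_left _ _).trans h3
  have haT : a ≤ T := by
    calc a ≤ T ^ (1:ℝ) := Real.rpow_le_rpow_of_exponent_le (by linarith) hκ1
      _ = T := Real.rpow_one T
  have ha0 : 0 < a := by linarith
  set l : ℝ := κ * Real.log T with hl
  have hl0 : 0 < l := by positivity
  have hla : Real.log a = l := by rw [ha, Real.log_rpow hT0]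
  set G : ℝ → ℝ := fun u => az u ^ p with hG
  have hGc : Continuous G := azp_cont hp
  have hG0 : ∀ u, 0 ≤ G u := fun u => Real.rpow_nonneg (az_nonneg u) _
  set ker : ℝ → ℝ := fun t => ∫ y in (-W)..W, ((1 + l * |y|) ^ 2)⁻¹ * G (t + y) with hker
  have hker0 : ∀ t, 0 ≤ ker t := by
    intro t
    apply intervalIntegral.integral_nonneg (by linarith)
    intro y _
    have := hG0 (t + y)
    positivity
  have hkc : Continuous ker := by
    have : ker = fun t : ℝ => ∫ y in (-W)..W, (Function.uncurry fun t y : ℝ => ((1 + l * |y|) ^ 2)⁻¹ * G (t + y)) (t, y) := rfl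
    rw [this]
    apply intervalIntegral.continuous_parametric_intervalIntegral_of_continuous'
    apply Continuous.mul
    · have hk : Continuous fun y : ℝ => ((1 + l * |y|) ^ 2)⁻¹ := by
        apply Continuous.inv₀ (by fun_prop)
        intro y
        positivity
      exact hk.comp continuous_snd
    · exact hGc.comp (continuous_fst.add continuous_snd)
  -- the pointwise bound
  have hpt : ∀ t ∈ E, a ≤ t → az t ^ p ≤ K₀ ^ p * a ^ (-(δ * p)) + C₁ * K ^ (-A) * Real.log T * ker t := by
    intro t htE hat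
    have htT : t ≤ T := (hET htE).2
    have ht0 : 0 < t := by linarith
    have hlt : l ≤ Real.log t := by rw [← hla]; exact Real.log_le_log ha0 hat
    have hlt0 : 0 < Real.log t := by linarith
    have hltT : Real.log t ≤ Real.log T := Real.log_le_log ht0 htT
    have hr1 : 0 ≤ C₁ * K ^ (-A) * Real.log T * ker t := by
      have := hker0 t
      positivity
    have hr2 : 0 ≤ K₀ ^ p * a ^ (-(δ * p)) := by positivity
    rcases hz t (haT1.trans hat) with h | ⟨y₀, hy₀, hfew, hb⟩
    · have h3 := Real.rpow_le_rpow (az_nonneg t) h hp.le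
      rw [Real.mul_rpow hK₀0.le (by positivity), ← Real.rpow_mul ht0.le] at h3
      have h4 : t ^ (-δ * p) ≤ a ^ (-(δ * p)) := by
        rw [neg_mul]
        have : 0 < δ * p := by positivity
        exact Real.rpow_le_rpow_of_nonpos ha0 hat (by linarith)
      have h5 := mul_le_mul_of_nonneg_left h4 (by positivity : 0 ≤ K₀ ^ p)
      linarith
    · rcases (az_nonneg t).eq_or_lt with h0 | h0
      · rw [← h0, Real.zero_rpow hp.ne']
        linarith
      · set X : ℝ := 1 + Real.log t * |y₀| with hX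
        have hX1 : 1 ≤ X := by
          have : 0 ≤ Real.log t * |y₀| := by positivity
          linarith
        have hX0 : 0 < X := by linarith
        -- far
        have hfar : K / Real.log T < |y₀| := by
          by_contra hcon
          push Not at hcon
          apply hnear t htE
          refine ⟨t + y₀, by rwa [add_sub_cancel_left], hfew, fun s hs => ?_⟩
          have h4 := hb (s - (t + y₀)) hs
          have e : t + y₀ + (s - (t + y₀)) = s := by ring
          rw [e] at h4
          have h5 : az t ≤ K₀ * az s := by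
            have h6 : 1 ≤ X ^ m := one_le_pow₀ hX1
            have h7 : 1 * az t ≤ X ^ m * az t := mul_le_mul_of_nonneg_right h6 h0.le
            rw [one_mul] at h7
            exact h7.trans h4
          constructor
          · intro hzero
            have : az s = 0 := by unfold az; rw [hzero, norm_zero]
            rw [this, mul_zero] at h5
            linarith
          · show 1 / K₀ * az t ≤ az s
            rw [one_div, inv_mul_le_iff₀ hK₀0]
            exact h5
        have hXK : κ * K ≤ X := by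
          have h4 : K < Real.log T * |y₀| := by
            rwa [div_lt_iff₀ hlT, mul_comm] at hfar
          have h5 : κ * K ≤ κ * (Real.log T * |y₀|) := mul_le_mul_of_nonneg_left h4.le hκ0.le
          have h6 : κ * (Real.log T * |y₀|) = l * |y₀| := by rw [hl]; ring
          have h7 : l * |y₀| ≤ Real.log t * |y₀| := mul_le_mul_of_nonneg_right hlt (abs_nonneg _)
          linarith
        -- raise to the power p
        have hpow : ∀ b ∈ Icc (-(b₀ / Real.log t)) (b₀ / Real.log t),
            X ^ ((m:ℝ) * p) * az t ^ p ≤ K₀ ^ p * G (t + (y₀ + b)) := by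
          intro b hb1
          have h4 : |b| * Real.log t ≤ (1 - ε) * Real.pi := by
            have h5 : |b| ≤ b₀ / Real.log t := abs_le.2 hb1
            rw [le_div_iff₀ hlt0] at h5
            linarith
          have h5 := hb b h4
          have h6 := Real.rpow_le_rpow (by positivity) h5 hp.le
          rw [Real.mul_rpow (by positivity) (az_nonneg t), Real.mul_rpow hK₀0.le (az_nonneg _),
            ← Real.rpow_natCast, ← Real.rpow_mul hX0.le] at h6
          rw [← add_assoc]
          exact h6
        have hw : ∀ b ∈ Icc (-(b₀ / Real.log t)) (b₀ / Real.log t),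
            (4 * X ^ 2)⁻¹ ≤ ((1 + l * |y₀ + b|) ^ 2)⁻¹ := by
          intro b hb1
          apply inv_anti₀ (by positivity)
          have h5 : |b| ≤ b₀ / Real.log t := abs_le.2 hb1
          rw [le_div_iff₀ hlt0] at h5
          have h6 : |y₀ + b| ≤ |y₀| + |b| := abs_add_le _ _
          have h7 : l * |y₀ + b| ≤ Real.log t * (|y₀| + |b|) :=
            mul_le_mul hlt h6 (abs_nonneg _) hlt0.le
          have h8 : 1 + l * |y₀ + b| ≤ 2 * X := by rw [hX]; nlinarith
          have h9 : 0 ≤ 1 + l * |y₀ + b| := by positivity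
          calc (1 + l * |y₀ + b|) ^ 2 ≤ (2 * X) ^ 2 := pow_le_pow_left₀ h9 h8 2
            _ = 4 * X ^ 2 := by ring
        -- integrate
        have hbt : 0 < b₀ / Real.log t := by positivity
        have hI1 : ∫ _b in (-(b₀ / Real.log t))..(b₀ / Real.log t), (4 * X ^ 2)⁻¹ * (K₀ ^ (-p) * (X ^ ((m:ℝ) * p) * az t ^ p)) ≤
            ∫ b in (-(b₀ / Real.log t))..(b₀ / Real.log t), ((1 + l * |y₀ + b|) ^ 2)⁻¹ * G (t + (y₀ + b)) := by
          apply intervalIntegral.integral_mono_on (by linarith) (by simp)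
          · apply Continuous.intervalIntegrable
            apply Continuous.mul
            · apply Continuous.inv₀ (by fun_prop)
              intro y
              positivity
            · exact hGc.comp (by fun_prop)
          · intro b hb1
            apply mul_le_mul (hw b hb1) _ (by positivity) (by positivity)
            have h5 := hpow b hb1
            have h6 : K₀ ^ (-p) * (K₀ ^ p * G (t + (y₀ + b))) = G (t + (y₀ + b)) := by
              rw [← mul_assoc, ← Real.rpow_add hK₀0, neg_add_cancel, Real.rpow_zero, one_mul]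
            rw [← h6]
            exact mul_le_mul_of_nonneg_left h5 (by positivity)
        have hI2 : ∫ b in (-(b₀ / Real.log t))..(b₀ / Real.log t), ((1 + l * |y₀ + b|) ^ 2)⁻¹ * G (t + (y₀ + b)) ≤ ker t := by
          rw [intervalIntegral.integral_comp_add_left (fun y => ((1 + l * |y|) ^ 2)⁻¹ * G (t + y))]
          have hbt1 : b₀ / Real.log t ≤ 1 := by
            rw [div_le_one hlt0]
            have h8 : (8:ℝ) ≤ t := hT₁.trans (haT1.trans hat)
            have h9 : Real.exp 1 ≤ t := by have := Real.exp_one_lt_d9; linarith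
            have h10 : (1:ℝ) ≤ Real.log t := by rw [Real.le_log_iff_exp_le ht0]; exact h9
            linarith
          have hy := abs_le.1 (show |y₀| ≤ W - 1 by linarith)
          apply intervalIntegral.integral_mono_interval (by linarith [hy.1]) (by linarith) (by linarith [hy.2])
          · refine Filter.Eventually.of_forall fun y => ?_
            have := hG0 (t + y)
            show 0 ≤ ((1 + l * |y|) ^ 2)⁻¹ * G (t + y)
            positivity
          · apply Continuous.intervalIntegrable
            apply Continuous.mul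
            · apply Continuous.inv₀ (by fun_prop)
              intro y
              positivity
            · exact hGc.comp (by fun_prop)
        rw [intervalIntegral.integral_const, smul_eq_mul] at hI1
        have hI := hI1.trans hI2
        -- solve for az t ^ p
        have hXp : X ^ ((m:ℝ) * p) = X ^ (2:ℕ) * X ^ ((m:ℝ) * p - 2) := by
          rw [← Real.rpow_natCast, ← Real.rpow_add hX0]
          congr 1
          push_cast
          ring
        have hXA : (κ * K) ^ A ≤ X ^ ((m:ℝ) * p - 2) := by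
          calc (κ * K) ^ A ≤ X ^ A := Real.rpow_le_rpow (by positivity) hXK hA
            _ ≤ X ^ ((m:ℝ) * p - 2) := Real.rpow_le_rpow_of_exponent_le hX1 (by linarith)
        have hstep : b₀ / (2 * Real.log t) * (K₀ ^ (-p) * ((κ * K) ^ A * az t ^ p)) ≤ ker t := by
          refine le_trans ?_ hI
          have hzp : 0 ≤ az t ^ p := Real.rpow_nonneg h0.le _
          have h5 : b₀ / (2 * Real.log t) * (K₀ ^ (-p) * ((κ * K) ^ A * az t ^ p)) ≤
              b₀ / (2 * Real.log t) * (K₀ ^ (-p) * (X ^ ((m:ℝ) * p - 2) * az t ^ p)) := by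
            gcongr
          refine h5.trans (le_of_eq ?_)
          rw [hXp]
          field_simp
          ring
        have hfin : az t ^ p ≤ C₁ * K ^ (-A) * Real.log T * ker t := by
          have hκK : 0 < (κ * K) ^ A := by positivity
          have e1 : C₁ * K ^ (-A) = K₀ ^ p * (2 / b₀) * ((κ * K) ^ A)⁻¹ := by
            rw [hC₁, Real.mul_rpow hκ0.le hK0.le, mul_inv, Real.rpow_neg hκ0.le, Real.rpow_neg hK0.le]
            ring
          have e2 : az t ^ p = (K₀ ^ p * (2 / b₀) * ((κ * K) ^ A)⁻¹ * Real.log t) *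
              (b₀ / (2 * Real.log t) * (K₀ ^ (-p) * ((κ * K) ^ A * az t ^ p))) := by
            rw [Real.rpow_neg hK₀0.le]
            have : 0 < K₀ ^ p := by positivity
            field_simp
          rw [e1, e2]
          have h6 : 0 ≤ K₀ ^ p * (2 / b₀) * ((κ * K) ^ A)⁻¹ := by positivity
          have hk := hker0 t
          calc (K₀ ^ p * (2 / b₀) * ((κ * K) ^ A)⁻¹ * Real.log t) *
              (b₀ / (2 * Real.log t) * (K₀ ^ (-p) * ((κ * K) ^ A * az t ^ p))) ≤
              (K₀ ^ p * (2 / b₀) * ((κ * K) ^ A)⁻¹ * Real.log t) * ker t :=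
                mul_le_mul_of_nonneg_left hstep (by positivity)
            _ ≤ (K₀ ^ p * (2 / b₀) * ((κ * K) ^ A)⁻¹ * Real.log T) * ker t := by gcongr
        linarith
  -- integration
  set g : ℝ → ℝ := fun t => K₀ ^ p * a ^ (-(δ * p)) + C₁ * K ^ (-A) * Real.log T * ker t with hg
  have hgc : Continuous g := continuous_const.add (continuous_const.mul hkc)
  have hg0 : ∀ t, 0 ≤ g t := by
    intro t
    have := hker0 t
    show 0 ≤ K₀ ^ p * a ^ (-(δ * p)) + C₁ * K ^ (-A) * Real.log T * ker t
    positivity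
  have hIcc : ∀ (f : ℝ → ℝ) (x y : ℝ), Continuous f → IntegrableOn f (Icc x y) volume :=
    fun f x y hf => hf.continuousOn.integrableOn_Icc
  have hE1 : ∫ t in E ∩ Icc 0 a, az t ^ p ≤ ∫ t in (0:ℝ)..a, az t ^ p := by
    rw [intervalIntegral.integral_of_le ha0.le, ← integral_Icc_eq_integral_Ioc]
    exact setIntegral_mono_set (hIcc _ _ _ hGc) (Filter.Eventually.of_forall hG0)
      (Filter.Eventually.of_forall inter_subset_right)
  have hE2 : ∫ t in E ∩ Ioc a T, az t ^ p ≤ ∫ t in a..T, g t := by
    have hi1 : IntegrableOn (fun t => az t ^ p) (E ∩ Ioc a T) volume :=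
      (hIcc _ a T hGc).mono_set (inter_subset_right.trans Ioc_subset_Icc_self)
    have hi2 : IntegrableOn g (E ∩ Ioc a T) volume :=
      (hIcc _ a T hgc).mono_set (inter_subset_right.trans Ioc_subset_Icc_self)
    have h5 : ∫ t in E ∩ Ioc a T, az t ^ p ≤ ∫ t in E ∩ Ioc a T, g t :=
      setIntegral_mono_on hi1 hi2 (hE.inter measurableSet_Ioc) fun t ht => hpt t ht.1 ht.2.1.le
    refine h5.trans ?_
    rw [intervalIntegral.integral_of_le haT]
    exact setIntegral_mono_set ((hIcc _ a T hgc).mono_set Ioc_subset_Icc_self)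
      (Filter.Eventually.of_forall hg0) (Filter.Eventually.of_forall inter_subset_right)
  have hEs : ∫ t in E, az t ^ p = (∫ t in E ∩ Icc 0 a, az t ^ p) + ∫ t in E ∩ Ioc a T, az t ^ p := by
    have hu : E = (E ∩ Icc 0 a) ∪ (E ∩ Ioc a T) := by
      rw [← inter_union_distrib_left]
      refine (inter_eq_left.2 fun t ht => ?_).symm
      have h5 := hET ht
      rcases le_or_gt t a with h6 | h6
      · exact Or.inl ⟨by linarith [h5.1], h6⟩
      · exact Or.inr ⟨h6, h5.2⟩
    conv_lhs => rw [hu]
    apply setIntegral_union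
    · refine Set.disjoint_left.2 fun t ht1 ht2 => ?_
      exact absurd ht1.2.2 (not_le.2 ht2.2.1)
    · exact hE.inter measurableSet_Ioc
    · exact (hIcc _ 0 a hGc).mono_set inter_subset_right
    · exact (hIcc _ a T hGc).mono_set (inter_subset_right.trans Ioc_subset_Icc_self)
  have hg1 : ∫ t in a..T, g t ≤ K₀ ^ p * a ^ (-(δ * p)) * T +
      C₁ * K ^ (-A) * Real.log T * (Real.pi / l * ∫ u in (0:ℝ)..(T + W), G u) := by
    have hkI : IntervalIntegrable (fun t : ℝ => C₁ * K ^ (-A) * Real.log T * ker t) volume a T :=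
      (continuous_const.mul hkc).intervalIntegrable _ _
    rw [hg, intervalIntegral.integral_add (by simp) hkI]
    apply add_le_add
    · rw [intervalIntegral.integral_const, smul_eq_mul]
      have : 0 ≤ K₀ ^ p * a ^ (-(δ * p)) := by positivity
      nlinarith
    · rw [intervalIntegral.integral_const_mul]
      apply mul_le_mul_of_nonneg_left _ (by positivity)
      exact avg_ker hl0 (by linarith) (by linarith) haT hGc hG0
  have hsm := int_small hp (by linarith : 1 ≤ a)
  have hXT : K₀ ^ p * a ^ (-(δ * p)) * T ≤ K₀ ^ p * T ^ (1 - η) := by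
    rw [ha, ← Real.rpow_mul hT0.le, mul_assoc]
    apply mul_le_mul_of_nonneg_left _ (by positivity)
    rw [← Real.rpow_add_one hT0.ne']
    apply Real.rpow_le_rpow_of_exponent_le (by linarith)
    linarith
  have haT2 : 18 ^ p * a ^ (p + 1) ≤ 18 ^ p * T ^ (1 - η) := by
    apply mul_le_mul_of_nonneg_left _ (by positivity)
    rw [ha, ← Real.rpow_mul hT0.le, hκp]
    apply Real.rpow_le_rpow_of_exponent_le (by linarith)
    linarith
  have hKA : K ^ A ≤ Real.log T ^ A := Real.rpow_le_rpow hK0.le hKT hA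
  have hsmall : C₂ * T ^ (1 - η) ≤ K ^ (-A) * ∫ t in (0:ℝ)..(T + W), az t ^ p := by
    have h5 : C₂ * T ^ (1 - η) * K ^ A ≤ T ^ (1 - η / 2) :=
      (mul_le_mul_of_nonneg_left hKA (by positivity)).trans h2
    have h6 : T ^ (1 - η / 2) ≤ ∫ t in (0:ℝ)..(T + W), az t ^ p := by
      rw [one_mul] at h1
      refine h1.trans ?_
      have h7 := intervalIntegral.integral_add_adjacent_intervals (azp_int hp 0 T) (azp_int hp T (T + W))
      have h8 : 0 ≤ ∫ t in T..(T + W), az t ^ p :=
        intervalIntegral.integral_nonneg (by linarith) fun t _ => hG0 t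
      linarith
    rw [Real.rpow_neg hK0.le]
    have hKp : 0 < K ^ A := by positivity
    rw [inv_mul_eq_div, le_div_iff₀ hKp]
    exact h5.trans h6
  have hmain : C₁ * K ^ (-A) * Real.log T * (Real.pi / l * ∫ u in (0:ℝ)..(T + W), G u) =
      C₁ * (Real.pi / κ) * K ^ (-A) * ∫ t in (0:ℝ)..(T + W), az t ^ p := by
    have e0 : ∫ u in (0:ℝ)..(T + W), G u = ∫ t in (0:ℝ)..(T + W), az t ^ p := rfl
    rw [e0, hl]
    field_simp
  rw [hmain] at hg1
  rw [hEs]
  have e : C₂ * T ^ (1 - η) = 18 ^ p * T ^ (1 - η) + K₀ ^ p * T ^ (1 - η) := by rw [hC₂]; ring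
  have e2 : (1 + C₁ * (Real.pi / κ)) * K ^ (-A) * ∫ t in (0:ℝ)..(T + W), az t ^ p =
      K ^ (-A) * (∫ t in (0:ℝ)..(T + W), az t ^ p) + C₁ * (Real.pi / κ) * K ^ (-A) * ∫ t in (0:ℝ)..(T + W), az t ^ p := by
    ring
  rw [e2]
  linarith

end Pool.Agent.Helper156_SP
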