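import Mathlib

set_option autoImplicit false

/-!
# A function with a functional equation is not close to a polynomial
-/

open Complex Set Metric
open scoped ComplexConjugate

namespace Pool.Agent.Helper156_SP

/-- the reflection at the imaginary axis -/
noncomputable def St (g : ℂ → ℂ) (w : ℂ) : ℂ := conj (g (-conj w))

/-- `g ↦ g' + g` -/
noncomputable def TT (g : ℂ → ℂ) : ℂ → ℂ := fun w => deriv g w + g w

lemma St_diff {g : ℂ → ℂ} (hg : Differentiable ℂ g) : Differentiable ℂ (St g) := by
  intro w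
  have h1 : DifferentiableAt ℂ (fun v => g (-v)) (conj w) := (hg.comp differentiable_neg) _
  have h2 := h1.conj_conj
  simp only [Complex.conj_conj] at h2
  exact h2

lemma St_deriv {g : ℂ → ℂ} (hg : Differentiable ℂ g) : deriv (St g) = fun w => -St (deriv g) w := by
  funext w
  have h1 : HasDerivAt (fun v => g (-v)) (-(deriv g (-(conj w)))) (conj w) := by
    have h2 := (hg (-(conj w))).hasDerivAt
    exact (h2.comp (conj w) (hasDerivAt_neg (conj w))).congr_deriv (by ring)
  have h2 := h1.conj_conj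
  simp only [Complex.conj_conj] at h2
  have h3 : HasDerivAt (St g) (conj (-(deriv g (-(conj w))))) w := h2
  rw [h3.deriv, map_neg]
  rfl

lemma iter_diff {g : ℂ → ℂ} (hg : Differentiable ℂ g) (n : ℕ) : Differentiable ℂ (deriv^[n] g) := by
  induction n with
  | zero => exact hg
  | succ n ih =>
    rw [Function.iterate_succ_apply']
    exact ih.deriv

lemma St_iter {g : ℂ → ℂ} (hg : Differentiable ℂ g) (n : ℕ) :
    deriv^[n] (St g) = fun w => (-1) ^ n * St (deriv^[n] g) w := by
  induction n with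
  | zero => funext w; simp
  | succ n ih =>
    rw [Function.iterate_succ_apply', ih, Function.iterate_succ_apply']
    funext w
    have h1 := St_diff (iter_diff hg n)
    rw [deriv_const_mul _ (h1 w), St_deriv (iter_diff hg n)]
    ring

lemma TT_diff {g : ℂ → ℂ} (hg : Differentiable ℂ g) : Differentiable ℂ (TT g) := hg.deriv.add hg

lemma TT_iter_diff {g : ℂ → ℂ} (hg : Differentiable ℂ g) (n : ℕ) : Differentiable ℂ (TT^[n] g) := by
  induction n with
  | zero => exact hg
  | succ n ih =>
    rw [Function.iterate_succ_apply']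
    exact TT_diff ih

lemma TT_deriv {g : ℂ → ℂ} (hg : Differentiable ℂ g) : deriv (TT g) = TT (deriv g) := by
  funext w
  unfold TT
  rw [deriv_fun_add (hg.deriv w) (hg w)]

lemma iter_TT {g : ℂ → ℂ} (hg : Differentiable ℂ g) (n : ℕ) : deriv^[n] (TT g) = TT (deriv^[n] g) := by
  induction n generalizing g with
  | zero => rfl
  | succ n ih =>
    rw [Function.iterate_succ_apply, TT_deriv hg, ih hg.deriv, Function.iterate_succ_apply]

lemma iter_TT_iter {g : ℂ → ℂ} (hg : Differentiable ℂ g) (n k : ℕ) :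
    deriv^[n] (TT^[k] g) = TT^[k] (deriv^[n] g) := by
  induction k generalizing g with
  | zero => rfl
  | succ k ih =>
    rw [Function.iterate_succ_apply, ih (TT_diff hg), iter_TT hg, Function.iterate_succ_apply]

lemma exp_iter {g : ℂ → ℂ} (hg : Differentiable ℂ g) (n : ℕ) :
    deriv^[n] (fun w => exp w * g w) = fun w => exp w * (TT^[n] g) w := by
  induction n generalizing g with
  | zero => rfl
  | succ n ih =>
    rw [Function.iterate_succ_apply]
    have h1 : deriv (fun w => exp w * g w) = fun w => exp w * (TT g) w := by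
      funext w
      have h2 := (Complex.hasDerivAt_exp w).mul (hg w).hasDerivAt
      have h3 : deriv (fun w => exp w * g w) w = exp w * g w + exp w * deriv g w := h2.deriv
      rw [h3]
      unfold TT
      ring
    rw [h1, ih (TT_diff hg), Function.iterate_succ_apply]

/-- Cauchy's estimate -/
lemma cauchy1 {g : ℂ → ℂ} (hg : Differentiable ℂ g) {r e : ℝ} (h : ∀ w : ℂ, ‖w‖ ≤ r + 1 → ‖g w‖ ≤ e) :
    ∀ w : ℂ, ‖w‖ ≤ r → ‖deriv g w‖ ≤ e := by
  intro w hw
  have h1 := Complex.norm_deriv_le_of_forall_mem_sphere_norm_le (c := w) (R := 1) (C := e) one_pos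
    hg.diffContOnCl (fun z hz => by
      apply h
      have h2 : ‖z - w‖ = 1 := by simpa using hz
      have h3 := norm_add_le (z - w) w
      rw [sub_add_cancel] at h3
      linarith)
  simpa using h1

lemma cauchy_iter {g : ℂ → ℂ} (hg : Differentiable ℂ g) (n : ℕ) {r e : ℝ}
    (h : ∀ w : ℂ, ‖w‖ ≤ r + n → ‖g w‖ ≤ e) : ∀ w : ℂ, ‖w‖ ≤ r → ‖(deriv^[n] g) w‖ ≤ e := by
  induction n generalizing r with
  | zero => intro w hw; exact h w (by simpa using hw)
  | succ n ih =>
    rw [Function.iterate_succ_apply']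
    apply cauchy1 (iter_diff hg n)
    apply ih
    intro w hw
    apply h
    push_cast
    linarith

lemma TT_iter_le {g : ℂ → ℂ} (hg : Differentiable ℂ g) (n : ℕ) {r e : ℝ}
    (h : ∀ w : ℂ, ‖w‖ ≤ r + n → ‖g w‖ ≤ e) : ∀ w : ℂ, ‖w‖ ≤ r → ‖(TT^[n] g) w‖ ≤ 2 ^ n * e := by
  induction n generalizing r with
  | zero => intro w hw; simpa using h w (by simpa using hw)
  | succ n ih =>
    intro w hw
    rw [Function.iterate_succ_apply']
    have h1 := ih (r := r + 1) (fun v hv => h v (by push_cast; linarith))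
    have h2 := cauchy1 (TT_iter_diff hg n) (r := r) h1 w hw
    have h3 := h1 w (by linarith)
    unfold TT at h2 ⊢
    refine (norm_add_le _ _).trans ?_
    calc ‖deriv ((fun g w => deriv g w + g w)^[n] g) w‖ + ‖((fun g w => deriv g w + g w)^[n] g) w‖
        ≤ 2 ^ n * e + 2 ^ n * e := add_le_add h2 h3
      _ = 2 ^ (n + 1) * e := by ring

/-- `g = T g - g'`, iterated -/
lemma le_sum {g : ℂ → ℂ} (hg : Differentiable ℂ g) (n : ℕ) (w : ℂ) :
    ‖g w‖ ≤ ‖(deriv^[n] g) w‖ + ∑ j ∈ Finset.range n, ‖(deriv^[j] (TT g)) w‖ := by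
  induction n with
  | zero => simp
  | succ n ih =>
    rw [Finset.sum_range_succ]
    have h1 : ‖(deriv^[n] g) w‖ ≤ ‖(deriv^[n + 1] g) w‖ + ‖(deriv^[n] (TT g)) w‖ := by
      rw [iter_TT hg, Function.iterate_succ_apply']
      unfold TT
      have h2 : (deriv^[n] g) w = (deriv (deriv^[n] g) w + (deriv^[n] g) w) - deriv (deriv^[n] g) w := by ring
      have h3 := norm_sub_le (deriv (deriv^[n] g) w + (deriv^[n] g) w) (deriv (deriv^[n] g) w)
      rw [← h2] at h3
      linarith
    linarith

/-- **no solution of the functional equation is locally close to a polynomial** -/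
theorem der_low (m : ℕ) : ∃ c R : ℝ, 0 < c ∧ 0 ≤ R ∧ ∀ (f : ℂ → ℂ) (χ : ℂ), Differentiable ℂ f → 1 ≤ ‖f 0‖ →
    ‖χ‖ = 1 → (∀ w : ℂ, ‖w‖ ≤ R → ‖St f w - χ * (exp w * f w)‖ ≤ c) →
    ∃ w : ℂ, ‖w‖ ≤ R ∧ c ≤ ‖(deriv^[m] f) w‖ := by
  -- the radius and the constants
  set R : ℝ := (m : ℝ) ^ 2 + 2 * m + 1 with hR
  set B : ℝ := 2 * Real.exp R + 2 ^ m with hB
  have hB0 : 0 < B := by positivity
  set c : ℝ := 1 / (2 * (B * (m + 2) ^ (m + 1))) with hc
  have hc0 : 0 < c := by positivity
  refine ⟨c, R, hc0, by positivity, ?_⟩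
  intro f χ hf h0 hχ hfe
  by_contra hcon
  push Not at hcon
  have hsm : ∀ w : ℂ, ‖w‖ ≤ R → ‖(deriv^[m] f) w‖ ≤ c := fun w hw => (hcon w hw).le
  have hχ0 : χ ≠ 0 := by rw [← norm_ne_zero_iff, hχ]; norm_num
  -- `T^m f` is small
  set e : ℂ → ℂ := fun w => St f w - χ * (exp w * f w) with he
  have hexpf : Differentiable ℂ fun w => exp w * f w := Complex.differentiable_exp.mul hf
  have hed : Differentiable ℂ e := (St_diff hf).sub (hexpf.const_mul χ)
  have hiter : ∀ w, (deriv^[m] e) w = (-1) ^ m * St (deriv^[m] f) w - χ * (exp w * (TT^[m] f) w) := by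
    have h1 : ∀ n : ℕ, deriv^[n] e = fun w => (deriv^[n] (St f)) w - χ * (deriv^[n] fun w => exp w * f w) w := by
      intro n
      induction n with
      | zero => rfl
      | succ n ih =>
        rw [Function.iterate_succ_apply', ih, Function.iterate_succ_apply', Function.iterate_succ_apply']
        funext w
        rw [deriv_fun_sub (iter_diff (St_diff hf) n w) ((iter_diff hexpf n w).const_mul χ),
          deriv_const_mul _ (iter_diff hexpf n w)]
    intro w
    rw [h1 m, St_iter hf, exp_iter hf]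
  have hTm : ∀ w : ℂ, ‖w‖ ≤ R - m → ‖(TT^[m] f) w‖ ≤ 2 * Real.exp R * c := by
    intro w hw
    have hm0 : (0:ℝ) ≤ m := Nat.cast_nonneg m
    have h1 := cauchy_iter hed m (r := R - m) (e := c) (fun v hv => hfe v (by linarith)) w hw
    rw [hiter] at h1
    have h2 : ‖St (deriv^[m] f) w‖ ≤ c := by
      unfold St
      rw [RCLike.norm_conj]
      apply hsm
      rw [norm_neg, RCLike.norm_conj]
      linarith
    have h3 : ‖χ * (exp w * (TT^[m] f) w)‖ ≤ c + c := by
      have h4 : χ * (exp w * (TT^[m] f) w) = (-1) ^ m * St (deriv^[m] f) w -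
          ((-1) ^ m * St (deriv^[m] f) w - χ * (exp w * (TT^[m] f) w)) := by ring
      rw [h4]
      refine (norm_sub_le _ _).trans (add_le_add ?_ h1)
      rw [norm_mul, norm_pow, norm_neg, norm_one, one_pow, one_mul]
      exact h2
    rw [norm_mul, hχ, one_mul, norm_mul, Complex.norm_exp] at h3
    have h5 : Real.exp (-R) ≤ Real.exp w.re := by
      apply Real.exp_le_exp.2
      have := neg_abs_le w.re
      have := Complex.abs_re_le_norm w
      linarith
    have h6 : Real.exp (-R) * ‖(TT^[m] f) w‖ ≤ c + c :=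
      (mul_le_mul_of_nonneg_right h5 (norm_nonneg _)).trans h3
    rw [Real.exp_neg, inv_mul_le_iff₀ (Real.exp_pos R)] at h6
    linarith
  -- descent
  have hdesc : ∀ k : ℕ, k ≤ m → ∀ w : ℂ, ‖w‖ ≤ R - m - k * m → ‖(TT^[m - k] f) w‖ ≤ B * (m + 2) ^ k * c := by
    intro k
    induction k with
    | zero =>
      intro _ w hw
      have h1 := hTm w (by simpa using hw)
      rw [Nat.sub_zero, pow_zero, mul_one]
      refine h1.trans ?_
      apply mul_le_mul_of_nonneg_right _ hc0.le
      rw [hB]
      have : (0:ℝ) < 2 ^ m := by positivity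
      linarith
    | succ k ih =>
      intro hk w hw
      have hk' : k ≤ m := by omega
      have ih' := ih hk'
      have hm0 : (0:ℝ) ≤ m := Nat.cast_nonneg m
      have hkm : (0:ℝ) ≤ k * m := by positivity
      push_cast at hw
      set g : ℂ → ℂ := TT^[m - (k + 1)] f with hg
      have hgd : Differentiable ℂ g := TT_iter_diff hf _
      have hTg : TT g = TT^[m - k] f := by
        have e1 : (m - (k + 1)).succ = m - k := by omega
        rw [hg, ← Function.iterate_succ_apply' TT (m - (k + 1)) f, e1]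
      have h1 := le_sum hgd m w
      have h2 : ‖(deriv^[m] g) w‖ ≤ 2 ^ m * c := by
        rw [hg, iter_TT_iter hf]
        have h3 := TT_iter_le (iter_diff hf m) (m - (k + 1)) (r := R - m) (e := c) (fun v hv => hsm v (by
          have : ((m - (k + 1) : ℕ) : ℝ) ≤ m := by exact_mod_cast Nat.sub_le _ _
          linarith)) w (by nlinarith)
        refine h3.trans ?_
        apply mul_le_mul_of_nonneg_right _ hc0.le
        exact pow_le_pow_right₀ (by norm_num) (Nat.sub_le _ _)
      have h3 : ∑ j ∈ Finset.range m, ‖(deriv^[j] (TT g)) w‖ ≤ m * (B * (m + 2) ^ k * c) := by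
        have h4 : ∀ j ∈ Finset.range m, ‖(deriv^[j] (TT g)) w‖ ≤ B * (m + 2) ^ k * c := by
          intro j hj
          have hjm : (j : ℝ) ≤ m := by exact_mod_cast (Finset.mem_range.1 hj).le
          apply cauchy_iter (TT_diff hgd) j (r := R - m - (k + 1) * m) _ w hw
          intro v hv
          rw [hTg]
          apply ih' v
          linarith
        refine (Finset.sum_le_sum h4).trans (le_of_eq ?_)
        rw [Finset.sum_const, Finset.card_range, nsmul_eq_mul]
      refine h1.trans ((add_le_add h2 h3).trans ?_)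
      have h5 : (1:ℝ) ≤ (m + 2) ^ k := one_le_pow₀ (by linarith)
      have h6 : (2:ℝ) ^ m ≤ B * (m + 2) ^ k := by
        have h7 : (2:ℝ) ^ m ≤ B := by
          rw [hB]
          have := Real.exp_pos R
          linarith
        calc (2:ℝ) ^ m = 2 ^ m * 1 := (mul_one _).symm
          _ ≤ B * (m + 2) ^ k := mul_le_mul h7 h5 zero_le_one hB0.le
      have h8 : (2:ℝ) ^ m * c ≤ B * (m + 2) ^ k * c := mul_le_mul_of_nonneg_right h6 hc0.le
      have h9 : 0 ≤ B * (m + 2) ^ k * c := by positivity
      calc (2:ℝ) ^ m * c + m * (B * (m + 2) ^ k * c) ≤ B * (m + 2) ^ k * c + m * (B * (m + 2) ^ k * c) := by linarith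
        _ ≤ B * (m + 2) ^ (k + 1) * c := by rw [pow_succ]; nlinarith
  have h1 := hdesc m le_rfl 0 (by rw [norm_zero, hR]; nlinarith [Nat.cast_nonneg (α := ℝ) m])
  rw [Nat.sub_self, Function.iterate_zero, id] at h1
  have h2 : B * (m + 2) ^ m * c ≤ 1 / 2 := by
    rw [hc]
    have h3 : (0:ℝ) < (m + 2) ^ (m + 1) := by positivity
    rw [mul_one_div, div_le_iff₀ (by positivity)]
    have h4 : ((m:ℝ) + 2) ^ m ≤ (m + 2) ^ (m + 1) := pow_le_pow_right₀ (by
      have := Nat.cast_nonneg (α := ℝ) m
      linarith) (by omega)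
    have h5 := mul_le_mul_of_nonneg_left h4 hB0.le
    linarith
  linarith

end Pool.Agent.Helper156_SP
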