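import Mathlib
import Pool.Agent.Helper156_SP.Der1

set_option autoImplicit false

/-!
# Derivatives of zeta in local coordinates
-/

open Complex Set Metric

namespace Pool.Agent.Helper156_SP

/-- the recursion for `(s - 1)^(m + 1) ζ^(m)(s)` in local coordinates -/
noncomputable def GD (α ε : ℂ) (f : ℂ → ℂ) : ℕ → ℂ → ℂ
  | 0 => f
  | m + 1 => fun w => (α + ε * w) * deriv (GD α ε f m) w - (m + 1) * ε * GD α ε f m w

variable {α ε : ℂ} {f : ℂ → ℂ}

lemma GD_succ (m : ℕ) (w : ℂ) : GD α ε f (m + 1) w =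
    (α + ε * w) * deriv (GD α ε f m) w - (m + 1) * ε * GD α ε f m w := rfl

lemma GD_diff (hf : Differentiable ℂ f) (m : ℕ) : Differentiable ℂ (GD α ε f m) := by
  induction m with
  | zero => exact hf
  | succ m ih =>
    have h1 : Differentiable ℂ (deriv (GD α ε f m)) := ih.deriv
    have h2 : Differentiable ℂ fun w : ℂ => α + ε * w := by fun_prop
    exact (h2.mul h1).sub (ih.const_mul _)

lemma GD_rel (hf : Differentiable ℂ f) (m : ℕ) : ∀ w : ℂ, (α + ε * w) ^ (m + 1) * (deriv^[m + 1] f) w =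
    GD α ε f (m + 1) w + (m + 1) * ε * GD α ε f m w := by
  induction m with
  | zero =>
    intro w
    rw [GD_succ]
    simp [GD]
  | succ m ih =>
    intro w
    have hp : HasDerivAt (fun w : ℂ => (α + ε * w) ^ (m + 1)) ((m + 1 : ℕ) * (α + ε * w) ^ m * ε) w := by
      have h1 : HasDerivAt (fun w : ℂ => α + ε * w) ε w := by
        simpa using ((hasDerivAt_id w).const_mul ε).const_add α
      exact (h1.fun_pow (m + 1)).congr_deriv (by simp)
    have hl := hp.mul ((iter_diff hf (m + 1)) w).hasDerivAt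
    have hr : HasDerivAt (fun w => GD α ε f (m + 1) w + (m + 1) * ε * GD α ε f m w)
        (deriv (GD α ε f (m + 1)) w + (m + 1) * ε * deriv (GD α ε f m) w) w :=
      ((GD_diff hf (m + 1)) w).hasDerivAt.add (((GD_diff hf m) w).hasDerivAt.const_mul _)
    have e : (fun w => (α + ε * w) ^ (m + 1)) * (deriv^[m + 1] f) =
        fun w => GD α ε f (m + 1) w + (m + 1) * ε * GD α ε f m w := funext ih
    rw [e] at hl
    have h1 := hl.unique hr
    have h2 := ih w
    have h3 : GD α ε f (m + 1 + 1) w = (α + ε * w) * deriv (GD α ε f (m + 1)) w -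
        ((m + 1 : ℕ) + 1) * ε * GD α ε f (m + 1) w := rfl
    have h4 := GD_succ (α := α) (ε := ε) (f := f) m w
    have h5 : (deriv^[m + 1 + 1] f) w = deriv (deriv^[m + 1] f) w := by
      rw [Function.iterate_succ_apply' deriv (m + 1) f]
    rw [h5, h3]
    push_cast at h1 h2 h3 ⊢
    linear_combination (α + ε * w) * h1 - (m + 1) * ε * h2 - (m + 1) * ε * h4

lemma GD_le (hf : Differentiable ℂ f) (m : ℕ) {r S : ℝ} (hε : ‖ε‖ ≤ 1)
    (hα : ∀ w : ℂ, ‖w‖ ≤ r + m → ‖α + ε * w‖ ≤ 2) (h : ∀ w : ℂ, ‖w‖ ≤ r + m → ‖f w‖ ≤ S) :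
    ∀ w : ℂ, ‖w‖ ≤ r → ‖GD α ε f m w‖ ≤ (m + 2) ^ m * S := by
  induction m generalizing r with
  | zero => intro w hw; simpa [GD] using h w (by simpa using hw)
  | succ m ih =>
    intro w hw
    have h1 : ∀ v : ℂ, ‖v‖ ≤ r + 1 → ‖GD α ε f m v‖ ≤ (m + 2) ^ m * S :=
      ih (r := r + 1) (fun v hv => hα v (by push_cast; linarith)) (fun v hv => h v (by push_cast; linarith))
    have h2 := cauchy1 (GD_diff hf m) (r := r) h1 w hw
    have h3 := h1 w (by linarith)
    have hm0 : (0:ℝ) ≤ m := Nat.cast_nonneg m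
    have h4 := hα w (by push_cast; linarith)
    rw [GD_succ]
    have hS : 0 ≤ (m + 2 : ℝ) ^ m * S := (norm_nonneg _).trans h3
    have h5 : ‖((m:ℂ) + 1) * ε * GD α ε f m w‖ ≤ (m + 1) * ((m + 2) ^ m * S) := by
      rw [norm_mul, norm_mul]
      have h6 : ‖(m:ℂ) + 1‖ = m + 1 := by
        rw [← Nat.cast_succ, Complex.norm_natCast]; push_cast; ring
      rw [h6]
      calc ((m:ℝ) + 1) * ‖ε‖ * ‖GD α ε f m w‖ ≤ (m + 1) * 1 * ((m + 2) ^ m * S) := by gcongr
        _ = _ := by ring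
    have h6 : ‖(α + ε * w) * deriv (GD α ε f m) w‖ ≤ 2 * ((m + 2) ^ m * S) := by
      rw [norm_mul]
      exact mul_le_mul h4 h2 (norm_nonneg _) (by norm_num)
    refine (norm_sub_le _ _).trans ((add_le_add h6 h5).trans ?_)
    have hSS : 0 ≤ S := by
      by_contra hneg
      push Not at hneg
      have : (m + 2 : ℝ) ^ m * S < 0 := mul_neg_of_pos_of_neg (by positivity) hneg
      linarith
    have h7 : ((m:ℝ) + 2) ^ m ≤ (m + 3) ^ m := pow_le_pow_left₀ (by positivity) (by linarith) m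
    push_cast
    calc 2 * (((m:ℝ) + 2) ^ m * S) + (m + 1) * ((m + 2) ^ m * S) = (m + 3) * ((m + 2) ^ m * S) := by ring
      _ ≤ (m + 3) * ((m + 3) ^ m * S) := by gcongr
      _ = (m + 1 + 2) ^ (m + 1) * S := by ring

/-- relation with the derivatives of a function `g`, analytic away from `α + ε w = 0` -/
lemma GD_eq {g : ℂ → ℂ} {b l V : ℂ} (hg : ∀ s : ℂ, s ≠ 1 → DifferentiableAt ℂ g s)
    (hab : ∀ w : ℂ, b + l * w = 1 ↔ α + ε * w = 0)
    (h : ∀ w : ℂ, α + ε * w ≠ 0 → f w = (α + ε * w) * g (b + l * w) * V) (m : ℕ) :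
    ∀ w : ℂ, α + ε * w ≠ 0 → GD α ε f m w = (α + ε * w) ^ (m + 1) * (deriv^[m] g) (b + l * w) * l ^ m * V := by
  have hgm : ∀ m : ℕ, ∀ s : ℂ, s ≠ 1 → DifferentiableAt ℂ (deriv^[m] g) s := by
    intro m
    have h1 : AnalyticOnNhd ℂ g {s : ℂ | s ≠ 1} := by
      apply DifferentiableOn.analyticOnNhd _ isOpen_ne
      intro s hs
      exact (hg s hs).differentiableWithinAt
    have h2 : AnalyticOnNhd ℂ (deriv^[m] g) {s : ℂ | s ≠ 1} := h1.iterated_deriv m
    intro s hs
    exact (h2 s hs).differentiableAt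
  induction m with
  | zero => intro w hw; simp [GD, h w hw]
  | succ m ih =>
    intro w hw
    have hev : ∀ᶠ v in nhds w, α + ε * v ≠ 0 := by
      have hc : Continuous fun v : ℂ => α + ε * v := by fun_prop
      exact hc.continuousAt.eventually_ne hw
    have hev2 : GD α ε f m =ᶠ[nhds w] fun v => (α + ε * v) ^ (m + 1) * (deriv^[m] g) (b + l * v) * l ^ m * V :=
      hev.mono fun v hv => ih v hv
    have hne : b + l * w ≠ 1 := fun h1 => hw ((hab w).1 h1)
    have hp : HasDerivAt (fun w : ℂ => (α + ε * w) ^ (m + 1)) ((m + 1 : ℕ) * (α + ε * w) ^ m * ε) w := by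
      have h1 : HasDerivAt (fun w : ℂ => α + ε * w) ε w := by
        simpa using ((hasDerivAt_id w).const_mul ε).const_add α
      exact (h1.fun_pow (m + 1)).congr_deriv (by simp)
    have hq : HasDerivAt (fun w : ℂ => (deriv^[m] g) (b + l * w)) (deriv (deriv^[m] g) (b + l * w) * l) w := by
      have h1 : HasDerivAt (fun w : ℂ => b + l * w) l w := by
        simpa using ((hasDerivAt_id w).const_mul l).const_add b
      exact (hgm m _ hne).hasDerivAt.comp w h1
    have hd := (((hp.mul hq).mul_const (l ^ m)).mul_const V)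
    have h1 : deriv (GD α ε f m) w = _ := hev2.deriv_eq.trans hd.deriv
    have h5 : (deriv^[m + 1] g) (b + l * w) = deriv (deriv^[m] g) (b + l * w) := by
      rw [Function.iterate_succ_apply' deriv m g]
    rw [GD_succ, h1, ih w hw, h5]
    push_cast
    ring

end Pool.Agent.Helper156_SP
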