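import Mathlib
import Pool.Agent.TH804.MS1
import Pool.Agent.Helper156_SP.Der1
import Pool.Agent.W338.QS.Line
import Pool.Agent.W22.QS.Basic

set_option autoImplicit false

/-!
# The functional equation in local coordinates
-/

open Complex Set Metric
open scoped ComplexConjugate

namespace Pool.Agent.Helper156_SP

open Pool.Agent.TH804.MS Pool.Agent.W188.QS

/-- the functional equation -/
lemma St_F {t y₁ Λ V : ℝ} {w : ℂ} (him : 1 ≤ (1 / 2 + (t + y₁ : ℝ) * I + w / Λ : ℂ).im) :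
    St (fun w : ℂ => (V : ℂ) * F t (y₁ * I + w / Λ)) w =
      -((1 / 2 + (t + y₁ : ℝ) * I + w / Λ : ℂ) / ((1 / 2 + (t + y₁ : ℝ) * I + w / Λ : ℂ) - 1)) *
        XX (1 / 2 + (t + y₁ : ℝ) * I + w / Λ) * ((V : ℂ) * F t (y₁ * I + w / Λ)) := by
  set s : ℂ := 1 / 2 + (t + y₁ : ℝ) * I + w / Λ with hs
  have hs1 : s ≠ 1 := Pool.Agent.W22.QS.ne_one' him
  have e1 : (1 / 2 + (t : ℂ) * I + (y₁ * I + w / Λ)) = s := by rw [hs]; push_cast; ring
  have e2 : (1 / 2 + (t : ℂ) * I + (y₁ * I + -conj w / Λ)) = rf s := by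
    rw [rf, hs]
    simp only [map_add, map_mul, map_div₀, Complex.conj_ofReal, Complex.conj_I, map_one, map_ofNat]
    push_cast
    ring
  have hrim : 1 ≤ (rf s).im := by
    rw [rf]
    simpa using him
  have hr1 : rf s ≠ 1 := Pool.Agent.W22.QS.ne_one' hrim
  have h1 := Pool.Agent.W22.QS.zeta_rf him
  have hs10 : s - 1 ≠ 0 := sub_ne_zero.2 hs1
  have h2 : conj (rf s) - 1 = -s := by
    rw [rf]
    simp
  unfold St F
  beta_reduce
  rw [e1, e2, z1_ne hs1, z1_ne hr1, h1]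
  simp only [map_mul, map_div₀, Complex.conj_ofReal, map_sub, map_one, Complex.conj_conj]
  rw [h2]
  field_simp

lemma L2_near {t : ℝ} (ht : 100 ≤ t) {s : ℂ} (h0 : 0 < s.re) (h2 : s.re ≤ 4) (h1 : t / 2 ≤ s.im) (h3 : s.im ≤ 2 * t) :
    ‖H345.Chi.L2 s / (Real.log t : ℂ) - 1‖ ≤ 8 / Real.log t := by
  have hlt : 0 < Real.log t := Real.log_pos (by linarith)
  have hc := Pool.Agent.W338.QS.close h0 h2 (by linarith : 12 ≤ s.im)
  rw [Pool.Agent.W338.QS.ld h0 (by linarith)] at hc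
  have hc1 : 14 / s.im ≤ 1 := by rw [div_le_one (by linarith)]; linarith
  have hpi := Real.pi_gt_three
  have hpi2 := Real.pi_lt_d2
  have hl : |Real.log (s.im / (2 * Real.pi)) - Real.log t| ≤ 7 := by
    rw [Real.log_div (by linarith) (by positivity)]
    have h4 : Real.log s.im ≤ Real.log 2 + Real.log t := by
      rw [← Real.log_mul (by norm_num) (by linarith)]
      exact Real.log_le_log (by linarith) h3
    have h5 : Real.log t - Real.log 2 ≤ Real.log s.im := by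
      rw [← Real.log_div (by linarith) (by norm_num)]
      exact Real.log_le_log (by linarith) h1
    have h6 : Real.log (2 * Real.pi) ≤ 2 * Real.pi - 1 := Real.log_le_sub_one_of_pos (by positivity)
    have h7 : 0 ≤ Real.log (2 * Real.pi) := Real.log_nonneg (by linarith)
    have h8 : Real.log 2 < 1 := by have := Real.log_two_lt_d9; linarith
    rw [abs_le]
    constructor <;> linarith
  have h9 : ‖H345.Chi.L2 s - (Real.log t : ℂ)‖ ≤ 8 := by
    have e : H345.Chi.L2 s - (Real.log t : ℂ) = (H345.Chi.L2 s - (Real.log (s.im / (2 * Real.pi)) : ℂ)) +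
        ((Real.log (s.im / (2 * Real.pi)) - Real.log t : ℝ) : ℂ) := by push_cast; ring
    rw [e]
    refine (norm_add_le _ _).trans ?_
    rw [Complex.norm_real, Real.norm_eq_abs]
    linarith
  have hlc : (Real.log t : ℂ) ≠ 0 := by exact_mod_cast hlt.ne'
  have e : H345.Chi.L2 s / (Real.log t : ℂ) - 1 = (H345.Chi.L2 s - (Real.log t : ℂ)) / (Real.log t : ℂ) := by
    field_simp
  rw [e, norm_div, Complex.norm_real, Real.norm_eq_abs, abs_of_pos hlt]
  exact div_le_div_of_nonneg_right h9 hlt.le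

/-- **the functional equation in local coordinates** -/
theorem fe_close {R W : ℝ} (hR : 1 ≤ R) (hW : 1 ≤ W) : ∃ C T₂ : ℝ, 0 < C ∧ 8 ≤ T₂ ∧ ∀ t : ℝ, T₂ ≤ t →
    ∀ y₁ : ℝ, |y₁| ≤ W → ∀ V S : ℝ,
    (∀ w : ℂ, ‖w‖ ≤ R → ‖(V : ℂ) * F t (y₁ * I + w / Real.log t)‖ ≤ S) →
    ∃ χ : ℂ, ‖χ‖ = 1 ∧ ∀ w : ℂ, ‖w‖ ≤ R →
      ‖St (fun w : ℂ => (V : ℂ) * F t (y₁ * I + w / Real.log t)) w -
        χ * (exp w * ((V : ℂ) * F t (y₁ * I + w / Real.log t)))‖ ≤ C / Real.log t * S := by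
  refine ⟨Real.exp R * (16 * R + 8), max 100 (max (4 * (W + 1)) (Real.exp (16 * R))), by positivity,
    le_trans (by norm_num) (le_max_left _ _), ?_⟩
  intro t ht y₁ hy₁ V S hS
  have ht1 : 100 ≤ t := (le_max_left _ _).trans ht
  have ht2 : 4 * (W + 1) ≤ t := ((le_max_left _ _).trans (le_max_right _ _)).trans ht
  have ht3 : Real.exp (16 * R) ≤ t := ((le_max_right _ _).trans (le_max_right _ _)).trans ht
  have ht0 : 0 < t := by linarith
  set Λ : ℝ := Real.log t with hΛ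
  have hΛR : 16 * R ≤ Λ := by
    rw [hΛ, Real.le_log_iff_exp_le ht0]; exact ht3
  have hΛ0 : 0 < Λ := by linarith
  have hΛt : Λ ≤ t := by
    have := Real.log_le_sub_one_of_pos ht0
    linarith
  have hΛc : (Λ : ℂ) ≠ 0 := by exact_mod_cast hΛ0.ne'
  set ψ : ℂ → ℂ := fun w => 1 / 2 + (t + y₁ : ℝ) * I + w / Λ with hψ
  have hRΛ : R / Λ ≤ 1 / 16 := by rw [div_le_div_iff₀ hΛ0 (by norm_num)]; linarith
  have hy := abs_le.1 hy₁
  have hre : ∀ w : ℂ, ‖w‖ ≤ R → |(ψ w).re - 1 / 2| ≤ 1 / 16 := by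
    intro w hw
    have e : (ψ w).re - 1 / 2 = w.re / Λ := by
      rw [hψ]; simp [Complex.div_ofReal_re]
    rw [e, abs_div, abs_of_pos hΛ0]
    exact (div_le_div_of_nonneg_right ((Complex.abs_re_le_norm w).trans hw) hΛ0.le).trans hRΛ
  have him : ∀ w : ℂ, ‖w‖ ≤ R → |(ψ w).im - (t + y₁)| ≤ 1 / 16 := by
    intro w hw
    have e : (ψ w).im - (t + y₁) = w.im / Λ := by
      rw [hψ]; simp [Complex.div_ofReal_im]
    rw [e, abs_div, abs_of_pos hΛ0]
    exact (div_le_div_of_nonneg_right ((Complex.abs_im_le_norm w).trans hw) hΛ0.le).trans hRΛ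
  have hgeo : ∀ w : ℂ, ‖w‖ ≤ R → 0 < (ψ w).re ∧ (ψ w).re ≤ 4 ∧ t / 2 ≤ (ψ w).im ∧ (ψ w).im ≤ 2 * t := by
    intro w hw
    have h1 := abs_le.1 (hre w hw)
    have h2 := abs_le.1 (him w hw)
    exact ⟨by linarith, by linarith, by linarith, by linarith⟩
  set χ₀ : ℂ := XX (ψ 0) with hχ₀
  have hcp : ψ 0 = cp (t + y₁) := by rw [hψ, cp]; simp
  have hχ₀n : ‖χ₀‖ = 1 := by rw [hχ₀, hcp]; exact Pool.Agent.W338.QS.norm_XX _
  have hχ₀0 : χ₀ ≠ 0 := by rw [← norm_ne_zero_iff, hχ₀n]; norm_num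
  set Φ : ℂ → ℂ := fun w => XX (ψ w) * exp (-w) / χ₀ with hΦ
  have hΦ0 : Φ 0 = 1 := by rw [hΦ]; simp only [neg_zero, Complex.exp_zero, mul_one]; exact div_self hχ₀0
  have hΦd : ∀ w : ℂ, ‖w‖ ≤ R → HasDerivAt Φ (Φ w * (H345.Chi.L2 (ψ w) / (Λ : ℂ) - 1)) w := by
    intro w hw
    obtain ⟨g1, g2, g3, g4⟩ := hgeo w hw
    have h1 : HasDerivAt XX (XX (ψ w) * H345.Chi.L2 (ψ w)) (ψ w) := H345.Chi.hasDerivAt_XX g1 (by linarith)
    have h2 : HasDerivAt ψ (1 / Λ) w := by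
      rw [hψ]
      exact ((hasDerivAt_id w).div_const (Λ : ℂ)).const_add _
    have h3 := h1.comp w h2
    have h4 : HasDerivAt (fun w : ℂ => exp (-w)) (-exp (-w)) w := by
      have := (Complex.hasDerivAt_exp (-w)).comp w (hasDerivAt_neg w)
      refine this.congr_deriv (by ring)
    have h5 := (h3.mul h4).div_const χ₀
    refine h5.congr_deriv ?_
    rw [hΦ]
    simp only [Function.comp]
    field_simp
    ring
  set κ : ℝ := 8 / Λ with hκ
  have hκ0 : 0 < κ := by positivity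
  have hκR : κ * R ≤ 1 / 2 := by
    rw [hκ, div_mul_eq_mul_div, div_le_div_iff₀ hΛ0 (by norm_num)]; linarith
  obtain ⟨w₁, hw₁, hmax⟩ := (isCompact_closedBall (0:ℂ) R).exists_isMaxOn ⟨0, by simp; linarith⟩
    (f := fun w => ‖Φ w‖) (by
      intro w hw
      have hw' : ‖w‖ ≤ R := by simpa using hw
      exact (hΦd w hw').continuousAt.norm.continuousWithinAt)
  set S₀ : ℝ := ‖Φ w₁‖ with hS₀
  have hmax' : ∀ w : ℂ, ‖w‖ ≤ R → ‖Φ w‖ ≤ S₀ := fun w hw => hmax (by simpa using hw)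
  have hS₀0 : 0 ≤ S₀ := norm_nonneg _
  have hdist : ∀ w : ℂ, ‖w‖ ≤ R → ‖Φ w - 1‖ ≤ κ * S₀ * R := by
    intro w hw
    have h1 := (convex_closedBall (0:ℂ) R).norm_image_sub_le_of_norm_hasDerivWithin_le
      (f := Φ) (f' := fun w => Φ w * (H345.Chi.L2 (ψ w) / (Λ : ℂ) - 1)) (C := κ * S₀)
      (fun v hv => (hΦd v (by simpa using hv)).hasDerivWithinAt)
      (fun v hv => by
        have hv' : ‖v‖ ≤ R := by simpa using hv
        obtain ⟨g1, g2, g3, g4⟩ := hgeo v hv'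
        rw [norm_mul, mul_comm]
        exact mul_le_mul (L2_near ht1 g1 g2 g3 g4) (hmax' v hv') (norm_nonneg _) hκ0.le)
      (by simp; linarith : (0:ℂ) ∈ closedBall (0:ℂ) R) (by simpa using hw)
    rw [hΦ0, sub_zero] at h1
    exact h1.trans (mul_le_mul_of_nonneg_left hw (by positivity))
  have hw₁' : ‖w₁‖ ≤ R := by simpa using hw₁
  have hS₀2 : S₀ ≤ 2 := by
    have h1 := hdist w₁ hw₁'
    have h2 : ‖Φ w₁‖ ≤ ‖Φ w₁ - 1‖ + 1 := by
      have := norm_add_le (Φ w₁ - 1) 1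
      rwa [sub_add_cancel, norm_one] at this
    have h3 : κ * S₀ * R ≤ 1 / 2 * S₀ := by
      have : κ * S₀ * R = κ * R * S₀ := by ring
      rw [this]
      exact mul_le_mul_of_nonneg_right hκR hS₀0
    rw [← hS₀] at h2
    linarith
  refine ⟨-χ₀, by rw [norm_neg]; exact hχ₀n, ?_⟩
  intro w hw
  obtain ⟨g1, g2, g3, g4⟩ := hgeo w hw
  have hfe := St_F (t := t) (y₁ := y₁) (Λ := Λ) (V := V) (w := w) (by
    have e : (1 / 2 + (t + y₁ : ℝ) * I + w / Λ : ℂ) = ψ w := rfl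
    rw [e]; linarith)
  rw [hfe]
  have e0 : (1 / 2 + (t + y₁ : ℝ) * I + w / Λ : ℂ) = ψ w := rfl
  rw [e0]
  set f : ℂ := (V : ℂ) * F t (y₁ * I + w / Λ) with hf
  have hψ1 : ψ w - 1 ≠ 0 := by
    intro h
    have := congrArg Complex.im h
    simp only [Complex.sub_im, Complex.one_im, Complex.zero_im, sub_zero] at this
    linarith
  have hX : XX (ψ w) = Φ w * exp w * χ₀ := by
    rw [hΦ]
    simp only
    rw [Complex.exp_neg]
    have := Complex.exp_ne_zero w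
    field_simp
  have e1 : -(ψ w / (ψ w - 1)) * XX (ψ w) * f - -χ₀ * (exp w * f) =
      χ₀ * exp w * ((1 - Φ w) - Φ w * (1 / (ψ w - 1))) * f := by
    rw [hX]
    field_simp
    ring
  rw [e1, norm_mul, norm_mul, norm_mul, hχ₀n, one_mul]
  have h1 : ‖exp w‖ ≤ Real.exp R := by
    rw [Complex.norm_exp]
    exact Real.exp_le_exp.2 ((Complex.re_le_norm w).trans hw)
  have h2 : ‖(1 - Φ w) - Φ w * (1 / (ψ w - 1))‖ ≤ (16 * R + 8) / Λ := by
    refine (norm_sub_le _ _).trans ?_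
    have h3 : ‖1 - Φ w‖ ≤ 16 * R / Λ := by
      rw [norm_sub_rev]
      refine (hdist w hw).trans ?_
      rw [hκ]
      calc 8 / Λ * S₀ * R ≤ 8 / Λ * 2 * R := by gcongr
        _ = 16 * R / Λ := by ring
    have h4 : ‖Φ w * (1 / (ψ w - 1))‖ ≤ 8 / Λ := by
      rw [norm_mul (Φ w) (1 / (ψ w - 1)), norm_div (1:ℂ) (ψ w - 1), norm_one]
      have h5 : t / 2 ≤ ‖ψ w - 1‖ := by
        have h6 := Complex.abs_im_le_norm (ψ w - 1)
        have h7 : (ψ w - 1).im = (ψ w).im := by simp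
        rw [h7] at h6
        exact g3.trans ((le_abs_self _).trans h6)
      have h6 : 1 / ‖ψ w - 1‖ ≤ 1 / (t / 2) := one_div_le_one_div_of_le (by linarith) h5
      calc ‖Φ w‖ * (1 / ‖ψ w - 1‖) ≤ 2 * (1 / (t / 2)) :=
            mul_le_mul ((hmax' w hw).trans hS₀2) h6 (by positivity) (by norm_num)
        _ = 4 / t := by ring
        _ ≤ 8 / Λ := by rw [div_le_div_iff₀ ht0 hΛ0]; linarith
    calc ‖1 - Φ w‖ + ‖Φ w * (1 / (ψ w - 1))‖ ≤ 16 * R / Λ + 8 / Λ := add_le_add h3 h4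
      _ = _ := by ring
  have h3 := hS w hw
  calc ‖exp w‖ * ‖(1 - Φ w) - Φ w * (1 / (ψ w - 1))‖ * ‖f‖ ≤ Real.exp R * ((16 * R + 8) / Λ) * S := by
        apply mul_le_mul _ h3 (norm_nonneg _) (by positivity)
        exact mul_le_mul h1 h2 (norm_nonneg _) (Real.exp_pos _).le
    _ = _ := by ring

end Pool.Agent.Helper156_SP
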