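import Mathlib
import Pool.Agent.Helper156_SP.LogInt

set_option autoImplicit false

/-!
# Lower bound for the integral of the logarithm over a segment off the centre
-/

open Complex Set MeasureTheory Metric Filter Topology

namespace Pool.Agent.Helper156_SP

/-- **lower bound for the integral of the logarithm** -/
theorem log_int2 {h : ℂ → ℂ} (hh : Differentiable ℂ h) {r m : ℝ} (hr : 1 ≤ r) (hm : 0 ≤ m)
    (h0 : 1 ≤ ‖h 0‖) (hb : ∀ w : ℂ, ‖w‖ ≤ 3 * r → ‖h w‖ ≤ Real.exp m) (β : ℝ) :
    (∃ Z : Finset ℂ, ∀ w : ℂ, ‖w‖ ≤ r → h w = 0 → w ∈ Z) ∧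
    ∀ v : ℝ, |v| + 1 + |β| ≤ r / 2 → IntervalIntegrable (fun x : ℝ => Real.log ‖h (x + β * I)‖) volume (v - 1) (v + 1) ∧
      -CL m r ≤ ∫ x in (v - 1)..(v + 1), Real.log ‖h (x + β * I)‖ := by
  classical
  obtain ⟨n, u, g, hF, hg0⟩ := factor hh hr h0 hb
  have hr0 : 0 < r := by linarith
  have hn := hF.count hr h0 hb
  have hlow := hF.low hr h0
  have hgd := hF.1
  have hfac := hF.2.2
  have hgb : ∀ z : ℂ, ‖z‖ ≤ r → ‖g z‖ ≤ Real.exp m := by
    intro z hz
    refine (hF.bound hr hb (by linarith : ‖z‖ ≤ 3 * r)).trans (div_le_self (Real.exp_pos m).le ?_)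
    exact one_le_pow₀ (by linarith)
  have hn2 : (n : ℝ) ≤ 2 * m := by
    have h1 : (1:ℝ) / 2 ≤ Real.log 2 := by
      have := Real.log_two_gt_d9; linarith
    have h2 : (n:ℝ) * (1 / 2) ≤ n * Real.log 2 := mul_le_mul_of_nonneg_left h1 (by positivity)
    linarith
  have hlr : 0 ≤ Real.log r := Real.log_nonneg hr
  have hlg0 : -(n * Real.log r) ≤ Real.log ‖g 0‖ := by
    have h1 := Real.log_le_log (by positivity) hlow
    rw [one_div, Real.log_inv, Real.log_pow] at h1
    exact h1
  have hglow : ∀ z : ℂ, ‖z‖ ≤ r / 2 → -(6 * m * Real.log r + 2 * m + 2) ≤ Real.log ‖g z‖ := by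
    intro z hz
    have h1 := zerofree_low hr0 hgd hg0 hgb hz
    have h2 : (n:ℝ) * Real.log r ≤ 2 * m * Real.log r := mul_le_mul_of_nonneg_right hn2 hlr
    linarith
  constructor
  · refine ⟨(Finset.range n).image u, fun w hw hw0 => ?_⟩
    rw [hfac w] at hw0
    rcases mul_eq_zero.1 hw0 with h1 | h1
    · rw [Finset.prod_eq_zero_iff] at h1
      obtain ⟨i, hi, h2⟩ := h1
      rw [Finset.mem_image]
      exact ⟨i, hi, (sub_eq_zero.1 h2).symm⟩
    · exact absurd h1 (hg0 w hw)
  · intro v hv
    have hint : IntervalIntegrable (fun x : ℝ => Real.log ‖h (x + β * I)‖) volume (v - 1) (v + 1) := by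
      have : MeromorphicOn (fun x : ℝ => h (x + β * I)) (uIcc (v - 1) (v + 1)) := by
        intro x _
        have h2 : AnalyticAt ℂ (fun z : ℂ => h (z + β * I)) (x : ℂ) :=
          (hh.comp (by fun_prop : Differentiable ℂ fun z : ℂ => z + β * I)).analyticAt _
        have h1 : AnalyticAt ℝ (fun x : ℝ => h (x + β * I)) x :=
          (h2.restrictScalars (𝕜 := ℝ)).comp (Complex.ofRealCLM.analyticAt x)
        exact h1.meromorphicAt
      exact this.intervalIntegrable_log_norm
    refine ⟨hint, ?_⟩
    set κ : ℝ := -(6 * m * Real.log r + 2 * m + 2) with hκ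
    have hIs : IntervalIntegrable (fun x : ℝ => ∑ i ∈ Finset.range n, Real.log (x - (u i).re)) volume
        (v - 1) (v + 1) := by
      have := IntervalIntegrable.sum (μ := volume) (a := v - 1) (b := v + 1) (Finset.range n)
        (f := fun i (x : ℝ) => Real.log (x - (u i).re)) fun i _ => seg_log_int v _
      have e : (∑ i ∈ Finset.range n, fun x : ℝ => Real.log (x - (u i).re)) =
          fun x : ℝ => ∑ i ∈ Finset.range n, Real.log (x - (u i).re) := by
        funext x
        simp
      rwa [e] at this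
    have hmono : ∫ x in (v - 1)..(v + 1), ((∑ i ∈ Finset.range n, Real.log (x - (u i).re)) + κ) ≤
        ∫ x in (v - 1)..(v + 1), Real.log ‖h (x + β * I)‖ := by
      have hI1 : IntervalIntegrable (fun x : ℝ => (∑ i ∈ Finset.range n, Real.log (x - (u i).re)) + κ) volume
          (v - 1) (v + 1) := by
        exact hIs.add (by simp)
      rw [intervalIntegral.integral_of_le (by linarith), intervalIntegral.integral_of_le (by linarith)]
      apply MeasureTheory.integral_mono_ae hI1.1 hint.1
      have hfin : ({x : ℝ | ∃ i < n, x = (u i).re} : Set ℝ).Finite := by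
        have : ({x : ℝ | ∃ i < n, x = (u i).re} : Set ℝ) ⊆ ((Finset.range n).image fun i => (u i).re : Finset ℝ) := by
          rintro x ⟨i, hi, rfl⟩
          rw [Finset.coe_image]
          exact ⟨i, Finset.mem_coe.2 (Finset.mem_range.2 hi), rfl⟩
        exact (Finset.finite_toSet _).subset this
      have hae : ∀ᵐ x ∂(volume.restrict (Ioc (v - 1) (v + 1))), x ∉ ({x : ℝ | ∃ i < n, x = (u i).re} : Set ℝ) :=
        ae_restrict_of_ae (hfin.countable.ae_notMem volume)
      filter_upwards [hae, ae_restrict_mem measurableSet_Ioc] with x hx hxI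
      have hxr : ‖(x:ℂ) + β * I‖ ≤ r / 2 := by
        refine le_trans ?_ hv
        have h1 : |x - v| ≤ 1 := abs_le.2 ⟨by linarith [hxI.1], by linarith [hxI.2]⟩
        have h2 := abs_add_le (x - v) v
        rw [sub_add_cancel] at h2
        refine (norm_add_le _ _).trans ?_
        rw [norm_mul, Complex.norm_I, mul_one, Complex.norm_real, Complex.norm_real, Real.norm_eq_abs,
          Real.norm_eq_abs]
        linarith
      have hne : ∀ i ∈ Finset.range n, ((x:ℂ) + β * I) - u i ≠ 0 := by
        intro i hi h1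
        apply hx
        refine ⟨i, Finset.mem_range.1 hi, ?_⟩
        have := congrArg Complex.re h1
        simp at this
        linarith
      have hgx : g (x + β * I) ≠ 0 := hg0 _ (by linarith)
      show (∑ i ∈ Finset.range n, Real.log (x - (u i).re)) + κ ≤ Real.log ‖h (x + β * I)‖
      rw [hfac (x + β * I), norm_mul, norm_prod, Real.log_mul (Finset.prod_ne_zero_iff.2 fun i hi => norm_ne_zero_iff.2 (hne i hi))
        (norm_ne_zero_iff.2 hgx), Real.log_prod fun i hi => norm_ne_zero_iff.2 (hne i hi)]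
      apply add_le_add
      · refine Finset.sum_le_sum fun i hi => ?_
        have hxi : x - (u i).re ≠ 0 := by
          intro h1
          exact hx ⟨i, Finset.mem_range.1 hi, by linarith⟩
        rw [← Real.log_abs]
        apply Real.log_le_log (abs_pos.2 hxi)
        have := Complex.abs_re_le_norm (((x:ℂ) + β * I) - u i)
        simpa using this
      · exact hglow _ hxr
    refine le_trans ?_ hmono
    rw [intervalIntegral.integral_add hIs (by simp),
      intervalIntegral.integral_finsetSum fun i _ => seg_log_int v _]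
    have h1 : ∑ i ∈ Finset.range n, (-2:ℝ) ≤ ∑ i ∈ Finset.range n, ∫ x in (v - 1)..(v + 1), Real.log (x - (u i).re) :=
      Finset.sum_le_sum fun i _ => seg_log v _
    rw [Finset.sum_const, Finset.card_range, nsmul_eq_mul] at h1
    have h2 : ∫ _x in (v - 1)..(v + 1), κ = 2 * κ := by
      rw [intervalIntegral.integral_const, smul_eq_mul]; ring
    rw [h2]
    have h3 : CL m r = 4 * m - 2 * κ := by unfold CL; rw [hκ]; ring
    rw [h3]
    linarith

end Pool.Agent.Helper156_SP
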