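import Mathlib
import Pool.Agent.W587.PL.E
import Pool.Agent.Helper156_SP.Ker

set_option autoImplicit false

/-!
# Peaks at which the function is locally of bounded type
-/

open Complex Set
open W587.PL

namespace Pool.Agent.Helper156_SP

theorem peak {B : ℝ} (hB : 1 ≤ B) {m : ℕ} (hm : 1 ≤ m) :
    ∃ δ W Λ₀ K : ℝ, 0 < δ ∧ 2 ≤ W ∧ 2 ≤ Λ₀ ∧ 1 ≤ K ∧
    ∀ (F : ℂ → ℂ) (Λ : ℝ), Λ₀ ≤ Λ → Loc F (3 / 4) δ B W Λ Λ →
      ‖F 0‖ ≤ 1 ∨ ∃ y₁ : ℝ, |y₁| + 1 ≤ W ∧ 0 < ‖F (y₁ * I)‖ ∧ (1 + Λ * |y₁|) ^ m * ‖F 0‖ ≤ ‖F (y₁ * I)‖ ∧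
        ∀ R : ℝ, 1 ≤ R → 2 * R ≤ Λ → ∀ z : ℂ, ‖z - y₁ * I‖ ≤ R / Λ →
          ‖F z‖ ≤ ‖F (y₁ * I)‖ * Real.exp (K * R) := by
  have hm0 : (1:ℝ) ≤ m := by exact_mod_cast hm
  obtain ⟨c, hc⟩ : ∃ c : ℝ, c = 1 / 64 := ⟨_, rfl⟩
  have hc0 : 0 < c := by rw [hc]; norm_num
  obtain ⟨V, hV⟩ : ∃ V : ℝ, V = (2 * B + c + 1) / c + 1 := ⟨_, rfl⟩
  have hV1 : 1 ≤ V := by
    have : 0 ≤ (2 * B + c + 1) / c := by positivity
    rw [hV]; linarith
  have hVc : 2 * B + c + 1 ≤ c * V ^ 2 := by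
    have h1 : (2 * B + c + 1) / c ≤ V := by rw [hV]; linarith
    have h2 : 2 * B + c + 1 ≤ c * V := by
      rw [div_le_iff₀ hc0] at h1
      linarith
    nlinarith
  obtain ⟨W, hW⟩ : ∃ W : ℝ, W = V + 1 := ⟨_, rfl⟩
  have hW2 : 2 ≤ W := by linarith
  obtain ⟨K, hK⟩ : ∃ K : ℝ, K = 16 * m ^ 2 + 2 + c * (2 * W + 1) := ⟨_, rfl⟩
  have hK1 : 1 ≤ K := by
    have : 0 ≤ c * (2 * W + 1) := by positivity
    rw [hK]
    nlinarith
  refine ⟨c, W, 2, K, hc0, by linarith, le_rfl, hK1, ?_⟩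
  intro F Λ hΛ hL
  have hΛ0 : 0 < Λ := by linarith
  -- the weight
  set w : ℝ → ℝ := fun y => ((1 + Λ * |y|) ^ m)⁻¹ * Real.exp (-(c * Λ * y ^ 2)) with hw
  have hw0 : ∀ y, 0 < w y := fun y => by rw [hw]; positivity
  have hwc : Continuous w := by
    rw [hw]
    apply Continuous.mul
    · apply Continuous.inv₀ (by fun_prop)
      intro y
      positivity
    · fun_prop
  obtain ⟨y₁, hy₁, hmax⟩ := (isCompact_Icc (a := -W) (b := W)).exists_isMaxOn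
    (nonempty_Icc.2 (by linarith)) (f := fun y : ℝ => ‖F (y * I)‖ * w y) (by
      apply Continuous.continuousOn
      exact ((hL.diff.continuous.comp (by fun_prop)).norm).mul hwc)
  set N : ℝ := ‖F (y₁ * I)‖ * w y₁ with hN
  have hmax' : ∀ y : ℝ, |y| ≤ W → ‖F (y * I)‖ * w y ≤ N := fun y hy => hmax (abs_le.1 hy)
  have hF0 : ‖F 0‖ ≤ N := by
    have h1 := hmax' 0 (by rw [abs_zero]; linarith)
    have h2 : w 0 = 1 := by rw [hw]; simp
    rw [h2, mul_one, Complex.ofReal_zero, zero_mul] at h1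
    exact h1
  rcases le_or_gt N 1 with hN1 | hN1
  · left
    exact hF0.trans hN1
  right
  have hN0 : 0 < N := by linarith
  have hV0 : 0 < ‖F (y₁ * I)‖ := by
    by_contra h
    have h1 : ‖F (y₁ * I)‖ = 0 := le_antisymm (not_lt.1 h) (norm_nonneg _)
    rw [hN, h1, zero_mul] at hN0
    exact lt_irrefl _ hN0
  have hcen : |y₁| < V := by
    by_contra h2
    push Not at h2
    have h3 := hL.crude 0 y₁ (by rw [abs_zero]; norm_num) (abs_le.2 hy₁)
    rw [Complex.ofReal_zero, zero_add] at h3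
    have h4 : w y₁ ≤ Real.exp (-(B * Λ)) := by
      have h5 : ((1 + Λ * |y₁|) ^ m)⁻¹ ≤ 1 := by
        apply inv_le_one_of_one_le₀
        apply one_le_pow₀
        have : 0 ≤ Λ * |y₁| := by positivity
        linarith
      have h6 : Real.exp (-(c * Λ * y₁ ^ 2)) ≤ Real.exp (-(B * Λ)) := by
        apply Real.exp_le_exp.2
        have h7 : V ^ 2 ≤ y₁ ^ 2 := by
          rw [← sq_abs y₁]
          exact pow_le_pow_left₀ (by linarith) h2 2
        have h8 : c * V ^ 2 * Λ ≤ c * y₁ ^ 2 * Λ := by gcongr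
        have h9 : (2 * B + c + 1) * Λ ≤ c * V ^ 2 * Λ := mul_le_mul_of_nonneg_right hVc hΛ0.le
        nlinarith
      calc w y₁ ≤ 1 * Real.exp (-(B * Λ)) := mul_le_mul h5 h6 (Real.exp_pos _).le zero_le_one
        _ = _ := one_mul _
    have h5 : N ≤ Real.exp (B * Λ) * Real.exp (-(B * Λ)) := mul_le_mul h3 h4 (hw0 _).le (Real.exp_pos _).le
    rw [← Real.exp_add, add_neg_cancel, Real.exp_zero] at h5
    linarith
  have hVN : ‖F (y₁ * I)‖ = N * ((1 + Λ * |y₁|) ^ m * Real.exp (c * Λ * y₁ ^ 2)) := by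
    rw [hN, hw]
    simp only
    rw [Real.exp_neg]
    have h1 : (1 + Λ * |y₁|) ^ m ≠ 0 := by positivity
    field_simp
  refine ⟨y₁, by linarith, hV0, ?_, ?_⟩
  · have h1 : 1 ≤ Real.exp (c * Λ * y₁ ^ 2) := Real.one_le_exp (by positivity)
    have h2 : 0 < (1 + Λ * |y₁|) ^ m := by positivity
    rw [hVN]
    calc (1 + Λ * |y₁|) ^ m * ‖F 0‖ ≤ (1 + Λ * |y₁|) ^ m * N := mul_le_mul_of_nonneg_left hF0 h2.le
      _ = N * ((1 + Λ * |y₁|) ^ m * 1) := by ring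
      _ ≤ _ := by gcongr
  intro R hR hRΛ z hz
  have hR0 : 0 < R := by linarith
  set η : ℝ := Λ / (4 * R) with hη
  have hη0 : 0 < η := by positivity
  have hη1 : η ≤ Λ / 4 := by
    rw [hη, div_le_div_iff₀ (by positivity) (by norm_num)]
    nlinarith
  set H : ℂ → ℂ := fun z => GG F c Λ Λ z * S m η (z - y₁ * I) with hH
  have hHd : Differentiable ℂ H :=
    (GG_diff hL.diff c Λ Λ).mul ((S_diff m η).comp (by fun_prop : Differentiable ℂ fun z : ℂ => z - y₁ * I))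
  have hsh : ∀ x y : ℝ, (x : ℂ) + y * I - y₁ * I = x + ((y - y₁ : ℝ) : ℂ) * I := by
    intro x y; push_cast; ring
  have hHn : ∀ x y : ℝ, ‖H (x + y * I)‖ = ‖F (x + y * I)‖ *
      Real.exp (Λ / 2 * x + c * Λ * (x ^ 2 - y ^ 2)) * ‖S m η (x + ((y - y₁ : ℝ) : ℂ) * I)‖ := by
    intro x y
    rw [hH]
    simp only
    rw [norm_mul, GG_norm, hsh]
  -- edges
  have hedge : ∀ x y : ℝ, |x| ≤ 3 / 4 → V ≤ |y| → |y| ≤ W → ‖H (x + y * I)‖ ≤ 1 := by
    intro x y hx hy1 hy2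
    rw [hHn]
    have h1 := hL.crude x y hx hy2
    have hS := S_le hm hη0.le x (y - y₁)
    have hx2 : x ^ 2 ≤ 1 := by
      rw [sq_le_one_iff_abs_le_one]; linarith
    have hxa : x ≤ 1 := by linarith [le_abs_self x]
    have h4 : V ^ 2 ≤ y ^ 2 := by
      rw [← sq_abs y]
      exact pow_le_pow_left₀ (by linarith) hy1 2
    have h5 : Λ / 2 * x ≤ Λ / 2 := by
      have : Λ / 2 * x ≤ Λ / 2 * 1 := mul_le_mul_of_nonneg_left hxa (by linarith)
      linarith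
    have h6 : c * Λ * (x ^ 2 - y ^ 2) ≤ c * Λ * (1 - V ^ 2) :=
      mul_le_mul_of_nonneg_left (by linarith) (by positivity)
    have h7 : (2 * B + c + 1) * Λ ≤ c * V ^ 2 * Λ := mul_le_mul_of_nonneg_right hVc hΛ0.le
    have h8 : η * |x| ≤ Λ / 2 := by
      have h81 : η * |x| ≤ η * 1 := mul_le_mul_of_nonneg_left (by linarith) hη0.le
      linarith
    have h9 : 0 ≤ B * Λ := by positivity
    have h10 : c * Λ * (1 - V ^ 2) = c * Λ - c * V ^ 2 * Λ := by ring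
    have h11 : (2 * B + c + 1) * Λ = 2 * (B * Λ) + c * Λ + Λ := by ring
    have h12 : B * Λ + (Λ / 2 * x + c * Λ * (x ^ 2 - y ^ 2)) + η * |x| ≤ 0 := by
      rw [h10] at h6
      rw [h11] at h7
      linarith only [h5, h6, h7, h8, h9]
    calc ‖F (x + y * I)‖ * Real.exp (Λ / 2 * x + c * Λ * (x ^ 2 - y ^ 2)) *
          ‖S m η (x + ((y - y₁ : ℝ) : ℂ) * I)‖
        ≤ Real.exp (B * Λ) * Real.exp (Λ / 2 * x + c * Λ * (x ^ 2 - y ^ 2)) * Real.exp (η * |x|) := by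
          gcongr
      _ ≤ 1 := by
          rw [← Real.exp_add, ← Real.exp_add, Real.exp_le_one_iff]
          exact h12
  -- sides
  set A : ℝ := Real.exp (2 * c * Λ + 3 / 4 * Λ / 2 + η * (3 / 4)) with hA
  have hA1 : 1 ≤ A := Real.one_le_exp (by positivity)
  have hlA : Real.log A = 2 * c * Λ + 3 / 4 * Λ / 2 + η * (3 / 4) := Real.log_exp _
  have hside : ∀ x y : ℝ, |x| = 3 / 4 → |y| ≤ W → ‖H (x + y * I)‖ ≤ A := by
    intro x y hx hy
    rw [hHn]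
    have h2 := hL.side x y hx hy
    have hS := S_le hm hη0.le x (y - y₁)
    rw [hx] at hS
    have h3 : x ^ 2 ≤ 1 := by
      rw [sq_le_one_iff_abs_le_one, hx]; norm_num
    have h31 : 0 ≤ y ^ 2 := sq_nonneg y
    have h4 : c * Λ * (x ^ 2 - y ^ 2) ≤ c * Λ * 1 :=
      mul_le_mul_of_nonneg_left (by linarith) (by positivity)
    rw [hA]
    calc ‖F (x + y * I)‖ * Real.exp (Λ / 2 * x + c * Λ * (x ^ 2 - y ^ 2)) *
          ‖S m η (x + ((y - y₁ : ℝ) : ℂ) * I)‖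
        ≤ Real.exp (c * Λ + (3 / 4 - x) * Λ / 2) * Real.exp (Λ / 2 * x + c * Λ * 1) *
          Real.exp (η * (3 / 4)) := by gcongr
      _ = _ := by rw [← Real.exp_add, ← Real.exp_add]; congr 1; ring
  have htype : Real.log A / (3 / 4) ≤ Λ := by
    rw [hlA, div_le_iff₀ (by norm_num), hc]
    linarith
  -- the line
  set M : ℝ := N * ((1 + Λ * |y₁|) ^ m * (8 * R * m) ^ m) with hM
  have hM1 : 1 ≤ M := by
    have h1 : 1 ≤ (1 + Λ * |y₁|) ^ m := by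
      apply one_le_pow₀
      have : 0 ≤ Λ * |y₁| := by positivity
      linarith
    have h2 : 1 ≤ (8 * R * m) ^ m := by
      apply one_le_pow₀
      nlinarith
    have h3 : 1 ≤ (1 + Λ * |y₁|) ^ m * (8 * R * m) ^ m := one_le_mul_of_one_le_of_one_le h1 h2
    exact one_le_mul_of_one_le_of_one_le hN1.le h3
  have hline : ∀ y : ℝ, |y| ≤ W → ‖H (y * I)‖ ≤ M := by
    intro y hy
    have h1 := hHn 0 y
    rw [Complex.ofReal_zero, zero_add, zero_add] at h1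
    have h2 := S_dec hm hη0.le (y - y₁)
    have h3 := hmax' y hy
    rw [h1]
    have e1 : Λ / 2 * 0 + c * Λ * (0 ^ 2 - y ^ 2) = -(c * Λ * y ^ 2) := by ring
    rw [e1]
    have hX : 0 < (1 + Λ * |y|) ^ m := by positivity
    have h4 : ‖F (y * I)‖ * Real.exp (-(c * Λ * y ^ 2)) ≤ N * (1 + Λ * |y|) ^ m := by
      rw [hw] at h3
      simp only at h3
      calc ‖F (y * I)‖ * Real.exp (-(c * Λ * y ^ 2)) =
          (‖F (y * I)‖ * (((1 + Λ * |y|) ^ m)⁻¹ * Real.exp (-(c * Λ * y ^ 2)))) * (1 + Λ * |y|) ^ m := by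
            field_simp
        _ ≤ N * (1 + Λ * |y|) ^ m := mul_le_mul_of_nonneg_right h3 hX.le
    have h5 : 1 + Λ * |y| ≤ (1 + Λ * |y₁|) * (4 * R * m * (1 + η / m * |y - y₁|)) := by
      have h6 : 4 * R * m * (1 + η / m * |y - y₁|) = 4 * R * m + Λ * |y - y₁| := by
        rw [hη]; field_simp
      rw [h6]
      have h7 : |y| ≤ |y₁| + |y - y₁| := by
        have := abs_add_le y₁ (y - y₁)
        rwa [add_sub_cancel] at this
      have h8 : Λ * |y| ≤ Λ * |y₁| + Λ * |y - y₁| := by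
        have := mul_le_mul_of_nonneg_left h7 hΛ0.le
        linarith
      have h9 : 1 ≤ 4 * R * m := by nlinarith
      have h10 : 0 ≤ Λ * |y₁| := by positivity
      have h11 : 0 ≤ Λ * |y - y₁| := by positivity
      nlinarith [mul_nonneg h10 h11]
    have h6 : (1 + Λ * |y|) ^ m ≤ (1 + Λ * |y₁|) ^ m * ((4 * R * m) ^ m * (1 + η / m * |y - y₁|) ^ m) := by
      rw [← mul_pow, ← mul_pow]
      exact pow_le_pow_left₀ (by positivity) h5 m
    calc ‖F (y * I)‖ * Real.exp (-(c * Λ * y ^ 2)) * ‖S m η (((y - y₁ : ℝ) : ℂ) * I)‖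
        ≤ (N * ((1 + Λ * |y₁|) ^ m * ((4 * R * m) ^ m * (1 + η / m * |y - y₁|) ^ m))) *
          ‖S m η (((y - y₁ : ℝ) : ℂ) * I)‖ := by
          apply mul_le_mul_of_nonneg_right _ (norm_nonneg _)
          exact h4.trans (mul_le_mul_of_nonneg_left h6 hN0.le)
      _ = N * ((1 + Λ * |y₁|) ^ m * (4 * R * m) ^ m) *
          ((1 + η / m * |y - y₁|) ^ m * ‖S m η (((y - y₁ : ℝ) : ℂ) * I)‖) := by ring
      _ ≤ N * ((1 + Λ * |y₁|) ^ m * (4 * R * m) ^ m) * 2 ^ m := by gcongr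
      _ = M := by
          rw [hM, show (8 * R * (m:ℝ)) = 4 * R * m * 2 by ring, mul_pow (4 * R * (m:ℝ)) 2 m]; ring
  have hbox : ∀ x y : ℝ, |x| ≤ 3 / 4 → |y| ≤ W → ‖H (x + y * I)‖ ≤ M * Real.exp (Λ * |x|) := by
    intro x y hx hy
    have h1 := W587.PL.box hHd (by norm_num : (0:ℝ) < 3 / 4) (by linarith : (0:ℝ) < W) hM1 hA1 hline hside
      (fun x y hx hy => hedge x y hx (by rw [hy]; linarith) hy.le) hx hy
    refine h1.trans ?_
    apply mul_le_mul_of_nonneg_left _ (by linarith : (0:ℝ) ≤ M)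
    apply Real.exp_le_exp.2
    rw [mul_comm Λ]
    apply mul_le_mul_of_nonneg_left _ (abs_nonneg x)
    refine le_trans ?_ htype
    apply div_le_div_of_nonneg_right _ (by norm_num)
    have := Real.log_nonneg hM1
    linarith
  -- the point
  have hRΛ2 : R / Λ ≤ 1 / 2 := by rw [div_le_iff₀ hΛ0]; linarith
  set v : ℂ := z - y₁ * I with hv
  have hx : |z.re| ≤ R / Λ := by
    have h1 := Complex.abs_re_le_norm v
    have h2 : v.re = z.re := by rw [hv]; simp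
    rw [h2] at h1
    exact h1.trans hz
  have hy : |z.im - y₁| ≤ R / Λ := by
    have h1 := Complex.abs_im_le_norm v
    have h2 : v.im = z.im - y₁ := by rw [hv]; simp
    rw [h2] at h1
    exact h1.trans hz
  have ez : (z.re : ℂ) + z.im * I = z := Complex.re_add_im z
  have hzim : |z.im| ≤ W := by
    have h1 := abs_add_le (z.im - y₁) y₁
    rw [sub_add_cancel] at h1
    linarith
  have h1 := hbox z.re z.im (by linarith) hzim
  rw [hHn, ez] at h1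
  have hSn := S_near (z := v) hm hη0.le (by
    have h2 : η * ‖v‖ ≤ η * (R / Λ) := mul_le_mul_of_nonneg_left hz hη0.le
    refine h2.trans (le_of_eq ?_)
    rw [hη]; field_simp)
  have ev : (z.re : ℂ) + ((z.im - y₁ : ℝ) : ℂ) * I = v := by
    rw [hv]
    push_cast
    linear_combination ez
  rw [ev] at h1
  have hxΛ : Λ * |z.re| ≤ R := by
    rw [le_div_iff₀ hΛ0] at hx; linarith
  have hyΛ : Λ * |z.im - y₁| ≤ R := by
    rw [le_div_iff₀ hΛ0] at hy; linarith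
  have hexp : Real.exp (-(R / 2) - c * Λ * y₁ ^ 2 - c * (2 * W + 1) * R) ≤
      Real.exp (Λ / 2 * z.re + c * Λ * (z.re ^ 2 - z.im ^ 2)) := by
    apply Real.exp_le_exp.2
    have h21 : -(R / 2) ≤ Λ / 2 * z.re := by
      have h211 : Λ * (-|z.re|) ≤ Λ * z.re := mul_le_mul_of_nonneg_left (neg_abs_le _) hΛ0.le
      linarith
    have h22 : Λ * z.im ^ 2 ≤ Λ * y₁ ^ 2 + (2 * W + 1) * R := by
      have h3 : z.im ^ 2 = y₁ ^ 2 + (z.im - y₁) * (z.im + y₁) := by ring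
      have h4 : (z.im - y₁) * (z.im + y₁) ≤ |z.im - y₁| * (2 * W) := by
        have h5 : |z.im + y₁| ≤ 2 * W := by
          have := abs_add_le z.im y₁
          linarith
        calc (z.im - y₁) * (z.im + y₁) ≤ |(z.im - y₁) * (z.im + y₁)| := le_abs_self _
          _ = |z.im - y₁| * |z.im + y₁| := abs_mul _ _
          _ ≤ |z.im - y₁| * (2 * W) := mul_le_mul_of_nonneg_left h5 (abs_nonneg _)
      have h6 : Λ * ((z.im - y₁) * (z.im + y₁)) ≤ R * (2 * W) := by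
        calc Λ * ((z.im - y₁) * (z.im + y₁)) ≤ Λ * (|z.im - y₁| * (2 * W)) := mul_le_mul_of_nonneg_left h4 hΛ0.le
          _ = (Λ * |z.im - y₁|) * (2 * W) := by ring
          _ ≤ R * (2 * W) := mul_le_mul_of_nonneg_right hyΛ (by linarith)
      rw [h3, mul_add]
      linarith
    have h23 : 0 ≤ c * Λ * z.re ^ 2 := by positivity
    have h24 := mul_le_mul_of_nonneg_left h22 hc0.le
    have e : c * Λ * (z.re ^ 2 - z.im ^ 2) = c * Λ * z.re ^ 2 - c * (Λ * z.im ^ 2) := by ring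
    have e2 : c * (Λ * y₁ ^ 2 + (2 * W + 1) * R) = c * Λ * y₁ ^ 2 + c * (2 * W + 1) * R := by ring
    rw [e2] at h24
    rw [e]
    linarith only [h21, h23, h24]
  have h3 : Real.exp (Λ * |z.re|) ≤ Real.exp R := Real.exp_le_exp.2 hxΛ
  have h4 : ‖F z‖ * Real.exp (-(R / 2) - c * Λ * y₁ ^ 2 - c * (2 * W + 1) * R) * (1 / 2) ^ m ≤ M * Real.exp R := by
    refine le_trans ?_ (h1.trans (mul_le_mul_of_nonneg_left h3 (by linarith)))
    gcongr
  have h5 : ‖F z‖ = ‖F z‖ * Real.exp (-(R / 2) - c * Λ * y₁ ^ 2 - c * (2 * W + 1) * R) * (1 / 2) ^ m *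
      (Real.exp (R / 2 + c * Λ * y₁ ^ 2 + c * (2 * W + 1) * R) * 2 ^ m) := by
    have e1 : Real.exp (-(R / 2) - c * Λ * y₁ ^ 2 - c * (2 * W + 1) * R) *
        Real.exp (R / 2 + c * Λ * y₁ ^ 2 + c * (2 * W + 1) * R) = 1 := by
      rw [← Real.exp_add]; ring_nf; simp
    have e2 : (1 / 2 : ℝ) ^ m * 2 ^ m = 1 := by rw [← mul_pow]; norm_num
    calc ‖F z‖ = ‖F z‖ * 1 * 1 := by ring
      _ = ‖F z‖ * (Real.exp (-(R / 2) - c * Λ * y₁ ^ 2 - c * (2 * W + 1) * R) *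
        Real.exp (R / 2 + c * Λ * y₁ ^ 2 + c * (2 * W + 1) * R)) * ((1 / 2 : ℝ) ^ m * 2 ^ m) := by rw [e1, e2]
      _ = _ := by ring
  have h6 : (8 * R * (m:ℝ)) ^ m * 2 ^ m ≤ Real.exp (16 * m ^ 2 * R) := by
    rw [← mul_pow]
    have h7 : 8 * R * (m:ℝ) * 2 ≤ Real.exp (16 * m * R) := by
      have := Real.add_one_le_exp (16 * m * R)
      linarith
    calc (8 * R * (m:ℝ) * 2) ^ m ≤ (Real.exp (16 * m * R)) ^ m := pow_le_pow_left₀ (by positivity) h7 m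
      _ = Real.exp (16 * m ^ 2 * R) := by rw [← Real.exp_nat_mul]; congr 1; ring
  rw [h5, hVN]
  calc ‖F z‖ * Real.exp (-(R / 2) - c * Λ * y₁ ^ 2 - c * (2 * W + 1) * R) * (1 / 2) ^ m *
      (Real.exp (R / 2 + c * Λ * y₁ ^ 2 + c * (2 * W + 1) * R) * 2 ^ m)
      ≤ M * Real.exp R * (Real.exp (R / 2 + c * Λ * y₁ ^ 2 + c * (2 * W + 1) * R) * 2 ^ m) :=
        mul_le_mul_of_nonneg_right h4 (by positivity)
    _ = N * ((1 + Λ * |y₁|) ^ m * Real.exp (c * Λ * y₁ ^ 2)) *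
        (((8 * R * m) ^ m * 2 ^ m) * (Real.exp R * Real.exp (R / 2) * Real.exp (c * (2 * W + 1) * R))) := by
        rw [hM, Real.exp_add, Real.exp_add]; ring
    _ ≤ N * ((1 + Λ * |y₁|) ^ m * Real.exp (c * Λ * y₁ ^ 2)) *
        (Real.exp (16 * m ^ 2 * R) * (Real.exp R * Real.exp (R / 2) * Real.exp (c * (2 * W + 1) * R))) := by
        gcongr
    _ ≤ N * ((1 + Λ * |y₁|) ^ m * Real.exp (c * Λ * y₁ ^ 2)) * Real.exp (K * R) := by
        apply mul_le_mul_of_nonneg_left _ (by positivity)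
        rw [← Real.exp_add, ← Real.exp_add, ← Real.exp_add]
        apply Real.exp_le_exp.2
        rw [hK]
        nlinarith

end Pool.Agent.Helper156_SP
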