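import Mathlib
import Pool.Agent.Helper156_SP.Der2
import Pool.Agent.Helper156_SP.Der3
import Pool.Agent.Helper156_SP.LogInt2
import Pool.Agent.Helper156_SP.Peak
import Pool.Agent.Helper156_SP.Zeta

set_option autoImplicit false

/-!
# Derivatives of zeta near a peak
-/

open Complex Set MeasureTheory
open W587.PL

namespace Pool.Agent.Helper156_SP

open Pool.Agent.TH804.MS in
/-- peaks of zeta -/
theorem zeta_peak {m : ℕ} (hm : 1 ≤ m) :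
    ∃ W δ K T₁ : ℝ, 2 ≤ W ∧ 0 < δ ∧ 1 ≤ K ∧ 8 ≤ T₁ ∧ 2 * W ≤ T₁ ∧ ∀ t : ℝ, T₁ ≤ t →
      ‖F t 0‖ ≤ t ^ (-δ) ∨ ∃ y₁ : ℝ, |y₁| + 1 ≤ W ∧ 0 < ‖F t (y₁ * I)‖ ∧
        (1 + Real.log t * |y₁|) ^ m * ‖F t 0‖ ≤ ‖F t (y₁ * I)‖ ∧
        ∀ R : ℝ, 1 ≤ R → 2 * R ≤ Real.log t → ∀ z : ℂ, ‖z - y₁ * I‖ ≤ R / Real.log t →
          ‖F t z‖ ≤ ‖F t (y₁ * I)‖ * Real.exp (K * R) := by
  obtain ⟨δ, W, Λ₀, K, hδ, hW, hΛ₀, hK, hpeak⟩ := peak (by norm_num : (1:ℝ) ≤ 4) hm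
  obtain ⟨T₁, hT₁, hloc⟩ := loc (a := 3 / 4) (δ := δ / 2) (W := W) (by norm_num) le_rfl (by positivity)
    (by linarith)
  set δ' : ℝ := min (δ / 2) 1 with hδ'
  have hδ'0 : 0 < δ' := lt_min (by positivity) one_pos
  have hδ'1 : δ' ≤ δ / 2 := min_le_left _ _
  have hδ'2 : δ' ≤ 1 := min_le_right _ _
  refine ⟨W, δ', K, max (max T₁ (2 * W)) (Real.exp Λ₀), hW, hδ'0, hK,
    hT₁.trans ((le_max_left _ _).trans (le_max_left _ _)),
    (le_max_right _ _).trans (le_max_left _ _), fun t ht => ?_⟩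
  have ht1 : T₁ ≤ t := ((le_max_left _ _).trans (le_max_left _ _)).trans ht
  have ht2 : Real.exp Λ₀ ≤ t := (le_max_right _ _).trans ht
  have ht0 : 0 < t := by linarith
  have hΛ : Λ₀ ≤ Real.log t := by
    rw [Real.le_log_iff_exp_le ht0]; exact ht2
  have hL := hloc t ht1
  have hL' : Loc (F t) (3 / 4) (δ - δ') 3 W (Real.log t) (Real.log t) := by
    refine ⟨hL.diff, hL.l0, hL.lB, fun x y hx hy => (hL.side x y hx hy).trans ?_, hL.crude⟩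
    apply Real.exp_le_exp.2
    have : δ / 2 * Real.log t ≤ (δ - δ') * Real.log t := mul_le_mul_of_nonneg_right (by linarith) (by linarith)
    linarith
  have hS := Loc.scale (by linarith : 0 ≤ Real.log t) hδ'2 hL'
  rw [sub_add_cancel] at hS
  have hn' : ‖((Real.exp (δ' * Real.log t) : ℝ) : ℂ)‖ = Real.exp (δ' * Real.log t) := by
    rw [Complex.norm_real, Real.norm_eq_abs, abs_of_pos (Real.exp_pos _)]
  have hc : 0 < Real.exp (δ' * Real.log t) := Real.exp_pos _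
  rcases hpeak _ (Real.log t) hΛ hS with h | ⟨y₁, h1, h2, h3, h4⟩
  · left
    rw [norm_mul, hn', ← rpow_exp ht0] at h
    rw [Real.rpow_neg ht0.le, ← one_div, le_div_iff₀ (by positivity), mul_comm]
    exact h
  · right
    simp only [norm_mul, hn'] at h2 h3 h4
    refine ⟨y₁, h1, (mul_pos_iff_of_pos_left hc).1 h2, ?_, ?_⟩
    · refine le_of_mul_le_mul_left ?_ hc
      calc Real.exp (δ' * Real.log t) * ((1 + Real.log t * |y₁|) ^ m * ‖F t 0‖) =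
          (1 + Real.log t * |y₁|) ^ m * (Real.exp (δ' * Real.log t) * ‖F t 0‖) := by ring
        _ ≤ _ := h3
    · intro R hR hRΛ z hz
      have h5 := h4 R hR hRΛ z hz
      refine le_of_mul_le_mul_left ?_ hc
      calc Real.exp (δ' * Real.log t) * ‖F t z‖ ≤ Real.exp (δ' * Real.log t) * ‖F t (y₁ * I)‖ * Real.exp (K * R) := h5
        _ = _ := by ring

/-- the size of the derivatives of zeta on the critical line -/
noncomputable def dz (m : ℕ) (u : ℝ) : ℝ := ‖(deriv^[m] riemannZeta) (1 / 2 + u * I)‖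

/-- `D` is bounded below on `[-1, 1]` in the logarithmic mean -/
def LowLog (C : ℝ) (D : ℝ → ℝ) : Prop := ∃ G : ℝ → ℝ, Continuous G ∧ (∀ x, 0 ≤ G x) ∧
  (∀ x, |x| ≤ 1 → G x ≤ D x) ∧ (∃ Z : Finset ℝ, ∀ x, |x| ≤ 1 → G x = 0 → x ∈ Z) ∧
  IntervalIntegrable (fun x => Real.log (G x)) volume (-1) 1 ∧ -C ≤ ∫ x in (-1:ℝ)..1, Real.log (G x)

lemma GD_low {α ε : ℂ} {f : ℂ → ℂ} (hf : Differentiable ℂ f) (m : ℕ) {w₀ : ℂ} {c S : ℝ} (hc : 0 ≤ c)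
    (ha : 1 / 2 ≤ ‖α + ε * w₀‖) (hd : c ≤ ‖(deriv^[m] f) w₀‖) (hS : ∀ k < m, ‖GD α ε f k w₀‖ ≤ S)
    (hε : m * ‖ε‖ * S ≤ c / 2 ^ (m + 1)) : c / 2 ^ (m + 1) ≤ ‖GD α ε f m w₀‖ := by
  rcases m with _ | k
  · have h1 : c ≤ ‖f w₀‖ := hd
    have h2 : ‖GD α ε f 0 w₀‖ = ‖f w₀‖ := rfl
    rw [h2, zero_add, pow_one]
    linarith
  · have h1 := GD_rel (α := α) (ε := ε) hf k w₀
    have h2 := hS k (by omega)
    have h3 : ‖((k:ℂ) + 1) * ε * GD α ε f k w₀‖ ≤ c / 2 ^ (k + 1 + 1) := by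
      rw [norm_mul, norm_mul]
      have h6 : ‖(k:ℂ) + 1‖ = ((k + 1 : ℕ) : ℝ) := by
        rw [← Nat.cast_succ, Complex.norm_natCast]
      rw [h6]
      exact (mul_le_mul_of_nonneg_left h2 (by positivity)).trans hε
    have h4 : c / 2 ^ (k + 1) ≤ ‖(α + ε * w₀) ^ (k + 1) * (deriv^[k + 1] f) w₀‖ := by
      rw [norm_mul, norm_pow]
      have h5 : (1 / 2 : ℝ) ^ (k + 1) ≤ ‖α + ε * w₀‖ ^ (k + 1) := pow_le_pow_left₀ (by norm_num) ha _
      calc c / 2 ^ (k + 1) = (1 / 2) ^ (k + 1) * c := by rw [one_div, inv_pow]; ring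
        _ ≤ _ := mul_le_mul h5 hd hc (by positivity)
    rw [h1] at h4
    have h5 := norm_add_le (GD α ε f (k + 1) w₀) (((k:ℂ) + 1) * ε * GD α ε f k w₀)
    have h6 : c / 2 ^ (k + 1) = 2 * (c / 2 ^ (k + 1 + 1)) := by rw [pow_succ 2 (k + 1)]; field_simp
    linarith

open Pool.Agent.TH804.MS in
theorem loc_low (m : ℕ) (K : ℝ) {W : ℝ} (hW : 1 ≤ W) : ∃ C A T₂ : ℝ, 0 ≤ C ∧ 0 ≤ A ∧ 8 ≤ T₂ ∧
    ∀ t : ℝ, T₂ ≤ t → ∀ y₁ : ℝ, |y₁| ≤ W → 0 < ‖F t (y₁ * I)‖ →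
      (∀ R : ℝ, 1 ≤ R → 2 * R ≤ Real.log t → ∀ z : ℂ, ‖z - y₁ * I‖ ≤ R / Real.log t →
        ‖F t z‖ ≤ ‖F t (y₁ * I)‖ * Real.exp (K * R)) →
      LowLog C (fun x => A * (dz m (t + y₁ + x / Real.log t) / (‖F t (y₁ * I)‖ * Real.log t ^ m))) := by
  classical
  obtain ⟨c, R₀, hc, hR₀, hder⟩ := der_low m
  obtain ⟨R, hR⟩ : ∃ R : ℝ, R = R₀ + 1 := ⟨_, rfl⟩
  have hR1 : 1 ≤ R := by linarith
  obtain ⟨C₁, T₂, hC₁, hT₂, hfe⟩ := fe_close hR1 hW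
  obtain ⟨r, hr⟩ : ∃ r : ℝ, r = 4 * R + 4 := ⟨_, rfl⟩
  have hr1 : 1 ≤ r := by linarith
  have hm0 : (0:ℝ) ≤ m := Nat.cast_nonneg m
  obtain ⟨ρ, hρ⟩ : ∃ ρ : ℝ, ρ = R + 3 * r + m := ⟨_, rfl⟩
  have hρ1 : 1 ≤ ρ := by linarith
  obtain ⟨c', hc'⟩ : ∃ c' : ℝ, c' = c / 2 ^ (m + 1) := ⟨_, rfl⟩
  have hc'0 : 0 < c' := by rw [hc']; positivity
  obtain ⟨S, hS⟩ : ∃ S : ℝ, S = (m + 2) ^ m * Real.exp (K * ρ) := ⟨_, rfl⟩
  have hS0 : 0 < S := by rw [hS]; positivity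
  obtain ⟨M, hM⟩ : ∃ M : ℝ, M = max 0 (Real.log (S / c')) := ⟨_, rfl⟩
  have hM0 : 0 ≤ M := by rw [hM]; exact le_max_left _ _
  have hSM : S / c' ≤ Real.exp M := by
    rw [hM]
    calc S / c' = Real.exp (Real.log (S / c')) := (Real.exp_log (by positivity)).symm
      _ ≤ _ := Real.exp_le_exp.2 (le_max_right _ _)
  refine ⟨|CL M r|, 2 ^ (m + 1) / c', max (max T₂ (4 * (W + 1))) (max (Real.exp (2 * ρ))
    (max (Real.exp (C₁ * Real.exp (K * R) / c)) (m * S / c'))), abs_nonneg _, by positivity,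
    hT₂.trans ((le_max_left _ _).trans (le_max_left _ _)), ?_⟩
  intro t ht y₁ hy₁ hV hF
  have ht1 : T₂ ≤ t := ((le_max_left _ _).trans (le_max_left _ _)).trans ht
  have ht2 : 4 * (W + 1) ≤ t := ((le_max_right _ _).trans (le_max_left _ _)).trans ht
  have ht3 : Real.exp (2 * ρ) ≤ t := ((le_max_left _ _).trans (le_max_right _ _)).trans ht
  have ht4 : Real.exp (C₁ * Real.exp (K * R) / c) ≤ t :=
    ((le_max_left _ _).trans ((le_max_right _ _).trans (le_max_right _ _))).trans ht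
  have ht5 : m * S / c' ≤ t :=
    ((le_max_right _ _).trans ((le_max_right _ _).trans (le_max_right _ _))).trans ht
  have ht0 : 0 < t := by linarith
  have ht8 : 8 ≤ t := by linarith
  obtain ⟨Λ, hΛ⟩ : ∃ Λ : ℝ, Λ = Real.log t := ⟨_, rfl⟩
  rw [← hΛ] at hF ⊢
  have hΛρ : 2 * ρ ≤ Λ := by rw [hΛ, Real.le_log_iff_exp_le ht0]; exact ht3
  have hΛC : C₁ * Real.exp (K * R) / c ≤ Λ := by rw [hΛ, Real.le_log_iff_exp_le ht0]; exact ht4
  have hΛ0 : 0 < Λ := by linarith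
  have hΛ1 : 1 ≤ Λ := by linarith
  obtain ⟨V, hVd⟩ : ∃ V : ℝ, V = ‖F t (y₁ * I)‖ := ⟨_, rfl⟩
  rw [← hVd] at hF hV ⊢
  have htc : (t : ℂ) ≠ 0 := by exact_mod_cast ht0.ne'
  have hΛc : (Λ : ℂ) ≠ 0 := by exact_mod_cast hΛ0.ne'
  have hVc : (V : ℂ) ≠ 0 := by exact_mod_cast hV.ne'
  have hVn : ‖((V⁻¹ : ℝ) : ℂ)‖ = V⁻¹ := by
    rw [Complex.norm_real, Real.norm_eq_abs, abs_of_pos (inv_pos.2 hV)]
  -- the local function
  obtain ⟨f, hf⟩ : ∃ f : ℂ → ℂ, f = fun w : ℂ => ((V⁻¹ : ℝ) : ℂ) * F t (y₁ * I + w / Λ) := ⟨_, rfl⟩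
  have hfd : Differentiable ℂ f := by
    rw [hf]
    exact ((F_diff t).comp (by fun_prop : Differentiable ℂ fun w : ℂ => y₁ * I + w / Λ)).const_mul _
  have hf0 : ‖f 0‖ = 1 := by
    rw [hf]
    simp only
    rw [zero_div, add_zero, norm_mul, hVn, ← hVd, inv_mul_cancel₀ hV.ne']
  have hfb : ∀ ρ' : ℝ, 1 ≤ ρ' → ρ' ≤ ρ → ∀ w : ℂ, ‖w‖ ≤ ρ' → ‖f w‖ ≤ Real.exp (K * ρ') := by
    intro ρ' h1 h2 w hw
    have h3 := hF ρ' h1 (by linarith) (y₁ * I + w / Λ) (by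
      rw [add_sub_cancel_left, norm_div, Complex.norm_real, Real.norm_eq_abs, abs_of_pos hΛ0]
      exact div_le_div_of_nonneg_right hw hΛ0.le)
    rw [hf]
    simp only
    rw [norm_mul, hVn, inv_mul_le_iff₀ hV]
    exact h3
  obtain ⟨w₀, hw₀, hd⟩ : ∃ w : ℂ, ‖w‖ ≤ R₀ ∧ c ≤ ‖(deriv^[m] f) w‖ := by
    have h1 : ∀ w : ℂ, ‖w‖ ≤ R → ‖((V⁻¹ : ℝ) : ℂ) * F t (y₁ * I + w / Real.log t)‖ ≤ Real.exp (K * R) := by
      intro w hw
      rw [← hΛ]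
      have h2 := hfb R hR1 (by linarith) w hw
      rw [hf] at h2
      exact h2
    obtain ⟨χ, hχ, hcl⟩ := hfe t ht1 y₁ hy₁ V⁻¹ (Real.exp (K * R)) h1
    rw [← hΛ] at hcl
    refine hder f χ hfd hf0.ge hχ fun w hw => ?_
    have h2 := hcl w (by linarith)
    rw [hf]
    refine h2.trans ?_
    rw [div_le_iff₀ hc] at hΛC
    rw [div_mul_eq_mul_div, div_le_iff₀ hΛ0]
    linarith
  -- the coefficients
  obtain ⟨α, hα⟩ : ∃ α : ℂ, α = (-1 / 2 + (t + y₁ : ℝ) * I) / t := ⟨_, rfl⟩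
  obtain ⟨ε, hε⟩ : ∃ ε : ℂ, ε = 1 / (t * Λ) := ⟨_, rfl⟩
  have hαε : ∀ w : ℂ, α + ε * w = ((1 / 2 + (t + y₁ : ℝ) * I + 1 / Λ * w) - 1) / t := by
    intro w
    rw [hα, hε]
    field_simp
    ring
  have hre : ∀ w : ℂ, ((1 / 2 + (t + y₁ : ℝ) * I + 1 / Λ * w : ℂ) - 1).re = -1 / 2 + w.re / Λ := by
    intro w
    have e : (1 / (Λ:ℂ) * w) = w / Λ := by field_simp
    rw [e]
    simp [Complex.div_ofReal_re]
    ring
  have him : ∀ w : ℂ, ((1 / 2 + (t + y₁ : ℝ) * I + 1 / Λ * w : ℂ) - 1).im = t + y₁ + w.im / Λ := by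
    intro w
    have e : (1 / (Λ:ℂ) * w) = w / Λ := by field_simp
    rw [e]
    simp [Complex.div_ofReal_im]
  have hy := abs_le.1 hy₁
  have hwΛ : ∀ w : ℂ, ‖w‖ ≤ ρ → |w.re / Λ| ≤ 1 / 2 ∧ |w.im / Λ| ≤ 1 / 2 := by
    intro w hw
    rw [abs_div, abs_div, abs_of_pos hΛ0]
    have h1 := Complex.abs_re_le_norm w
    have h2 := Complex.abs_im_le_norm w
    constructor
    · rw [div_le_iff₀ hΛ0]; linarith
    · rw [div_le_iff₀ hΛ0]; linarith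
  have ha2 : ∀ w : ℂ, ‖w‖ ≤ ρ → ‖α + ε * w‖ ≤ 2 := by
    intro w hw
    obtain ⟨g1, g2⟩ := hwΛ w hw
    have g1' := abs_le.1 g1
    have g2' := abs_le.1 g2
    rw [hαε, norm_div, Complex.norm_real, Real.norm_eq_abs, abs_of_pos ht0, div_le_iff₀ ht0]
    refine (Complex.norm_le_abs_re_add_abs_im _).trans ?_
    rw [hre, him]
    have h1 : |-1 / 2 + w.re / Λ| ≤ 1 := abs_le.2 ⟨by linarith, by linarith⟩
    have h2 : |t + y₁ + w.im / Λ| ≤ 3 / 2 * t := abs_le.2 ⟨by linarith, by linarith⟩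
    linarith
  have ha1 : ∀ w : ℂ, ‖w‖ ≤ ρ → 1 / 2 ≤ ‖α + ε * w‖ := by
    intro w hw
    obtain ⟨g1, g2⟩ := hwΛ w hw
    have g2' := abs_le.1 g2
    rw [hαε, norm_div, Complex.norm_real, Real.norm_eq_abs, abs_of_pos ht0, le_div_iff₀ ht0]
    refine le_trans ?_ (Complex.abs_im_le_norm _)
    rw [him]
    have : t + y₁ + w.im / Λ ≤ |t + y₁ + w.im / Λ| := le_abs_self _
    linarith
  have hεn : ‖ε‖ ≤ 1 / t := by
    rw [hε, norm_div, norm_one, norm_mul, Complex.norm_real, Complex.norm_real, Real.norm_eq_abs,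
      Real.norm_eq_abs, abs_of_pos ht0, abs_of_pos hΛ0]
    apply one_div_le_one_div_of_le ht0
    nlinarith
  have hε1 : ‖ε‖ ≤ 1 := hεn.trans (by rw [div_le_one ht0]; linarith)
  -- bounds for the derivatives
  have hGb : ∀ k : ℕ, k ≤ m → ∀ w : ℂ, ‖w‖ ≤ R + 3 * r → ‖GD α ε f k w‖ ≤ S := by
    intro k hk w hw
    have hkm : (k:ℝ) ≤ m := by exact_mod_cast hk
    have h1 := GD_le (α := α) (ε := ε) hfd k (r := R + 3 * r) (S := Real.exp (K * ρ)) hε1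
      (fun v hv => ha2 v (by linarith)) (fun v hv => hfb ρ hρ1 le_rfl v (by linarith)) w hw
    refine h1.trans ?_
    rw [hS]
    apply mul_le_mul_of_nonneg_right _ (Real.exp_pos _).le
    calc ((k:ℝ) + 2) ^ k ≤ (m + 2) ^ k := pow_le_pow_left₀ (by positivity) (by linarith) k
      _ ≤ (m + 2) ^ m := pow_le_pow_right₀ (by linarith) hk
  have hG0 : c' ≤ ‖GD α ε f m w₀‖ := by
    rw [hc']
    apply GD_low hfd m hc.le (ha1 w₀ (by linarith)) hd (S := S)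
      (fun k hk => hGb k hk.le w₀ (by linarith))
    rw [← hc']
    have h1 : m * ‖ε‖ * S ≤ m * (1 / t) * S := by gcongr
    refine h1.trans ?_
    rw [div_le_iff₀ hc'0] at ht5
    have h2 : m * (1 / t) * S = m * S / t := by ring
    rw [h2, div_le_iff₀ ht0]
    linarith
  -- the recentred function
  obtain ⟨h, hh⟩ : ∃ h : ℂ → ℂ, h = fun v : ℂ => ((c'⁻¹ : ℝ) : ℂ) * GD α ε f m (w₀ + I * v) := ⟨_, rfl⟩
  have hcn : ‖((c'⁻¹ : ℝ) : ℂ)‖ = c'⁻¹ := by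
    rw [Complex.norm_real, Real.norm_eq_abs, abs_of_pos (inv_pos.2 hc'0)]
  have hhd : Differentiable ℂ h := by
    rw [hh]
    exact ((GD_diff hfd m).comp (by fun_prop : Differentiable ℂ fun v : ℂ => w₀ + I * v)).const_mul _
  have hh0 : 1 ≤ ‖h 0‖ := by
    rw [hh]
    simp only
    rw [mul_zero, add_zero, norm_mul, hcn, ← div_eq_inv_mul, one_le_div hc'0]
    exact hG0
  have hhb : ∀ v : ℂ, ‖v‖ ≤ 3 * r → ‖h v‖ ≤ Real.exp M := by
    intro v hv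
    have h1 : ‖w₀ + I * v‖ ≤ R + 3 * r := by
      refine (norm_add_le _ _).trans ?_
      rw [norm_mul, Complex.norm_I, one_mul]
      linarith
    have h2 := hGb m le_rfl _ h1
    rw [hh]
    simp only
    rw [norm_mul, hcn, ← div_eq_inv_mul]
    exact (div_le_div_of_nonneg_right h2 hc'0.le).trans hSM
  obtain ⟨⟨Z, hZ⟩, hlog⟩ := log_int2 hhd hr1 hM0 hh0 hhb w₀.re
  have hre0 := Complex.abs_re_le_norm w₀
  have him0 := Complex.abs_im_le_norm w₀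
  obtain ⟨hI, hlow⟩ := hlog (-w₀.im) (by rw [abs_neg]; linarith)
  refine ⟨fun x => ‖h (((x - w₀.im : ℝ) : ℂ) + w₀.re * I)‖, ?_, fun x => norm_nonneg _, ?_, ?_, ?_, ?_⟩
  · exact (hhd.continuous.comp (by fun_prop)).norm
  · intro x hx
    have e1 : w₀ + I * (((x - w₀.im : ℝ) : ℂ) + w₀.re * I) = I * x := by
      have e2 : (w₀ : ℂ) = w₀.re + w₀.im * I := (Complex.re_add_im w₀).symm
      push_cast
      linear_combination e2 + (w₀.re : ℂ) * I_sq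
    have hwn : ‖I * (x:ℂ)‖ ≤ ρ := by
      rw [norm_mul, Complex.norm_I, one_mul, Complex.norm_real, Real.norm_eq_abs]
      linarith
    have hne : α + ε * (I * x) ≠ 0 := by
      rw [← norm_pos_iff]
      linarith [ha1 (I * x) hwn]
    have h1 := GD_eq (α := α) (ε := ε) (f := f) (g := riemannZeta) (b := 1 / 2 + (t + y₁ : ℝ) * I) (l := 1 / Λ)
      (V := ((V⁻¹ : ℝ) : ℂ)) (fun s hs => differentiableAt_riemannZeta hs)
      (fun w => by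
        rw [hαε, div_eq_zero_iff, sub_eq_zero]
        simp [htc])
      (fun w hw => by
        have hs : (1 / 2 + (t + y₁ : ℝ) * I + 1 / Λ * w : ℂ) ≠ 1 := by
          intro h2
          apply hw
          rw [hαε, h2, sub_self, zero_div]
        have e2 : (1 / 2 + (t : ℂ) * I + (y₁ * I + w / Λ)) = 1 / 2 + (t + y₁ : ℝ) * I + 1 / Λ * w := by
          push_cast; ring
        rw [hf]
        simp only
        unfold F
        rw [e2, z1_ne hs, hαε]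
        ring) m (I * x) hne
    show ‖h (((x - w₀.im : ℝ) : ℂ) + w₀.re * I)‖ ≤ _
    rw [hh]
    simp only
    rw [e1, norm_mul, hcn, h1, norm_mul, norm_mul, norm_mul, norm_pow, norm_pow, hVn]
    have e3 : (1 / 2 + (t + y₁ : ℝ) * I + 1 / Λ * (I * x) : ℂ) = 1 / 2 + ((t + y₁ + x / Λ : ℝ) : ℂ) * I := by
      push_cast; ring
    rw [e3]
    have e4 : ‖(1 / (Λ:ℂ))‖ = Λ⁻¹ := by
      rw [norm_div, norm_one, Complex.norm_real, Real.norm_eq_abs, abs_of_pos hΛ0, one_div]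
    rw [e4]
    have h2 : ‖α + ε * (I * x)‖ ^ (m + 1) ≤ 2 ^ (m + 1) := pow_le_pow_left₀ (norm_nonneg _) (ha2 _ hwn) _
    have h3 : ‖(deriv^[m] riemannZeta) (1 / 2 + ((t + y₁ + x / Λ : ℝ) : ℂ) * I)‖ = dz m (t + y₁ + x / Λ) := rfl
    rw [h3]
    have h4 : 0 ≤ dz m (t + y₁ + x / Λ) := norm_nonneg _
    calc c'⁻¹ * (‖α + ε * (I * x)‖ ^ (m + 1) * dz m (t + y₁ + x / Λ) * Λ⁻¹ ^ m * V⁻¹) ≤
        c'⁻¹ * (2 ^ (m + 1) * dz m (t + y₁ + x / Λ) * Λ⁻¹ ^ m * V⁻¹) := by gcongr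
      _ = 2 ^ (m + 1) / c' * (dz m (t + y₁ + x / Λ) / (V * Λ ^ m)) := by
          rw [inv_pow]
          field_simp
  · refine ⟨Z.image fun z => z.re + w₀.im, fun x hx hx0 => ?_⟩
    rw [Finset.mem_image]
    refine ⟨((x - w₀.im : ℝ) : ℂ) + w₀.re * I, hZ _ ?_ (norm_eq_zero.1 hx0), by simp⟩
    refine (norm_add_le _ _).trans ?_
    rw [norm_mul, Complex.norm_I, mul_one, Complex.norm_real, Complex.norm_real, Real.norm_eq_abs,
      Real.norm_eq_abs]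
    have := abs_sub x w₀.im
    linarith
  · have h1 := hI.comp_sub_right w₀.im
    have e1 : -w₀.im - 1 + w₀.im = -1 := by ring
    have e2 : -w₀.im + 1 + w₀.im = 1 := by ring
    rw [e1, e2] at h1
    exact h1
  · have h1 : ∫ x in (-1:ℝ)..1, Real.log ‖h (((x - w₀.im : ℝ) : ℂ) + w₀.re * I)‖ =
        ∫ x in (-w₀.im - 1)..(-w₀.im + 1), Real.log ‖h (x + w₀.re * I)‖ := by
      rw [intervalIntegral.integral_comp_sub_right (fun y : ℝ => Real.log ‖h ((y : ℂ) + w₀.re * I)‖) w₀.im]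
      congr 1 <;> ring
    rw [h1]
    have := le_abs_self (CL M r)
    linarith

end Pool.Agent.Helper156_SP
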