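import Mathlib
import Pool.Agent.Helper156_SP.Der4
import Pool.Agent.Helper156_SP.Fin3

set_option autoImplicit false

/-!
# Products of derivatives of zeta near a peak
-/

open Complex Set MeasureTheory Filter Topology

namespace Pool.Agent.Helper156_SP

/-- products of functions which are bounded below in the logarithmic mean -/
theorem LowLog.prod {C p : ℝ} (n : ℕ) (D : Fin n → ℝ → ℝ) (q : Fin n → ℝ)
    (hD : ∀ j, LowLog C (D j)) (hDc : ∀ j, Continuous (D j)) (hq : ∀ j, 0 ≤ q j) (hsum : ∑ j, q j = p) :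
    2 * Real.exp (-(p * C / 2)) ≤ ∫ b in (-1:ℝ)..1, ∏ j, D j b ^ q j := by
  classical
  choose G hGc hG0 hGD hZ hI hlow using hD
  choose Z hZ using hZ
  set x : ℝ → ℝ := fun b => ∑ j, q j * Real.log (G j b) with hx
  have hxj : ∀ j, IntervalIntegrable (fun b : ℝ => q j * Real.log (G j b)) volume (-1) 1 :=
    fun j => (hI j).const_mul _
  have hxi : IntervalIntegrable x volume (-1) 1 := by
    have := IntervalIntegrable.sum (μ := volume) (a := -1) (b := 1) (Finset.univ)
      (f := fun j (b : ℝ) => q j * Real.log (G j b)) fun j _ => hxj j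
    have e : (∑ j, fun b : ℝ => q j * Real.log (G j b)) = x := by
      funext b
      simp [hx]
    rwa [e] at this
  have hxint : -(p * C) ≤ ∫ b in (-1:ℝ)..1, x b := by
    rw [hx]
    rw [intervalIntegral.integral_finsetSum fun j _ => hxj j, ← hsum, Finset.sum_mul, ← Finset.sum_neg_distrib]
    refine Finset.sum_le_sum fun j _ => ?_
    rw [intervalIntegral.integral_const_mul]
    have h3 := mul_le_mul_of_nonneg_left (hlow j) (hq j)
    linarith
  set c₀ : ℝ := (∫ b in (-1:ℝ)..1, x b) / 2 with hc₀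
  have hPc : Continuous fun b : ℝ => ∏ j, D j b ^ q j := by
    apply continuous_finsetProd
    intro j _
    exact (hDc j).rpow_const fun _ => Or.inr (hq j)
  have hmono : ∫ b in (-1:ℝ)..1, Real.exp c₀ * (1 + (x b - c₀)) ≤ ∫ b in (-1:ℝ)..1, ∏ j, D j b ^ q j := by
    have hIx : IntervalIntegrable (fun b => Real.exp c₀ * (1 + (x b - c₀))) volume (-1) 1 :=
      ((by simp : IntervalIntegrable (fun _ : ℝ => (1:ℝ)) volume (-1) 1).add
        (hxi.sub (by simp : IntervalIntegrable (fun _ : ℝ => c₀) volume (-1) 1))).const_mul _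
    rw [intervalIntegral.integral_of_le (by norm_num), intervalIntegral.integral_of_le (by norm_num)]
    apply MeasureTheory.integral_mono_ae hIx.1 (hPc.intervalIntegrable (-1) 1).1
    have hfin : ({b : ℝ | ∃ j, b ∈ Z j} : Set ℝ).Finite := by
      have h1 : ({b : ℝ | ∃ j, b ∈ Z j} : Set ℝ) ⊆ ((Finset.univ : Finset (Fin n)).biUnion Z : Finset ℝ) := by
        rintro b ⟨j, hj⟩
        rw [Finset.mem_coe, Finset.mem_biUnion]
        exact ⟨j, Finset.mem_univ _, hj⟩
      exact (Finset.finite_toSet _).subset h1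
    have hae : ∀ᵐ b ∂(volume.restrict (Ioc (-1:ℝ) 1)), b ∉ ({b : ℝ | ∃ j, b ∈ Z j} : Set ℝ) :=
      ae_restrict_of_ae (hfin.countable.ae_notMem volume)
    filter_upwards [hae, ae_restrict_mem measurableSet_Ioc] with b hb' hbI
    have hb1 : |b| ≤ 1 := abs_le.2 ⟨hbI.1.le, hbI.2⟩
    have hne : ∀ j, 0 < G j b := by
      intro j
      rcases (hG0 j b).eq_or_lt with h1 | h1
      · exact absurd ⟨j, hZ j b hb1 h1.symm⟩ hb'
      · exact h1
    have h1 : Real.exp (x b) ≤ ∏ j, D j b ^ q j := by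
      rw [hx]
      simp only
      rw [Real.exp_sum]
      refine Finset.prod_le_prod (fun j _ => (Real.exp_pos _).le) fun j _ => ?_
      rw [mul_comm, ← Real.rpow_def_of_pos (hne j)]
      exact Real.rpow_le_rpow (hne j).le (hGD j b hb1) (hq j)
    show Real.exp c₀ * (1 + (x b - c₀)) ≤ ∏ j, D j b ^ q j
    refine le_trans ?_ h1
    have h2 := Real.add_one_le_exp (x b - c₀)
    have h3 : Real.exp (x b) = Real.exp c₀ * Real.exp (x b - c₀) := by
      rw [← Real.exp_add]; congr 1; ring
    rw [h3]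
    apply mul_le_mul_of_nonneg_left _ (Real.exp_pos _).le
    linarith
  have hleft : ∫ b in (-1:ℝ)..1, Real.exp c₀ * (1 + (x b - c₀)) = 2 * Real.exp c₀ := by
    rw [intervalIntegral.integral_const_mul, intervalIntegral.integral_add (by simp) (hxi.sub (by simp)),
      intervalIntegral.integral_sub hxi (by simp), intervalIntegral.integral_const, intervalIntegral.integral_const]
    simp only [smul_eq_mul]
    rw [hc₀]
    ring
  rw [hleft] at hmono
  have hexp : Real.exp (-(p * C / 2)) ≤ Real.exp c₀ := by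
    apply Real.exp_le_exp.2
    rw [hc₀]
    linarith
  linarith

lemma LowLog.mono {C C' A A' : ℝ} {D : ℝ → ℝ} (hC : C ≤ C') (hA : A ≤ A') (hD0 : ∀ x, 0 ≤ D x)
    (h : LowLog C (fun x => A * D x)) : LowLog C' (fun x => A' * D x) := by
  obtain ⟨G, h1, h2, h3, h4, h5, h6⟩ := h
  exact ⟨G, h1, h2, fun x hx => (h3 x hx).trans (mul_le_mul_of_nonneg_right hA (hD0 x)), h4, h5, by linarith⟩

lemma dz_nonneg (m : ℕ) (u : ℝ) : 0 ≤ dz m u := norm_nonneg _

lemma zd_diff (m : ℕ) {s : ℂ} (hs : s ≠ 1) : DifferentiableAt ℂ (deriv^[m] riemannZeta) s := by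
  have h1 : AnalyticOnNhd ℂ riemannZeta {s : ℂ | s ≠ 1} := by
    apply DifferentiableOn.analyticOnNhd _ isOpen_ne
    intro s hs
    exact (differentiableAt_riemannZeta hs).differentiableWithinAt
  exact (h1.iterated_deriv m s hs).differentiableAt

lemma dz_cont (m : ℕ) : Continuous (dz m) := by
  apply Continuous.norm
  rw [continuous_iff_continuousAt]
  intro u
  have hne : (1 / 2 + (u : ℂ) * I : ℂ) ≠ 1 := by
    intro h
    have := congrArg Complex.re h
    simp at this
  have h1 : ContinuousAt (deriv^[m] riemannZeta) (1 / 2 + (u : ℂ) * I) := (zd_diff m hne).continuousAt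
  exact ContinuousAt.comp (f := fun u : ℝ => (1 / 2 + (u : ℂ) * I : ℂ)) h1 (by fun_prop)

open Pool.Agent.TH804.MS in
theorem loc_low_all (N : ℕ) (K : ℝ) {W : ℝ} (hW : 1 ≤ W) : ∃ C A T₂ : ℝ, 0 ≤ C ∧ 1 ≤ A ∧ 8 ≤ T₂ ∧
    ∀ t : ℝ, T₂ ≤ t → ∀ y₁ : ℝ, |y₁| ≤ W → 0 < ‖F t (y₁ * I)‖ →
      (∀ R : ℝ, 1 ≤ R → 2 * R ≤ Real.log t → ∀ z : ℂ, ‖z - y₁ * I‖ ≤ R / Real.log t →
        ‖F t z‖ ≤ ‖F t (y₁ * I)‖ * Real.exp (K * R)) → ∀ m ≤ N,
      LowLog C (fun x => A * (dz m (t + y₁ + x / Real.log t) / (‖F t (y₁ * I)‖ * Real.log t ^ m))) := by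
  have hD0 : ∀ t y₁ : ℝ, 8 ≤ t → ∀ m : ℕ, ∀ x : ℝ,
      0 ≤ dz m (t + y₁ + x / Real.log t) / (‖F t (y₁ * I)‖ * Real.log t ^ m) := by
    intro t y₁ ht m x
    have h1 := dz_nonneg m (t + y₁ + x / Real.log t)
    have h2 : 0 ≤ Real.log t := Real.log_nonneg (by linarith)
    positivity
  induction N with
  | zero =>
    obtain ⟨C, A, T₂, hC, hA, hT₂, h⟩ := loc_low 0 K hW
    refine ⟨C, max A 1, T₂, hC, le_max_right _ _, hT₂, fun t ht y₁ hy hV hF m hm => ?_⟩
    obtain rfl : m = 0 := by omega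
    exact LowLog.mono le_rfl (le_max_left _ _) (hD0 t y₁ (hT₂.trans ht) 0) (h t ht y₁ hy hV hF)
  | succ N ih =>
    obtain ⟨C₁, A₁, T₁, hC₁, hA₁, hT₁, h₁⟩ := ih
    obtain ⟨C, A, T₂, hC, hA, hT₂, h⟩ := loc_low (N + 1) K hW
    refine ⟨max C₁ C, max A₁ A, max T₁ T₂, hC₁.trans (le_max_left _ _), hA₁.trans (le_max_left _ _),
      hT₁.trans (le_max_left _ _), fun t ht y₁ hy hV hF m hm => ?_⟩
    have ht1 : T₁ ≤ t := (le_max_left _ _).trans ht
    have ht2 : T₂ ≤ t := (le_max_right _ _).trans ht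
    rcases Nat.lt_or_ge N m with h2 | h2
    · obtain rfl : m = N + 1 := by omega
      exact LowLog.mono (le_max_right _ _) (le_max_right _ _) (hD0 t y₁ (hT₂.trans ht2) _) (h t ht2 y₁ hy hV hF)
    · exact LowLog.mono (le_max_left _ _) (le_max_left _ _) (hD0 t y₁ (hT₂.trans ht2) _) (h₁ t ht1 y₁ hy hV hF m h2)

open Pool.Agent.TH804.MS in
/-- **local inequality for products of derivatives of zeta** -/
theorem zeta_der {p κ : ℝ} (N : ℕ) (hp : 0 < p) (hκ : 0 < κ) (hκ1 : κ ≤ 1) :
    ∃ W δ K T₁ : ℝ, 2 ≤ W ∧ 0 < δ ∧ 1 ≤ K ∧ 8 ≤ T₁ ∧ 2 * W ≤ T₁ ∧ ∀ T t : ℝ, T₁ ≤ t → t ≤ T →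
      κ * Real.log T ≤ Real.log t → ∀ (n : ℕ) (μ : Fin n → ℕ) (q : Fin n → ℝ), (∀ j, μ j ≤ N) → (∀ j, 0 ≤ q j) →
      ∑ j, q j = p →
      az t ^ p ≤ K * t ^ (-δ) + K * Real.log T * ∫ y in (-W)..W, ((1 + κ * Real.log T * |y|) ^ 2)⁻¹ *
        ∏ j, (dz (μ j) (t + y) / Real.log T ^ μ j) ^ q j := by
  obtain ⟨m, hm1, hm2⟩ : ∃ m : ℕ, 1 ≤ m ∧ 2 ≤ m * p := by
    obtain ⟨m, hm⟩ := exists_nat_ge (2 / p)
    refine ⟨max m 1, le_max_right _ _, ?_⟩
    have h1 : 2 / p ≤ ((max m 1 : ℕ) : ℝ) := hm.trans (by exact_mod_cast le_max_left _ _)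
    rwa [div_le_iff₀ hp] at h1
  obtain ⟨W, δ, K, T₁, hW, hδ, hK, hT₁, hT₁W, hz⟩ := zeta_peak hm1
  obtain ⟨C, A, T₂, hC, hA, hT₂, hloc⟩ := loc_low_all N K (W := W) (by linarith)
  obtain ⟨A', hA'⟩ : ∃ A' : ℝ, A' = A * κ⁻¹ ^ N := ⟨_, rfl⟩
  have hA0 : 0 < A := by linarith
  have hA'0 : 0 < A' := by rw [hA']; positivity
  obtain ⟨E, hE⟩ : ∃ E : ℝ, E = 2 * Real.exp (-(p * C / 2)) := ⟨_, rfl⟩
  have hE0 : 0 < E := by rw [hE]; positivity
  obtain ⟨K', hK'⟩ : ∃ K' : ℝ, K' = max 1 (4 * A' ^ p / E) := ⟨_, rfl⟩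
  have hK'1 : 1 ≤ K' := by rw [hK']; exact le_max_left _ _
  have hK'2 : 4 * A' ^ p / E ≤ K' := by rw [hK']; exact le_max_right _ _
  refine ⟨W, δ * p, K', max T₁ T₂, hW, by positivity, hK'1, hT₁.trans (le_max_left _ _),
    hT₁W.trans (le_max_left _ _), ?_⟩
  intro T t ht htT hlog n μ q hμ hq hsum
  have ht1 : T₁ ≤ t := (le_max_left _ _).trans ht
  have ht2 : T₂ ≤ t := (le_max_right _ _).trans ht
  have ht0 : 0 < t := by linarith
  have ht8 : 8 ≤ t := by linarith
  have hΛ1 : 1 ≤ Real.log t := by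
    rw [Real.le_log_iff_exp_le ht0]
    have := Real.exp_one_lt_d9
    linarith
  have hΛ0 : 0 < Real.log t := by linarith
  have hTt : Real.log t ≤ Real.log T := Real.log_le_log ht0 htT
  have hLT : 0 < Real.log T := by linarith
  have hF0 := le_F0 (T := t) ht8
  -- the integrand
  set P : ℝ → ℝ := fun u => ∏ j, (dz (μ j) u / Real.log T ^ μ j) ^ q j with hP
  have hPc : Continuous P := by
    rw [hP]
    apply continuous_finsetProd
    intro j _
    exact ((dz_cont (μ j)).div_const _).rpow_const fun _ => Or.inr (hq j)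
  have hP0 : ∀ u, 0 ≤ P u := fun u => Finset.prod_nonneg fun j _ => Real.rpow_nonneg (by
    have := dz_nonneg (μ j) u
    positivity) _
  set g : ℝ → ℝ := fun y => ((1 + κ * Real.log T * |y|) ^ 2)⁻¹ * P (t + y) with hg
  have hgc : Continuous g := by
    rw [hg]
    apply Continuous.mul
    · apply Continuous.inv₀ (by fun_prop)
      intro y
      positivity
    · exact hPc.comp (by fun_prop)
  have hg0 : ∀ y, 0 ≤ g y := by
    intro y
    rw [hg]
    simp only
    have := hP0 (t + y)
    positivity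
  have hgI : 0 ≤ ∫ y in (-W)..W, g y := intervalIntegral.integral_nonneg (by linarith) fun y _ => hg0 y
  show az t ^ p ≤ K' * t ^ (-(δ * p)) + K' * Real.log T * ∫ y in (-W)..W, g y
  rcases hz t ht1 with h | ⟨y₁, hy₁, hV, hdec, hbd⟩
  · have h2 : az t ≤ t ^ (-δ) := hF0.trans h
    have h3 := Real.rpow_le_rpow (az_nonneg t) h2 hp.le
    rw [← Real.rpow_mul ht0.le] at h3
    have e : -δ * p = -(δ * p) := by ring
    rw [e] at h3
    have h4 : 1 * t ^ (-(δ * p)) ≤ K' * t ^ (-(δ * p)) := mul_le_mul_of_nonneg_right hK'1 (by positivity)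
    have h5 : 0 ≤ K' * Real.log T * ∫ y in (-W)..W, g y := by positivity
    linarith
  · obtain ⟨V, hVd⟩ : ∃ V : ℝ, V = ‖F t (y₁ * I)‖ := ⟨_, rfl⟩
    have hlow := hloc t ht2 y₁ (by linarith) hV hbd
    rw [← hVd] at hlow hV hdec
    obtain ⟨X, hX⟩ : ∃ X : ℝ, X = 1 + Real.log t * |y₁| := ⟨_, rfl⟩
    rw [← hX] at hdec
    have hX1 : 1 ≤ X := by
      have : 0 ≤ Real.log t * |y₁| := by positivity
      linarith
    have hX0 : 0 < X := by linarith
    have hPr := LowLog.prod (p := p) n (fun j x => A * (dz (μ j) (t + y₁ + x / Real.log t) / (V * Real.log t ^ μ j))) q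
      (fun j => hlow (μ j) (hμ j)) (fun j => by
        have h1 := dz_cont (μ j)
        exact continuous_const.mul ((h1.comp (by fun_prop)).div_const _)) hq hsum
    rw [← hE] at hPr
    -- comparison with the product
    have hcmp : ∀ b : ℝ, ∏ j, (A * (dz (μ j) (t + y₁ + b / Real.log t) / (V * Real.log t ^ μ j))) ^ q j ≤
        A' ^ p * (V ^ p)⁻¹ * P (t + (y₁ + b / Real.log t)) := by
      intro b
      have e0 : t + y₁ + b / Real.log t = t + (y₁ + b / Real.log t) := by ring
      rw [e0]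
      set u : ℝ := t + (y₁ + b / Real.log t) with hu
      have hA'V : 0 < A' * V⁻¹ := by positivity
      calc ∏ j, (A * (dz (μ j) u / (V * Real.log t ^ μ j))) ^ q j
          ≤ ∏ j, ((A' * V⁻¹) * (dz (μ j) u / Real.log T ^ μ j)) ^ q j := by
            refine Finset.prod_le_prod (fun j _ => ?_) fun j _ => ?_
            · apply Real.rpow_nonneg
              have := dz_nonneg (μ j) u
              positivity
            · apply Real.rpow_le_rpow _ _ (hq j)
              · have := dz_nonneg (μ j) u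
                positivity
              · have h1 : κ ^ N * Real.log T ^ μ j ≤ Real.log t ^ μ j := by
                  calc κ ^ N * Real.log T ^ μ j ≤ κ ^ μ j * Real.log T ^ μ j := by
                        apply mul_le_mul_of_nonneg_right _ (by positivity)
                        exact pow_le_pow_of_le_one hκ.le hκ1 (hμ j)
                    _ = (κ * Real.log T) ^ μ j := (mul_pow _ _ _).symm
                    _ ≤ _ := pow_le_pow_left₀ (by positivity) hlog _
                have h2 := dz_nonneg (μ j) u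
                rw [hA']
                have h3 : dz (μ j) u / (V * Real.log t ^ μ j) ≤ dz (μ j) u / (V * (κ ^ N * Real.log T ^ μ j)) := by
                  gcongr
                calc A * (dz (μ j) u / (V * Real.log t ^ μ j)) ≤ A * (dz (μ j) u / (V * (κ ^ N * Real.log T ^ μ j))) :=
                      mul_le_mul_of_nonneg_left h3 hA0.le
                  _ = A * κ⁻¹ ^ N * V⁻¹ * (dz (μ j) u / Real.log T ^ μ j) := by
                      rw [inv_pow]
                      field_simp
        _ = (A' * V⁻¹) ^ p * P u := by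
            have h2 : ∀ j, ((A' * V⁻¹) * (dz (μ j) u / Real.log T ^ μ j)) ^ q j =
                (A' * V⁻¹) ^ q j * (dz (μ j) u / Real.log T ^ μ j) ^ q j := by
              intro j
              rw [Real.mul_rpow hA'V.le (by
                have := dz_nonneg (μ j) u
                positivity)]
            simp only [h2]
            rw [Finset.prod_mul_distrib, ← Real.rpow_sum_of_pos hA'V, hsum]
        _ = _ := by
            rw [Real.mul_rpow hA'0.le (inv_pos.2 hV).le, Real.inv_rpow hV.le]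
    have hI1 : E ≤ A' ^ p * (V ^ p)⁻¹ * ∫ b in (-1:ℝ)..1, P (t + (y₁ + b / Real.log t)) := by
      rw [← intervalIntegral.integral_const_mul]
      refine hPr.trans ?_
      apply intervalIntegral.integral_mono_on (by norm_num)
      · apply Continuous.intervalIntegrable
        apply continuous_finsetProd
        intro j _
        apply Continuous.rpow_const
        · have h1 := dz_cont (μ j)
          exact continuous_const.mul ((h1.comp (by fun_prop)).div_const _)
        · intro b
          exact Or.inr (hq j)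
      · apply Continuous.intervalIntegrable
        exact continuous_const.mul (hPc.comp (by fun_prop))
      · intro b _
        exact hcmp b
    -- the kernel
    have hI2 : ∫ b in (-1:ℝ)..1, P (t + (y₁ + b / Real.log t)) ≤ 4 * X ^ 2 * (Real.log T * ∫ y in (-W)..W, g y) := by
      have h2 : ∫ b in (-1:ℝ)..1, P (t + (y₁ + b / Real.log t)) ≤
          ∫ b in (-1:ℝ)..1, 4 * X ^ 2 * g (y₁ + b / Real.log t) := by
        apply intervalIntegral.integral_mono_on (by norm_num)
        · exact (hPc.comp (by fun_prop)).intervalIntegrable _ _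
        · exact (continuous_const.mul (hgc.comp (by fun_prop))).intervalIntegrable _ _
        · intro b hb
          set y : ℝ := y₁ + b / Real.log t with hy
          have hb1 : |b| ≤ 1 := abs_le.2 hb
          have h3 : 1 + κ * Real.log T * |y| ≤ 2 * X := by
            have h4 : |y| ≤ |y₁| + |b / Real.log t| := abs_add_le _ _
            have h5 : Real.log t * |b / Real.log t| ≤ 1 := by
              rw [abs_div, abs_of_pos hΛ0]
              have : Real.log t * (|b| / Real.log t) = |b| := by field_simp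
              rw [this]; exact hb1
            have h6 : κ * Real.log T * |y| ≤ Real.log t * |y| := mul_le_mul_of_nonneg_right hlog (abs_nonneg y)
            have h7 : Real.log t * |y| ≤ Real.log t * |y₁| + Real.log t * |b / Real.log t| := by
              rw [← mul_add]
              exact mul_le_mul_of_nonneg_left h4 hΛ0.le
            rw [hX] at hX1 ⊢
            linarith
          have h4 : 0 ≤ 1 + κ * Real.log T * |y| := by positivity
          have h5 : (1 + κ * Real.log T * |y|) ^ 2 ≤ 4 * X ^ 2 := by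
            calc (1 + κ * Real.log T * |y|) ^ 2 ≤ (2 * X) ^ 2 := pow_le_pow_left₀ h4 h3 2
              _ = 4 * X ^ 2 := by ring
          have h6 : 1 ≤ 4 * X ^ 2 * ((1 + κ * Real.log T * |y|) ^ 2)⁻¹ := by
            have h7 : 0 < (1 + κ * Real.log T * |y|) ^ 2 := by positivity
            rw [← div_eq_mul_inv, one_le_div h7]
            exact h5
          show P (t + y) ≤ 4 * X ^ 2 * (((1 + κ * Real.log T * |y|) ^ 2)⁻¹ * P (t + y))
          rw [← mul_assoc]
          calc P (t + y) = 1 * P (t + y) := (one_mul _).symm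
            _ ≤ _ := mul_le_mul_of_nonneg_right h6 (hP0 _)
      refine h2.trans ?_
      rw [intervalIntegral.integral_const_mul]
      apply mul_le_mul_of_nonneg_left _ (by positivity)
      have h3 : ∫ b in (-1:ℝ)..1, g (y₁ + b / Real.log t) = Real.log t * ∫ y in (y₁ + -1 / Real.log t)..(y₁ + 1 / Real.log t), g y := by
        rw [intervalIntegral.integral_comp_add_div (fun y => g y) hΛ0.ne', smul_eq_mul]
      rw [h3]
      have e : -1 / Real.log t = -(1 / Real.log t) := by ring
      have hΛp : 0 < 1 / Real.log t := by positivity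
      have hΛi : 1 / Real.log t ≤ 1 := by rw [div_le_one hΛ0]; exact hΛ1
      have hc1 := abs_le.1 (by linarith : |y₁| ≤ W - 1)
      have h4 : ∫ y in (y₁ + -1 / Real.log t)..(y₁ + 1 / Real.log t), g y ≤ ∫ y in (-W)..W, g y := by
        rw [e]
        apply intervalIntegral.integral_mono_interval (by linarith) (by linarith) (by linarith)
        · exact Filter.Eventually.of_forall hg0
        · exact hgc.intervalIntegrable _ _
      have h5 : 0 ≤ ∫ y in (y₁ + -1 / Real.log t)..(y₁ + 1 / Real.log t), g y := by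
        apply intervalIntegral.integral_nonneg _ fun y _ => hg0 y
        rw [e]; linarith
      exact mul_le_mul hTt h4 h5 hLT.le
    -- conclusion
    have hVp : 0 < V ^ p := by positivity
    have h5 : V ^ p ≤ A' ^ p / E * (4 * X ^ 2 * (Real.log T * ∫ y in (-W)..W, g y)) := by
      have h6 : E ≤ A' ^ p * (V ^ p)⁻¹ * (4 * X ^ 2 * (Real.log T * ∫ y in (-W)..W, g y)) :=
        hI1.trans (mul_le_mul_of_nonneg_left hI2 (by positivity))
      have h7 : A' ^ p * (V ^ p)⁻¹ * (4 * X ^ 2 * (Real.log T * ∫ y in (-W)..W, g y)) =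
          A' ^ p * (4 * X ^ 2 * (Real.log T * ∫ y in (-W)..W, g y)) / V ^ p := by ring
      rw [h7, le_div_iff₀ hVp] at h6
      have h8 : A' ^ p / E * (4 * X ^ 2 * (Real.log T * ∫ y in (-W)..W, g y)) =
          A' ^ p * (4 * X ^ 2 * (Real.log T * ∫ y in (-W)..W, g y)) / E := by ring
      rw [h8, le_div_iff₀ hE0]
      linarith
    have h6 : X ^ (2:ℕ) * az t ^ p ≤ V ^ p := by
      have h7 : X ^ m * az t ≤ V := (mul_le_mul_of_nonneg_left hF0 (by positivity)).trans hdec
      have h8 := Real.rpow_le_rpow (by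
        have := az_nonneg t
        positivity) h7 hp.le
      rw [Real.mul_rpow (by positivity) (az_nonneg t), ← Real.rpow_natCast X m, ← Real.rpow_mul hX0.le] at h8
      refine le_trans ?_ h8
      apply mul_le_mul_of_nonneg_right _ (Real.rpow_nonneg (az_nonneg t) _)
      rw [← Real.rpow_natCast X 2]
      apply Real.rpow_le_rpow_of_exponent_le hX1
      push_cast
      exact hm2
    have h7 : az t ^ p ≤ 4 * A' ^ p / E * (Real.log T * ∫ y in (-W)..W, g y) := by
      have h8 : X ^ (2:ℕ) * az t ^ p ≤ X ^ (2:ℕ) * (4 * A' ^ p / E * (Real.log T * ∫ y in (-W)..W, g y)) := by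
        refine (h6.trans h5).trans (le_of_eq ?_)
        ring
      exact le_of_mul_le_mul_left h8 (by positivity)
    have h8 : az t ^ p ≤ K' * Real.log T * ∫ y in (-W)..W, g y := by
      refine h7.trans ?_
      rw [mul_assoc]
      exact mul_le_mul_of_nonneg_right hK'2 (by positivity)
    have h9 : 0 ≤ K' * t ^ (-(δ * p)) := by positivity
    linarith

end Pool.Agent.Helper156_SP
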