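import Mathlib
import Pool.Agent.Helper156_SP.Der5
import Pool.Agent.Helper156_SP.Peak2

set_option autoImplicit false

/-!
# Local inequality for products of derivatives of zeta, with a disc on the left-hand side
-/

open Complex Set MeasureTheory Filter Topology
open W587.PL

namespace Pool.Agent.Helper156_SP

open Pool.Agent.TH804.MS in
/-- peaks of zeta, with control of a disc around the original point -/
theorem zeta_peak2 {m : ℕ} (hm : 1 ≤ m) :
    ∃ W δ K T₁ : ℝ, 2 ≤ W ∧ 0 < δ ∧ 1 ≤ K ∧ 8 ≤ T₁ ∧ 2 * W ≤ T₁ ∧ ∀ t : ℝ, T₁ ≤ t →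
      ∀ R₀ : ℝ, 1 ≤ R₀ → 2 * R₀ ≤ Real.log t →
      (∀ z : ℂ, ‖z‖ ≤ R₀ / Real.log t → ‖F t z‖ ≤ Real.exp (K * R₀) * t ^ (-δ)) ∨
        ∃ y₁ : ℝ, |y₁| + 1 ≤ W ∧ 0 < ‖F t (y₁ * I)‖ ∧
        (∀ z : ℂ, ‖z‖ ≤ R₀ / Real.log t →
          (1 + Real.log t * |y₁|) ^ m * ‖F t z‖ ≤ ‖F t (y₁ * I)‖ * Real.exp (K * R₀)) ∧
        ∀ R : ℝ, 1 ≤ R → 2 * R ≤ Real.log t → ∀ z : ℂ, ‖z - y₁ * I‖ ≤ R / Real.log t →
          ‖F t z‖ ≤ ‖F t (y₁ * I)‖ * Real.exp (K * R) := by
  obtain ⟨δ, W, Λ₀, K, hδ, hW, hΛ₀, hK, hpeak⟩ := peak2 (by norm_num : (1:ℝ) ≤ 4) hm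
  obtain ⟨T₁, hT₁, hloc⟩ := loc (a := 3 / 4) (δ := δ / 2) (W := W) (by norm_num) le_rfl (by positivity)
    (by linarith)
  set δ' : ℝ := min (δ / 2) 1 with hδ'
  have hδ'0 : 0 < δ' := lt_min (by positivity) one_pos
  have hδ'1 : δ' ≤ δ / 2 := min_le_left _ _
  have hδ'2 : δ' ≤ 1 := min_le_right _ _
  refine ⟨W, δ', K, max (max T₁ (2 * W)) (Real.exp Λ₀), hW, hδ'0, hK,
    hT₁.trans ((le_max_left _ _).trans (le_max_left _ _)),
    (le_max_right _ _).trans (le_max_left _ _), fun t ht R₀ hR₀ hR₀t => ?_⟩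
  have ht1 : T₁ ≤ t := ((le_max_left _ _).trans (le_max_left _ _)).trans ht
  have ht2 : Real.exp Λ₀ ≤ t := (le_max_right _ _).trans ht
  have ht0 : 0 < t := by linarith
  have hΛ : Λ₀ ≤ Real.log t := by
    rw [Real.le_log_iff_exp_le ht0]; exact ht2
  have hL := hloc t ht1
  have hL' : Loc (F t) (3 / 4) (δ - δ') 3 W (Real.log t) (Real.log t) := by
    refine ⟨hL.diff, hL.l0, hL.lB, fun x y hx hy => (hL.side x y hx hy).trans ?_, hL.crude⟩
    apply Real.exp_le_exp.2
    have : δ / 2 * Real.log t ≤ (δ - δ') * Real.log t := mul_le_mul_of_nonneg_right (by linarith) (by linarith)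
    linarith
  have hS := Loc.scale (by linarith : 0 ≤ Real.log t) hδ'2 hL'
  rw [sub_add_cancel] at hS
  have hn' : ‖((Real.exp (δ' * Real.log t) : ℝ) : ℂ)‖ = Real.exp (δ' * Real.log t) := by
    rw [Complex.norm_real, Real.norm_eq_abs, abs_of_pos (Real.exp_pos _)]
  have hc : 0 < Real.exp (δ' * Real.log t) := Real.exp_pos _
  rcases hpeak _ (Real.log t) hΛ hS R₀ hR₀ hR₀t with h | ⟨y₁, h1, h2, h3, h4⟩
  · left
    intro z hz
    have h := h z hz
    rw [norm_mul, hn', ← rpow_exp ht0] at h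
    rw [Real.rpow_neg ht0.le, ← div_eq_mul_inv, le_div_iff₀ (by positivity), mul_comm]
    exact h
  · right
    simp only [norm_mul, hn'] at h2 h3 h4
    refine ⟨y₁, h1, (mul_pos_iff_of_pos_left hc).1 h2, ?_, ?_⟩
    · intro z hz
      refine le_of_mul_le_mul_left ?_ hc
      calc Real.exp (δ' * Real.log t) * ((1 + Real.log t * |y₁|) ^ m * ‖F t z‖) =
          (1 + Real.log t * |y₁|) ^ m * (Real.exp (δ' * Real.log t) * ‖F t z‖) := by ring
        _ ≤ Real.exp (δ' * Real.log t) * ‖F t (y₁ * I)‖ * Real.exp (K * R₀) := h3 z hz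
        _ = _ := by ring
    · intro R hR hRΛ z hz
      have h5 := h4 R hR hRΛ z hz
      refine le_of_mul_le_mul_left ?_ hc
      calc Real.exp (δ' * Real.log t) * ‖F t z‖ ≤ Real.exp (δ' * Real.log t) * ‖F t (y₁ * I)‖ * Real.exp (K * R) := h5
        _ = _ := by ring

open Pool.Agent.TH804.MS in
/-- **local inequality for products of derivatives of zeta**, with a disc on the left -/
theorem zeta_der2 {p κ R₀ : ℝ} (N : ℕ) (hR₀ : 1 ≤ R₀) (hp : 0 < p) (hκ : 0 < κ) (hκ1 : κ ≤ 1) :
    ∃ W δ K T₁ : ℝ, 2 ≤ W ∧ 0 < δ ∧ 1 ≤ K ∧ 8 ≤ T₁ ∧ 2 * W ≤ T₁ ∧ ∀ T t : ℝ, T₁ ≤ t → t ≤ T →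
      κ * Real.log T ≤ Real.log t → ∀ (n : ℕ) (μ : Fin n → ℕ) (q : Fin n → ℝ), (∀ j, μ j ≤ N) → (∀ j, 0 ≤ q j) →
      ∑ j, q j = p → ∀ z : ℂ, ‖z‖ ≤ R₀ / Real.log t →
      ‖F t z‖ ^ p ≤ K * t ^ (-δ) + K * Real.log T * ∫ y in (-W)..W, ((1 + κ * Real.log T * |y|) ^ 2)⁻¹ *
        ∏ j, (dz (μ j) (t + y) / Real.log T ^ μ j) ^ q j := by
  obtain ⟨m, hm1, hm2⟩ : ∃ m : ℕ, 1 ≤ m ∧ 2 ≤ m * p := by
    obtain ⟨m, hm⟩ := exists_nat_ge (2 / p)
    refine ⟨max m 1, le_max_right _ _, ?_⟩
    have h1 : 2 / p ≤ ((max m 1 : ℕ) : ℝ) := hm.trans (by exact_mod_cast le_max_left _ _)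
    rwa [div_le_iff₀ hp] at h1
  obtain ⟨W, δ, K, T₁, hW, hδ, hK, hT₁, hT₁W, hz⟩ := zeta_peak2 hm1
  obtain ⟨C, A, T₂, hC, hA, hT₂, hloc⟩ := loc_low_all N K (W := W) (by linarith)
  obtain ⟨A', hA'⟩ : ∃ A' : ℝ, A' = A * κ⁻¹ ^ N := ⟨_, rfl⟩
  have hA0 : 0 < A := by linarith
  have hA'0 : 0 < A' := by rw [hA']; positivity
  obtain ⟨E, hE⟩ : ∃ E : ℝ, E = 2 * Real.exp (-(p * C / 2)) := ⟨_, rfl⟩
  have hE0 : 0 < E := by rw [hE]; positivity
  obtain ⟨E₀, hE₀⟩ : ∃ E₀ : ℝ, E₀ = Real.exp (K * R₀) := ⟨_, rfl⟩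
  have hE₀1 : 1 ≤ E₀ := by rw [hE₀]; exact Real.one_le_exp (by positivity)
  have hE₀0 : 0 < E₀ := by linarith
  have hE₀p : 1 ≤ E₀ ^ p := Real.one_le_rpow hE₀1 hp.le
  obtain ⟨K', hK'⟩ : ∃ K' : ℝ, K' = max (E₀ ^ p) (4 * A' ^ p / E * E₀ ^ p) := ⟨_, rfl⟩
  have hK'0 : E₀ ^ p ≤ K' := by rw [hK']; exact le_max_left _ _
  have hK'1 : 1 ≤ K' := hE₀p.trans hK'0
  have hK'2 : 4 * A' ^ p / E * E₀ ^ p ≤ K' := by rw [hK']; exact le_max_right _ _
  refine ⟨W, δ * p, K', max (max T₁ T₂) (Real.exp (2 * R₀)), hW, by positivity, hK'1,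
    hT₁.trans ((le_max_left _ _).trans (le_max_left _ _)),
    hT₁W.trans ((le_max_left _ _).trans (le_max_left _ _)), ?_⟩
  intro T t ht htT hlog n μ q hμ hq hsum z hzn
  have ht1 : T₁ ≤ t := ((le_max_left _ _).trans (le_max_left _ _)).trans ht
  have ht2 : T₂ ≤ t := ((le_max_right _ _).trans (le_max_left _ _)).trans ht
  have ht3 : Real.exp (2 * R₀) ≤ t := (le_max_right _ _).trans ht
  have ht0 : 0 < t := by linarith
  have ht8 : 8 ≤ t := by linarith
  have hΛ1 : 1 ≤ Real.log t := by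
    rw [Real.le_log_iff_exp_le ht0]
    have := Real.exp_one_lt_d9
    linarith
  have hΛ0 : 0 < Real.log t := by linarith
  have hTt : Real.log t ≤ Real.log T := Real.log_le_log ht0 htT
  have hLT : 0 < Real.log T := by linarith
  have hR₀t : 2 * R₀ ≤ Real.log t := by
    rw [Real.le_log_iff_exp_le ht0]; exact ht3
  -- the integrand
  set P : ℝ → ℝ := fun u => ∏ j, (dz (μ j) u / Real.log T ^ μ j) ^ q j with hP
  have hPc : Continuous P := by
    rw [hP]
    apply continuous_finsetProd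
    intro j _
    exact ((dz_cont (μ j)).div_const _).rpow_const fun _ => Or.inr (hq j)
  have hP0 : ∀ u, 0 ≤ P u := fun u => Finset.prod_nonneg fun j _ => Real.rpow_nonneg (by
    have := dz_nonneg (μ j) u
    positivity) _
  set g : ℝ → ℝ := fun y => ((1 + κ * Real.log T * |y|) ^ 2)⁻¹ * P (t + y) with hg
  have hgc : Continuous g := by
    rw [hg]
    apply Continuous.mul
    · apply Continuous.inv₀ (by fun_prop)
      intro y
      positivity
    · exact hPc.comp (by fun_prop)
  have hg0 : ∀ y, 0 ≤ g y := by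
    intro y
    rw [hg]
    simp only
    have := hP0 (t + y)
    positivity
  have hgI : 0 ≤ ∫ y in (-W)..W, g y := intervalIntegral.integral_nonneg (by linarith) fun y _ => hg0 y
  show ‖F t z‖ ^ p ≤ K' * t ^ (-(δ * p)) + K' * Real.log T * ∫ y in (-W)..W, g y
  rcases hz t ht1 R₀ hR₀ hR₀t with h | ⟨y₁, hy₁, hV, hdec, hbd⟩
  · have h2 := h z hzn
    rw [← hE₀] at h2
    have h3 := Real.rpow_le_rpow (norm_nonneg _) h2 hp.le
    rw [Real.mul_rpow hE₀0.le (by positivity), ← Real.rpow_mul ht0.le] at h3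
    have e : -δ * p = -(δ * p) := by ring
    rw [e] at h3
    have h4 : E₀ ^ p * t ^ (-(δ * p)) ≤ K' * t ^ (-(δ * p)) := mul_le_mul_of_nonneg_right hK'0 (by positivity)
    have h5 : 0 ≤ K' * Real.log T * ∫ y in (-W)..W, g y := by positivity
    linarith
  · obtain ⟨V, hVd⟩ : ∃ V : ℝ, V = ‖F t (y₁ * I)‖ := ⟨_, rfl⟩
    have hlow := hloc t ht2 y₁ (by linarith) hV hbd
    rw [← hVd] at hlow hV hdec
    rw [← hE₀] at hdec
    obtain ⟨X, hX⟩ : ∃ X : ℝ, X = 1 + Real.log t * |y₁| := ⟨_, rfl⟩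
    rw [← hX] at hdec
    have hX1 : 1 ≤ X := by
      have : 0 ≤ Real.log t * |y₁| := by positivity
      linarith
    have hX0 : 0 < X := by linarith
    have hPr := LowLog.prod (p := p) n (fun j x => A * (dz (μ j) (t + y₁ + x / Real.log t) / (V * Real.log t ^ μ j))) q
      (fun j => hlow (μ j) (hμ j)) (fun j => by
        have h1 := dz_cont (μ j)
        exact continuous_const.mul ((h1.comp (by fun_prop)).div_const _)) hq hsum
    rw [← hE] at hPr
    -- comparison with the product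
    have hcmp : ∀ b : ℝ, ∏ j, (A * (dz (μ j) (t + y₁ + b / Real.log t) / (V * Real.log t ^ μ j))) ^ q j ≤
        A' ^ p * (V ^ p)⁻¹ * P (t + (y₁ + b / Real.log t)) := by
      intro b
      have e0 : t + y₁ + b / Real.log t = t + (y₁ + b / Real.log t) := by ring
      rw [e0]
      set u : ℝ := t + (y₁ + b / Real.log t) with hu
      have hA'V : 0 < A' * V⁻¹ := by positivity
      calc ∏ j, (A * (dz (μ j) u / (V * Real.log t ^ μ j))) ^ q j
          ≤ ∏ j, ((A' * V⁻¹) * (dz (μ j) u / Real.log T ^ μ j)) ^ q j := by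
            refine Finset.prod_le_prod (fun j _ => ?_) fun j _ => ?_
            · apply Real.rpow_nonneg
              have := dz_nonneg (μ j) u
              positivity
            · apply Real.rpow_le_rpow _ _ (hq j)
              · have := dz_nonneg (μ j) u
                positivity
              · have h1 : κ ^ N * Real.log T ^ μ j ≤ Real.log t ^ μ j := by
                  calc κ ^ N * Real.log T ^ μ j ≤ κ ^ μ j * Real.log T ^ μ j := by
                        apply mul_le_mul_of_nonneg_right _ (by positivity)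
                        exact pow_le_pow_of_le_one hκ.le hκ1 (hμ j)
                    _ = (κ * Real.log T) ^ μ j := (mul_pow _ _ _).symm
                    _ ≤ _ := pow_le_pow_left₀ (by positivity) hlog _
                have h2 := dz_nonneg (μ j) u
                rw [hA']
                have h3 : dz (μ j) u / (V * Real.log t ^ μ j) ≤ dz (μ j) u / (V * (κ ^ N * Real.log T ^ μ j)) := by
                  gcongr
                calc A * (dz (μ j) u / (V * Real.log t ^ μ j)) ≤ A * (dz (μ j) u / (V * (κ ^ N * Real.log T ^ μ j))) :=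
                      mul_le_mul_of_nonneg_left h3 hA0.le
                  _ = A * κ⁻¹ ^ N * V⁻¹ * (dz (μ j) u / Real.log T ^ μ j) := by
                      rw [inv_pow]
                      field_simp
        _ = (A' * V⁻¹) ^ p * P u := by
            have h2 : ∀ j, ((A' * V⁻¹) * (dz (μ j) u / Real.log T ^ μ j)) ^ q j =
                (A' * V⁻¹) ^ q j * (dz (μ j) u / Real.log T ^ μ j) ^ q j := by
              intro j
              rw [Real.mul_rpow hA'V.le (by
                have := dz_nonneg (μ j) u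
                positivity)]
            simp only [h2]
            rw [Finset.prod_mul_distrib, ← Real.rpow_sum_of_pos hA'V, hsum]
        _ = _ := by
            rw [Real.mul_rpow hA'0.le (inv_pos.2 hV).le, Real.inv_rpow hV.le]
    have hI1 : E ≤ A' ^ p * (V ^ p)⁻¹ * ∫ b in (-1:ℝ)..1, P (t + (y₁ + b / Real.log t)) := by
      rw [← intervalIntegral.integral_const_mul]
      refine hPr.trans ?_
      apply intervalIntegral.integral_mono_on (by norm_num)
      · apply Continuous.intervalIntegrable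
        apply continuous_finsetProd
        intro j _
        apply Continuous.rpow_const
        · have h1 := dz_cont (μ j)
          exact continuous_const.mul ((h1.comp (by fun_prop)).div_const _)
        · intro b
          exact Or.inr (hq j)
      · apply Continuous.intervalIntegrable
        exact continuous_const.mul (hPc.comp (by fun_prop))
      · intro b _
        exact hcmp b
    -- the kernel
    have hI2 : ∫ b in (-1:ℝ)..1, P (t + (y₁ + b / Real.log t)) ≤ 4 * X ^ 2 * (Real.log T * ∫ y in (-W)..W, g y) := by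
      have h2 : ∫ b in (-1:ℝ)..1, P (t + (y₁ + b / Real.log t)) ≤
          ∫ b in (-1:ℝ)..1, 4 * X ^ 2 * g (y₁ + b / Real.log t) := by
        apply intervalIntegral.integral_mono_on (by norm_num)
        · exact (hPc.comp (by fun_prop)).intervalIntegrable _ _
        · exact (continuous_const.mul (hgc.comp (by fun_prop))).intervalIntegrable _ _
        · intro b hb
          set y : ℝ := y₁ + b / Real.log t with hy
          have hb1 : |b| ≤ 1 := abs_le.2 hb
          have h3 : 1 + κ * Real.log T * |y| ≤ 2 * X := by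
            have h4 : |y| ≤ |y₁| + |b / Real.log t| := abs_add_le _ _
            have h5 : Real.log t * |b / Real.log t| ≤ 1 := by
              rw [abs_div, abs_of_pos hΛ0]
              have : Real.log t * (|b| / Real.log t) = |b| := by field_simp
              rw [this]; exact hb1
            have h6 : κ * Real.log T * |y| ≤ Real.log t * |y| := mul_le_mul_of_nonneg_right hlog (abs_nonneg y)
            have h7 : Real.log t * |y| ≤ Real.log t * |y₁| + Real.log t * |b / Real.log t| := by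
              rw [← mul_add]
              exact mul_le_mul_of_nonneg_left h4 hΛ0.le
            rw [hX] at hX1 ⊢
            linarith
          have h4 : 0 ≤ 1 + κ * Real.log T * |y| := by positivity
          have h5 : (1 + κ * Real.log T * |y|) ^ 2 ≤ 4 * X ^ 2 := by
            calc (1 + κ * Real.log T * |y|) ^ 2 ≤ (2 * X) ^ 2 := pow_le_pow_left₀ h4 h3 2
              _ = 4 * X ^ 2 := by ring
          have h6 : 1 ≤ 4 * X ^ 2 * ((1 + κ * Real.log T * |y|) ^ 2)⁻¹ := by
            have h7 : 0 < (1 + κ * Real.log T * |y|) ^ 2 := by positivity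
            rw [← div_eq_mul_inv, one_le_div h7]
            exact h5
          show P (t + y) ≤ 4 * X ^ 2 * (((1 + κ * Real.log T * |y|) ^ 2)⁻¹ * P (t + y))
          rw [← mul_assoc]
          calc P (t + y) = 1 * P (t + y) := (one_mul _).symm
            _ ≤ _ := mul_le_mul_of_nonneg_right h6 (hP0 _)
      refine h2.trans ?_
      rw [intervalIntegral.integral_const_mul]
      apply mul_le_mul_of_nonneg_left _ (by positivity)
      have h3 : ∫ b in (-1:ℝ)..1, g (y₁ + b / Real.log t) = Real.log t * ∫ y in (y₁ + -1 / Real.log t)..(y₁ + 1 / Real.log t), g y := by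
        rw [intervalIntegral.integral_comp_add_div (fun y => g y) hΛ0.ne', smul_eq_mul]
      rw [h3]
      have e : -1 / Real.log t = -(1 / Real.log t) := by ring
      have hΛp : 0 < 1 / Real.log t := by positivity
      have hΛi : 1 / Real.log t ≤ 1 := by rw [div_le_one hΛ0]; exact hΛ1
      have hc1 := abs_le.1 (by linarith : |y₁| ≤ W - 1)
      have h4 : ∫ y in (y₁ + -1 / Real.log t)..(y₁ + 1 / Real.log t), g y ≤ ∫ y in (-W)..W, g y := by
        rw [e]
        apply intervalIntegral.integral_mono_interval (by linarith) (by linarith) (by linarith)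
        · exact Filter.Eventually.of_forall hg0
        · exact hgc.intervalIntegrable _ _
      have h5 : 0 ≤ ∫ y in (y₁ + -1 / Real.log t)..(y₁ + 1 / Real.log t), g y := by
        apply intervalIntegral.integral_nonneg _ fun y _ => hg0 y
        rw [e]; linarith
      exact mul_le_mul hTt h4 h5 hLT.le
    -- conclusion
    have hVp : 0 < V ^ p := by positivity
    have h5 : V ^ p ≤ A' ^ p / E * (4 * X ^ 2 * (Real.log T * ∫ y in (-W)..W, g y)) := by
      have h6 : E ≤ A' ^ p * (V ^ p)⁻¹ * (4 * X ^ 2 * (Real.log T * ∫ y in (-W)..W, g y)) :=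
        hI1.trans (mul_le_mul_of_nonneg_left hI2 (by positivity))
      have h7 : A' ^ p * (V ^ p)⁻¹ * (4 * X ^ 2 * (Real.log T * ∫ y in (-W)..W, g y)) =
          A' ^ p * (4 * X ^ 2 * (Real.log T * ∫ y in (-W)..W, g y)) / V ^ p := by ring
      rw [h7, le_div_iff₀ hVp] at h6
      have h8 : A' ^ p / E * (4 * X ^ 2 * (Real.log T * ∫ y in (-W)..W, g y)) =
          A' ^ p * (4 * X ^ 2 * (Real.log T * ∫ y in (-W)..W, g y)) / E := by ring
      rw [h8, le_div_iff₀ hE0]
      linarith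
    have h6 : X ^ (2:ℕ) * ‖F t z‖ ^ p ≤ V ^ p * E₀ ^ p := by
      have h7 : X ^ m * ‖F t z‖ ≤ V * E₀ := hdec z hzn
      have h8 := Real.rpow_le_rpow (by positivity) h7 hp.le
      rw [Real.mul_rpow (by positivity) (norm_nonneg _), ← Real.rpow_natCast X m, ← Real.rpow_mul hX0.le,
        Real.mul_rpow hV.le hE₀0.le] at h8
      refine le_trans ?_ h8
      apply mul_le_mul_of_nonneg_right _ (Real.rpow_nonneg (norm_nonneg _) _)
      rw [← Real.rpow_natCast X 2]
      apply Real.rpow_le_rpow_of_exponent_le hX1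
      push_cast
      exact hm2
    have h7 : ‖F t z‖ ^ p ≤ 4 * A' ^ p / E * E₀ ^ p * (Real.log T * ∫ y in (-W)..W, g y) := by
      have h8 : X ^ (2:ℕ) * ‖F t z‖ ^ p ≤ X ^ (2:ℕ) * (4 * A' ^ p / E * E₀ ^ p * (Real.log T * ∫ y in (-W)..W, g y)) := by
        refine (h6.trans (mul_le_mul_of_nonneg_right h5 (by positivity))).trans (le_of_eq ?_)
        ring
      exact le_of_mul_le_mul_left h8 (by positivity)
    have h8 : ‖F t z‖ ^ p ≤ K' * Real.log T * ∫ y in (-W)..W, g y := by
      refine h7.trans ?_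
      calc 4 * A' ^ p / E * E₀ ^ p * (Real.log T * ∫ y in (-W)..W, g y)
          ≤ K' * (Real.log T * ∫ y in (-W)..W, g y) := mul_le_mul_of_nonneg_right hK'2 (by positivity)
        _ = K' * Real.log T * ∫ y in (-W)..W, g y := by ring
    have h9 : 0 ≤ K' * t ^ (-(δ * p)) := by positivity
    linarith

end Pool.Agent.Helper156_SP
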