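import Mathlib
import Pool.Agent.Helper156_SP.Zeta
import Pool.Agent.Helper156_SP.Low

set_option autoImplicit false

/-!
# Sampling of the moments of zeta
-/

open Complex Set MeasureTheory Filter Topology

namespace Pool.Agent.Helper156_SP

/-- `S` is `(ε, L, d)`-dense on `I` at scale `1 / l`: every interval `[x, x + 2πL/l]`, `x ∈ I`, contains at least `(1+ε)L` points
of `S` with mutual distances at least `d / l`. -/
def DenseAt (ε L d l : ℝ) (S : Finset ℝ) (I : Set ℝ) : Prop :=
  ∀ x ∈ I, ∃ S' ⊆ S, (∀ s ∈ S', x ≤ s ∧ s ≤ x + 2 * Real.pi * L / l) ∧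
    (∀ s ∈ S', ∀ s' ∈ S', s ≠ s' → d / l ≤ |s - s'|) ∧ (1 + ε) * L ≤ S'.card

theorem sampling_low' {p ε L d : ℝ} (hp : 0 < p) (hε : 0 < ε) (hε1 : ε ≤ 1) (hL : 0 < L) (hd : 0 < d) :
    ∃ c W T₀ : ℝ, 0 < c ∧ 0 < W ∧ ∀ T : ℝ, T₀ ≤ T → ∀ S : Finset ℝ,
      DenseAt ε L d (Real.log T) S (Icc 0 (T + W)) →
      c * (Real.log T * ∫ t in (0:ℝ)..T, az t ^ p) ≤ ∑ s ∈ S, az s ^ p := by
  obtain ⟨m, hm1, hm2⟩ : ∃ m : ℕ, 1 ≤ m ∧ 2 ≤ m * p := by
    obtain ⟨m, hm⟩ := exists_nat_ge (2 / p)
    refine ⟨max m 1, le_max_right _ _, ?_⟩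
    have h1 : 2 / p ≤ ((max m 1 : ℕ) : ℝ) := hm.trans (by exact_mod_cast le_max_left _ _)
    rwa [div_le_iff₀ hp] at h1
  set κ : ℝ := 1 / (2 * (p + 1)) with hκ
  have hκ0 : 0 < κ := by positivity
  have hκ1 : κ ≤ 1 := by
    rw [hκ, div_le_one (by positivity)]; linarith
  have hκp : κ * (p + 1) = 1 / 2 := by rw [hκ]; field_simp
  obtain ⟨W, δ, K, T₁, hW, hδ, hK, hT₁, hT₁W, hz⟩ := zeta_sample hε hε1 hL hd hκ0 hm1
  set η : ℝ := min (κ * δ * p / 2) (1 / 4) with hη
  have hη0 : 0 < η := lt_min (by positivity) (by norm_num)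
  have hη1 : η ≤ κ * δ * p / 2 := min_le_left _ _
  have hη2 : η ≤ 1 / 4 := min_le_right _ _
  have hK0 : 0 < K := by linarith
  have hpi := Real.pi_pos
  set C : ℝ := 2 * (K ^ p + 18 ^ p) with hC
  have hev1 := mom_low hp hη0 C
  have hev2 : ∀ᶠ T : ℝ in atTop, max T₁ 1 ≤ T ^ κ := (tendsto_rpow_atTop hκ0).eventually_ge_atTop _
  obtain ⟨T₀, hT₀⟩ := eventually_atTop.1 (hev1.and (hev2.and (eventually_ge_atTop (2:ℝ))))
  refine ⟨κ / (2 * (Real.pi * K ^ p)), W, T₀, by positivity, by linarith, fun T hT S hS => ?_⟩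
  obtain ⟨h1, h2, hT2⟩ := hT₀ T hT
  have hT0 : 0 < T := by linarith
  have hlT : 0 < Real.log T := Real.log_pos (by linarith)
  set a : ℝ := T ^ κ with ha
  have ha1 : 1 ≤ a := (le_max_right _ _).trans h2
  have haT1 : T₁ ≤ a := (le_max_left _ _).trans h2
  have haT : a ≤ T := by
    calc a ≤ T ^ (1:ℝ) := Real.rpow_le_rpow_of_exponent_le (by linarith) hκ1
      _ = T := Real.rpow_one T
  have ha0 : 0 < a := by linarith
  set l : ℝ := κ * Real.log T with hl
  have hl0 : 0 < l := by positivity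
  have hla : Real.log a = l := by rw [ha, Real.log_rpow hT0]
  set X : ℝ := K ^ p * a ^ (-(δ * p)) with hX
  have hX0 : 0 ≤ X := by positivity
  -- pointwise
  have hpt : ∀ t ∈ Icc a T, az t ^ p ≤ X + ∑ s ∈ S, K ^ p * az s ^ p * ((1 + l * |t - s|) ^ 2)⁻¹ := by
    intro t ht
    have ht0 : 0 < t := ha0.trans_le ht.1
    have hlt : l ≤ Real.log t := by rw [← hla]; exact Real.log_le_log ha0 ht.1
    have hlt0 : 0 < Real.log t := hl0.trans_le hlt
    have hterm : ∀ s ∈ S, 0 ≤ K ^ p * az s ^ p * ((1 + l * |t - s|) ^ 2)⁻¹ := by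
      intro s _
      have := Real.rpow_nonneg (az_nonneg s) p
      positivity
    rcases hz T t (haT1.trans ht.1) ht.2 hlt S (fun x hx => hS x
      ⟨by linarith [hx.1, haT1.trans ht.1], by linarith [hx.2, ht.2]⟩) with h3 | ⟨s, hsS, hsW, h3⟩
    · have h4 : az t ≤ K * t ^ (-δ) := h3
      have h5 : t ^ (-δ) ≤ a ^ (-δ) := Real.rpow_le_rpow_of_nonpos ha0 ht.1 (by linarith)
      have h6 : az t ≤ K * a ^ (-δ) := h4.trans (mul_le_mul_of_nonneg_left h5 hK0.le)
      have h7 : az t ^ p ≤ X := by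
        refine (Real.rpow_le_rpow (az_nonneg t) h6 hp.le).trans (le_of_eq ?_)
        rw [Real.mul_rpow hK0.le (by positivity), ← Real.rpow_mul ha0.le, hX]
        congr 2
        ring
      have := Finset.sum_nonneg hterm
      linarith
    · have h4 : (1 + Real.log t * |s - t|) ^ m * az t ≤ K * az s := h3
      have hb0 : 0 ≤ l * |t - s| := by positivity
      have hb1 : l * |t - s| ≤ Real.log t * |s - t| := by
        rw [abs_sub_comm]
        exact mul_le_mul_of_nonneg_right hlt (abs_nonneg _)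
      have h5 : ((1 + l * |t - s|) ^ 2) * az t ^ p ≤ K ^ p * az s ^ p := by
        have h6 : (1 + l * |t - s|) ^ m * az t ≤ K * az s := by
          refine le_trans ?_ h4
          apply mul_le_mul_of_nonneg_right _ (az_nonneg t)
          exact pow_le_pow_left₀ (by positivity) (by linarith) m
        have h7 := Real.rpow_le_rpow (by have := az_nonneg t; positivity) h6 hp.le
        rw [Real.mul_rpow (by positivity) (az_nonneg t), Real.mul_rpow hK0.le (az_nonneg s),
          ← Real.rpow_natCast, ← Real.rpow_mul (by positivity)] at h7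
        refine le_trans ?_ h7
        apply mul_le_mul_of_nonneg_right _ (Real.rpow_nonneg (az_nonneg t) p)
        rw [← Real.rpow_natCast (1 + l * |t - s|) 2]
        apply Real.rpow_le_rpow_of_exponent_le (by linarith)
        push_cast
        exact hm2
      have h6 : az t ^ p ≤ K ^ p * az s ^ p * ((1 + l * |t - s|) ^ 2)⁻¹ := by
        rw [← div_eq_mul_inv, le_div_iff₀ (by positivity), mul_comm]
        exact h5
      have h7 := Finset.single_le_sum hterm hsS
      linarith
  -- integrate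
  have hkc : ∀ s : ℝ, Continuous fun t : ℝ => K ^ p * az s ^ p * ((1 + l * |t - s|) ^ 2)⁻¹ := by
    intro s
    apply Continuous.mul continuous_const
    apply Continuous.inv₀ (by fun_prop)
    intro t
    positivity
  have hint : ∫ t in a..T, az t ^ p ≤ X * T + K ^ p * (Real.pi / l) * ∑ s ∈ S, az s ^ p := by
    have h3 : ∫ t in a..T, az t ^ p ≤ ∫ t in a..T, (X + ∑ s ∈ S, K ^ p * az s ^ p * ((1 + l * |t - s|) ^ 2)⁻¹) := by
      apply intervalIntegral.integral_mono_on haT (azp_int hp _ _) _ hpt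
      apply Continuous.intervalIntegrable
      exact continuous_const.add (continuous_finsetSum _ fun s _ => hkc s)
    refine h3.trans ?_
    rw [intervalIntegral.integral_add (by simp) ((continuous_finsetSum _ fun s _ => hkc s).intervalIntegrable _ _),
      intervalIntegral.integral_finsetSum fun s _ => (hkc s).intervalIntegrable _ _, Finset.mul_sum]
    apply add_le_add
    · rw [intervalIntegral.integral_const, smul_eq_mul]
      nlinarith
    · refine Finset.sum_le_sum fun s _ => ?_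
      rw [intervalIntegral.integral_const_mul]
      have h4 := ker_int hl0 s haT
      have h5 : 0 ≤ K ^ p * az s ^ p := by
        have := Real.rpow_nonneg (az_nonneg s) p
        positivity
      calc K ^ p * az s ^ p * ∫ t in a..T, ((1 + l * |t - s|) ^ 2)⁻¹ ≤ K ^ p * az s ^ p * (Real.pi / l) :=
            mul_le_mul_of_nonneg_left h4 h5
        _ = _ := by ring
  have hsplit : ∫ t in (0:ℝ)..T, az t ^ p = (∫ t in (0:ℝ)..a, az t ^ p) + ∫ t in a..T, az t ^ p :=
    (intervalIntegral.integral_add_adjacent_intervals (azp_int hp 0 a) (azp_int hp a T)).symm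
  have hsm := int_small hp ha1
  -- powers of T
  have hXT : X * T ≤ K ^ p * T ^ (1 - η) := by
    rw [hX, ha, ← Real.rpow_mul hT0.le, mul_assoc]
    apply mul_le_mul_of_nonneg_left _ (by positivity)
    rw [← Real.rpow_add_one hT0.ne']
    apply Real.rpow_le_rpow_of_exponent_le (by linarith)
    have : 0 < κ * δ * p := by positivity
    nlinarith
  have haT2 : 18 ^ p * a ^ (p + 1) ≤ 18 ^ p * T ^ (1 - η) := by
    apply mul_le_mul_of_nonneg_left _ (by positivity)
    rw [ha, ← Real.rpow_mul hT0.le, hκp]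
    apply Real.rpow_le_rpow_of_exponent_le (by linarith)
    linarith
  have hfin : ∫ t in (0:ℝ)..T, az t ^ p ≤ 2 * (K ^ p * (Real.pi / l) * ∑ s ∈ S, az s ^ p) := by
    rw [hC] at h1
    have h4 : (K ^ p + 18 ^ p) * T ^ (1 - η) ≤ (∫ t in (0:ℝ)..T, az t ^ p) / 2 := by linarith
    have h5 : (K ^ p + 18 ^ p) * T ^ (1 - η) = K ^ p * T ^ (1 - η) + 18 ^ p * T ^ (1 - η) := by ring
    linarith
  have hc1 : κ / (2 * (Real.pi * K ^ p)) * (Real.log T * (2 * (K ^ p * (Real.pi / l) * ∑ s ∈ S, az s ^ p))) =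
      ∑ s ∈ S, az s ^ p := by
    rw [hl]
    have hKp : 0 < K ^ p := by positivity
    field_simp
  rw [← hc1]
  apply mul_le_mul_of_nonneg_left _ (by positivity)
  exact mul_le_mul_of_nonneg_left hfin hlT.le

end Pool.Agent.Helper156_SP
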