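import Mathlib
import Pool.Agent.Helper156_SP.Fin1

set_option autoImplicit false

/-!
# Sampling of the moments of zeta: final form
-/

open Complex Set MeasureTheory Filter Topology

namespace Pool.Agent.Helper156_SP

/-- lower bound of the expected order for all real orders `p ≥ 2` (starting library) -/
theorem mom_low_log {p : ℝ} (hp : 2 ≤ p) : ∃ c : ℝ, 0 < c ∧ ∀ᶠ T : ℝ in atTop,
    c * (T * Real.log T ^ (p ^ 2 / 4)) ≤ ∫ t in (0:ℝ)..T, az t ^ p := by
  have hp0 : 0 < p := by linarith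
  obtain ⟨c0, K0, hc0, hK01, hu⟩ := Pool.Agent.W181.Mom.uniform_real 1 one_pos (by
    rw [lt_div_iff₀ (Real.exp_pos 1)]
    have := Real.exp_one_lt_d9
    linarith)
  obtain ⟨B, hB, hev⟩ := hu (p / 2) (by linarith) c0 (Or.inl le_rfl)
  set c : ℝ := Pool.Agent.H306R2.aF (p / 2) * (c0 * (1 ^ ((p / 2:ℝ) ^ 2) / Real.Gamma ((p / 2:ℝ) ^ 2 + 1))) with hc
  have hc1 : 0 < c := by
    have h1 : 0 < Pool.Agent.H306R2.aF (p / 2) := Pool.Agent.H306R2.aF_pos (by positivity)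
    have h2 : 0 < Real.Gamma ((p / 2:ℝ) ^ 2 + 1) := Real.Gamma_pos_of_pos (by positivity)
    positivity
  have h2 : Tendsto (fun T : ℝ => T / 2) atTop atTop := tendsto_id.atTop_div_const (by norm_num)
  have h3 : ∀ᶠ T : ℝ in atTop, Real.log T ^ B ≤ T := by
    have := (isLittleO_log_rpow_rpow_atTop B (by norm_num : (0 : ℝ) < 1)).bound one_pos
    filter_upwards [this, eventually_ge_atTop 1] with T hT hT1
    rw [Real.rpow_one, one_mul, Real.norm_eq_abs, Real.norm_eq_abs, abs_of_nonneg (by linarith : 0 ≤ T)] at hT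
    exact (le_abs_self _).trans hT
  refine ⟨c / 2 * (1 / 2) ^ (p ^ 2 / 4), by positivity, ?_⟩
  filter_upwards [h2.eventually hev, h2.eventually h3, eventually_ge_atTop 4] with T h5 h6 hT
  have h8 := h5 (T / 2) h6
  rw [add_halves] at h8
  have e1 : ((p / 2:ℝ) ^ 2) = p ^ 2 / 4 := by ring
  have e2 : ∫ t in (T / 2)..T, az t ^ p = ∫ t in (T / 2)..T, ‖riemannZeta (1 / 2 + t * Complex.I)‖ ^ (2 * (p / 2)) := by
    rw [show 2 * (p / 2) = p by ring]; rfl
  rw [← e2, e1] at h8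
  have hlT : 0 < Real.log T := Real.log_pos (by linarith)
  have h9 : 1 / 2 * Real.log T ≤ Real.log (T / 2) := by
    rw [Real.log_div (by linarith) (by norm_num)]
    have h10 : 2 * Real.log 2 ≤ Real.log T := by
      have : Real.log ((2:ℝ) ^ 2) ≤ Real.log T := Real.log_le_log (by norm_num) (by linarith)
      rwa [Real.log_pow] at this
    linarith
  have h10 : (1 / 2) ^ (p ^ 2 / 4) * Real.log T ^ (p ^ 2 / 4) ≤ Real.log (T / 2) ^ (p ^ 2 / 4) := by
    rw [← Real.mul_rpow (by norm_num) hlT.le]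
    exact Real.rpow_le_rpow (by positivity) h9 (by positivity)
  have h11 : ∫ t in (T / 2)..T, az t ^ p ≤ ∫ t in (0:ℝ)..T, az t ^ p := by
    rw [← intervalIntegral.integral_add_adjacent_intervals (azp_int hp0 0 (T / 2)) (azp_int hp0 (T / 2) T)]
    have : 0 ≤ ∫ t in (0:ℝ)..(T / 2), az t ^ p :=
      intervalIntegral.integral_nonneg (by linarith) fun t _ => Real.rpow_nonneg (az_nonneg t) _
    linarith
  have h12 : c / 2 * (1 / 2) ^ (p ^ 2 / 4) * (T * Real.log T ^ (p ^ 2 / 4)) ≤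
      c * (T / 2 * Real.log (T / 2) ^ (p ^ 2 / 4)) := by
    have h13 := mul_le_mul_of_nonneg_left h10 (by positivity : 0 ≤ c * (T / 2))
    calc c / 2 * (1 / 2) ^ (p ^ 2 / 4) * (T * Real.log T ^ (p ^ 2 / 4)) =
          c * (T / 2) * ((1 / 2) ^ (p ^ 2 / 4) * Real.log T ^ (p ^ 2 / 4)) := by ring
      _ ≤ c * (T / 2) * Real.log (T / 2) ^ (p ^ 2 / 4) := h13
      _ = _ := by ring
  linarith

theorem sampling_low {p ε L d : ℝ} (hp : 0 < p) (hε : 0 < ε) (hL : 0 < L) (hd : 0 < d) :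
    ∃ c W T₀ : ℝ, 0 < c ∧ 0 < W ∧ ∀ T : ℝ, T₀ ≤ T → ∀ S : Finset ℝ,
      DenseAt ε L d (Real.log T) S (Icc 0 (T + W)) →
      c * (Real.log T * ∫ t in (0:ℝ)..T, az t ^ p) ≤ ∑ s ∈ S, az s ^ p ∧
      (2 ≤ p → c * (T * Real.log T ^ (p ^ 2 / 4 + 1)) ≤ ∑ s ∈ S, az s ^ p) := by
  obtain ⟨c, W, T₀, hc, hW, h⟩ := sampling_low' hp (lt_min hε one_pos) (min_le_right ε 1) hL hd
  obtain ⟨c', T₁, hc', h'⟩ : ∃ c' T₁ : ℝ, 0 < c' ∧ ∀ T : ℝ, T₁ ≤ T → 2 ≤ p →
      c' * (T * Real.log T ^ (p ^ 2 / 4)) ≤ ∫ t in (0:ℝ)..T, az t ^ p := by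
    by_cases h2 : 2 ≤ p
    · obtain ⟨c', hc', hev⟩ := mom_low_log h2
      obtain ⟨T₁, hT₁⟩ := eventually_atTop.1 hev
      exact ⟨c', T₁, hc', fun T hT _ => hT₁ T hT⟩
    · exact ⟨1, 0, one_pos, fun T _ h => absurd h h2⟩
  refine ⟨min c (c * c'), W, max (max T₀ T₁) 2, lt_min hc (by positivity), hW, fun T hT S hS => ?_⟩
  have hT0 : T₀ ≤ T := (le_max_left _ _).trans ((le_max_left _ _).trans hT)
  have hT1 : T₁ ≤ T := (le_max_right _ _).trans ((le_max_left _ _).trans hT)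
  have hT2 : 2 ≤ T := (le_max_right _ _).trans hT
  have hlT : 0 < Real.log T := Real.log_pos (by linarith)
  have hS' : DenseAt (min ε 1) L d (Real.log T) S (Icc 0 (T + W)) := by
    intro x hx
    obtain ⟨S', h1, h2, h3, h4⟩ := hS x hx
    refine ⟨S', h1, h2, h3, le_trans ?_ h4⟩
    apply mul_le_mul_of_nonneg_right _ hL.le
    have := min_le_left ε 1
    linarith
  have h1 := h T hT0 S hS'
  have hint : 0 ≤ ∫ t in (0:ℝ)..T, az t ^ p :=
    intervalIntegral.integral_nonneg (by linarith) fun t _ => Real.rpow_nonneg (az_nonneg t) _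
  refine ⟨le_trans ?_ h1, fun hp2 => ?_⟩
  · exact mul_le_mul_of_nonneg_right (min_le_left _ _) (by positivity)
  · have h2 := h' T hT1 hp2
    have e : Real.log T ^ (p ^ 2 / 4 + 1) = Real.log T ^ (p ^ 2 / 4) * Real.log T := Real.rpow_add_one hlT.ne' _
    rw [e]
    calc min c (c * c') * (T * (Real.log T ^ (p ^ 2 / 4) * Real.log T))
        ≤ c * c' * (T * (Real.log T ^ (p ^ 2 / 4) * Real.log T)) :=
          mul_le_mul_of_nonneg_right (min_le_right _ _) (by positivity)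
      _ = c * (Real.log T * (c' * (T * Real.log T ^ (p ^ 2 / 4)))) := by ring
      _ ≤ c * (Real.log T * ∫ t in (0:ℝ)..T, az t ^ p) := by gcongr
      _ ≤ _ := h1

end Pool.Agent.Helper156_SP
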