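import Mathlib
import Pool.Agent.Helper156_SP.Fin3
import Pool.Agent.Helper156_SP.Fin2

set_option autoImplicit false

/-!
# Moments with microscopic shifts: final form
-/

open Complex Set MeasureTheory Filter Topology

namespace Pool.Agent.Helper156_SP

theorem shifts_main {A p : ℝ} (hA : 0 ≤ A) (hp : 0 < p) :
    ∃ c W T₀ : ℝ, 0 < c ∧ 0 < W ∧ ∀ T : ℝ, T₀ ≤ T → ∀ (n : ℕ) (α q : Fin n → ℝ), (∀ j, |α j| ≤ A) →
      (∀ j, 0 ≤ q j) → ∑ j, q j = p →
      c * ∫ t in (0:ℝ)..(T - W), az t ^ p ≤ ∫ t in (0:ℝ)..T, ∏ j, az (t + α j / Real.log T) ^ q j ∧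
      (2 ≤ p → c * (T * Real.log T ^ (p ^ 2 / 4)) ≤ ∫ t in (0:ℝ)..T, ∏ j, az (t + α j / Real.log T) ^ q j) := by
  obtain ⟨c, W, T₀, hc, hW, h⟩ := shifts_low hA hp
  obtain ⟨c', T₁, hc', h'⟩ : ∃ c' T₁ : ℝ, 0 < c' ∧ ∀ T : ℝ, T₁ ≤ T → 2 ≤ p →
      c' * (T * Real.log T ^ (p ^ 2 / 4)) ≤ ∫ t in (0:ℝ)..T, az t ^ p := by
    by_cases h2 : 2 ≤ p
    · obtain ⟨c', hc', hev⟩ := mom_low_log h2
      obtain ⟨T₁, hT₁⟩ := eventually_atTop.1 hev
      exact ⟨c', T₁, hc', fun T hT _ => hT₁ T hT⟩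
    · exact ⟨1, 0, one_pos, fun T _ h => absurd h h2⟩
  set c₁ : ℝ := c * c' * (1 / 2) * (1 / 2) ^ (p ^ 2 / 4) with hc₁
  have hc₁0 : 0 < c₁ := by positivity
  refine ⟨min c c₁, W, max (max T₀ T₁) 2 + 2 * W + 4, lt_min hc hc₁0, hW, fun T hT n α q hα hq hsum => ?_⟩
  have hTm : max (max T₀ T₁) 2 + 2 * W + 4 ≤ T := hT
  set T' : ℝ := T - W with hT'
  have hm2 : (2:ℝ) ≤ max (max T₀ T₁) 2 := le_max_right _ _
  have h1 : max (max T₀ T₁) 2 ≤ T' := by rw [hT']; linarith
  have hT0 : T₀ ≤ T' := (le_max_left _ _).trans ((le_max_left _ _).trans h1)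
  have hT1 : T₁ ≤ T' := (le_max_right _ _).trans ((le_max_left _ _).trans h1)
  have hT2 : 2 ≤ T' := (le_max_right _ _).trans h1
  have hTh : T / 2 ≤ T' := by
    have : (2:ℝ) ≤ max (max T₀ T₁) 2 := le_max_right _ _
    rw [hT']; linarith
  have hTT : T' ≤ T := by rw [hT']; linarith
  have hlT' : 0 < Real.log T' := Real.log_pos (by linarith)
  have hlT : 0 < Real.log T := Real.log_pos (by linarith)
  have hll : Real.log T' ≤ Real.log T := Real.log_le_log (by linarith) hTT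
  have h2 := h T' hT0 n (fun j => α j * (Real.log T' / Real.log T)) q (fun j => by
    rw [abs_mul, abs_of_pos (by positivity : 0 < Real.log T' / Real.log T)]
    have h3 : Real.log T' / Real.log T ≤ 1 := (div_le_one hlT).2 hll
    have h4 := abs_nonneg (α j)
    have h5 := hα j
    nlinarith) hq hsum
  have e1 : T' + W = T := by rw [hT']; ring
  have e2 : ∀ j, α j * (Real.log T' / Real.log T) / Real.log T' = α j / Real.log T := by
    intro j
    field_simp
  simp only [e1, e2] at h2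
  have hint : 0 ≤ ∫ t in (0:ℝ)..T', az t ^ p :=
    intervalIntegral.integral_nonneg (by linarith) fun t _ => Real.rpow_nonneg (az_nonneg t) _
  refine ⟨(mul_le_mul_of_nonneg_right (min_le_left _ _) hint).trans h2, fun hp2 => ?_⟩
  have h3 := h' T' hT1 hp2
  refine le_trans ?_ h2
  have h4 : 1 / 2 * Real.log T ≤ Real.log T' := by
    have h5 : Real.log (T / 2) ≤ Real.log T' := Real.log_le_log (by linarith) hTh
    rw [Real.log_div (by linarith) (by norm_num)] at h5
    have h6 : 2 * Real.log 2 ≤ Real.log T := by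
      have : Real.log ((2:ℝ) ^ 2) ≤ Real.log T := Real.log_le_log (by norm_num) (by linarith)
      rwa [Real.log_pow] at this
    linarith
  have h5 : (1 / 2) ^ (p ^ 2 / 4) * Real.log T ^ (p ^ 2 / 4) ≤ Real.log T' ^ (p ^ 2 / 4) := by
    rw [← Real.mul_rpow (by norm_num) hlT.le]
    exact Real.rpow_le_rpow (by positivity) h4 (by positivity)
  have hTp : 0 ≤ T * Real.log T ^ (p ^ 2 / 4) := mul_nonneg (by linarith) (Real.rpow_nonneg hlT.le _)
  have hT'p : 0 ≤ T' := by linarith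
  calc min c c₁ * (T * Real.log T ^ (p ^ 2 / 4)) ≤ c₁ * (T * Real.log T ^ (p ^ 2 / 4)) :=
        mul_le_mul_of_nonneg_right (min_le_right _ _) hTp
    _ = c * (c' * ((T / 2) * ((1 / 2) ^ (p ^ 2 / 4) * Real.log T ^ (p ^ 2 / 4)))) := by rw [hc₁]; ring
    _ ≤ c * (c' * (T' * Real.log T' ^ (p ^ 2 / 4))) := by gcongr
    _ ≤ c * ∫ t in (0:ℝ)..T', az t ^ p := by gcongr

/-- a monotone function with `M S ≤ C M (S^β)` grows at most like a power of the logarithm -/
theorem slow {M : ℝ → ℝ} (hM : Monotone M) (hM0 : ∀ x, 0 ≤ M x) {C β S₁ : ℝ} (hβ0 : 0 < β) (hβ1 : β < 1)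
    (h : ∀ S : ℝ, S₁ ≤ S → M S ≤ C * M (S ^ β)) :
    ∃ K A S₃ : ℝ, 1 < S₃ ∧ ∀ S : ℝ, S₃ ≤ S → M S ≤ K * Real.log S ^ A := by
  set C' : ℝ := max C 1 with hC'
  have hC'1 : 1 ≤ C' := le_max_right _ _
  have hC'0 : 0 < C' := by linarith
  have hlβ : Real.log β < 0 := Real.log_neg hβ0 hβ1
  set A : ℝ := -(Real.log C' / Real.log β) with hA
  have hA0 : 0 ≤ A := by
    rw [hA, neg_nonneg]
    exact div_nonpos_of_nonneg_of_nonpos (Real.log_nonneg hC'1) hlβ.le
  have hCA : C' * β ^ A = 1 := by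
    rw [Real.rpow_def_of_pos hβ0, hA]
    have : Real.log β * -(Real.log C' / Real.log β) = -Real.log C' := by
      rw [mul_neg, mul_div_cancel₀ _ hlβ.ne]
    rw [this, Real.exp_neg, Real.exp_log hC'0, mul_inv_cancel₀ hC'0.ne']
  set S₂ : ℝ := max S₁ 2 with hS₂
  have hS₂2 : 2 ≤ S₂ := le_max_right _ _
  have hS₂0 : 0 < S₂ := by linarith
  have hl2 : 0 < Real.log S₂ := Real.log_pos (by linarith)
  set S₃ : ℝ := S₂ ^ β with hS₃
  have hS₃1 : 1 < S₃ := Real.one_lt_rpow (by linarith) hβ0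
  have hl3 : Real.log S₃ = β * Real.log S₂ := Real.log_rpow hS₂0 _
  have hl3p : 0 < Real.log S₃ := Real.log_pos hS₃1
  set K : ℝ := M S₂ / Real.log S₃ ^ A with hK
  have hK0 : 0 ≤ K := div_nonneg (hM0 _) (by positivity)
  have hind : ∀ n : ℕ, ∀ S : ℝ, S₃ ≤ S → S ≤ S₂ ^ ((1 / β) ^ n) → M S ≤ K * Real.log S ^ A := by
    intro n
    induction n with
    | zero =>
      intro S h1 h2
      rw [pow_zero, Real.rpow_one] at h2
      have h3 : M S₂ = K * Real.log S₃ ^ A := by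
        rw [hK, div_mul_cancel₀ _ (Real.rpow_pos_of_pos hl3p A).ne']
      calc M S ≤ M S₂ := hM h2
        _ = K * Real.log S₃ ^ A := h3
        _ ≤ K * Real.log S ^ A := by
            apply mul_le_mul_of_nonneg_left _ hK0
            exact Real.rpow_le_rpow hl3p.le (Real.log_le_log (by linarith) h1) hA0
    | succ n ih =>
      intro S h1 h2
      rcases le_or_gt S S₂ with h3 | h3
      · apply ih S h1 (h3.trans _)
        calc S₂ = S₂ ^ (1:ℝ) := (Real.rpow_one _).symm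
          _ ≤ S₂ ^ ((1 / β) ^ n) := by
              apply Real.rpow_le_rpow_of_exponent_le (by linarith)
              apply one_le_pow₀
              rw [one_le_div hβ0]; exact hβ1.le
      · have hS0 : 0 < S := by linarith
        have hS1 : S₁ ≤ S := (le_max_left S₁ 2).trans h3.le
        have h4 : S₃ ≤ S ^ β := Real.rpow_le_rpow hS₂0.le h3.le hβ0.le
        have h5 : S ^ β ≤ S₂ ^ ((1 / β) ^ n) := by
          have h6 := Real.rpow_le_rpow hS0.le h2 hβ0.le
          rw [← Real.rpow_mul hS₂0.le] at h6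
          have e : (1 / β) ^ (n + 1) * β = (1 / β) ^ n := by
            rw [pow_succ, mul_assoc, one_div_mul_cancel hβ0.ne', mul_one]
          rwa [e] at h6
        have h6 := ih (S ^ β) h4 h5
        have h7 : 0 < Real.log S := Real.log_pos (by linarith)
        rw [Real.log_rpow hS0, Real.mul_rpow hβ0.le h7.le] at h6
        calc M S ≤ C * M (S ^ β) := h S hS1
          _ ≤ C' * M (S ^ β) := mul_le_mul_of_nonneg_right (le_max_left _ _) (hM0 _)
          _ ≤ C' * (K * (β ^ A * Real.log S ^ A)) := mul_le_mul_of_nonneg_left h6 hC'0.le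
          _ = (C' * β ^ A) * (K * Real.log S ^ A) := by ring
          _ = K * Real.log S ^ A := by rw [hCA, one_mul]
  refine ⟨K, A, S₃, hS₃1, fun S hS => ?_⟩
  have hS0 : 0 < S := by linarith
  obtain ⟨n, hn⟩ := pow_unbounded_of_one_lt (Real.log S / Real.log S₂) (one_lt_one_div hβ0 hβ1)
  apply hind n S hS
  rw [div_lt_iff₀ hl2] at hn
  have h1 : Real.log S ≤ Real.log (S₂ ^ ((1 / β) ^ n)) := by
    rw [Real.log_rpow hS₂0]; exact hn.le
  exact (Real.log_le_log_iff hS0 (by positivity)).1 h1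

end Pool.Agent.Helper156_SP
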