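import Mathlib
import Pool.Agent.Helper156_SP.Der5
import Pool.Agent.Helper156_SP.Fin4

set_option autoImplicit false

/-!
# Mixed moments of the derivatives of zeta: the lower bound
-/

open Complex Set MeasureTheory Filter Topology

namespace Pool.Agent.Helper156_SP

/-- the product, normalised -/
noncomputable def PP {n : ℕ} (L : ℝ) (μ : Fin n → ℕ) (q : Fin n → ℝ) (u : ℝ) : ℝ :=
  ∏ j, (dz (μ j) u / L ^ μ j) ^ q j

lemma PP_cont {n : ℕ} (L : ℝ) (μ : Fin n → ℕ) {q : Fin n → ℝ} (hq : ∀ j, 0 ≤ q j) : Continuous (PP L μ q) := by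
  unfold PP
  apply continuous_finsetProd
  intro j _
  exact ((dz_cont (μ j)).div_const _).rpow_const fun _ => Or.inr (hq j)

lemma PP_nonneg {n : ℕ} {L : ℝ} (hL : 0 ≤ L) (μ : Fin n → ℕ) (q : Fin n → ℝ) (u : ℝ) : 0 ≤ PP L μ q u :=
  Finset.prod_nonneg fun j _ => Real.rpow_nonneg (by
    have := dz_nonneg (μ j) u
    positivity) _

theorem ders_low (N : ℕ) {p : ℝ} (hp : 0 < p) :
    ∃ c W T₀ : ℝ, 0 < c ∧ 0 < W ∧ ∀ T : ℝ, T₀ ≤ T → ∀ (n : ℕ) (μ : Fin n → ℕ) (q : Fin n → ℝ),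
      (∀ j, μ j ≤ N) → (∀ j, 0 ≤ q j) → ∑ j, q j = p →
      c * ∫ t in (0:ℝ)..T, az t ^ p ≤ ∫ t in (0:ℝ)..(T + W), PP (Real.log T) μ q t := by
  set κ : ℝ := 1 / (2 * (p + 1)) with hκ
  have hκ0 : 0 < κ := by positivity
  have hκ1 : κ ≤ 1 := by
    rw [hκ, div_le_one (by positivity)]; linarith
  have hκp : κ * (p + 1) = 1 / 2 := by rw [hκ]; field_simp
  obtain ⟨W, δ, K, T₁, hW, hδ, hK, hT₁, hT₁W, hz⟩ := zeta_der N hp hκ0 hκ1
  set η : ℝ := min (κ * δ / 2) (1 / 4) with hη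
  have hη0 : 0 < η := lt_min (by positivity) (by norm_num)
  have hη1 : η ≤ κ * δ / 2 := min_le_left _ _
  have hη2 : η ≤ 1 / 4 := min_le_right _ _
  have hK0 : 0 < K := by linarith
  have hpi := Real.pi_pos
  set C : ℝ := 2 * (K + 18 ^ p) with hC
  have hev1 := mom_low hp hη0 C
  have hev2 : ∀ᶠ T : ℝ in atTop, max T₁ 1 ≤ T ^ κ := (tendsto_rpow_atTop hκ0).eventually_ge_atTop _
  obtain ⟨T₀, hT₀⟩ := eventually_atTop.1 (hev1.and (hev2.and (eventually_ge_atTop (2:ℝ))))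
  refine ⟨κ / (2 * (Real.pi * K)), W, T₀, by positivity, by linarith, fun T hT n μ q hμ hq hsum => ?_⟩
  obtain ⟨h1, h2, hT2⟩ := hT₀ T hT
  have hT0 : 0 < T := by linarith
  have hlT : 0 < Real.log T := Real.log_pos (by linarith)
  set a : ℝ := T ^ κ with ha
  have ha1 : 1 ≤ a := (le_max_right _ _).trans h2
  have haT1 : T₁ ≤ a := (le_max_left _ _).trans h2
  have haT : a ≤ T := by
    calc a ≤ T ^ (1:ℝ) := Real.rpow_le_rpow_of_exponent_le (by linarith) hκ1
      _ = T := Real.rpow_one T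
  have ha0 : 0 < a := by linarith
  set l : ℝ := κ * Real.log T with hl
  have hl0 : 0 < l := by positivity
  have hla : Real.log a = l := by rw [ha, Real.log_rpow hT0]
  set G : ℝ → ℝ := PP (Real.log T) μ q with hG
  have hGc : Continuous G := PP_cont _ _ hq
  have hG0 : ∀ u, 0 ≤ G u := PP_nonneg hlT.le _ _
  have hpt : ∀ t ∈ Icc a T, az t ^ p ≤ K * a ^ (-δ) + K * Real.log T *
      ∫ y in (-W)..W, ((1 + l * |y|) ^ 2)⁻¹ * G (t + y) := by
    intro t ht
    have hlt : l ≤ Real.log t := by rw [← hla]; exact Real.log_le_log ha0 ht.1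
    have h3 := hz T t (haT1.trans ht.1) ht.2 hlt n μ q hμ hq hsum
    have h5 : t ^ (-δ) ≤ a ^ (-δ) := Real.rpow_le_rpow_of_nonpos ha0 ht.1 (by linarith)
    have h6 := mul_le_mul_of_nonneg_left h5 hK0.le
    have h7 : ∫ y in (-W)..W, ((1 + κ * Real.log T * |y|) ^ 2)⁻¹ *
        ∏ j, (dz (μ j) (t + y) / Real.log T ^ μ j) ^ q j =
        ∫ y in (-W)..W, ((1 + l * |y|) ^ 2)⁻¹ * G (t + y) := rfl
    rw [h7] at h3
    linarith
  have hkc : Continuous fun t : ℝ => ∫ y in (-W)..W, ((1 + l * |y|) ^ 2)⁻¹ * G (t + y) := by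
    have : (fun t : ℝ => ∫ y in (-W)..W, ((1 + l * |y|) ^ 2)⁻¹ * G (t + y)) =
        fun t : ℝ => ∫ y in (-W)..W, (Function.uncurry fun t y : ℝ => ((1 + l * |y|) ^ 2)⁻¹ * G (t + y)) (t, y) := rfl
    rw [this]
    apply intervalIntegral.continuous_parametric_intervalIntegral_of_continuous'
    apply Continuous.mul
    · have hk : Continuous fun y : ℝ => ((1 + l * |y|) ^ 2)⁻¹ := by
        apply Continuous.inv₀ (by fun_prop)
        intro y
        positivity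
      exact hk.comp continuous_snd
    · exact hGc.comp (continuous_fst.add continuous_snd)
  have hint : ∫ t in a..T, az t ^ p ≤ K * a ^ (-δ) * T + K * Real.log T * (Real.pi / l * ∫ u in (0:ℝ)..(T + W), G u) := by
    have h3 : ∫ t in a..T, az t ^ p ≤ ∫ t in a..T, (K * a ^ (-δ) + K * Real.log T *
        ∫ y in (-W)..W, ((1 + l * |y|) ^ 2)⁻¹ * G (t + y)) := by
      apply intervalIntegral.integral_mono_on haT (azp_int hp _ _) _ hpt
      exact (continuous_const.add (continuous_const.mul hkc)).intervalIntegrable _ _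
    refine h3.trans ?_
    have hkI : IntervalIntegrable (fun t : ℝ => K * Real.log T * ∫ y in (-W)..W, ((1 + l * |y|) ^ 2)⁻¹ * G (t + y))
        volume a T := (continuous_const.mul hkc).intervalIntegrable _ _
    rw [intervalIntegral.integral_add (by simp) hkI]
    apply add_le_add
    · rw [intervalIntegral.integral_const, smul_eq_mul]
      have : 0 ≤ K * a ^ (-δ) := by positivity
      nlinarith
    · rw [intervalIntegral.integral_const_mul]
      apply mul_le_mul_of_nonneg_left _ (by positivity)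
      exact avg_ker hl0 (by linarith) (by linarith) haT hGc hG0
  have hsplit : ∫ t in (0:ℝ)..T, az t ^ p = (∫ t in (0:ℝ)..a, az t ^ p) + ∫ t in a..T, az t ^ p :=
    (intervalIntegral.integral_add_adjacent_intervals (azp_int hp 0 a) (azp_int hp a T)).symm
  have hsm := int_small hp ha1
  have hXT : K * a ^ (-δ) * T ≤ K * T ^ (1 - η) := by
    rw [ha, ← Real.rpow_mul hT0.le, mul_assoc]
    apply mul_le_mul_of_nonneg_left _ (by positivity)
    rw [← Real.rpow_add_one hT0.ne']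
    apply Real.rpow_le_rpow_of_exponent_le (by linarith)
    have : 0 < κ * δ := by positivity
    nlinarith
  have haT2 : 18 ^ p * a ^ (p + 1) ≤ 18 ^ p * T ^ (1 - η) := by
    apply mul_le_mul_of_nonneg_left _ (by positivity)
    rw [ha, ← Real.rpow_mul hT0.le, hκp]
    apply Real.rpow_le_rpow_of_exponent_le (by linarith)
    linarith
  have hfin : ∫ t in (0:ℝ)..T, az t ^ p ≤ 2 * (K * Real.log T * (Real.pi / l * ∫ u in (0:ℝ)..(T + W), G u)) := by
    rw [hC] at h1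
    have h5 : (K + 18 ^ p) * T ^ (1 - η) = K * T ^ (1 - η) + 18 ^ p * T ^ (1 - η) := by ring
    linarith
  have hc1 : κ / (2 * (Real.pi * K)) * (2 * (K * Real.log T * (Real.pi / l * ∫ u in (0:ℝ)..(T + W), G u))) =
      ∫ u in (0:ℝ)..(T + W), G u := by
    rw [hl]
    field_simp
  rw [← hc1]
  exact mul_le_mul_of_nonneg_left hfin (by positivity)

/-- pulling out the logarithms -/
lemma PP_eq {n : ℕ} {L : ℝ} (hL : 0 < L) (μ : Fin n → ℕ) (q : Fin n → ℝ) (u : ℝ) :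
    ∏ j, dz (μ j) u ^ q j = L ^ (∑ j, (μ j : ℝ) * q j) * PP L μ q u := by
  unfold PP
  rw [Real.rpow_sum_of_pos hL, ← Finset.prod_mul_distrib]
  refine Finset.prod_congr rfl fun j _ => ?_
  have h0 := dz_nonneg (μ j) u
  rw [Real.div_rpow h0 (by positivity), Real.rpow_mul hL.le, Real.rpow_natCast]
  have h1 : 0 < (L ^ μ j) ^ q j := Real.rpow_pos_of_pos (by positivity) _
  field_simp

/-- the lower bound, with the endpoints moved -/
theorem ders_main (N : ℕ) {p : ℝ} (hp : 0 < p) :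
    ∃ c W T₀ : ℝ, 0 < c ∧ 0 < W ∧ ∀ T : ℝ, T₀ ≤ T → ∀ (n : ℕ) (μ : Fin n → ℕ) (q : Fin n → ℝ),
      (∀ j, μ j ≤ N) → (∀ j, 0 ≤ q j) → ∑ j, q j = p →
      c * (Real.log T ^ (∑ j, (μ j : ℝ) * q j) * ∫ t in (0:ℝ)..(T - W), az t ^ p) ≤
        ∫ t in (0:ℝ)..T, ∏ j, dz (μ j) t ^ q j ∧
      (2 ≤ p → c * (T * Real.log T ^ (p ^ 2 / 4 + ∑ j, (μ j : ℝ) * q j)) ≤ ∫ t in (0:ℝ)..T, ∏ j, dz (μ j) t ^ q j) := by
  obtain ⟨c, W, T₀, hc, hW, h⟩ := ders_low N hp
  obtain ⟨c', T₁, hc', h'⟩ : ∃ c' T₁ : ℝ, 0 < c' ∧ ∀ T : ℝ, T₁ ≤ T → 2 ≤ p →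
      c' * (T * Real.log T ^ (p ^ 2 / 4)) ≤ ∫ t in (0:ℝ)..T, az t ^ p := by
    by_cases h2 : 2 ≤ p
    · obtain ⟨c', hc', hev⟩ := mom_low_log h2
      obtain ⟨T₁, hT₁⟩ := eventually_atTop.1 hev
      exact ⟨c', T₁, hc', fun T hT _ => hT₁ T hT⟩
    · exact ⟨1, 0, one_pos, fun T _ h => absurd h h2⟩
  set c₀ : ℝ := c * (1 / 2) ^ ((N:ℝ) * p) with hc₀
  have hc₀0 : 0 < c₀ := by positivity
  set c₁ : ℝ := c₀ * (c' * (1 / 2) * (1 / 2) ^ (p ^ 2 / 4)) with hc₁
  have hc₁0 : 0 < c₁ := by positivity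
  refine ⟨min c₀ c₁, W, max (max T₀ T₁) 2 + 2 * W + 4, lt_min hc₀0 hc₁0, hW, fun T hT n μ q hμ hq hsum => ?_⟩
  have hTm : max (max T₀ T₁) 2 + 2 * W + 4 ≤ T := hT
  set T' : ℝ := T - W with hT'
  have hm2 : (2:ℝ) ≤ max (max T₀ T₁) 2 := le_max_right _ _
  have h1 : max (max T₀ T₁) 2 ≤ T' := by rw [hT']; linarith
  have hT0 : T₀ ≤ T' := (le_max_left _ _).trans ((le_max_left _ _).trans h1)
  have hT1 : T₁ ≤ T' := (le_max_right _ _).trans ((le_max_left _ _).trans h1)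
  have hT2 : 2 ≤ T' := (le_max_right _ _).trans h1
  have hTh : T / 2 ≤ T' := by
    have : (2:ℝ) ≤ max (max T₀ T₁) 2 := le_max_right _ _
    rw [hT']; linarith
  have hTT : T' ≤ T := by rw [hT']; linarith
  have hlT' : 0 < Real.log T' := Real.log_pos (by linarith)
  have hlT : 0 < Real.log T := Real.log_pos (by linarith)
  have h4 : 1 / 2 * Real.log T ≤ Real.log T' := by
    have h5 : Real.log (T / 2) ≤ Real.log T' := Real.log_le_log (by linarith) hTh
    rw [Real.log_div (by linarith) (by norm_num)] at h5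
    have h6 : 2 * Real.log 2 ≤ Real.log T := by
      have : Real.log ((2:ℝ) ^ 2) ≤ Real.log T := Real.log_le_log (by norm_num) (by linarith)
      rwa [Real.log_pow] at this
    linarith
  set E : ℝ := ∑ j, (μ j : ℝ) * q j with hE
  have hE0 : 0 ≤ E := Finset.sum_nonneg fun j _ => mul_nonneg (Nat.cast_nonneg _) (hq j)
  have hEN : E ≤ N * p := by
    rw [hE, ← hsum, Finset.mul_sum]
    refine Finset.sum_le_sum fun j _ => ?_
    apply mul_le_mul_of_nonneg_right _ (hq j)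
    exact_mod_cast hμ j
  have h2 := h T' hT0 n μ q hμ hq hsum
  have e1 : T' + W = T := by rw [hT']; ring
  rw [e1] at h2
  have hprod : ∫ t in (0:ℝ)..T, ∏ j, dz (μ j) t ^ q j = Real.log T' ^ E * ∫ t in (0:ℝ)..T, PP (Real.log T') μ q t := by
    rw [← intervalIntegral.integral_const_mul]
    refine intervalIntegral.integral_congr fun t _ => ?_
    exact PP_eq hlT' μ q t
  have hlE : (1 / 2) ^ ((N:ℝ) * p) * Real.log T ^ E ≤ Real.log T' ^ E := by
    have h5 : (1 / 2 : ℝ) ^ ((N:ℝ) * p) ≤ (1 / 2) ^ E :=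
      Real.rpow_le_rpow_of_exponent_ge (by norm_num) (by norm_num) hEN
    calc (1 / 2) ^ ((N:ℝ) * p) * Real.log T ^ E ≤ (1 / 2) ^ E * Real.log T ^ E :=
          mul_le_mul_of_nonneg_right h5 (by positivity)
      _ = (1 / 2 * Real.log T) ^ E := (Real.mul_rpow (by norm_num) hlT.le).symm
      _ ≤ _ := Real.rpow_le_rpow (by positivity) h4 hE0
  have hint : 0 ≤ ∫ t in (0:ℝ)..T', az t ^ p :=
    intervalIntegral.integral_nonneg (by linarith) fun t _ => Real.rpow_nonneg (az_nonneg t) _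
  have hmain : c₀ * (Real.log T ^ E * ∫ t in (0:ℝ)..T', az t ^ p) ≤ ∫ t in (0:ℝ)..T, ∏ j, dz (μ j) t ^ q j := by
    rw [hprod]
    calc c₀ * (Real.log T ^ E * ∫ t in (0:ℝ)..T', az t ^ p) =
          ((1 / 2) ^ ((N:ℝ) * p) * Real.log T ^ E) * (c * ∫ t in (0:ℝ)..T', az t ^ p) := by rw [hc₀]; ring
      _ ≤ Real.log T' ^ E * (c * ∫ t in (0:ℝ)..T', az t ^ p) :=
          mul_le_mul_of_nonneg_right hlE (mul_nonneg hc.le hint)
      _ ≤ _ := mul_le_mul_of_nonneg_left h2 (by positivity)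
  refine ⟨?_, fun hp2 => ?_⟩
  · refine le_trans ?_ hmain
    exact mul_le_mul_of_nonneg_right (min_le_left _ _) (mul_nonneg (by positivity) hint)
  · have h3 := h' T' hT1 hp2
    refine le_trans ?_ hmain
    have h5 : (1 / 2) ^ (p ^ 2 / 4) * Real.log T ^ (p ^ 2 / 4) ≤ Real.log T' ^ (p ^ 2 / 4) := by
      rw [← Real.mul_rpow (by norm_num) hlT.le]
      exact Real.rpow_le_rpow (by positivity) h4 (by positivity)
    have hT'p : 0 ≤ T' := by linarith
    have hTp0 : 0 ≤ T := by linarith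
    have e : Real.log T ^ (p ^ 2 / 4 + E) = Real.log T ^ (p ^ 2 / 4) * Real.log T ^ E := Real.rpow_add hlT _ _
    rw [e]
    calc min c₀ c₁ * (T * (Real.log T ^ (p ^ 2 / 4) * Real.log T ^ E)) ≤
          c₁ * (T * (Real.log T ^ (p ^ 2 / 4) * Real.log T ^ E)) :=
          mul_le_mul_of_nonneg_right (min_le_right _ _) (by positivity)
      _ = c₀ * (Real.log T ^ E * (c' * ((T / 2) * ((1 / 2) ^ (p ^ 2 / 4) * Real.log T ^ (p ^ 2 / 4))))) := by
          rw [hc₁]; ring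
      _ ≤ c₀ * (Real.log T ^ E * (c' * (T' * Real.log T' ^ (p ^ 2 / 4)))) := by gcongr
      _ ≤ c₀ * (Real.log T ^ E * ∫ t in (0:ℝ)..T', az t ^ p) := by gcongr

end Pool.Agent.Helper156_SP
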