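import Mathlib
import Pool.Agent.Helper156_SP.Der5
import Pool.Agent.Helper156_SP.Prod

set_option autoImplicit false

/-!
# Upper bounds for the derivatives of zeta by local means
-/

open Complex Set MeasureTheory Filter Topology
open W587.PL

namespace Pool.Agent.Helper156_SP

open Pool.Agent.TH804.MS in
/-- **local upper bound** -/
theorem zeta_sup {p κ : ℝ} (hp : 0 < p) (hκ : 0 < κ) :
    ∃ W δ K T₁ : ℝ, 2 ≤ W ∧ 0 < δ ∧ 1 ≤ K ∧ 8 ≤ T₁ ∧ 2 * W ≤ T₁ ∧ ∀ T t : ℝ, T₁ ≤ t → t ≤ T →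
      κ * Real.log T ≤ Real.log t → ∀ z : ℂ, ‖z‖ ≤ 1 / Real.log t →
      ‖F t z‖ ^ p ≤ K * t ^ (-δ) + K * Real.log T * ∫ y in (-W)..W, ((1 + κ * Real.log T * |y|) ^ 2)⁻¹ *
        az (t + y) ^ p := by
  obtain ⟨m, hm1, hm2⟩ : ∃ m : ℕ, 1 ≤ m ∧ 2 ≤ m * p := by
    obtain ⟨m, hm⟩ := exists_nat_ge (2 / p)
    refine ⟨max m 1, le_max_right _ _, ?_⟩
    have h1 : 2 / p ≤ ((max m 1 : ℕ) : ℝ) := hm.trans (by exact_mod_cast le_max_left _ _)
    rwa [div_le_iff₀ hp] at h1
  obtain ⟨W, δ, K, T₁, hW, hδ, hK, hT₁, hT₁W, hz⟩ := zeta_pk (ε := 1) one_pos le_rfl hm1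
  obtain ⟨R, c, hR, hRA, hc, hP⟩ := Pk.prod (ε := 1) (A := 0) one_pos le_rfl le_rfl hp
  set K' : ℝ := max (max 1 (K ^ p)) (K ^ p / c * (2 * K) ^ p) with hK'
  have hK'1 : 1 ≤ K' := (le_max_left _ _).trans (le_max_left _ _)
  have hK'2 : K ^ p ≤ K' := (le_max_right _ _).trans (le_max_left _ _)
  have hK'3 : K ^ p / c * (2 * K) ^ p ≤ K' := le_max_right _ _
  have hK0 : 0 < K := by linarith
  refine ⟨W, δ * p, K', max T₁ (Real.exp (2 * R)), hW, by positivity, hK'1, hT₁.trans (le_max_left _ _),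
    hT₁W.trans (le_max_left _ _), ?_⟩
  intro T t ht htT hlog z hzn
  have ht1 : T₁ ≤ t := (le_max_left _ _).trans ht
  have ht2 : Real.exp (2 * R) ≤ t := (le_max_right _ _).trans ht
  have ht0 : 0 < t := by linarith
  have ht8 : 8 ≤ t := by linarith
  have hΛ : 2 * R ≤ Real.log t := by
    rw [Real.le_log_iff_exp_le ht0]; exact ht2
  have hΛ0 : 0 < Real.log t := by linarith
  have hTt : Real.log t ≤ Real.log T := Real.log_le_log ht0 htT
  have hLT : 0 < Real.log T := by linarith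
  set g : ℝ → ℝ := fun y => ((1 + κ * Real.log T * |y|) ^ 2)⁻¹ * az (t + y) ^ p with hg
  have hgc : Continuous g := by
    rw [hg]
    apply Continuous.mul
    · apply Continuous.inv₀ (by fun_prop)
      intro y
      positivity
    · exact (az_cont.comp (by fun_prop)).rpow_const fun _ => Or.inr hp.le
  have hg0 : ∀ y, 0 ≤ g y := by
    intro y
    rw [hg]
    simp only
    have : 0 ≤ az (t + y) ^ p := Real.rpow_nonneg (az_nonneg _) _
    positivity
  have hgI : 0 ≤ ∫ y in (-W)..W, g y := intervalIntegral.integral_nonneg (by linarith) fun y _ => hg0 y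
  show ‖F t z‖ ^ p ≤ K' * t ^ (-(δ * p)) + K' * Real.log T * ∫ y in (-W)..W, g y
  rcases hz t ht1 with h | ⟨H, y₀, M, hPk⟩
  · have h2 := h z hzn
    have h3 := Real.rpow_le_rpow (norm_nonneg _) h2 hp.le
    rw [Real.mul_rpow hK0.le (by positivity), ← Real.rpow_mul ht0.le] at h3
    have e : -δ * p = -(δ * p) := by ring
    rw [e] at h3
    have h4 : K ^ p * t ^ (-(δ * p)) ≤ K' * t ^ (-(δ * p)) := mul_le_mul_of_nonneg_right hK'2 (by positivity)
    have h5 : 0 ≤ K' * Real.log T * ∫ y in (-W)..W, g y := by positivity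
    linarith
  · have h1 := hP (F t) H (Real.log t) K W m y₀ M hPk hΛ 1 (fun _ => 0) (fun _ => p) (fun j => by simp)
      (fun _ => hp.le) (by simp)
    simp only [Fin.prod_univ_one, zero_add] at h1
    have hpt : ∀ b ∈ Icc (-1:ℝ) 1, ‖H (((y₀ + b / Real.log t : ℝ) : ℂ) * I)‖ ^ p ≤
        (2 * K) ^ p * g (y₀ + b / Real.log t) := by
      intro b hb
      set y : ℝ := y₀ + b / Real.log t with hy
      have hbΛ : |b / Real.log t| ≤ 1 := by
        rw [abs_div, abs_of_pos hΛ0, div_le_one hΛ0]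
        have := abs_le.2 hb
        linarith
      have hX : 0 < 1 + Real.log t * |y| := by positivity
      have hyW : |y| ≤ W := by
        have h3 := abs_add_le y₀ (b / Real.log t)
        rw [← hy] at h3
        linarith [hPk.cen]
      have h2 := hPk.dec y hyW
      have h3 := F_le (T := t) ht8 (z := (y : ℂ) * I) (by simp) (by
        have : (y * I : ℂ).im = y := by simp
        rw [this]; linarith)
      have e2 : (1 / 2 + (t : ℂ) * Complex.I + (y : ℂ) * I) = 1 / 2 + ((t + y : ℝ) : ℂ) * I := by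
        push_cast; ring
      rw [e2] at h3
      have h3' : ‖F t (y * I)‖ ≤ 2 * az (t + y) := h3
      have h6 : 0 < (1 + Real.log t * |y|) ^ m := by positivity
      have h4 : ‖H (y * I)‖ ≤ (2 * K) * ((1 + Real.log t * |y|) ^ m)⁻¹ * az (t + y) := by
        calc ‖H (y * I)‖ = ((1 + Real.log t * |y|) ^ m)⁻¹ * ((1 + Real.log t * |y|) ^ m * ‖H (y * I)‖) := by
              rw [← mul_assoc, inv_mul_cancel₀ h6.ne', one_mul]
          _ ≤ ((1 + Real.log t * |y|) ^ m)⁻¹ * (K * (2 * az (t + y))) := by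
              apply mul_le_mul_of_nonneg_left _ (by positivity)
              exact h2.trans (mul_le_mul_of_nonneg_left h3' hK0.le)
          _ = _ := by ring
      have hC0 : 0 < (2 * K) * ((1 + Real.log t * |y|) ^ m)⁻¹ := by positivity
      have h5 := Real.rpow_le_rpow (norm_nonneg _) h4 hp.le
      refine h5.trans ?_
      rw [Real.mul_rpow hC0.le (az_nonneg _), Real.mul_rpow (by positivity) (by positivity), hg, mul_assoc]
      simp only
      apply mul_le_mul_of_nonneg_left _ (by positivity)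
      apply mul_le_mul_of_nonneg_right _ (Real.rpow_nonneg (az_nonneg _) _)
      rw [Real.inv_rpow (by positivity)]
      apply inv_anti₀ (by positivity)
      rw [← Real.rpow_natCast (1 + Real.log t * |y|) m, ← Real.rpow_mul hX.le,
        ← Real.rpow_natCast (1 + κ * Real.log T * |y|) 2]
      calc (1 + κ * Real.log T * |y|) ^ ((2:ℕ):ℝ) ≤ (1 + Real.log t * |y|) ^ ((2:ℕ):ℝ) := by
            apply Real.rpow_le_rpow (by positivity) _ (by positivity)
            have := mul_le_mul_of_nonneg_right hlog (abs_nonneg y)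
            linarith
        _ ≤ (1 + Real.log t * |y|) ^ ((m:ℝ) * p) := by
            apply Real.rpow_le_rpow_of_exponent_le
            · have : 0 ≤ Real.log t * |y| := by positivity
              linarith
            · push_cast; exact hm2
    have hI : ∫ b in (-1:ℝ)..1, ‖H (((y₀ + b / Real.log t : ℝ) : ℂ) * I)‖ ^ p ≤
        (2 * K) ^ p * (Real.log T * ∫ y in (-W)..W, g y) := by
      have h2 : ∫ b in (-1:ℝ)..1, ‖H (((y₀ + b / Real.log t : ℝ) : ℂ) * I)‖ ^ p ≤
          ∫ b in (-1:ℝ)..1, (2 * K) ^ p * g (y₀ + b / Real.log t) := by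
        apply intervalIntegral.integral_mono_on (by norm_num)
        · apply Continuous.intervalIntegrable
          apply Continuous.rpow_const
          · exact (hPk.diff.continuous.comp (by fun_prop)).norm
          · intro b
            exact Or.inr hp.le
        · apply Continuous.intervalIntegrable
          exact continuous_const.mul (hgc.comp (by fun_prop))
        · exact hpt
      refine h2.trans ?_
      rw [intervalIntegral.integral_const_mul]
      apply mul_le_mul_of_nonneg_left _ (by positivity)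
      have h3 : ∫ b in (-1:ℝ)..1, g (y₀ + b / Real.log t) = Real.log t * ∫ y in (y₀ + -1 / Real.log t)..(y₀ + 1 / Real.log t), g y := by
        rw [intervalIntegral.integral_comp_add_div (fun y => g y) hΛ0.ne', smul_eq_mul]
      rw [h3]
      have h4 : ∫ y in (y₀ + -1 / Real.log t)..(y₀ + 1 / Real.log t), g y ≤ ∫ y in (-W)..W, g y := by
        have hΛi : 1 / Real.log t ≤ 1 / 2 := by
          rw [div_le_div_iff₀ hΛ0 (by norm_num)]; linarith
        have hΛp : 0 < 1 / Real.log t := by positivity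
        have hc1 := abs_le.1 (by linarith [hPk.cen] : |y₀| ≤ W - 1)
        have e : -1 / Real.log t = -(1 / Real.log t) := by ring
        rw [e]
        apply intervalIntegral.integral_mono_interval (by linarith) (by linarith) (by linarith)
        · exact Filter.Eventually.of_forall hg0
        · exact hgc.intervalIntegrable _ _
      have h5 : 0 ≤ ∫ y in (y₀ + -1 / Real.log t)..(y₀ + 1 / Real.log t), g y := by
        apply intervalIntegral.integral_nonneg _ fun y _ => hg0 y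
        have e : -1 / Real.log t = -(1 / Real.log t) := by ring
        have hΛp : 0 < 1 / Real.log t := by positivity
        rw [e]; linarith
      exact mul_le_mul hTt h4 h5 hLT.le
    have h3 := hPk.near z hzn
    have h4 : ‖F t z‖ ^ p ≤ K ^ p * M ^ p := by
      rw [← Real.mul_rpow hK0.le hPk.pos.le]
      exact Real.rpow_le_rpow (norm_nonneg _) h3 hp.le
    have h5 : M ^ p ≤ (2 * K) ^ p * (Real.log T * ∫ y in (-W)..W, g y) / c := by
      rw [le_div_iff₀ hc, mul_comm]
      exact h1.trans hI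
    have h6 : ‖F t z‖ ^ p ≤ K' * Real.log T * ∫ y in (-W)..W, g y := by
      calc ‖F t z‖ ^ p ≤ K ^ p * M ^ p := h4
        _ ≤ K ^ p * ((2 * K) ^ p * (Real.log T * ∫ y in (-W)..W, g y) / c) :=
            mul_le_mul_of_nonneg_left h5 (by positivity)
        _ = (K ^ p / c * (2 * K) ^ p) * (Real.log T * ∫ y in (-W)..W, g y) := by ring
        _ ≤ K' * (Real.log T * ∫ y in (-W)..W, g y) := mul_le_mul_of_nonneg_right hK'3 (by positivity)
        _ = _ := by ring
    have h7 : 0 ≤ K' * t ^ (-(δ * p)) := by positivity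
    linarith

open Pool.Agent.TH804.MS in
/-- the derivatives are bounded by the maximum nearby -/
theorem dz_le (N : ℕ) {t S : ℝ} (ht : 8 ≤ t) (hS : ∀ z : ℂ, ‖z‖ ≤ 1 / Real.log t → ‖F t z‖ ≤ S) {m : ℕ} (hm : m ≤ N) :
    dz m t ≤ ((N + 2) ^ N * (N + 1) ^ N) * (Real.log t ^ m * S) := by
  have ht0 : 0 < t := by linarith
  have hΛ1 : 1 ≤ Real.log t := by
    rw [Real.le_log_iff_exp_le ht0]
    have := Real.exp_one_lt_d9
    linarith
  obtain ⟨Λ, hΛ⟩ : ∃ Λ : ℝ, Λ = Real.log t := ⟨_, rfl⟩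
  rw [← hΛ] at hS hΛ1 ⊢
  have hΛ0 : 0 < Λ := by linarith
  have hN0 : (0:ℝ) ≤ N := Nat.cast_nonneg N
  have hmN : (m:ℝ) ≤ N := by exact_mod_cast hm
  have hm0 : (0:ℝ) ≤ m := Nat.cast_nonneg m
  obtain ⟨L, hL⟩ : ∃ L : ℝ, L = (N + 1) * Λ := ⟨_, rfl⟩
  have hL0 : 0 < L := by rw [hL]; positivity
  have hL1 : 1 ≤ L := by rw [hL]; nlinarith
  have htc : (t : ℂ) ≠ 0 := by exact_mod_cast ht0.ne'
  have hLc : (L : ℂ) ≠ 0 := by exact_mod_cast hL0.ne'
  have hS0 : 0 ≤ S := (norm_nonneg _).trans (hS 0 (by rw [norm_zero]; positivity))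
  obtain ⟨f, hf⟩ : ∃ f : ℂ → ℂ, f = fun w : ℂ => F t (w / L) := ⟨_, rfl⟩
  have hfd : Differentiable ℂ f := by
    rw [hf]
    exact (F_diff t).comp (by fun_prop : Differentiable ℂ fun w : ℂ => w / L)
  obtain ⟨α, hα⟩ : ∃ α : ℂ, α = (-1 / 2 + t * I) / t := ⟨_, rfl⟩
  obtain ⟨ε, hε⟩ : ∃ ε : ℂ, ε = 1 / (t * L) := ⟨_, rfl⟩
  have hαε : ∀ w : ℂ, α + ε * w = ((1 / 2 + t * I + 1 / L * w) - 1) / t := by
    intro w
    rw [hα, hε]
    field_simp
    ring
  have hεn : ‖ε‖ ≤ 1 := by
    rw [hε, norm_div, norm_one, norm_mul, Complex.norm_real, Complex.norm_real, Real.norm_eq_abs,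
      Real.norm_eq_abs, abs_of_pos ht0, abs_of_pos hL0, div_le_one (by positivity)]
    nlinarith
  have hwL : ∀ w : ℂ, ‖w‖ ≤ 0 + m → ‖w / (L:ℂ)‖ ≤ 1 / Λ := by
    intro w hw
    rw [norm_div, Complex.norm_real, Real.norm_eq_abs, abs_of_pos hL0, div_le_div_iff₀ hL0 hΛ0, hL]
    nlinarith
  have ha2 : ∀ w : ℂ, ‖w‖ ≤ 0 + m → ‖α + ε * w‖ ≤ 2 := by
    intro w hw
    have h1 := hwL w hw
    rw [hαε, norm_div, Complex.norm_real, Real.norm_eq_abs, abs_of_pos ht0, div_le_iff₀ ht0]
    have e : ((1 / 2 + t * I + 1 / L * w : ℂ) - 1) = t * I + (-1 / 2 + w / L) := by ring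
    rw [e]
    refine (norm_add_le _ _).trans ?_
    have h2 : ‖(t:ℂ) * I‖ = t := by
      rw [norm_mul, Complex.norm_I, mul_one, Complex.norm_real, Real.norm_eq_abs, abs_of_pos ht0]
    have h3 : ‖(-1 / 2 + w / L : ℂ)‖ ≤ 1 / 2 + 1 := by
      refine (norm_add_le _ _).trans (add_le_add ?_ ?_)
      · rw [norm_div, norm_neg, norm_one]; simp
      · refine h1.trans ?_
        rw [div_le_one hΛ0]; exact hΛ1
    linarith
  have h1 := GD_le (α := α) (ε := ε) hfd m (r := 0) (S := S) hεn ha2 (fun w hw => by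
    rw [hf]
    exact hS _ (hwL w hw)) 0 (by simp)
  have hα1 : 1 ≤ ‖α‖ := by
    rw [hα, norm_div, Complex.norm_real, Real.norm_eq_abs, abs_of_pos ht0, one_le_div ht0]
    have h2 := Complex.abs_im_le_norm (-1 / 2 + t * I : ℂ)
    have h3 : (-1 / 2 + t * I : ℂ).im = t := by simp
    rw [h3, abs_of_pos ht0] at h2
    exact h2
  have hne : α + ε * 0 ≠ 0 := by
    rw [mul_zero, add_zero, ← norm_pos_iff]
    linarith
  have h2 := GD_eq (α := α) (ε := ε) (f := f) (g := riemannZeta) (b := 1 / 2 + t * I) (l := 1 / L)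
    (V := 1) (fun s hs => differentiableAt_riemannZeta hs)
    (fun w => by
      rw [hαε, div_eq_zero_iff, sub_eq_zero]
      simp [htc])
    (fun w hw => by
      have hs : (1 / 2 + t * I + 1 / L * w : ℂ) ≠ 1 := by
        intro h2
        apply hw
        rw [hαε, h2, sub_self, zero_div]
      have e2 : (1 / 2 + (t : ℂ) * I + w / L) = 1 / 2 + t * I + 1 / L * w := by ring
      rw [hf]
      simp only
      unfold F
      rw [e2, z1_ne hs, hαε]
      ring) m 0 hne
  rw [h2, mul_zero, mul_zero, add_zero, add_zero, mul_one, norm_mul, norm_mul, norm_pow, norm_pow] at h1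
  have e3 : ‖(1 / (L:ℂ))‖ = L⁻¹ := by
    rw [norm_div, norm_one, Complex.norm_real, Real.norm_eq_abs, abs_of_pos hL0, one_div]
  rw [e3] at h1
  have h3 : ‖(deriv^[m] riemannZeta) (1 / 2 + t * I)‖ = dz m t := rfl
  rw [h3] at h1
  have h4 : 0 ≤ dz m t := dz_nonneg m t
  have h5 : 1 ≤ ‖α‖ ^ (m + 1) := one_le_pow₀ hα1
  have h6 : dz m t * L⁻¹ ^ m ≤ (m + 2) ^ m * S := by
    refine le_trans ?_ h1
    have : 0 ≤ dz m t * L⁻¹ ^ m := by positivity
    calc dz m t * L⁻¹ ^ m = 1 * (dz m t * L⁻¹ ^ m) := (one_mul _).symm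
      _ ≤ ‖α‖ ^ (m + 1) * (dz m t * L⁻¹ ^ m) := mul_le_mul_of_nonneg_right h5 this
      _ = _ := by ring
  rw [inv_pow, ← div_eq_mul_inv, div_le_iff₀ (by positivity)] at h6
  refine h6.trans ?_
  have h7 : ((m:ℝ) + 2) ^ m ≤ (N + 2) ^ N := by
    calc ((m:ℝ) + 2) ^ m ≤ (N + 2) ^ m := pow_le_pow_left₀ (by positivity) (by linarith) m
      _ ≤ (N + 2) ^ N := pow_le_pow_right₀ (by linarith) hm
  have h8 : L ^ m ≤ (N + 1) ^ N * Λ ^ m := by
    rw [hL, mul_pow]
    apply mul_le_mul_of_nonneg_right _ (by positivity)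
    exact pow_le_pow_right₀ (by linarith) hm
  calc ((m:ℝ) + 2) ^ m * S * L ^ m ≤ (N + 2) ^ N * S * ((N + 1) ^ N * Λ ^ m) := by gcongr
    _ = _ := by ring

end Pool.Agent.Helper156_SP
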