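import Mathlib
import Pool.Agent.Helper156_SP.Der6
import Pool.Agent.Helper156_SP.Der7

set_option autoImplicit false

/-!
# Mixed moments of the derivatives of zeta: the upper bound
-/

open Complex Set MeasureTheory Filter Topology

namespace Pool.Agent.Helper156_SP

lemma prod_le_rpow {n : ℕ} {x q : Fin n → ℝ} {Y p : ℝ} (hY : 0 ≤ Y) (hx0 : ∀ j, 0 ≤ x j) (hx : ∀ j, x j ≤ Y)
    (hq : ∀ j, 0 ≤ q j) (hsum : ∑ j, q j = p) : ∏ j, x j ^ q j ≤ Y ^ p := by
  rw [← hsum, Real.rpow_sum_of_nonneg hY fun j _ => hq j]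
  exact Finset.prod_le_prod (fun j _ => Real.rpow_nonneg (hx0 j) _) fun j _ => Real.rpow_le_rpow (hx0 j) (hx j) (hq j)

open Pool.Agent.TH804.MS in
/-- **pointwise upper bound for mixed products of derivatives** -/
theorem der_up (N : ℕ) {p κ : ℝ} (hp : 0 < p) (hκ : 0 < κ) :
    ∃ W δ K T₁ : ℝ, 2 ≤ W ∧ 0 < δ ∧ 1 ≤ K ∧ 8 ≤ T₁ ∧ 2 * W ≤ T₁ ∧ ∀ T t : ℝ, T₁ ≤ t → t ≤ T →
      κ * Real.log T ≤ Real.log t → ∀ (n : ℕ) (μ : Fin n → ℕ) (q : Fin n → ℝ), (∀ j, μ j ≤ N) → (∀ j, 0 ≤ q j) →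
      ∑ j, q j = p →
      ∏ j, dz (μ j) t ^ q j ≤ Real.log T ^ (∑ j, (μ j : ℝ) * q j) *
        (K * t ^ (-δ) + K * Real.log T * ∫ y in (-W)..W, ((1 + κ * Real.log T * |y|) ^ 2)⁻¹ * az (t + y) ^ p) := by
  obtain ⟨W, δ, K, T₁, hW, hδ, hK, hT₁, hT₁W, hz⟩ := zeta_sup hp hκ
  obtain ⟨A, hA⟩ : ∃ A : ℝ, A = ((N:ℝ) + 2) ^ N * (N + 1) ^ N := ⟨_, rfl⟩
  have hN0 : (0:ℝ) ≤ N := Nat.cast_nonneg N
  have hA1 : 1 ≤ A := by
    rw [hA]
    exact one_le_mul_of_one_le_of_one_le (one_le_pow₀ (by linarith)) (one_le_pow₀ (by linarith))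
  have hAp : 1 ≤ A ^ p := Real.one_le_rpow hA1 hp.le
  refine ⟨W, δ, A ^ p * K, T₁, hW, hδ, one_le_mul_of_one_le_of_one_le hAp hK, hT₁, hT₁W, ?_⟩
  intro T t ht htT hlog n μ q hμ hq hsum
  have ht8 : 8 ≤ t := hT₁.trans ht
  have ht0 : 0 < t := by linarith
  have hΛ0 : 0 < Real.log t := Real.log_pos (by linarith)
  have hTt : Real.log t ≤ Real.log T := Real.log_le_log ht0 htT
  have hLT : 0 < Real.log T := by linarith
  obtain ⟨z, hz1, hz2⟩ := (isCompact_closedBall (0:ℂ) (1 / Real.log t)).exists_isMaxOn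
    ⟨0, by simp; exact hΛ0.le⟩ (f := fun z => ‖F t z‖) ((F_diff t).continuous.norm.continuousOn)
  have hz1' : ‖z‖ ≤ 1 / Real.log t := by simpa using hz1
  have hS : ∀ v : ℂ, ‖v‖ ≤ 1 / Real.log t → ‖F t v‖ ≤ ‖F t z‖ := fun v hv => hz2 (by simpa using hv)
  have hmain := hz T t ht htT hlog z hz1'
  have hAF : 0 ≤ A * ‖F t z‖ := by positivity
  have h1 : ∏ j, dz (μ j) t ^ q j ≤ ∏ j, ((A * ‖F t z‖) * Real.log T ^ μ j) ^ q j := by
    refine Finset.prod_le_prod (fun j _ => Real.rpow_nonneg (dz_nonneg _ _) _) fun j _ => ?_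
    apply Real.rpow_le_rpow (dz_nonneg _ _) _ (hq j)
    have h2 := dz_le N ht8 hS (hμ j)
    rw [← hA] at h2
    refine h2.trans ?_
    have h3 : Real.log t ^ μ j ≤ Real.log T ^ μ j := pow_le_pow_left₀ hΛ0.le hTt _
    calc A * (Real.log t ^ μ j * ‖F t z‖) ≤ A * (Real.log T ^ μ j * ‖F t z‖) := by gcongr
      _ = _ := by ring
  have h2 : ∏ j, ((A * ‖F t z‖) * Real.log T ^ μ j) ^ q j =
      Real.log T ^ (∑ j, (μ j : ℝ) * q j) * (A * ‖F t z‖) ^ p := by
    rw [← hsum, Real.rpow_sum_of_nonneg hAF fun j _ => hq j, Real.rpow_sum_of_pos hLT, ← Finset.prod_mul_distrib]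
    refine Finset.prod_congr rfl fun j _ => ?_
    rw [Real.mul_rpow hAF (by positivity), Real.rpow_mul hLT.le, Real.rpow_natCast]
    ring
  rw [h2] at h1
  refine h1.trans ?_
  apply mul_le_mul_of_nonneg_left _ (by positivity)
  rw [Real.mul_rpow (by linarith) (norm_nonneg _)]
  have h3 := mul_le_mul_of_nonneg_left hmain (by linarith : 0 ≤ A ^ p)
  refine h3.trans (le_of_eq ?_)
  ring

theorem ders_up (N : ℕ) {p : ℝ} (hp : 0 < p) :
    ∃ C W T₀ : ℝ, 0 < C ∧ 0 < W ∧ ∀ T : ℝ, T₀ ≤ T → ∀ (n : ℕ) (μ : Fin n → ℕ) (q : Fin n → ℝ),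
      (∀ j, μ j ≤ N) → (∀ j, 0 ≤ q j) → ∑ j, q j = p →
      ∫ t in (0:ℝ)..T, ∏ j, dz (μ j) t ^ q j ≤
        C * (Real.log T ^ (∑ j, (μ j : ℝ) * q j) * ∫ t in (0:ℝ)..(T + W), az t ^ p) := by
  have hN0 : (0:ℝ) ≤ N := Nat.cast_nonneg N
  obtain ⟨e₀, he₀⟩ : ∃ e₀ : ℝ, e₀ = N * p + (p + 1) + 2 := ⟨_, rfl⟩
  have hNp : 0 ≤ (N:ℝ) * p := by positivity
  have he₀1 : 1 ≤ e₀ := by rw [he₀]; linarith
  set κ : ℝ := 1 / (2 * e₀) with hκ
  have hκ0 : 0 < κ := by positivity
  have hκ1 : κ ≤ 1 := by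
    rw [hκ, div_le_one (by positivity)]; linarith
  have hκp : κ * e₀ = 1 / 2 := by rw [hκ]; field_simp
  obtain ⟨W, δ, K, T₁, hW, hδ, hK, hT₁, hT₁W, hz⟩ := der_up N hp hκ0
  -- a bound on the initial segment
  obtain ⟨B, hB1, hB⟩ : ∃ B : ℝ, 1 ≤ B ∧ ∀ m ≤ N, ∀ t ∈ Icc (0:ℝ) T₁, dz m t ≤ B := by
    have hc : Continuous fun t : ℝ => ∑ m ∈ Finset.range (N + 1), dz m t :=
      continuous_finsetSum _ fun m _ => dz_cont m
    obtain ⟨B, hB⟩ := (isCompact_Icc (a := (0:ℝ)) (b := T₁)).exists_bound_of_continuousOn hc.continuousOn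
    refine ⟨max B 1, le_max_right _ _, fun m hm t ht => ?_⟩
    have h1 := hB t ht
    rw [Real.norm_eq_abs] at h1
    have h2 : dz m t ≤ ∑ m ∈ Finset.range (N + 1), dz m t :=
      Finset.single_le_sum (f := fun m => dz m t) (fun m _ => dz_nonneg m t) (Finset.mem_range.2 (by omega))
    exact h2.trans ((le_abs_self _).trans (h1.trans (le_max_left _ _)))
  have hB0 : 0 < B := by linarith
  have hK0 : 0 < K := by linarith
  set η : ℝ := min (κ * δ) (1 / 2) with hη
  have hη0 : 0 < η := lt_min (by positivity) (by norm_num)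
  have hη1 : η ≤ κ * δ := min_le_left _ _
  have hη2 : η ≤ 1 / 2 := min_le_right _ _
  have hpi := Real.pi_pos
  obtain ⟨C₀, hC₀⟩ : ∃ C₀ : ℝ, C₀ = 2 * K * (18 ^ p * 2 ^ (p + 1)) := ⟨_, rfl⟩
  have hC₀0 : 0 < C₀ := by rw [hC₀]; positivity
  have hev1 := mom_low hp hη0 (B ^ p + C₀ + K)
  have hev2 : ∀ᶠ T : ℝ in atTop, max T₁ 1 ≤ T ^ κ := (tendsto_rpow_atTop hκ0).eventually_ge_atTop _
  obtain ⟨T₀, hT₀⟩ := eventually_atTop.1 (hev1.and (hev2.and (eventually_ge_atTop (3:ℝ))))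
  refine ⟨1 + K * (Real.pi / κ), W, T₀, by positivity, by linarith, fun T hT n μ q hμ hq hsum => ?_⟩
  obtain ⟨h1, h2, hT3⟩ := hT₀ T hT
  have hT0 : 0 < T := by linarith
  have hlT1 : 1 ≤ Real.log T := by
    rw [Real.le_log_iff_exp_le hT0]
    have := Real.exp_one_lt_d9
    linarith
  have hlT : 0 < Real.log T := by linarith
  set a : ℝ := T ^ κ with ha
  have ha1 : 1 ≤ a := (le_max_right _ _).trans h2
  have haT1 : T₁ ≤ a := (le_max_left _ _).trans h2
  have haT : a ≤ T := by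
    calc a ≤ T ^ (1:ℝ) := Real.rpow_le_rpow_of_exponent_le (by linarith) hκ1
      _ = T := Real.rpow_one T
  have ha0 : 0 < a := by linarith
  set l : ℝ := κ * Real.log T with hl
  have hl0 : 0 < l := by positivity
  have hla : Real.log a = l := by rw [ha, Real.log_rpow hT0]
  obtain ⟨E, hE⟩ : ∃ E : ℝ, E = ∑ j, (μ j : ℝ) * q j := ⟨_, rfl⟩
  have hE0 : 0 ≤ E := by rw [hE]; exact Finset.sum_nonneg fun j _ => mul_nonneg (Nat.cast_nonneg _) (hq j)
  have hEN : E ≤ N * p := by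
    rw [hE, ← hsum, Finset.mul_sum]
    refine Finset.sum_le_sum fun j _ => ?_
    apply mul_le_mul_of_nonneg_right _ (hq j)
    exact_mod_cast hμ j
  have hLE : 1 ≤ Real.log T ^ E := Real.one_le_rpow hlT1 hE0
  set Q : ℝ → ℝ := fun t => ∏ j, dz (μ j) t ^ q j with hQ
  have hQc : Continuous Q := by
    rw [hQ]
    apply continuous_finsetProd
    intro j _
    exact (dz_cont (μ j)).rpow_const fun _ => Or.inr (hq j)
  have hQI : ∀ x y : ℝ, IntervalIntegrable Q volume x y := fun x y => hQc.intervalIntegrable x y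
  set G : ℝ → ℝ := fun t => az t ^ p with hG
  have hGc : Continuous G := azp_cont hp
  have hG0 : ∀ u, 0 ≤ G u := fun u => Real.rpow_nonneg (az_nonneg u) _
  -- the initial segment
  have hI1 : ∫ t in (0:ℝ)..T₁, Q t ≤ B ^ p * a := by
    have h3 : ∫ t in (0:ℝ)..T₁, Q t ≤ ∫ _t in (0:ℝ)..T₁, B ^ p := by
      apply intervalIntegral.integral_mono_on (by linarith) (hQI _ _) (by simp)
      intro t ht
      exact prod_le_rpow hB0.le (fun j => dz_nonneg _ _) (fun j => hB (μ j) (hμ j) t ht) hq hsum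
    rw [intervalIntegral.integral_const, smul_eq_mul, sub_zero] at h3
    have : 0 ≤ B ^ p := by positivity
    nlinarith
  -- the second segment
  have hI2 : ∫ t in T₁..a, Q t ≤ C₀ * a ^ e₀ := by
    have hpt : ∀ t ∈ Icc T₁ a, Q t ≤ C₀ * a ^ (N * p + (p + 1) + 1) := by
      intro t ht
      have ht0 : 0 < t := by linarith [ht.1]
      have hlt : 0 < Real.log t := Real.log_pos (by linarith [ht.1])
      have hlta : Real.log t ≤ a := by
        have := Real.log_le_sub_one_of_pos ht0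
        linarith [ht.2]
      have h3 := hz t t ht.1 le_rfl (by nlinarith) n μ q hμ hq hsum
      rw [← hE] at h3
      have h4 : ∫ y in (-W)..W, ((1 + κ * Real.log t * |y|) ^ 2)⁻¹ * az (t + y) ^ p ≤ 18 ^ p * (2 * a) ^ (p + 1) := by
        have h5 : ∫ y in (-W)..W, ((1 + κ * Real.log t * |y|) ^ 2)⁻¹ * az (t + y) ^ p ≤ ∫ y in (-W)..W, G (t + y) := by
          apply intervalIntegral.integral_mono_on (by linarith)
          · apply Continuous.intervalIntegrable
            apply Continuous.mul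
            · apply Continuous.inv₀ (by fun_prop)
              intro y
              positivity
            · exact hGc.comp (by fun_prop)
          · exact (hGc.comp (by fun_prop)).intervalIntegrable _ _
          · intro y _
            have h6 : ((1 + κ * Real.log t * |y|) ^ 2)⁻¹ ≤ 1 := by
              apply inv_le_one_of_one_le₀
              apply one_le_pow₀
              have : 0 ≤ κ * Real.log t * |y| := by positivity
              linarith
            calc ((1 + κ * Real.log t * |y|) ^ 2)⁻¹ * az (t + y) ^ p ≤ 1 * az (t + y) ^ p :=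
                  mul_le_mul_of_nonneg_right h6 (hG0 (t + y))
              _ = G (t + y) := one_mul _
        have h6 : ∫ y in (-W)..W, G (t + y) ≤ ∫ u in (0:ℝ)..(2 * a), G u := by
          rw [intervalIntegral.integral_comp_add_left (fun u => G u)]
          apply intervalIntegral.integral_mono_interval (by linarith [ht.1]) (by linarith) (by linarith [ht.2])
          · exact Filter.Eventually.of_forall hG0
          · exact hGc.intervalIntegrable _ _
        exact (h5.trans h6).trans (int_small hp (by linarith))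
      have h5 : t ^ (-δ) ≤ 1 := Real.rpow_le_one_of_one_le_of_nonpos (by linarith [ht.1]) (by linarith)
      have h6 : Real.log t ^ E ≤ a ^ ((N:ℝ) * p) := by
        calc Real.log t ^ E ≤ a ^ E := Real.rpow_le_rpow hlt.le hlta hE0
          _ ≤ _ := Real.rpow_le_rpow_of_exponent_le ha1 hEN
      have h7 : (2 * a) ^ (p + 1) = 2 ^ (p + 1) * a ^ (p + 1) := Real.mul_rpow (by norm_num) ha0.le
      have h18 : (1:ℝ) ≤ 18 ^ p * 2 ^ (p + 1) :=
        one_le_mul_of_one_le_of_one_le (Real.one_le_rpow (by norm_num) hp.le) (Real.one_le_rpow (by norm_num) (by linarith))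
      have ha2 : 1 ≤ a ^ (p + 1) * a := one_le_mul_of_one_le_of_one_le (Real.one_le_rpow ha1 (by linarith)) ha1
      have h8 : K * t ^ (-δ) + K * Real.log t * ∫ y in (-W)..W, ((1 + κ * Real.log t * |y|) ^ 2)⁻¹ * az (t + y) ^ p ≤
          C₀ * (a ^ (p + 1) * a) := by
        have h9 : K * t ^ (-δ) ≤ K * (18 ^ p * 2 ^ (p + 1)) * (a ^ (p + 1) * a) := by
          calc K * t ^ (-δ) ≤ K * 1 := mul_le_mul_of_nonneg_left h5 hK0.le
            _ = K * 1 * 1 := by ring
            _ ≤ _ := by gcongr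
        have h10 : K * Real.log t * ∫ y in (-W)..W, ((1 + κ * Real.log t * |y|) ^ 2)⁻¹ * az (t + y) ^ p ≤
            K * (18 ^ p * 2 ^ (p + 1)) * (a ^ (p + 1) * a) := by
          calc K * Real.log t * ∫ y in (-W)..W, ((1 + κ * Real.log t * |y|) ^ 2)⁻¹ * az (t + y) ^ p ≤
                K * Real.log t * (18 ^ p * (2 * a) ^ (p + 1)) := mul_le_mul_of_nonneg_left h4 (by positivity)
            _ ≤ K * a * (18 ^ p * (2 * a) ^ (p + 1)) := by gcongr
            _ = _ := by rw [h7]; ring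
        rw [hC₀]
        linarith
      have h9 : a ^ (N * p + (p + 1) + 1) = a ^ ((N:ℝ) * p) * (a ^ (p + 1) * a) := by
        rw [Real.rpow_add_one ha0.ne', Real.rpow_add ha0]; ring
      have h10 : 0 ≤ K * t ^ (-δ) + K * Real.log t *
          ∫ y in (-W)..W, ((1 + κ * Real.log t * |y|) ^ 2)⁻¹ * az (t + y) ^ p := by
        have : 0 ≤ ∫ y in (-W)..W, ((1 + κ * Real.log t * |y|) ^ 2)⁻¹ * az (t + y) ^ p := by
          apply intervalIntegral.integral_nonneg (by linarith)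
          intro y _
          have := hG0 (t + y)
          exact mul_nonneg (by positivity) this
        positivity
      calc Q t ≤ _ := h3
        _ ≤ a ^ ((N:ℝ) * p) * (C₀ * (a ^ (p + 1) * a)) := mul_le_mul h6 h8 h10 (by positivity)
        _ = _ := by rw [h9]; ring
    have h3 : ∫ t in T₁..a, Q t ≤ ∫ _t in T₁..a, C₀ * a ^ (N * p + (p + 1) + 1) :=
      intervalIntegral.integral_mono_on haT1 (hQI _ _) (by simp) hpt
    rw [intervalIntegral.integral_const, smul_eq_mul] at h3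
    have h4 : a ^ e₀ = a ^ (N * p + (p + 1) + 1) * a := by
      rw [← Real.rpow_add_one ha0.ne', he₀]; congr 1; ring
    rw [h4]
    have h5 : 0 ≤ C₀ * a ^ (N * p + (p + 1) + 1) := by positivity
    nlinarith
  -- the main segment
  have hkc : Continuous fun t : ℝ => ∫ y in (-W)..W, ((1 + l * |y|) ^ 2)⁻¹ * G (t + y) := by
    have : (fun t : ℝ => ∫ y in (-W)..W, ((1 + l * |y|) ^ 2)⁻¹ * G (t + y)) =
        fun t : ℝ => ∫ y in (-W)..W, (Function.uncurry fun t y : ℝ => ((1 + l * |y|) ^ 2)⁻¹ * G (t + y)) (t, y) := rfl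
    rw [this]
    apply intervalIntegral.continuous_parametric_intervalIntegral_of_continuous'
    apply Continuous.mul
    · have hk : Continuous fun y : ℝ => ((1 + l * |y|) ^ 2)⁻¹ := by
        apply Continuous.inv₀ (by fun_prop)
        intro y
        positivity
      exact hk.comp continuous_snd
    · exact hGc.comp (continuous_fst.add continuous_snd)
  have hI3 : ∫ t in a..T, Q t ≤ Real.log T ^ E * (K * a ^ (-δ) * T + K * Real.log T *
      (Real.pi / l * ∫ u in (0:ℝ)..(T + W), G u)) := by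
    have hpt : ∀ t ∈ Icc a T, Q t ≤ Real.log T ^ E * (K * a ^ (-δ) + K * Real.log T *
        ∫ y in (-W)..W, ((1 + l * |y|) ^ 2)⁻¹ * G (t + y)) := by
      intro t ht
      have hlt : l ≤ Real.log t := by rw [← hla]; exact Real.log_le_log ha0 ht.1
      have h3 := hz T t (haT1.trans ht.1) ht.2 hlt n μ q hμ hq hsum
      rw [← hE] at h3
      refine h3.trans ?_
      apply mul_le_mul_of_nonneg_left _ (by positivity)
      have h5 : t ^ (-δ) ≤ a ^ (-δ) := Real.rpow_le_rpow_of_nonpos ha0 ht.1 (by linarith)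
      have h6 := mul_le_mul_of_nonneg_left h5 hK0.le
      have h7 : ∫ y in (-W)..W, ((1 + κ * Real.log T * |y|) ^ 2)⁻¹ * az (t + y) ^ p =
          ∫ y in (-W)..W, ((1 + l * |y|) ^ 2)⁻¹ * G (t + y) := rfl
      rw [h7]
      linarith
    have h3 : ∫ t in a..T, Q t ≤ ∫ t in a..T, Real.log T ^ E * (K * a ^ (-δ) + K * Real.log T *
        ∫ y in (-W)..W, ((1 + l * |y|) ^ 2)⁻¹ * G (t + y)) :=
      intervalIntegral.integral_mono_on haT (hQI a T)
        ((continuous_const.mul (continuous_const.add (continuous_const.mul hkc))).intervalIntegrable _ _) hpt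
    refine h3.trans ?_
    rw [intervalIntegral.integral_const_mul]
    apply mul_le_mul_of_nonneg_left _ (by positivity)
    have hkI : IntervalIntegrable (fun t : ℝ => K * Real.log T * ∫ y in (-W)..W, ((1 + l * |y|) ^ 2)⁻¹ * G (t + y))
        volume a T := (continuous_const.mul hkc).intervalIntegrable _ _
    rw [intervalIntegral.integral_add (by simp) hkI]
    apply add_le_add
    · rw [intervalIntegral.integral_const, smul_eq_mul]
      have : 0 ≤ K * a ^ (-δ) := by positivity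
      nlinarith
    · rw [intervalIntegral.integral_const_mul]
      apply mul_le_mul_of_nonneg_left _ (by positivity)
      exact avg_ker hl0 (by linarith) (by linarith) haT hGc hG0
  -- everything together
  have hsplit : ∫ t in (0:ℝ)..T, Q t = (∫ t in (0:ℝ)..T₁, Q t) + (∫ t in T₁..a, Q t) + ∫ t in a..T, Q t := by
    rw [intervalIntegral.integral_add_adjacent_intervals (hQI _ _) (hQI _ _),
      intervalIntegral.integral_add_adjacent_intervals (hQI _ _) (hQI _ _)]
  have hXT : a ^ (-δ) * T ≤ T ^ (1 - η) := by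
    rw [ha, ← Real.rpow_mul hT0.le, ← Real.rpow_add_one hT0.ne']
    apply Real.rpow_le_rpow_of_exponent_le (by linarith)
    linarith
  have hae : a ^ e₀ ≤ T ^ (1 - η) := by
    rw [ha, ← Real.rpow_mul hT0.le, hκp]
    apply Real.rpow_le_rpow_of_exponent_le (by linarith)
    linarith
  have haa : a ≤ a ^ e₀ := by
    calc a = a ^ (1:ℝ) := (Real.rpow_one a).symm
      _ ≤ _ := Real.rpow_le_rpow_of_exponent_le ha1 he₀1
  have hTW : ∫ t in (0:ℝ)..T, G t ≤ ∫ t in (0:ℝ)..(T + W), G t := by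
    have h7 := intervalIntegral.integral_add_adjacent_intervals (azp_int hp 0 T) (azp_int hp T (T + W))
    have h8 : 0 ≤ ∫ t in T..(T + W), az t ^ p :=
      intervalIntegral.integral_nonneg (by linarith) fun t _ => hG0 t
    show ∫ t in (0:ℝ)..T, az t ^ p ≤ ∫ t in (0:ℝ)..(T + W), az t ^ p
    linarith
  have hbig : (B ^ p + C₀ + K) * T ^ (1 - η) ≤ ∫ t in (0:ℝ)..(T + W), G t := h1.trans hTW
  obtain ⟨J, hJ⟩ : ∃ J : ℝ, J = ∫ t in (0:ℝ)..(T + W), G t := ⟨_, rfl⟩
  have hJ' : ∫ t in (0:ℝ)..(T + W), az t ^ p = J := hJ.symm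
  rw [← hJ] at hbig hI3
  rw [← hE, hJ']
  show ∫ t in (0:ℝ)..T, Q t ≤ _
  rw [hsplit]
  have hBp : 0 < B ^ p := by positivity
  have s1 : ∫ t in (0:ℝ)..T₁, Q t ≤ Real.log T ^ E * (B ^ p * T ^ (1 - η)) := by
    have h3 : B ^ p * a ≤ B ^ p * T ^ (1 - η) := mul_le_mul_of_nonneg_left (haa.trans hae) hBp.le
    have h4 : 1 * (B ^ p * T ^ (1 - η)) ≤ Real.log T ^ E * (B ^ p * T ^ (1 - η)) :=
      mul_le_mul_of_nonneg_right hLE (by positivity)
    linarith
  have s2 : ∫ t in T₁..a, Q t ≤ Real.log T ^ E * (C₀ * T ^ (1 - η)) := by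
    have h3 : C₀ * a ^ e₀ ≤ C₀ * T ^ (1 - η) := mul_le_mul_of_nonneg_left hae hC₀0.le
    have h4 : 1 * (C₀ * T ^ (1 - η)) ≤ Real.log T ^ E * (C₀ * T ^ (1 - η)) :=
      mul_le_mul_of_nonneg_right hLE (by positivity)
    linarith
  have s3 : ∫ t in a..T, Q t ≤ Real.log T ^ E * (K * T ^ (1 - η) + K * (Real.pi / κ) * J) := by
    refine hI3.trans ?_
    apply mul_le_mul_of_nonneg_left _ (by positivity)
    have h3 : K * a ^ (-δ) * T ≤ K * T ^ (1 - η) := by
      rw [mul_assoc]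
      exact mul_le_mul_of_nonneg_left hXT hK0.le
    have h4 : K * Real.log T * (Real.pi / l * J) = K * (Real.pi / κ) * J := by
      rw [hl]; field_simp
    rw [h4]
    linarith
  calc (∫ t in (0:ℝ)..T₁, Q t) + (∫ t in T₁..a, Q t) + ∫ t in a..T, Q t ≤
        Real.log T ^ E * (B ^ p * T ^ (1 - η)) + Real.log T ^ E * (C₀ * T ^ (1 - η)) +
          Real.log T ^ E * (K * T ^ (1 - η) + K * (Real.pi / κ) * J) := add_le_add (add_le_add s1 s2) s3
    _ = Real.log T ^ E * ((B ^ p + C₀ + K) * T ^ (1 - η) + K * (Real.pi / κ) * J) := by ring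
    _ ≤ Real.log T ^ E * (J + K * (Real.pi / κ) * J) := by
        apply mul_le_mul_of_nonneg_left _ (by positivity)
        linarith
    _ = _ := by ring

end Pool.Agent.Helper156_SP
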