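import Mathlib
import Pool.Agent.Helper156_SP.Der8
import Pool.Agent.R313.FM.Main

set_option autoImplicit false

/-!
# Mixed moments of the derivatives of zeta: orders of magnitude
-/

open Complex Set MeasureTheory Filter Topology

namespace Pool.Agent.Helper156_SP

/-- lower bounds of the expected order for `p = 1` and `p ≥ 2` -/
lemma mom_lower {p : ℝ} (hp : p = 1 ∨ 2 ≤ p) : ∃ c : ℝ, 0 < c ∧ ∀ᶠ T : ℝ in atTop,
    c * (T * Real.log T ^ (p ^ 2 / 4)) ≤ ∫ t in (0:ℝ)..T, az t ^ p := by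
  rcases hp with rfl | h2
  · have hA : 0 < Pool.Agent.R313.FM.A0 := Pool.Agent.R313.FM.A0_pos
    refine ⟨59 / 100 * Pool.Agent.R313.FM.A0, by positivity, ?_⟩
    filter_upwards [Pool.Agent.R313.FM.first_lower (α := 0), eventually_gt_atTop 0] with T h1 hT
    have h2 := h1 0 T ⟨le_rfl, hT, by simp, by simp⟩
    unfold Pool.Agent.R313.FM.ZZ Pool.Agent.R313.FM.mm Pool.Agent.R313.FM.kh Pool.Agent.W184.zn at h2
    have e1 : ((1 / ((2:ℕ):ℝ)) ^ 2 : ℝ) = 1 ^ 2 / 4 := by norm_num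
    rw [e1] at h2
    refine h2.trans (le_of_eq ?_)
    rw [zero_add]
    refine intervalIntegral.integral_congr fun t _ => ?_
    show ‖riemannZeta (((1 / 2 + 0 / Real.log T : ℝ) : ℂ) + t * I)‖ = az t ^ (1:ℝ)
    rw [Real.rpow_one, zero_div, add_zero]
    unfold az
    norm_num
  · exact mom_low_log h2

/-- upper bounds of the expected order for `p = 1` and `p = 4` -/
lemma mom_upper {p : ℝ} (hp : p = 1 ∨ p = 4) : ∃ C : ℝ, 0 < C ∧ ∀ᶠ T : ℝ in atTop,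
    ∫ t in (0:ℝ)..T, az t ^ p ≤ C * (T * Real.log T ^ (p ^ 2 / 4)) := by
  rcases hp with rfl | rfl
  · have hA : 0 < Pool.Agent.R313.FM.A0 := Pool.Agent.R313.FM.A0_pos
    refine ⟨107 / 50 * Pool.Agent.R313.FM.A0, by positivity, ?_⟩
    filter_upwards [Pool.Agent.R313.FM.first_upper (α := 0), eventually_gt_atTop 0] with T h1 hT
    have h2 := h1 0 T ⟨le_rfl, hT, by simp, by simp⟩
    unfold Pool.Agent.R313.FM.ZZ Pool.Agent.R313.FM.mm Pool.Agent.R313.FM.kh Pool.Agent.W184.zn at h2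
    have e1 : ((1 / ((2:ℕ):ℝ)) ^ 2 : ℝ) = 1 ^ 2 / 4 := by norm_num
    rw [e1] at h2
    refine le_trans (le_of_eq ?_) h2
    rw [zero_add]
    refine intervalIntegral.integral_congr fun t _ => ?_
    show az t ^ (1:ℝ) = ‖riemannZeta (((1 / 2 + 0 / Real.log T : ℝ) : ℂ) + t * I)‖
    rw [Real.rpow_one, zero_div, add_zero]
    unfold az
    norm_num
  · refine ⟨4 / 5, by norm_num, ?_⟩
    filter_upwards [eventually_ge_atTop 1000] with T hT
    have h1 := Pool.Agent.TH158.FM.fourth_all T hT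
    have e4 : ∫ t in (0:ℝ)..T, ‖riemannZeta (Pool.Agent.TH158.FM.pt (1 / 2) t)‖ ^ 4 =
        ∫ t in (0:ℝ)..T, az t ^ (4:ℝ) := by
      refine intervalIntegral.integral_congr fun t _ => ?_
      have e5 : Pool.Agent.TH158.FM.pt (1 / 2) t = 1 / 2 + t * I := by
        apply Complex.ext <;> simp [Pool.Agent.TH158.FM.pt]
      show ‖riemannZeta (Pool.Agent.TH158.FM.pt (1 / 2) t)‖ ^ 4 = az t ^ (4:ℝ)
      rw [e5]
      unfold az
      rw [← Real.rpow_natCast]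
      norm_num
    rw [e4] at h1
    have e6 : ((4:ℝ) ^ 2 / 4) = ((4:ℕ):ℝ) := by norm_num
    rw [e6, Real.rpow_natCast]
    exact h1

lemma az_mono {p : ℝ} (hp : 0 < p) {x y : ℝ} (hxy : x ≤ y) :
    ∫ t in (0:ℝ)..x, az t ^ p ≤ ∫ t in (0:ℝ)..y, az t ^ p := by
  have h7 := intervalIntegral.integral_add_adjacent_intervals (azp_int hp 0 x) (azp_int hp x y)
  have h8 : 0 ≤ ∫ t in x..y, az t ^ p :=
    intervalIntegral.integral_nonneg hxy fun t _ => Real.rpow_nonneg (az_nonneg t) _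
  linarith

lemma low_shift {p b W : ℝ} (hb : 0 ≤ b) (h : ∃ c : ℝ, 0 < c ∧ ∀ᶠ T : ℝ in atTop,
    c * (T * Real.log T ^ b) ≤ ∫ t in (0:ℝ)..T, az t ^ p) : ∃ c : ℝ, 0 < c ∧ ∀ᶠ T : ℝ in atTop,
    c * (T * Real.log T ^ b) ≤ ∫ t in (0:ℝ)..(T - W), az t ^ p := by
  obtain ⟨c, hc, h⟩ := h
  have h2 : Tendsto (fun T : ℝ => T - W) atTop atTop := tendsto_atTop_add_const_right _ _ tendsto_id
  refine ⟨c * (1 / 2) * (1 / 2) ^ b, by positivity, ?_⟩
  filter_upwards [h2.eventually h, eventually_ge_atTop (4:ℝ), eventually_ge_atTop (2 * W)] with T h3 hT hTW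
  refine le_trans ?_ h3
  have hlT : 0 < Real.log T := Real.log_pos (by linarith)
  have hTh : T / 2 ≤ T - W := by linarith
  have h4 : 1 / 2 * Real.log T ≤ Real.log (T - W) := by
    have h5 : Real.log (T / 2) ≤ Real.log (T - W) := Real.log_le_log (by linarith) hTh
    rw [Real.log_div (by linarith) (by norm_num)] at h5
    have h6 : 2 * Real.log 2 ≤ Real.log T := by
      have : Real.log ((2:ℝ) ^ 2) ≤ Real.log T := Real.log_le_log (by norm_num) (by linarith)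
      rwa [Real.log_pow] at this
    linarith
  have h5 : (1 / 2) ^ b * Real.log T ^ b ≤ Real.log (T - W) ^ b := by
    rw [← Real.mul_rpow (by norm_num) hlT.le]
    exact Real.rpow_le_rpow (by positivity) h4 hb
  have hT0 : 0 ≤ T := by linarith
  have hT1 : 0 ≤ T - W := by linarith
  calc c * (1 / 2) * (1 / 2) ^ b * (T * Real.log T ^ b) = c * ((T / 2) * ((1 / 2) ^ b * Real.log T ^ b)) := by ring
    _ ≤ c * ((T - W) * Real.log (T - W) ^ b) := by gcongr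

lemma up_shift {p b W : ℝ} (hb : 0 ≤ b) (hW : 0 ≤ W) (h : ∃ C : ℝ, 0 < C ∧ ∀ᶠ T : ℝ in atTop,
    ∫ t in (0:ℝ)..T, az t ^ p ≤ C * (T * Real.log T ^ b)) : ∃ C : ℝ, 0 < C ∧ ∀ᶠ T : ℝ in atTop,
    ∫ t in (0:ℝ)..(T + W), az t ^ p ≤ C * (T * Real.log T ^ b) := by
  obtain ⟨C, hC, h⟩ := h
  have h2 : Tendsto (fun T : ℝ => T + W) atTop atTop := tendsto_atTop_add_const_right _ _ tendsto_id
  refine ⟨C * 2 * 2 ^ b, by positivity, ?_⟩
  filter_upwards [h2.eventually h, eventually_ge_atTop (4:ℝ), eventually_ge_atTop W] with T h3 hT hTW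
  refine h3.trans ?_
  have hlT : 0 < Real.log T := Real.log_pos (by linarith)
  have h4 : Real.log (T + W) ≤ 2 * Real.log T := by
    have h5 : Real.log (T + W) ≤ Real.log (T ^ 2) := Real.log_le_log (by linarith) (by nlinarith)
    rwa [Real.log_pow] at h5
  have h0 : 0 ≤ Real.log (T + W) := Real.log_nonneg (by linarith)
  have h5 : Real.log (T + W) ^ b ≤ 2 ^ b * Real.log T ^ b := by
    rw [← Real.mul_rpow (by norm_num) hlT.le]
    exact Real.rpow_le_rpow h0 h4 hb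
  have hT0 : 0 ≤ T := by linarith
  calc C * ((T + W) * Real.log (T + W) ^ b) ≤ C * ((2 * T) * (2 ^ b * Real.log T ^ b)) := by
        gcongr
        linarith
    _ = _ := by ring

theorem der_final (N : ℕ) {p : ℝ} (hp : 0 < p) :
    ∃ c C W T₀ : ℝ, 0 < c ∧ 0 < C ∧ ∀ T : ℝ, T₀ ≤ T → ∀ (n : ℕ) (m : Fin n → ℕ) (q : Fin n → ℝ),
      (∀ j, m j ≤ N) → (∀ j, 0 ≤ q j) → ∑ j, q j = p →
      (c * (Real.log T ^ (∑ j, m j * q j) * ∫ t in (0:ℝ)..(T - W), az t ^ p) ≤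
          ∫ t in (0:ℝ)..T, ∏ j, dz (m j) t ^ q j ∧
        ∫ t in (0:ℝ)..T, ∏ j, dz (m j) t ^ q j ≤
          C * (Real.log T ^ (∑ j, m j * q j) * ∫ t in (0:ℝ)..(T + W), az t ^ p)) ∧
      (p = 1 ∨ 2 ≤ p → c * (T * Real.log T ^ (p ^ 2 / 4 + ∑ j, m j * q j)) ≤
        ∫ t in (0:ℝ)..T, ∏ j, dz (m j) t ^ q j) ∧
      (p = 1 ∨ p = 4 → ∫ t in (0:ℝ)..T, ∏ j, dz (m j) t ^ q j ≤
        C * (T * Real.log T ^ (p ^ 2 / 4 + ∑ j, m j * q j))) := by
  obtain ⟨c₁, W₁, T₁, hc₁, hW₁, h₁⟩ := ders_main N hp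
  obtain ⟨C₂, W₂, T₂, hC₂, hW₂, h₂⟩ := ders_up N hp
  set W : ℝ := max W₁ W₂ with hW
  have hW1 : W₁ ≤ W := le_max_left _ _
  have hW2 : W₂ ≤ W := le_max_right _ _
  have hb : 0 ≤ p ^ 2 / 4 := by positivity
  obtain ⟨c₃, T₃, hc₃, h₃⟩ : ∃ c₃ T₃ : ℝ, 0 < c₃ ∧ ∀ T : ℝ, T₃ ≤ T → (p = 1 ∨ 2 ≤ p) →
      c₃ * (T * Real.log T ^ (p ^ 2 / 4)) ≤ ∫ t in (0:ℝ)..(T - W), az t ^ p := by
    by_cases h : p = 1 ∨ 2 ≤ p
    · obtain ⟨c, hc, hev⟩ := low_shift (W := W) hb (mom_lower h)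
      obtain ⟨T₃, hT₃⟩ := eventually_atTop.1 hev
      exact ⟨c, T₃, hc, fun T hT _ => hT₃ T hT⟩
    · exact ⟨1, 0, one_pos, fun T _ h' => absurd h' h⟩
  obtain ⟨C₄, T₄, hC₄, h₄⟩ : ∃ C₄ T₄ : ℝ, 0 < C₄ ∧ ∀ T : ℝ, T₄ ≤ T → (p = 1 ∨ p = 4) →
      ∫ t in (0:ℝ)..(T + W), az t ^ p ≤ C₄ * (T * Real.log T ^ (p ^ 2 / 4)) := by
    by_cases h : p = 1 ∨ p = 4
    · obtain ⟨C, hC, hev⟩ := up_shift (W := W) hb (by linarith) (mom_upper h)
      obtain ⟨T₄, hT₄⟩ := eventually_atTop.1 hev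
      exact ⟨C, T₄, hC, fun T hT _ => hT₄ T hT⟩
    · exact ⟨1, 0, one_pos, fun T _ h' => absurd h' h⟩
  refine ⟨min c₁ (c₁ * c₃), max C₂ (C₂ * C₄), W, max (max T₁ T₂) (max (max T₃ T₄) (max 2 (2 * W))),
    lt_min hc₁ (by positivity), lt_max_of_lt_left hC₂, fun T hT n m q hm hq hsum => ?_⟩
  have hT1 : T₁ ≤ T := ((le_max_left _ _).trans (le_max_left _ _)).trans hT
  have hT2 : T₂ ≤ T := ((le_max_right _ _).trans (le_max_left _ _)).trans hT
  have hT3 : T₃ ≤ T := ((le_max_left _ _).trans ((le_max_left _ _).trans (le_max_right _ _))).trans hT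
  have hT4 : T₄ ≤ T := ((le_max_right _ _).trans ((le_max_left _ _).trans (le_max_right _ _))).trans hT
  have hT5 : 2 ≤ T := ((le_max_left _ _).trans ((le_max_right _ _).trans (le_max_right _ _))).trans hT
  have hT6 : 2 * W ≤ T := ((le_max_right _ _).trans ((le_max_right _ _).trans (le_max_right _ _))).trans hT
  have hlT : 0 < Real.log T := Real.log_pos (by linarith)
  obtain ⟨E, hE⟩ : ∃ E : ℝ, E = ∑ j, (m j : ℝ) * q j := ⟨_, rfl⟩
  have g1 := (h₁ T hT1 n m q hm hq hsum).1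
  have g2 := h₂ T hT2 n m q hm hq hsum
  rw [← hE] at g1 g2 ⊢
  have hLE : 0 < Real.log T ^ E := by positivity
  have k1 := az_mono hp (by linarith : T - W ≤ T - W₁)
  have k2 := az_mono hp (by linarith : T + W₂ ≤ T + W)
  have k0 : 0 ≤ ∫ t in (0:ℝ)..(T - W), az t ^ p :=
    intervalIntegral.integral_nonneg (by linarith) fun t _ => Real.rpow_nonneg (az_nonneg t) _
  have k3 : 0 ≤ ∫ t in (0:ℝ)..(T + W), az t ^ p :=
    intervalIntegral.integral_nonneg (by linarith) fun t _ => Real.rpow_nonneg (az_nonneg t) _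
  have l1 : c₁ * (Real.log T ^ E * ∫ t in (0:ℝ)..(T - W), az t ^ p) ≤ ∫ t in (0:ℝ)..T, ∏ j, dz (m j) t ^ q j := by
    refine le_trans ?_ g1
    gcongr
  have l2 : ∫ t in (0:ℝ)..T, ∏ j, dz (m j) t ^ q j ≤ C₂ * (Real.log T ^ E * ∫ t in (0:ℝ)..(T + W), az t ^ p) := by
    refine g2.trans ?_
    gcongr
  refine ⟨⟨?_, ?_⟩, fun h => ?_, fun h => ?_⟩
  · refine le_trans ?_ l1
    exact mul_le_mul_of_nonneg_right (min_le_left _ _) (by positivity)
  · refine l2.trans ?_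
    exact mul_le_mul_of_nonneg_right (le_max_left _ _) (by positivity)
  · have h5 := h₃ T hT3 h
    refine le_trans ?_ l1
    have hT0 : 0 < T := by linarith
    calc min c₁ (c₁ * c₃) * (T * Real.log T ^ (p ^ 2 / 4 + E)) ≤ c₁ * c₃ * (T * Real.log T ^ (p ^ 2 / 4 + E)) :=
          mul_le_mul_of_nonneg_right (min_le_right _ _) (by positivity)
      _ = c₁ * (Real.log T ^ E * (c₃ * (T * Real.log T ^ (p ^ 2 / 4)))) := by
          rw [Real.rpow_add hlT]; ring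
      _ ≤ _ := by gcongr
  · have h5 := h₄ T hT4 h
    refine l2.trans ?_
    have hT0 : 0 < T := by linarith
    calc C₂ * (Real.log T ^ E * ∫ t in (0:ℝ)..(T + W), az t ^ p) ≤
          C₂ * (Real.log T ^ E * (C₄ * (T * Real.log T ^ (p ^ 2 / 4)))) := by gcongr
      _ = C₂ * C₄ * (T * Real.log T ^ (p ^ 2 / 4 + E)) := by
          rw [Real.rpow_add hlT]; ring
      _ ≤ _ := mul_le_mul_of_nonneg_right (le_max_right _ _) (by positivity)

end Pool.Agent.Helper156_SP
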