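import Mathlib
import Pool.Agent.Helper156_SP.Der9
import Pool.Agent.Helper156_SP.Der10
import Pool.Agent.Y755.Res
import Pool.Agent.H998_TS.Fin

set_option autoImplicit false

/-!
# The order of magnitude of the moments of zeta: lower bounds for all `0 < p ≤ 4`, upper bounds for `0 < p ≤ 4`
-/

open Complex Set MeasureTheory Filter Topology

namespace Pool.Agent.Helper156_SP

open Pool.Agent.TH804.MS in
/-- the moment near the critical line is at most a constant multiple of the moment on it -/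
theorem line_low {p R₀ : ℝ} (hp : 0 < p) (hR₀ : 1 ≤ R₀) :
    ∃ K W : ℝ, 0 < K ∧ 0 < W ∧ ∀ᶠ T : ℝ in atTop, ∀ δ : ℝ, 0 < δ → δ ≤ 1 / 16 → δ ≤ R₀ / Real.log T →
      ∫ t in (0:ℝ)..T, Pool.Agent.W184.zn (1 / 2 + δ) t ^ p ≤
        K * T + K * ∫ t in (0:ℝ)..(T + W), az t ^ p := by
  obtain ⟨κ, hκ⟩ : ∃ κ : ℝ, κ = 1 / (2 * (p + 1)) := ⟨_, rfl⟩
  have hκ0 : 0 < κ := by rw [hκ]; positivity
  have hκ1 : κ ≤ 1 := by
    rw [hκ, div_le_one (by positivity)]; linarith
  have hκp : κ * (p + 1) = 1 / 2 := by rw [hκ]; field_simp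
  obtain ⟨W, δ', K, T₁, hW, hδ', hK, hT₁, hT₁W, hz⟩ := zeta_der2 (p := p) 0 hR₀ hp hκ0 hκ1
  have hK0 : 0 < K := by linarith
  have hpi := Real.pi_pos
  have hev2 : ∀ᶠ T : ℝ in atTop, max T₁ 1 ≤ T ^ κ := (tendsto_rpow_atTop hκ0).eventually_ge_atTop _
  obtain ⟨K₂, hK₂⟩ : ∃ K₂ : ℝ, K₂ = 24 ^ p + 2 ^ p * K + 2 ^ p * (K * (Real.pi / κ)) := ⟨_, rfl⟩
  have hK₂0 : 0 < K₂ := by rw [hK₂]; positivity
  refine ⟨K₂, W, hK₂0, by linarith, ?_⟩
  filter_upwards [hev2, eventually_ge_atTop (2:ℝ)] with T h2 hT2 δ hδ hδ16 hδT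
  have hT0 : 0 < T := by linarith
  have hlT : 0 < Real.log T := Real.log_pos (by linarith)
  obtain ⟨a, ha⟩ : ∃ a : ℝ, a = T ^ κ := ⟨_, rfl⟩
  rw [← ha] at h2
  have ha1 : 1 ≤ a := (le_max_right _ _).trans h2
  have haT1 : T₁ ≤ a := (le_max_left _ _).trans h2
  have haT : a ≤ T := by
    calc a ≤ T ^ (1:ℝ) := by rw [ha]; exact Real.rpow_le_rpow_of_exponent_le (by linarith) hκ1
      _ = T := Real.rpow_one T
  have ha0 : 0 < a := by linarith
  obtain ⟨l, hl⟩ : ∃ l : ℝ, l = κ * Real.log T := ⟨_, rfl⟩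
  have hl0 : 0 < l := by rw [hl]; positivity
  have hla : Real.log a = l := by rw [ha, hl, Real.log_rpow hT0]
  have hzc : Continuous fun t => Pool.Agent.W184.zn (1 / 2 + δ) t ^ p :=
    (Pool.Agent.W184.zn_cont (by linarith)).rpow_const fun _ => Or.inr hp.le
  have hGc : Continuous fun t => az t ^ p := azp_cont hp
  have hG0 : ∀ t, 0 ≤ az t ^ p := fun t => Real.rpow_nonneg (az_nonneg t) _
  have hpt : ∀ t ∈ Icc a T, Pool.Agent.W184.zn (1 / 2 + δ) t ^ p ≤ 2 ^ p * K + 2 ^ p * (K * Real.log T) *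
      ∫ y in (-W)..W, ((1 + l * |y|) ^ 2)⁻¹ * az (t + y) ^ p := by
    intro t ht
    have ht8 : 8 ≤ t := by linarith [ht.1]
    have ht0 : 0 < t := by linarith
    have hlt : l ≤ Real.log t := by rw [← hla]; exact Real.log_le_log ha0 ht.1
    have hlt0 : 0 < Real.log t := by linarith
    have hlogle : Real.log t ≤ Real.log T := Real.log_le_log ht0 ht.2
    rw [hl] at hlt
    have hnd : ‖((δ : ℝ) : ℂ)‖ = δ := by rw [Complex.norm_real, Real.norm_eq_abs, abs_of_pos hδ]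
    have h3 := hz T t (haT1.trans ht.1) ht.2 hlt 1 (fun _ => 0) (fun _ => p) (fun _ => le_rfl) (fun _ => hp.le)
      (by simp) (δ : ℂ) (by
        rw [hnd]
        refine hδT.trans ?_
        exact div_le_div_of_nonneg_left (by linarith) hlt0 hlogle)
    have h4 : ∫ y in (-W)..W, ((1 + κ * Real.log T * |y|) ^ 2)⁻¹ *
        ∏ j : Fin 1, (dz ((fun _ => 0) j) (t + y) / Real.log T ^ ((fun _ => 0) j)) ^ ((fun _ => p) j) =
        ∫ y in (-W)..W, ((1 + l * |y|) ^ 2)⁻¹ * az (t + y) ^ p := by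
      refine intervalIntegral.integral_congr fun y _ => ?_
      simp only [Finset.univ_unique, Finset.prod_const, Finset.card_singleton, pow_one, pow_zero, div_one]
      rw [hl]
      rfl
    rw [h4] at h3
    have h5 : Pool.Agent.W184.zn (1 / 2 + δ) t ≤ 2 * ‖F t (δ : ℂ)‖ := by
      have h6 := le_F ht8 (z := (δ : ℂ)) (by rw [Complex.ofReal_im, abs_zero]; linarith)
      refine le_trans (le_of_eq ?_) h6
      unfold Pool.Agent.W184.zn
      congr 2
      push_cast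
      ring
    have h6 : Pool.Agent.W184.zn (1 / 2 + δ) t ^ p ≤ 2 ^ p * ‖F t (δ : ℂ)‖ ^ p := by
      rw [← Real.mul_rpow (by norm_num) (norm_nonneg _)]
      exact Real.rpow_le_rpow (Pool.Agent.W184.zn_nonneg _ _) h5 hp.le
    have h7 : t ^ (-δ') ≤ 1 := Real.rpow_le_one_of_one_le_of_nonpos (by linarith) (by linarith)
    have h8 : K * t ^ (-δ') ≤ K := mul_le_of_le_one_right hK0.le h7
    have h2p : (0:ℝ) < 2 ^ p := by positivity
    calc Pool.Agent.W184.zn (1 / 2 + δ) t ^ p ≤ 2 ^ p * ‖F t (δ : ℂ)‖ ^ p := h6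
      _ ≤ 2 ^ p * (K + K * Real.log T * ∫ y in (-W)..W, ((1 + l * |y|) ^ 2)⁻¹ * az (t + y) ^ p) := by
          apply mul_le_mul_of_nonneg_left _ h2p.le
          linarith
      _ = _ := by ring
  have hkc : Continuous fun t : ℝ => ∫ y in (-W)..W, ((1 + l * |y|) ^ 2)⁻¹ * az (t + y) ^ p := by
    have : (fun t : ℝ => ∫ y in (-W)..W, ((1 + l * |y|) ^ 2)⁻¹ * az (t + y) ^ p) =
        fun t : ℝ => ∫ y in (-W)..W, (Function.uncurry fun t y : ℝ => ((1 + l * |y|) ^ 2)⁻¹ * az (t + y) ^ p) (t, y) := rfl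
    rw [this]
    apply intervalIntegral.continuous_parametric_intervalIntegral_of_continuous'
    apply Continuous.mul
    · have hk : Continuous fun y : ℝ => ((1 + l * |y|) ^ 2)⁻¹ := by
        apply Continuous.inv₀ (by fun_prop)
        intro y
        positivity
      exact hk.comp continuous_snd
    · exact hGc.comp (continuous_fst.add continuous_snd)
  have hI0 : 0 ≤ ∫ u in (0:ℝ)..(T + W), az u ^ p :=
    intervalIntegral.integral_nonneg (by linarith) fun t _ => hG0 t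
  have hint : ∫ t in a..T, Pool.Agent.W184.zn (1 / 2 + δ) t ^ p ≤
      2 ^ p * K * T + 2 ^ p * (K * Real.log T) * (Real.pi / l * ∫ u in (0:ℝ)..(T + W), az u ^ p) := by
    have h3 : ∫ t in a..T, Pool.Agent.W184.zn (1 / 2 + δ) t ^ p ≤ ∫ t in a..T, (2 ^ p * K + 2 ^ p * (K * Real.log T) *
        ∫ y in (-W)..W, ((1 + l * |y|) ^ 2)⁻¹ * az (t + y) ^ p) := by
      apply intervalIntegral.integral_mono_on haT (hzc.intervalIntegrable _ _) _ hpt
      exact (continuous_const.add (continuous_const.mul hkc)).intervalIntegrable _ _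
    refine h3.trans ?_
    have hkI : IntervalIntegrable (fun t : ℝ => 2 ^ p * (K * Real.log T) *
        ∫ y in (-W)..W, ((1 + l * |y|) ^ 2)⁻¹ * az (t + y) ^ p) volume a T :=
      (continuous_const.mul hkc).intervalIntegrable _ _
    rw [intervalIntegral.integral_add (by simp) hkI]
    apply add_le_add
    · rw [intervalIntegral.integral_const, smul_eq_mul]
      have h4 : 0 ≤ 2 ^ p * K := by positivity
      have h5 : T - a ≤ T := by linarith
      calc (T - a) * (2 ^ p * K) ≤ T * (2 ^ p * K) := mul_le_mul_of_nonneg_right h5 h4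
        _ = _ := by ring
    · rw [intervalIntegral.integral_const_mul]
      apply mul_le_mul_of_nonneg_left _ (by positivity)
      exact avg_ker hl0 (by linarith) (by linarith) haT hGc hG0
  have hsmall : ∫ t in (0:ℝ)..a, Pool.Agent.W184.zn (1 / 2 + δ) t ^ p ≤ 24 ^ p * T := by
    have h1 : ∀ t ∈ Icc 0 a, Pool.Agent.W184.zn (1 / 2 + δ) t ^ p ≤ (24 * a) ^ p := by
      intro t ht
      have h3 := Pool.Agent.W184.zn_le' (σ := 1 / 2 + δ) (t := t) (by linarith) (by linarith)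
      rw [abs_of_nonneg ht.1] at h3
      exact Real.rpow_le_rpow (Pool.Agent.W184.zn_nonneg _ _) (by linarith [ht.2]) hp.le
    have h3 : ∫ t in (0:ℝ)..a, Pool.Agent.W184.zn (1 / 2 + δ) t ^ p ≤ ∫ t in (0:ℝ)..a, (24 * a) ^ p :=
      intervalIntegral.integral_mono_on ha0.le (hzc.intervalIntegrable _ _) (by simp) h1
    rw [intervalIntegral.integral_const, smul_eq_mul, sub_zero, Real.mul_rpow (by norm_num) ha0.le] at h3
    refine h3.trans ?_
    have h4 : a * a ^ p ≤ T := by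
      have e1 : a * a ^ p = T ^ (1 / 2 : ℝ) := by
        rw [mul_comm, ← Real.rpow_add_one ha0.ne', ha, ← Real.rpow_mul hT0.le, hκp]
      rw [e1]
      calc T ^ (1 / 2 : ℝ) ≤ T ^ (1:ℝ) := Real.rpow_le_rpow_of_exponent_le (by linarith) (by norm_num)
        _ = T := Real.rpow_one T
    calc a * (24 ^ p * a ^ p) = 24 ^ p * (a * a ^ p) := by ring
      _ ≤ 24 ^ p * T := mul_le_mul_of_nonneg_left h4 (by positivity)
  have hsplit : ∫ t in (0:ℝ)..T, Pool.Agent.W184.zn (1 / 2 + δ) t ^ p =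
      (∫ t in (0:ℝ)..a, Pool.Agent.W184.zn (1 / 2 + δ) t ^ p) + ∫ t in a..T, Pool.Agent.W184.zn (1 / 2 + δ) t ^ p :=
    (intervalIntegral.integral_add_adjacent_intervals (hzc.intervalIntegrable _ _) (hzc.intervalIntegrable _ _)).symm
  have e1 : 2 ^ p * (K * Real.log T) * (Real.pi / l * ∫ u in (0:ℝ)..(T + W), az u ^ p) =
      2 ^ p * (K * (Real.pi / κ)) * ∫ u in (0:ℝ)..(T + W), az u ^ p := by
    rw [hl]
    field_simp
  rw [hsplit]
  rw [e1] at hint
  have f1 : 24 ^ p * T + 2 ^ p * K * T ≤ K₂ * T := by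
    rw [← add_mul]
    apply mul_le_mul_of_nonneg_right _ hT0.le
    rw [hK₂]
    have : 0 ≤ 2 ^ p * (K * (Real.pi / κ)) := by positivity
    linarith
  have f2 : 2 ^ p * (K * (Real.pi / κ)) * ∫ u in (0:ℝ)..(T + W), az u ^ p ≤ K₂ * ∫ u in (0:ℝ)..(T + W), az u ^ p := by
    apply mul_le_mul_of_nonneg_right _ hI0
    rw [hK₂]
    have h1 : (0:ℝ) ≤ 24 ^ p := by positivity
    have h2 : 0 ≤ 2 ^ p * K := by positivity
    linarith
  linarith

/-- moving the endpoint -/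
lemma shift_gen {J : ℝ → ℝ} {b W : ℝ} (hb : 0 ≤ b) (h : ∃ c : ℝ, 0 < c ∧ ∀ᶠ T : ℝ in atTop,
    c * (T * Real.log T ^ b) ≤ J T) : ∃ c : ℝ, 0 < c ∧ ∀ᶠ T : ℝ in atTop,
    c * (T * Real.log T ^ b) ≤ J (T - W) := by
  obtain ⟨c, hc, h⟩ := h
  have h2 : Tendsto (fun T : ℝ => T - W) atTop atTop := tendsto_atTop_add_const_right _ _ tendsto_id
  refine ⟨c * (1 / 2) * (1 / 2) ^ b, by positivity, ?_⟩
  filter_upwards [h2.eventually h, eventually_ge_atTop (4:ℝ), eventually_ge_atTop (2 * W)] with T h3 hT hTW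
  refine le_trans ?_ h3
  have hlT : 0 < Real.log T := Real.log_pos (by linarith)
  have hTh : T / 2 ≤ T - W := by linarith
  have h4 : 1 / 2 * Real.log T ≤ Real.log (T - W) := by
    have h5 : Real.log (T / 2) ≤ Real.log (T - W) := Real.log_le_log (by linarith) hTh
    rw [Real.log_div (by linarith) (by norm_num)] at h5
    have h6 : 2 * Real.log 2 ≤ Real.log T := by
      have : Real.log ((2:ℝ) ^ 2) ≤ Real.log T := Real.log_le_log (by norm_num) (by linarith)
      rwa [Real.log_pow] at this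
    linarith
  have h5 : (1 / 2) ^ b * Real.log T ^ b ≤ Real.log (T - W) ^ b := by
    rw [← Real.mul_rpow (by norm_num) hlT.le]
    exact Real.rpow_le_rpow (by positivity) h4 hb
  have hT0 : 0 ≤ T := by linarith
  have hT1 : 0 ≤ T - W := by linarith
  calc c * (1 / 2) * (1 / 2) ^ b * (T * Real.log T ^ b) = c * ((T / 2) * ((1 / 2) ^ b * Real.log T ^ b)) := by ring
    _ ≤ c * ((T - W) * Real.log (T - W) ^ b) := by gcongr

/-- lower bounds of the expected order, for all `p > 0` -/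
theorem mom_lower_all {p : ℝ} (hp : 0 < p) : ∃ c : ℝ, 0 < c ∧ ∀ᶠ T : ℝ in atTop,
    c * (T * Real.log T ^ (p ^ 2 / 4)) ≤ ∫ t in (0:ℝ)..T, az t ^ p := by
  rcases le_or_gt 2 p with h2 | h2
  · exact mom_low_log h2
  have hα : 0 < p / 2 := by positivity
  obtain ⟨lam, hlam, hmom⟩ := Pool.Agent.Y755.mom_low hα (by linarith) (ε := 1 / 2) (by norm_num)
  obtain ⟨c₁, hc₁, hDD⟩ := Pool.Agent.Y755.DD_low hα
  obtain ⟨K, W, hK, hW, hline⟩ := line_low hp hlam
  obtain ⟨b, hb⟩ : ∃ b : ℝ, b = p ^ 2 / 4 := ⟨_, rfl⟩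
  have hb0 : 0 < b := by rw [hb]; positivity
  have hlam0 : 0 < lam := by linarith
  obtain ⟨c₂, hc₂⟩ : ∃ c₂ : ℝ, c₂ = 1 / 2 * (c₁ * lam ^ (-b)) := ⟨_, rfl⟩
  have hc₂0 : 0 < c₂ := by rw [hc₂]; positivity
  rw [← hb]
  have key : ∃ c : ℝ, 0 < c ∧ ∀ᶠ T : ℝ in atTop,
      c * (T * Real.log T ^ b) ≤ (fun T => ∫ t in (0:ℝ)..(T + W), az t ^ p) T := by
    refine ⟨c₂ / (2 * K), by positivity, ?_⟩
    have hl1 : ∀ᶠ T : ℝ in atTop, 16 * lam ≤ Real.log T := Real.tendsto_log_atTop.eventually_ge_atTop _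
    have hl2 : ∀ᶠ T : ℝ in atTop, 2 * K / c₂ ≤ Real.log T ^ b :=
      ((tendsto_rpow_atTop hb0).comp Real.tendsto_log_atTop).eventually_ge_atTop _
    filter_upwards [hmom 0, hline, hl1, hl2, eventually_ge_atTop (2:ℝ)] with T h1 h3 h4 h5 hT
    have hT0 : 0 < T := by linarith
    have hlT : 0 < Real.log T := Real.log_pos (by linarith)
    have hδ0 : 0 < lam / Real.log T := by positivity
    have hδ1 : lam / Real.log T ≤ 1 / 16 := by
      rw [div_le_iff₀ hlT]; linarith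
    have g1 := h1 (lam / Real.log T) le_rfl hδ1
    have g2 := hDD (lam / Real.log T) hδ0 (by linarith)
    have g3 := h3 (lam / Real.log T) hδ0 hδ1 le_rfl
    have e1 : 2 * (p / 2) = p := by ring
    rw [Pool.Agent.Y755.mom_eq _ _ _ hT0, e1, add_zero] at g1
    have e2 : (lam / Real.log T) ^ (-((p / 2) ^ 2)) = lam ^ (-b) * Real.log T ^ b := by
      have e3 : (p / 2) ^ 2 = b := by rw [hb]; ring
      rw [e3, Real.div_rpow hlam0.le hlT.le, Real.rpow_neg hlT.le, div_inv_eq_mul]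
    rw [e2] at g2
    have g4 : c₂ * Real.log T ^ b ≤ T⁻¹ * ∫ t in (0:ℝ)..T, Pool.Agent.W184.zn (1 / 2 + lam / Real.log T) t ^ p := by
      refine le_trans ?_ g1
      calc c₂ * Real.log T ^ b = (1 - 1 / 2) * (c₁ * (lam ^ (-b) * Real.log T ^ b)) := by rw [hc₂]; ring
        _ ≤ _ := mul_le_mul_of_nonneg_left g2 (by norm_num)
    rw [inv_mul_eq_div, le_div_iff₀ hT0] at g4
    have g5 : K * T ≤ c₂ / 2 * (T * Real.log T ^ b) := by
      rw [div_le_iff₀ hc₂0] at h5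
      nlinarith
    have g6 : c₂ / 2 * (T * Real.log T ^ b) ≤ K * ∫ t in (0:ℝ)..(T + W), az t ^ p := by
      have : c₂ * Real.log T ^ b * T = c₂ / 2 * (T * Real.log T ^ b) + c₂ / 2 * (T * Real.log T ^ b) := by ring
      linarith
    show c₂ / (2 * K) * (T * Real.log T ^ b) ≤ ∫ t in (0:ℝ)..(T + W), az t ^ p
    rw [mul_comm K] at g6
    have e4 : c₂ / (2 * K) * (T * Real.log T ^ b) = c₂ / 2 * (T * Real.log T ^ b) / K := by
      field_simp
    rw [e4, div_le_iff₀ hK]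
    exact g6
  obtain ⟨c, hc, h⟩ := shift_gen (W := W) hb0.le key
  refine ⟨c, hc, ?_⟩
  filter_upwards [h] with T hT
  have e : T - W + W = T := by ring
  simp only [e] at hT
  exact hT

/-- upper bounds of the expected order, for `0 < p ≤ 4` -/
theorem mom_upper_all {p : ℝ} (hp : 0 < p) (hp4 : p ≤ 4) : ∃ C : ℝ, 0 < C ∧ ∀ᶠ T : ℝ in atTop,
    ∫ t in (0:ℝ)..T, az t ^ p ≤ C * (T * Real.log T ^ (p ^ 2 / 4)) := by
  rcases hp4.eq_or_lt with h4 | h4
  · exact mom_upper (Or.inr h4)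
  obtain ⟨η1, hη1, H⟩ := Pool.Agent.H998_TS.all hp h4 0
  obtain ⟨C, hC, h⟩ := H η1 hη1 le_rfl
  refine ⟨C, hC, ?_⟩
  filter_upwards [h 0] with T hT
  rw [add_zero] at hT
  refine le_trans (le_of_eq ?_) hT
  refine intervalIntegral.integral_congr fun t _ => ?_
  show az t ^ p = Pool.Agent.H998_TS.FF p 0 _ t
  unfold Pool.Agent.H998_TS.FF az
  rw [pow_zero, mul_one]
  rfl

end Pool.Agent.Helper156_SP
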