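import Mathlib
import Pool.Agent.Helper156_SP.Der11

set_option autoImplicit false

/-!
# Mixed moments of the derivatives of zeta: orders of magnitude
-/

open Complex Set MeasureTheory Filter Topology

namespace Pool.Agent.Helper156_SP

theorem der_final2 (N : ℕ) {p : ℝ} (hp : 0 < p) :
    ∃ c C W T₀ : ℝ, 0 < c ∧ 0 < C ∧ ∀ T : ℝ, T₀ ≤ T → ∀ (n : ℕ) (m : Fin n → ℕ) (q : Fin n → ℝ),
      (∀ j, m j ≤ N) → (∀ j, 0 ≤ q j) → ∑ j, q j = p →
      (c * (Real.log T ^ (∑ j, m j * q j) * ∫ t in (0:ℝ)..(T - W), az t ^ p) ≤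
          ∫ t in (0:ℝ)..T, ∏ j, dz (m j) t ^ q j ∧
        ∫ t in (0:ℝ)..T, ∏ j, dz (m j) t ^ q j ≤
          C * (Real.log T ^ (∑ j, m j * q j) * ∫ t in (0:ℝ)..(T + W), az t ^ p)) ∧
      c * (T * Real.log T ^ (p ^ 2 / 4 + ∑ j, m j * q j)) ≤ ∫ t in (0:ℝ)..T, ∏ j, dz (m j) t ^ q j ∧
      (p ≤ 4 → ∫ t in (0:ℝ)..T, ∏ j, dz (m j) t ^ q j ≤
        C * (T * Real.log T ^ (p ^ 2 / 4 + ∑ j, m j * q j))) := by
  obtain ⟨c₁, W₁, T₁, hc₁, hW₁, h₁⟩ := ders_main N hp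
  obtain ⟨C₂, W₂, T₂, hC₂, hW₂, h₂⟩ := ders_up N hp
  set W : ℝ := max W₁ W₂ with hW
  have hW1 : W₁ ≤ W := le_max_left _ _
  have hW2 : W₂ ≤ W := le_max_right _ _
  have hb : 0 ≤ p ^ 2 / 4 := by positivity
  obtain ⟨c₃, T₃, hc₃, h₃⟩ : ∃ c₃ T₃ : ℝ, 0 < c₃ ∧ ∀ T : ℝ, T₃ ≤ T →
      c₃ * (T * Real.log T ^ (p ^ 2 / 4)) ≤ ∫ t in (0:ℝ)..(T - W), az t ^ p := by
    obtain ⟨c, hc, hev⟩ := low_shift (W := W) hb (mom_lower_all hp)
    obtain ⟨T₃, hT₃⟩ := eventually_atTop.1 hev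
    exact ⟨c, T₃, hc, fun T hT => hT₃ T hT⟩
  obtain ⟨C₄, T₄, hC₄, h₄⟩ : ∃ C₄ T₄ : ℝ, 0 < C₄ ∧ ∀ T : ℝ, T₄ ≤ T → p ≤ 4 →
      ∫ t in (0:ℝ)..(T + W), az t ^ p ≤ C₄ * (T * Real.log T ^ (p ^ 2 / 4)) := by
    by_cases h : p ≤ 4
    · obtain ⟨C, hC, hev⟩ := up_shift (W := W) hb (by linarith) (mom_upper_all hp h)
      obtain ⟨T₄, hT₄⟩ := eventually_atTop.1 hev
      exact ⟨C, T₄, hC, fun T hT _ => hT₄ T hT⟩
    · exact ⟨1, 0, one_pos, fun T _ h' => absurd h' h⟩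
  refine ⟨min c₁ (c₁ * c₃), max C₂ (C₂ * C₄), W, max (max T₁ T₂) (max (max T₃ T₄) (max 2 (2 * W))),
    lt_min hc₁ (by positivity), lt_max_of_lt_left hC₂, fun T hT n m q hm hq hsum => ?_⟩
  have hT1 : T₁ ≤ T := ((le_max_left _ _).trans (le_max_left _ _)).trans hT
  have hT2 : T₂ ≤ T := ((le_max_right _ _).trans (le_max_left _ _)).trans hT
  have hT3 : T₃ ≤ T := ((le_max_left _ _).trans ((le_max_left _ _).trans (le_max_right _ _))).trans hT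
  have hT4 : T₄ ≤ T := ((le_max_right _ _).trans ((le_max_left _ _).trans (le_max_right _ _))).trans hT
  have hT5 : 2 ≤ T := ((le_max_left _ _).trans ((le_max_right _ _).trans (le_max_right _ _))).trans hT
  have hT6 : 2 * W ≤ T := ((le_max_right _ _).trans ((le_max_right _ _).trans (le_max_right _ _))).trans hT
  have hlT : 0 < Real.log T := Real.log_pos (by linarith)
  obtain ⟨E, hE⟩ : ∃ E : ℝ, E = ∑ j, (m j : ℝ) * q j := ⟨_, rfl⟩
  have g1 := (h₁ T hT1 n m q hm hq hsum).1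
  have g2 := h₂ T hT2 n m q hm hq hsum
  rw [← hE] at g1 g2 ⊢
  have hLE : 0 < Real.log T ^ E := by positivity
  have k1 := az_mono hp (by linarith : T - W ≤ T - W₁)
  have k2 := az_mono hp (by linarith : T + W₂ ≤ T + W)
  have k0 : 0 ≤ ∫ t in (0:ℝ)..(T - W), az t ^ p :=
    intervalIntegral.integral_nonneg (by linarith) fun t _ => Real.rpow_nonneg (az_nonneg t) _
  have k3 : 0 ≤ ∫ t in (0:ℝ)..(T + W), az t ^ p :=
    intervalIntegral.integral_nonneg (by linarith) fun t _ => Real.rpow_nonneg (az_nonneg t) _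
  have l1 : c₁ * (Real.log T ^ E * ∫ t in (0:ℝ)..(T - W), az t ^ p) ≤ ∫ t in (0:ℝ)..T, ∏ j, dz (m j) t ^ q j := by
    refine le_trans ?_ g1
    gcongr
  have l2 : ∫ t in (0:ℝ)..T, ∏ j, dz (m j) t ^ q j ≤ C₂ * (Real.log T ^ E * ∫ t in (0:ℝ)..(T + W), az t ^ p) := by
    refine g2.trans ?_
    gcongr
  refine ⟨⟨?_, ?_⟩, ?_, fun h => ?_⟩
  · refine le_trans ?_ l1
    exact mul_le_mul_of_nonneg_right (min_le_left _ _) (by positivity)
  · refine l2.trans ?_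
    exact mul_le_mul_of_nonneg_right (le_max_left _ _) (by positivity)
  · have h5 := h₃ T hT3
    refine le_trans ?_ l1
    have hT0 : 0 < T := by linarith
    calc min c₁ (c₁ * c₃) * (T * Real.log T ^ (p ^ 2 / 4 + E)) ≤ c₁ * c₃ * (T * Real.log T ^ (p ^ 2 / 4 + E)) :=
          mul_le_mul_of_nonneg_right (min_le_right _ _) (by positivity)
      _ = c₁ * (Real.log T ^ E * (c₃ * (T * Real.log T ^ (p ^ 2 / 4)))) := by
          rw [Real.rpow_add hlT]; ring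
      _ ≤ _ := by gcongr
  · have h5 := h₄ T hT4 h
    refine l2.trans ?_
    have hT0 : 0 < T := by linarith
    calc C₂ * (Real.log T ^ E * ∫ t in (0:ℝ)..(T + W), az t ^ p) ≤
          C₂ * (Real.log T ^ E * (C₄ * (T * Real.log T ^ (p ^ 2 / 4)))) := by gcongr
      _ = C₂ * C₄ * (T * Real.log T ^ (p ^ 2 / 4 + E)) := by
          rw [Real.rpow_add hlT]; ring
      _ ≤ _ := mul_le_mul_of_nonneg_right (le_max_right _ _) (by positivity)

end Pool.Agent.Helper156_SP
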