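import Mathlib
import Pool.Agent.Helper156_SP.Der10
import Pool.Agent.Helper156_SP.Zeta2

set_option autoImplicit false

/-!
# The number of zeros near a peak of zeta
-/

open Complex Set MeasureTheory Filter Topology

namespace Pool.Agent.Helper156_SP

open Pool.Agent.TH804.MS in
/-- the number of zeros near a peak -/
theorem peak_count {K t y₁ V R₀ X : ℝ} (hK : 0 ≤ K) (ht : 8 ≤ t) (hR₀ : 1 ≤ R₀)
    (hV : V = ‖F t (y₁ * I)‖) (hV0 : 0 < V) (hX : X = 1 + Real.log t * |y₁|)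
    (hr : 2 * (3 * (X + R₀)) ≤ Real.log t)
    (hbd : ∀ R : ℝ, 1 ≤ R → 2 * R ≤ Real.log t → ∀ z : ℂ, ‖z - y₁ * I‖ ≤ R / Real.log t →
      ‖F t z‖ ≤ V * Real.exp (K * R))
    (Z : Finset ℂ) (hZ : ∀ ρ ∈ Z, ‖ρ - (1 / 2 + t * I)‖ ≤ R₀ / Real.log t) :
    ∑ ρ ∈ Z, (analyticOrderNatAt riemannZeta ρ : ℝ) ≤ 3 * K * (X + R₀) := by
  classical
  obtain ⟨Λ, hΛd⟩ : ∃ Λ : ℝ, Λ = Real.log t := ⟨_, rfl⟩
  rw [← hΛd] at hr hbd hZ hX
  have hΛ : 0 < Λ := by
    rw [hΛd]; exact Real.log_pos (by linarith)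
  have hX1 : 1 ≤ X := by
    rw [hX]
    have : 0 ≤ Λ * |y₁| := by positivity
    linarith
  obtain ⟨r, hrd⟩ : ∃ r : ℝ, r = 3 * (X + R₀) := ⟨_, rfl⟩
  rw [← hrd] at hr
  have hr1 : 1 ≤ r := by rw [hrd]; linarith
  have hr0 : 0 < r := by linarith
  have hΛc : (Λ : ℂ) ≠ 0 := by exact_mod_cast hΛ.ne'
  have hMc : (V : ℂ) ≠ 0 := by exact_mod_cast hV0.ne'
  obtain ⟨su, hsu⟩ : ∃ su : ℂ, su = 1 / 2 + ((t + y₁ : ℝ) : ℂ) * I := ⟨_, rfl⟩
  set g : ℂ → ℂ := fun w : ℂ => (V : ℂ)⁻¹ * F t ((y₁ + w / Λ) * I) with hg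
  have hgd : Differentiable ℂ g :=
    ((F_diff t).comp (by fun_prop : Differentiable ℂ fun w : ℂ => (y₁ + w / Λ) * I)).const_mul _
  have hH0 : F t (y₁ * I) ≠ 0 := by
    rw [← norm_ne_zero_iff, ← hV]; exact hV0.ne'
  have hg0 : ‖g 0‖ = 1 := by
    show ‖(V : ℂ)⁻¹ * F t ((y₁ + 0 / Λ) * I)‖ = 1
    rw [zero_div, add_zero, norm_mul, norm_inv, ← hV, Complex.norm_real, Real.norm_eq_abs, abs_of_pos hV0]
    exact inv_mul_cancel₀ hV0.ne'
  have hb : ∀ w : ℂ, ‖w‖ = r → ‖g w‖ ≤ Real.exp (K * r) * Real.exp (0 * |w.im|) := by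
    intro w hw
    have h1 : ‖(y₁ + w / Λ) * I - y₁ * I‖ ≤ r / Λ := by
      have e : ((y₁ : ℂ) + w / Λ) * I - y₁ * I = w / Λ * I := by ring
      rw [e, norm_mul, Complex.norm_I, mul_one, norm_div, hw, Complex.norm_real, Real.norm_eq_abs, abs_of_pos hΛ]
    have h2 := hbd r hr1 hr _ h1
    show ‖(V : ℂ)⁻¹ * F t ((y₁ + w / Λ) * I)‖ ≤ _
    rw [norm_mul, norm_inv, Complex.norm_real, Real.norm_eq_abs, abs_of_pos hV0, zero_mul, Real.exp_zero, mul_one,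
      inv_mul_le_iff₀ hV0]
    exact h2
  set wf : ℂ → ℂ := fun ρ => -I * Λ * (ρ - su) with hwf
  have hwn : ∀ ρ, ‖wf ρ‖ = Λ * ‖ρ - su‖ := by
    intro ρ
    rw [hwf]
    simp only
    rw [norm_mul, norm_mul, norm_neg, Complex.norm_I, one_mul, Complex.norm_real, Real.norm_eq_abs, abs_of_pos hΛ]
  have hψ : ∀ ρ, 1 / 2 + (t : ℂ) * I + (y₁ + wf ρ / Λ) * I = ρ := by
    intro ρ
    have e1 : wf ρ / Λ = -I * (ρ - su) := by
      rw [hwf]; field_simp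
    rw [e1, hsu]
    push_cast
    linear_combination (-(ρ - (1 / 2 + (t + y₁) * I)) : ℂ) * I_sq
  have hinj : ∀ x ∈ Z, ∀ y ∈ Z, wf x = wf y → x = y := by
    intro x _ y _ hxy
    rw [← hψ x, ← hψ y, hxy]
  have hwle : ∀ ρ ∈ Z, 3 * ‖wf ρ‖ ≤ r := by
    intro ρ hρ
    have h1 : ‖ρ - su‖ ≤ ‖ρ - (1 / 2 + t * I)‖ + |y₁| := by
      have e : ρ - su = (ρ - (1 / 2 + t * I)) + (-(y₁ : ℂ)) * I := by
        rw [hsu]; push_cast; ring
      rw [e]
      refine (norm_add_le _ _).trans (le_of_eq ?_)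
      rw [norm_mul, norm_neg, Complex.norm_I, mul_one, Complex.norm_real, Real.norm_eq_abs]
    have h2 := hZ ρ hρ
    rw [hwn, hrd]
    have h3 : Λ * ‖ρ - su‖ ≤ Λ * (R₀ / Λ + |y₁|) := mul_le_mul_of_nonneg_left (by linarith) hΛ.le
    have h4 : Λ * (R₀ / Λ + |y₁|) = R₀ + (X - 1) := by
      rw [hX]; field_simp
      ring
    linarith
  have hJ := jensen_mult hgd hr0 (Real.one_le_exp (by positivity : 0 ≤ K * r)) (le_refl (0:ℝ)) (by
    rw [← norm_ne_zero_iff, hg0]; norm_num) hb (Z.image wf) (by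
    intro s hs
    rw [Finset.mem_image] at hs
    obtain ⟨ρ, hρ, rfl⟩ := hs
    have := hwle ρ hρ
    have := norm_nonneg (wf ρ)
    linarith)
  rw [hg0, Real.log_one, add_zero, Real.log_exp, zero_mul, add_zero, Finset.sum_image hinj] at hJ
  have hle : ∑ ρ ∈ Z, (analyticOrderNatAt riemannZeta ρ : ℝ) ≤
      ∑ ρ ∈ Z, (analyticOrderNatAt g (wf ρ) : ℝ) * Real.log (r / ‖wf ρ‖) := by
    refine Finset.sum_le_sum fun ρ hρ => ?_
    have hne : ρ ≠ 1 := by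
      rintro rfl
      have h0 := hZ 1 hρ
      have h1 := Complex.abs_im_le_norm ((1:ℂ) - (1 / 2 + t * I))
      have h2 : ((1:ℂ) - (1 / 2 + t * I)).im = -t := by simp
      rw [h2, abs_neg, abs_of_pos (by linarith)] at h1
      have h3 : R₀ / Λ ≤ 1 := by
        rw [div_le_one hΛ]
        linarith
      linarith
    have h1 := order_le (t := t) (Λ := Λ) (y₀ := y₁) (by linarith) hΛ (H := F t) (E := fun _ => 1)
      (differentiable_const _) (fun z => by simp) hV0 (F_diff t) hH0 (w := wf ρ)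
      (by rw [hψ ρ]; exact hne)
    rw [hψ ρ] at h1
    have h2 : (analyticOrderNatAt riemannZeta ρ : ℝ) ≤ analyticOrderNatAt g (wf ρ) := (Nat.cast_le (α := ℝ)).2 h1
    rcases eq_or_ne (wf ρ) 0 with h3 | h3
    · have h4 : analyticOrderNatAt g (wf ρ) = 0 := by
        have h5 : analyticOrderAt g (wf ρ) = 0 := by
          rw [(hgd.analyticAt (wf ρ)).analyticOrderAt_eq_zero, h3]
          rw [← norm_ne_zero_iff, hg0]; norm_num
        unfold analyticOrderNatAt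
        rw [h5]; rfl
      rw [h4] at h2 ⊢
      simp only [Nat.cast_zero, zero_mul]
      exact_mod_cast h2
    · have h4 : 0 < ‖wf ρ‖ := norm_pos_iff.2 h3
      have h5 := hwle ρ hρ
      have h6 : 1 ≤ Real.log (r / ‖wf ρ‖) := by
        rw [Real.le_log_iff_exp_le (by positivity), le_div_iff₀ h4]
        have := Real.exp_one_lt_d9
        nlinarith
      calc (analyticOrderNatAt riemannZeta ρ : ℝ) ≤ analyticOrderNatAt g (wf ρ) := h2
        _ = analyticOrderNatAt g (wf ρ) * 1 := (mul_one _).symm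
        _ ≤ _ := mul_le_mul_of_nonneg_left h6 (Nat.cast_nonneg _)
  refine hle.trans (hJ.trans (le_of_eq ?_))
  rw [hrd]; ring

end Pool.Agent.Helper156_SP
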