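import Mathlib
import Pool.Agent.Helper156_SP.Dis3

set_option autoImplicit false

/-!
# Sums of the derivatives of zeta over the zeros near the critical line
-/

open Complex Set MeasureTheory Filter Topology

namespace Pool.Agent.Helper156_SP

/-- a derivative is bounded by a value nearby -/
lemma der_near (m : ℕ) {c : ℂ} {r : ℝ} (hr : 0 < r) (hc : c.re + r < 1) :
    ∃ w : ℂ, ‖w - c‖ ≤ r ∧ ‖iteratedDeriv m riemannZeta c‖ ≤ m.factorial * ‖riemannZeta w‖ / r ^ m := by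
  have hne : ∀ z ∈ Metric.closedBall c r, z ≠ 1 := by
    rintro z hz rfl
    rw [mem_closedBall_iff_norm] at hz
    have h1 := (Complex.abs_re_le_norm ((1:ℂ) - c)).trans hz
    rw [Complex.sub_re, Complex.one_re] at h1
    have := (abs_le.1 h1).2
    linarith
  have hd : DifferentiableOn ℂ riemannZeta (Metric.closedBall c r) := fun z hz =>
    (differentiableAt_riemannZeta (hne z hz)).differentiableWithinAt
  have hcs : ContinuousOn (fun z => ‖riemannZeta z‖) (Metric.sphere c r) :=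
    (hd.continuousOn.mono Metric.sphere_subset_closedBall).norm
  obtain ⟨w, hw, hmax⟩ := (isCompact_sphere c r).exists_isMaxOn (NormedSpace.sphere_nonempty.2 hr.le) hcs
  refine ⟨w, (mem_sphere_iff_norm.1 hw).le, ?_⟩
  exact Complex.norm_iteratedDeriv_le_of_forall_mem_sphere_norm_le m hr (hd.diffContOnCl_ball (le_refl _))
    fun z hz => hmax hz

theorem disc_der {p A : ℝ} (N k : ℕ) (hp : 0 < p) (hA : 0 ≤ A) :
    ∃ C W T₀ : ℝ, 0 < C ∧ 0 < W ∧ ∀ T : ℝ, T₀ ≤ T → ∀ Z : Finset ℂ, NearZ A T Z → ∀ σ : ℂ → ℂ,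
      (∀ ρ ∈ Z, ‖σ ρ‖ ≤ A / Real.log T) → ∀ m : ℕ, m ≤ N →
      ∑ ρ ∈ Z, (analyticOrderNatAt riemannZeta ρ : ℝ) * mz (Z.filter fun s => ‖s - ρ‖ ≤ A / Real.log T) ^ k *
        ‖iteratedDeriv m riemannZeta (ρ + σ ρ)‖ ^ p ≤
          C * (Real.log T ^ (1 + m * p) * ∫ t in (0:ℝ)..(T + W), az t ^ p) := by
  classical
  obtain ⟨C, W, T₀, hC, hW, h⟩ := disc_sum (p := p) (A := A + 1) k hp (by linarith)
  have hev : ∀ᶠ T : ℝ in atTop, max 1 (8 * (2 * A + 1)) ≤ Real.log T := Real.tendsto_log_atTop.eventually_ge_atTop _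
  obtain ⟨T₁, hT₁⟩ := eventually_atTop.1 (hev.and (eventually_ge_atTop T₀))
  refine ⟨(N.factorial : ℝ) ^ p * C, W, T₁, by positivity, hW, fun T hT Z hZ σ hσ m hm => ?_⟩
  obtain ⟨h3, hT0⟩ := hT₁ T hT
  obtain ⟨L, hL⟩ : ∃ L : ℝ, L = Real.log T := ⟨_, rfl⟩
  have hh := h T hT0 Z
  rw [← hL] at h3 hσ hh ⊢
  have hL1 : 1 ≤ L := (le_max_left _ _).trans h3
  have hLA : 8 * (2 * A + 1) ≤ L := (le_max_right _ _).trans h3
  have hL0 : 0 < L := by linarith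
  have hLi : 0 < 1 / L := by positivity
  have hAA : A / L ≤ (A + 1) / L := div_le_div_of_nonneg_right (by linarith) hL0.le
  have hsum : (A + 1) / L = A / L + 1 / L := by ring
  have hsm : A / L + A / L + 1 / L ≤ 1 / 8 := by
    have e : A / L + A / L + 1 / L = (2 * A + 1) / L := by ring
    rw [e, div_le_iff₀ hL0]; linarith
  have hw : ∀ ρ : ℂ, ∃ w : ℂ, ρ ∈ Z → ‖w - ρ‖ ≤ (A + 1) / L ∧
      ‖iteratedDeriv m riemannZeta (ρ + σ ρ)‖ ≤ m.factorial * ‖riemannZeta w‖ / (1 / L) ^ m := by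
    intro ρ
    by_cases hρ : ρ ∈ Z
    · have h1 := (hZ ρ hρ).2.1
      rw [← hL] at h1
      have h2 := hσ ρ hρ
      have h4 := (abs_le.1 ((Complex.abs_re_le_norm (σ ρ)).trans h2)).2
      have h5 := (abs_le.1 h1).2
      obtain ⟨w, hw1, hw2⟩ := der_near m (c := ρ + σ ρ) hLi (by
        rw [Complex.add_re]
        linarith)
      refine ⟨w, fun _ => ⟨?_, hw2⟩⟩
      have e : w - ρ = (w - (ρ + σ ρ)) + σ ρ := by ring
      rw [e, hsum]
      refine (norm_add_le _ _).trans ?_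
      linarith
    · exact ⟨0, fun h => absurd h hρ⟩
  choose w hw using hw
  have hmain := hh (fun ρ hρ => ⟨(hZ ρ hρ).1, by
    have := (hZ ρ hρ).2.1
    rw [← hL] at this ⊢
    linarith, (hZ ρ hρ).2.2⟩) (fun ρ => w ρ - ρ) (fun ρ hρ => (hw ρ hρ).1)
  have hfac : (m.factorial : ℝ) ≤ N.factorial := by exact_mod_cast Nat.factorial_le hm
  have hLm : L ^ (1 + m * p) = L * L ^ (m * p) := by
    rw [Real.rpow_add hL0, Real.rpow_one]
  have hterm : ∀ ρ ∈ Z, (analyticOrderNatAt riemannZeta ρ : ℝ) * mz (Z.filter fun s => ‖s - ρ‖ ≤ A / L) ^ k *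
        ‖iteratedDeriv m riemannZeta (ρ + σ ρ)‖ ^ p ≤
      (N.factorial : ℝ) ^ p * L ^ (m * p) * ((analyticOrderNatAt riemannZeta ρ : ℝ) *
        mz (Z.filter fun s => ‖s - ρ‖ ≤ (A + 1) / L) ^ k * ‖riemannZeta (ρ + (w ρ - ρ))‖ ^ p) := by
    intro ρ hρ
    have h1 : mz (Z.filter fun s => ‖s - ρ‖ ≤ A / L) ≤ mz (Z.filter fun s => ‖s - ρ‖ ≤ (A + 1) / L) := by
      apply mz_mono
      intro s hs
      rw [Finset.mem_filter] at hs ⊢
      exact ⟨hs.1, hs.2.trans hAA⟩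
    have h2 := pow_le_pow_left₀ (mz_nonneg _) h1 k
    have h4 : ‖iteratedDeriv m riemannZeta (ρ + σ ρ)‖ ^ p ≤
        (N.factorial : ℝ) ^ p * L ^ (m * p) * ‖riemannZeta (ρ + (w ρ - ρ))‖ ^ p := by
      have h5 : ‖iteratedDeriv m riemannZeta (ρ + σ ρ)‖ ≤ N.factorial * L ^ m * ‖riemannZeta (ρ + (w ρ - ρ))‖ := by
        have e : ρ + (w ρ - ρ) = w ρ := by ring
        rw [e]
        refine (hw ρ hρ).2.trans ?_
        have e2 : (m.factorial : ℝ) * ‖riemannZeta (w ρ)‖ / (1 / L) ^ m = m.factorial * (L ^ m * ‖riemannZeta (w ρ)‖) := by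
          rw [one_div, inv_pow, div_inv_eq_mul]; ring
        rw [e2, mul_assoc]
        exact mul_le_mul_of_nonneg_right hfac (by positivity)
      refine (Real.rpow_le_rpow (norm_nonneg _) h5 hp.le).trans (le_of_eq ?_)
      rw [Real.mul_rpow (by positivity) (norm_nonneg _), Real.mul_rpow (by positivity) (by positivity),
        ← Real.rpow_natCast L m, ← Real.rpow_mul hL0.le]
    have h0 : 0 ≤ (analyticOrderNatAt riemannZeta ρ : ℝ) := Nat.cast_nonneg _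
    have h00 : 0 ≤ mz (Z.filter fun s => ‖s - ρ‖ ≤ (A + 1) / L) ^ k := pow_nonneg (mz_nonneg _) k
    calc (analyticOrderNatAt riemannZeta ρ : ℝ) * mz (Z.filter fun s => ‖s - ρ‖ ≤ A / L) ^ k *
          ‖iteratedDeriv m riemannZeta (ρ + σ ρ)‖ ^ p
        ≤ (analyticOrderNatAt riemannZeta ρ : ℝ) * mz (Z.filter fun s => ‖s - ρ‖ ≤ (A + 1) / L) ^ k *
          ((N.factorial : ℝ) ^ p * L ^ (m * p) * ‖riemannZeta (ρ + (w ρ - ρ))‖ ^ p) :=
          mul_le_mul (mul_le_mul_of_nonneg_left h2 h0) h4 (Real.rpow_nonneg (norm_nonneg _) _) (mul_nonneg h0 h00)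
      _ = _ := by ring
  refine (Finset.sum_le_sum hterm).trans ?_
  rw [← Finset.mul_sum, hLm]
  calc (N.factorial : ℝ) ^ p * L ^ (m * p) * ∑ ρ ∈ Z, ((analyticOrderNatAt riemannZeta ρ : ℝ) *
        mz (Z.filter fun s => ‖s - ρ‖ ≤ (A + 1) / L) ^ k * ‖riemannZeta (ρ + (w ρ - ρ))‖ ^ p)
      ≤ (N.factorial : ℝ) ^ p * L ^ (m * p) * (C * (L * ∫ t in (0:ℝ)..(T + W), az t ^ p)) :=
        mul_le_mul_of_nonneg_left hmain (by positivity)
    _ = _ := by ring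

/-- **discrete moments near the critical line** -/
theorem disc_final {p A : ℝ} (N k : ℕ) (hp : 0 < p) (hA : 0 ≤ A) :
    ∃ C W T₀ : ℝ, 0 < C ∧ ∀ T : ℝ, T₀ ≤ T → ∀ Z : Finset ℂ, NearZ A T Z → ∀ σ : ℂ → ℂ,
      (∀ ρ ∈ Z, ‖σ ρ‖ ≤ A / Real.log T) → ∀ m : ℕ, m ≤ N →
      (∑ ρ ∈ Z, (analyticOrderNatAt riemannZeta ρ : ℝ) * mz (Z.filter fun s => ‖s - ρ‖ ≤ A / Real.log T) ^ k *
        ‖iteratedDeriv m riemannZeta (ρ + σ ρ)‖ ^ p ≤
          C * (Real.log T ^ (1 + m * p) * ∫ t in (0:ℝ)..(T + W), az t ^ p)) ∧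
      (p ≤ 4 → ∑ ρ ∈ Z, (analyticOrderNatAt riemannZeta ρ : ℝ) *
        mz (Z.filter fun s => ‖s - ρ‖ ≤ A / Real.log T) ^ k * ‖iteratedDeriv m riemannZeta (ρ + σ ρ)‖ ^ p ≤
          C * (T * Real.log T ^ (1 + m * p + p ^ 2 / 4))) := by
  obtain ⟨C₁, W, T₁, hC₁, hW, h₁⟩ := disc_der (p := p) (A := A) N k hp hA
  have hb : 0 ≤ p ^ 2 / 4 := by positivity
  obtain ⟨C₄, T₄, hC₄, h₄⟩ : ∃ C₄ T₄ : ℝ, 0 < C₄ ∧ ∀ T : ℝ, T₄ ≤ T → p ≤ 4 →
      ∫ t in (0:ℝ)..(T + W), az t ^ p ≤ C₄ * (T * Real.log T ^ (p ^ 2 / 4)) := by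
    by_cases h : p ≤ 4
    · obtain ⟨C, hC, hev⟩ := up_shift (W := W) hb (by linarith) (mom_upper_all hp h)
      obtain ⟨T₄, hT₄⟩ := eventually_atTop.1 hev
      exact ⟨C, T₄, hC, fun T hT _ => hT₄ T hT⟩
    · exact ⟨1, 0, one_pos, fun T _ h' => absurd h' h⟩
  refine ⟨max C₁ (C₁ * C₄), W, max (max T₁ T₄) 2, lt_max_of_lt_left hC₁, fun T hT Z hZ σ hσ m hm => ?_⟩
  have hT1 : T₁ ≤ T := ((le_max_left _ _).trans (le_max_left _ _)).trans hT
  have hT4 : T₄ ≤ T := ((le_max_right _ _).trans (le_max_left _ _)).trans hT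
  have hT2 : 2 ≤ T := (le_max_right _ _).trans hT
  have hlT : 0 < Real.log T := Real.log_pos (by linarith)
  have hT0 : 0 < T := by linarith
  have h := h₁ T hT1 Z hZ σ hσ m hm
  by_cases hW0 : 0 ≤ T + W
  · have hM0 : 0 ≤ ∫ t in (0:ℝ)..(T + W), az t ^ p :=
      intervalIntegral.integral_nonneg hW0 fun t _ => Real.rpow_nonneg (az_nonneg t) _
    refine ⟨h.trans (mul_le_mul_of_nonneg_right (le_max_left _ _) (by positivity)), fun h4 => ?_⟩
    have h5 := h₄ T hT4 h4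
    refine h.trans ?_
    calc C₁ * (Real.log T ^ (1 + m * p) * ∫ t in (0:ℝ)..(T + W), az t ^ p) ≤
          C₁ * (Real.log T ^ (1 + m * p) * (C₄ * (T * Real.log T ^ (p ^ 2 / 4)))) := by gcongr
      _ = C₁ * C₄ * (T * Real.log T ^ (1 + m * p + p ^ 2 / 4)) := by
          rw [Real.rpow_add hlT (1 + m * p)]; ring
      _ ≤ _ := mul_le_mul_of_nonneg_right (le_max_right _ _) (by positivity)
  · exfalso
    linarith

end Pool.Agent.Helper156_SP
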