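import Mathlib
import Pool.Agent.Helper156_SP.Dis4

set_option autoImplicit false

/-!
# Local inequality with the number of zeros at a larger scale
-/

open Complex Set MeasureTheory Filter Topology

namespace Pool.Agent.Helper156_SP

lemma triv_count2 : ∃ C : ℝ, 0 < C ∧ ∀ t : ℝ, 8 ≤ t → ∀ Z : Finset ℂ,
    (∀ ρ ∈ Z, riemannZeta ρ = 0 ∧ 0 < ρ.re ∧ ρ.re < 1 ∧ ‖ρ - (1 / 2 + t * I)‖ ≤ 3 / 4) → mz Z ≤ C * Real.log t := by
  classical
  obtain ⟨C, hC, h⟩ := H370.zcount H370.good_zeta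
  refine ⟨C, hC, fun t ht Z hZ => ?_⟩
  refine le_trans ?_ (h t (by linarith))
  have hfin := H370.zset_finite H370.good_zeta (t - 1) (t + 1) (by linarith)
  have hNN : H370.NN riemannZeta (t - 1) (t + 1) = ∑ s ∈ hfin.toFinset, H370.mult riemannZeta s := by
    unfold H370.NN
    exact finsum_mem_eq_finite_toFinset_sum _ hfin
  rw [hNN, Nat.cast_sum]
  apply Finset.sum_le_sum_of_subset_of_nonneg _ fun _ _ _ => Nat.cast_nonneg _
  intro ρ hρ
  rw [Set.Finite.mem_toFinset]
  obtain ⟨h1, h5, h6, h2⟩ := hZ ρ hρ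
  have h4 := Complex.abs_im_le_norm (ρ - (1 / 2 + t * I))
  have e4 : (ρ - (1 / 2 + t * I)).im = ρ.im - t := by simp
  rw [e4] at h4
  have h7 := abs_le.1 (h4.trans h2)
  exact ⟨h5, h6, by linarith [h7.1], by linarith [h7.2], h1⟩

open Pool.Agent.TH804.MS in
/-- **local inequality** with the number of zeros nearby and a disc on the left -/
theorem zeta_cnt2 {p κ R₀ : ℝ} (N k : ℕ) (hR₀ : 1 ≤ R₀) (hp : 0 < p) (hκ : 0 < κ) (hκ1 : κ ≤ 1) :
    ∃ W δ K T₁ : ℝ, 2 ≤ W ∧ 0 < δ ∧ 1 ≤ K ∧ 8 ≤ T₁ ∧ 2 * W ≤ T₁ ∧ ∀ T t : ℝ, T₁ ≤ t → t ≤ T →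
      κ * Real.log T ≤ Real.log t → ∀ (n : ℕ) (μ : Fin n → ℕ) (q : Fin n → ℝ), (∀ j, μ j ≤ N) → (∀ j, 0 ≤ q j) →
      ∑ j, q j = p → ∀ z : ℂ, ‖z‖ ≤ R₀ / Real.log t → ∀ Z : Finset ℂ,
      (∀ ρ ∈ Z, riemannZeta ρ = 0 ∧ ‖ρ - (1 / 2 + t * I)‖ ≤ R₀ / Real.log t) →
      ∀ (Y : Finset ℂ) (K₁ : ℝ), 1 ≤ K₁ → (∀ ρ ∈ Y, riemannZeta ρ = 0 ∧ 0 < ρ.re ∧ ρ.re < 1 ∧
        ‖ρ - (1 / 2 + t * I)‖ ≤ 3 / 4) → (∀ ρ ∈ Y, ‖ρ - (1 / 2 + t * I)‖ ≤ K₁ / Real.log t) →
      mz Z * mz Y ^ k * ‖F t z‖ ^ p ≤ K₁ ^ k * (K * t ^ (-δ) + K * Real.log T *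
        ∫ y in (-W)..W, ((1 + κ * Real.log T * |y|) ^ 2)⁻¹ * ∏ j, (dz (μ j) (t + y) / Real.log T ^ μ j) ^ q j) := by
  obtain ⟨m, hm1, hm2⟩ : ∃ m : ℕ, 1 ≤ m ∧ ((k + 3 : ℕ) : ℝ) ≤ m * p := by
    obtain ⟨m, hm⟩ := exists_nat_ge (((k + 3 : ℕ) : ℝ) / p)
    refine ⟨max m 1, le_max_right _ _, ?_⟩
    have h1 : ((k + 3 : ℕ) : ℝ) / p ≤ ((max m 1 : ℕ) : ℝ) := hm.trans (by exact_mod_cast le_max_left _ _)
    rwa [div_le_iff₀ hp] at h1
  obtain ⟨C₀, hC₀, hcnt⟩ := triv_count2
  obtain ⟨W, δ, K, T₁, hW, hδ, hK, hT₁, hT₁W, hz⟩ := zeta_peak2 hm1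
  obtain ⟨C, A, T₂, hC, hA, hT₂, hloc⟩ := loc_low_all N K (W := W) (by linarith)
  obtain ⟨A', hA'⟩ : ∃ A' : ℝ, A' = A * κ⁻¹ ^ N := ⟨_, rfl⟩
  have hA0 : 0 < A := by linarith
  have hA'0 : 0 < A' := by rw [hA']; positivity
  obtain ⟨E, hE⟩ : ∃ E : ℝ, E = 2 * Real.exp (-(p * C / 2)) := ⟨_, rfl⟩
  have hE0 : 0 < E := by rw [hE]; positivity
  obtain ⟨E₀, hE₀⟩ : ∃ E₀ : ℝ, E₀ = Real.exp (K * R₀) := ⟨_, rfl⟩
  have hE₀1 : 1 ≤ E₀ := by rw [hE₀]; exact Real.one_le_exp (by positivity)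
  have hE₀0 : 0 < E₀ := by linarith
  have hE₀p : 1 ≤ E₀ ^ p := Real.one_le_rpow hE₀1 hp.le
  obtain ⟨C₁, hC₁⟩ : ∃ C₁ : ℝ, C₁ = 6 * K * R₀ + 12 * C₀ * R₀ := ⟨_, rfl⟩
  have hC₁0 : 0 < C₁ := by rw [hC₁]; positivity
  obtain ⟨C₂, hC₂⟩ : ∃ C₂ : ℝ, C₂ = 6 * K + 12 * C₀ := ⟨_, rfl⟩
  have hC₂0 : 0 < C₂ := by rw [hC₂]; positivity
  obtain ⟨e, he⟩ : ∃ e : ℝ, e = δ * p / (2 * (k + 1 + 1)) := ⟨_, rfl⟩
  have he0 : 0 < e := by rw [he]; positivity
  obtain ⟨K', hK'⟩ : ∃ K' : ℝ, K' = max 1 (max (C₀ ^ (k + 1) * E₀ ^ p * (1 / e) ^ (k + 1))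
    (4 * A' ^ p / E * E₀ ^ p * (C₁ * C₂ ^ k))) := ⟨_, rfl⟩
  have hK'1 : 1 ≤ K' := by rw [hK']; exact le_max_left _ _
  have hK'0 : C₀ ^ (k + 1) * E₀ ^ p * (1 / e) ^ (k + 1) ≤ K' := by
    rw [hK']; exact (le_max_left _ _).trans (le_max_right _ _)
  have hK'2 : 4 * A' ^ p / E * E₀ ^ p * (C₁ * C₂ ^ k) ≤ K' := by
    rw [hK']; exact (le_max_right _ _).trans (le_max_right _ _)
  refine ⟨W, δ * p / 2, K', max (max T₁ T₂) (Real.exp (3 * R₀)), hW, by positivity, hK'1,
    hT₁.trans ((le_max_left _ _).trans (le_max_left _ _)),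
    hT₁W.trans ((le_max_left _ _).trans (le_max_left _ _)), ?_⟩
  intro T t ht htT hlog n μ q hμ hq hsum z hzn Z hZ Y K₁ hK₁ hY hYK
  have ht1 : T₁ ≤ t := ((le_max_left _ _).trans (le_max_left _ _)).trans ht
  have ht2 : T₂ ≤ t := ((le_max_right _ _).trans (le_max_left _ _)).trans ht
  have ht3 : Real.exp (3 * R₀) ≤ t := (le_max_right _ _).trans ht
  have ht0 : 0 < t := by linarith
  have ht8 : 8 ≤ t := by linarith
  have hΛ1 : 1 ≤ Real.log t := by
    rw [Real.le_log_iff_exp_le ht0]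
    have := Real.exp_one_lt_d9
    linarith
  have hΛ0 : 0 < Real.log t := by linarith
  have hTt : Real.log t ≤ Real.log T := Real.log_le_log ht0 htT
  have hLT : 0 < Real.log T := by linarith
  have hR₀t3 : 3 * R₀ ≤ Real.log t := by
    rw [Real.le_log_iff_exp_le ht0]; exact ht3
  have hR₀t : 2 * R₀ ≤ Real.log t := by linarith
  have htriv : mz Z ≤ C₀ * Real.log t := by
    refine hcnt t ht8 Z fun ρ hρ => ?_
    have h1 : ‖ρ - (1 / 2 + t * I)‖ ≤ 1 / 3 := (hZ ρ hρ).2.trans (by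
      rw [div_le_iff₀ hΛ0]
      linarith)
    have h3 := Complex.abs_re_le_norm (ρ - (1 / 2 + t * I))
    have e3 : (ρ - (1 / 2 + t * I)).re = ρ.re - 1 / 2 := by simp
    rw [e3] at h3
    have h5 := abs_le.1 (h3.trans h1)
    exact ⟨(hZ ρ hρ).1, by linarith [h5.1], by linarith [h5.2], h1.trans (by norm_num)⟩
  have htrivY : mz Y ≤ C₀ * Real.log t := hcnt t ht8 Y hY
  have hmz := mz_nonneg Z
  have hmy := mz_nonneg Y
  have hK₁k : 1 ≤ K₁ ^ k := one_le_pow₀ hK₁
  -- the integrand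
  set P : ℝ → ℝ := fun u => ∏ j, (dz (μ j) u / Real.log T ^ μ j) ^ q j with hP
  have hPc : Continuous P := by
    rw [hP]
    apply continuous_finsetProd
    intro j _
    exact ((dz_cont (μ j)).div_const _).rpow_const fun _ => Or.inr (hq j)
  have hP0 : ∀ u, 0 ≤ P u := fun u => Finset.prod_nonneg fun j _ => Real.rpow_nonneg (by
    have := dz_nonneg (μ j) u
    positivity) _
  set g : ℝ → ℝ := fun y => ((1 + κ * Real.log T * |y|) ^ 2)⁻¹ * P (t + y) with hg
  have hgc : Continuous g := by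
    rw [hg]
    apply Continuous.mul
    · apply Continuous.inv₀ (by fun_prop)
      intro y
      positivity
    · exact hPc.comp (by fun_prop)
  have hg0 : ∀ y, 0 ≤ g y := by
    intro y
    rw [hg]
    simp only
    have := hP0 (t + y)
    positivity
  have hgI : 0 ≤ ∫ y in (-W)..W, g y := intervalIntegral.integral_nonneg (by linarith) fun y _ => hg0 y
  show mz Z * mz Y ^ k * ‖F t z‖ ^ p ≤ K₁ ^ k * (K' * t ^ (-(δ * p / 2)) + K' * Real.log T * ∫ y in (-W)..W, g y)
  rcases hz t ht1 R₀ hR₀ hR₀t with h | ⟨y₁, hy₁, hV, hdec, hbd⟩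
  · have h2 := h z hzn
    rw [← hE₀] at h2
    have h3 := Real.rpow_le_rpow (norm_nonneg _) h2 hp.le
    rw [Real.mul_rpow hE₀0.le (by positivity), ← Real.rpow_mul ht0.le] at h3
    have h4 : mz Z * mz Y ^ k ≤ C₀ ^ (k + 1) * ((1 / e) ^ (k + 1) * t ^ (δ * p / 2)) := by
      have g1 : Real.log t ≤ 1 / e * t ^ e := by
        have := Real.log_le_rpow_div ht0.le he0
        rw [one_div, inv_mul_eq_div]
        exact this
      have g2 : Real.log t ^ (k + 1) ≤ (1 / e) ^ (k + 1) * t ^ (δ * p / 2) := by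
        calc Real.log t ^ (k + 1) ≤ (1 / e * t ^ e) ^ (k + 1) := pow_le_pow_left₀ hΛ0.le g1 (k + 1)
          _ = (1 / e) ^ (k + 1) * t ^ (e * ((k + 1 : ℕ) : ℝ)) := by
              rw [mul_pow, ← Real.rpow_natCast (t ^ e) (k + 1), ← Real.rpow_mul ht0.le]
          _ ≤ (1 / e) ^ (k + 1) * t ^ (δ * p / 2) := by
              apply mul_le_mul_of_nonneg_left _ (by positivity)
              apply Real.rpow_le_rpow_of_exponent_le (by linarith)
              rw [he, div_mul_eq_mul_div, div_le_div_iff₀ (by positivity) (by norm_num)]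
              have : 0 < δ * p := by positivity
              push_cast
              nlinarith
      calc mz Z * mz Y ^ k ≤ (C₀ * Real.log t) * (C₀ * Real.log t) ^ k :=
            mul_le_mul htriv (pow_le_pow_left₀ hmy htrivY k) (pow_nonneg hmy k) (by positivity)
        _ = C₀ ^ (k + 1) * Real.log t ^ (k + 1) := by ring
        _ ≤ _ := mul_le_mul_of_nonneg_left g2 (by positivity)
    have h5 : 0 ≤ K' * Real.log T * ∫ y in (-W)..W, g y := by positivity
    have h6 : mz Z * mz Y ^ k * ‖F t z‖ ^ p ≤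
        C₀ ^ (k + 1) * ((1 / e) ^ (k + 1) * t ^ (δ * p / 2)) * (E₀ ^ p * t ^ (-δ * p)) :=
      mul_le_mul h4 h3 (by positivity) (by positivity)
    have h7 : C₀ ^ (k + 1) * ((1 / e) ^ (k + 1) * t ^ (δ * p / 2)) * (E₀ ^ p * t ^ (-δ * p)) =
        C₀ ^ (k + 1) * E₀ ^ p * (1 / e) ^ (k + 1) * t ^ (-(δ * p / 2)) := by
      have g3 : t ^ (-(δ * p / 2)) = t ^ (δ * p / 2) * t ^ (-δ * p) := by
        rw [← Real.rpow_add ht0]
        congr 1; ring
      rw [g3]; ring
    rw [h7] at h6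
    have h8 : C₀ ^ (k + 1) * E₀ ^ p * (1 / e) ^ (k + 1) * t ^ (-(δ * p / 2)) ≤ K' * t ^ (-(δ * p / 2)) :=
      mul_le_mul_of_nonneg_right hK'0 (by positivity)
    have h9 : 0 ≤ K' * t ^ (-(δ * p / 2)) := by positivity
    calc mz Z * mz Y ^ k * ‖F t z‖ ^ p ≤ 1 * (K' * t ^ (-(δ * p / 2)) + K' * Real.log T * ∫ y in (-W)..W, g y) := by
          rw [one_mul]; linarith
      _ ≤ _ := mul_le_mul_of_nonneg_right hK₁k (by linarith)
  · obtain ⟨V, hVd⟩ : ∃ V : ℝ, V = ‖F t (y₁ * I)‖ := ⟨_, rfl⟩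
    have hlow := hloc t ht2 y₁ (by linarith) hV hbd
    have hbd' := hbd
    rw [← hVd] at hlow hV hdec hbd'
    rw [← hE₀] at hdec
    obtain ⟨X, hX⟩ : ∃ X : ℝ, X = 1 + Real.log t * |y₁| := ⟨_, rfl⟩
    rw [← hX] at hdec
    have hX1 : 1 ≤ X := by
      have : 0 ≤ Real.log t * |y₁| := by positivity
      linarith
    have hX0 : 0 < X := by linarith
    have hPr := LowLog.prod (p := p) n (fun j x => A * (dz (μ j) (t + y₁ + x / Real.log t) / (V * Real.log t ^ μ j))) q
      (fun j => hlow (μ j) (hμ j)) (fun j => by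
        have h1 := dz_cont (μ j)
        exact continuous_const.mul ((h1.comp (by fun_prop)).div_const _)) hq hsum
    rw [← hE] at hPr
    -- comparison with the product
    have hcmp : ∀ b : ℝ, ∏ j, (A * (dz (μ j) (t + y₁ + b / Real.log t) / (V * Real.log t ^ μ j))) ^ q j ≤
        A' ^ p * (V ^ p)⁻¹ * P (t + (y₁ + b / Real.log t)) := by
      intro b
      have e0 : t + y₁ + b / Real.log t = t + (y₁ + b / Real.log t) := by ring
      rw [e0]
      set u : ℝ := t + (y₁ + b / Real.log t) with hu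
      have hA'V : 0 < A' * V⁻¹ := by positivity
      calc ∏ j, (A * (dz (μ j) u / (V * Real.log t ^ μ j))) ^ q j
          ≤ ∏ j, ((A' * V⁻¹) * (dz (μ j) u / Real.log T ^ μ j)) ^ q j := by
            refine Finset.prod_le_prod (fun j _ => ?_) fun j _ => ?_
            · apply Real.rpow_nonneg
              have := dz_nonneg (μ j) u
              positivity
            · apply Real.rpow_le_rpow _ _ (hq j)
              · have := dz_nonneg (μ j) u
                positivity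
              · have h1 : κ ^ N * Real.log T ^ μ j ≤ Real.log t ^ μ j := by
                  calc κ ^ N * Real.log T ^ μ j ≤ κ ^ μ j * Real.log T ^ μ j := by
                        apply mul_le_mul_of_nonneg_right _ (by positivity)
                        exact pow_le_pow_of_le_one hκ.le hκ1 (hμ j)
                    _ = (κ * Real.log T) ^ μ j := (mul_pow _ _ _).symm
                    _ ≤ _ := pow_le_pow_left₀ (by positivity) hlog _
                have h2 := dz_nonneg (μ j) u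
                rw [hA']
                have h3 : dz (μ j) u / (V * Real.log t ^ μ j) ≤ dz (μ j) u / (V * (κ ^ N * Real.log T ^ μ j)) := by
                  gcongr
                calc A * (dz (μ j) u / (V * Real.log t ^ μ j)) ≤ A * (dz (μ j) u / (V * (κ ^ N * Real.log T ^ μ j))) :=
                      mul_le_mul_of_nonneg_left h3 hA0.le
                  _ = A * κ⁻¹ ^ N * V⁻¹ * (dz (μ j) u / Real.log T ^ μ j) := by
                      rw [inv_pow]
                      field_simp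
        _ = (A' * V⁻¹) ^ p * P u := by
            have h2 : ∀ j, ((A' * V⁻¹) * (dz (μ j) u / Real.log T ^ μ j)) ^ q j =
                (A' * V⁻¹) ^ q j * (dz (μ j) u / Real.log T ^ μ j) ^ q j := by
              intro j
              rw [Real.mul_rpow hA'V.le (by
                have := dz_nonneg (μ j) u
                positivity)]
            simp only [h2]
            rw [Finset.prod_mul_distrib, ← Real.rpow_sum_of_pos hA'V, hsum]
        _ = _ := by
            rw [Real.mul_rpow hA'0.le (inv_pos.2 hV).le, Real.inv_rpow hV.le]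
    have hI1 : E ≤ A' ^ p * (V ^ p)⁻¹ * ∫ b in (-1:ℝ)..1, P (t + (y₁ + b / Real.log t)) := by
      rw [← intervalIntegral.integral_const_mul]
      refine hPr.trans ?_
      apply intervalIntegral.integral_mono_on (by norm_num)
      · apply Continuous.intervalIntegrable
        apply continuous_finsetProd
        intro j _
        apply Continuous.rpow_const
        · have h1 := dz_cont (μ j)
          exact continuous_const.mul ((h1.comp (by fun_prop)).div_const _)
        · intro b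
          exact Or.inr (hq j)
      · apply Continuous.intervalIntegrable
        exact continuous_const.mul (hPc.comp (by fun_prop))
      · intro b _
        exact hcmp b
    -- the kernel
    have hI2 : ∫ b in (-1:ℝ)..1, P (t + (y₁ + b / Real.log t)) ≤ 4 * X ^ 2 * (Real.log T * ∫ y in (-W)..W, g y) := by
      have h2 : ∫ b in (-1:ℝ)..1, P (t + (y₁ + b / Real.log t)) ≤
          ∫ b in (-1:ℝ)..1, 4 * X ^ 2 * g (y₁ + b / Real.log t) := by
        apply intervalIntegral.integral_mono_on (by norm_num)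
        · exact (hPc.comp (by fun_prop)).intervalIntegrable _ _
        · exact (continuous_const.mul (hgc.comp (by fun_prop))).intervalIntegrable _ _
        · intro b hb
          set y : ℝ := y₁ + b / Real.log t with hy
          have hb1 : |b| ≤ 1 := abs_le.2 hb
          have h3 : 1 + κ * Real.log T * |y| ≤ 2 * X := by
            have h4 : |y| ≤ |y₁| + |b / Real.log t| := abs_add_le _ _
            have h5 : Real.log t * |b / Real.log t| ≤ 1 := by
              rw [abs_div, abs_of_pos hΛ0]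
              have : Real.log t * (|b| / Real.log t) = |b| := by field_simp
              rw [this]; exact hb1
            have h6 : κ * Real.log T * |y| ≤ Real.log t * |y| := mul_le_mul_of_nonneg_right hlog (abs_nonneg y)
            have h7 : Real.log t * |y| ≤ Real.log t * |y₁| + Real.log t * |b / Real.log t| := by
              rw [← mul_add]
              exact mul_le_mul_of_nonneg_left h4 hΛ0.le
            rw [hX] at hX1 ⊢
            linarith
          have h4 : 0 ≤ 1 + κ * Real.log T * |y| := by positivity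
          have h5 : (1 + κ * Real.log T * |y|) ^ 2 ≤ 4 * X ^ 2 := by
            calc (1 + κ * Real.log T * |y|) ^ 2 ≤ (2 * X) ^ 2 := pow_le_pow_left₀ h4 h3 2
              _ = 4 * X ^ 2 := by ring
          have h6 : 1 ≤ 4 * X ^ 2 * ((1 + κ * Real.log T * |y|) ^ 2)⁻¹ := by
            have h7 : 0 < (1 + κ * Real.log T * |y|) ^ 2 := by positivity
            rw [← div_eq_mul_inv, one_le_div h7]
            exact h5
          show P (t + y) ≤ 4 * X ^ 2 * (((1 + κ * Real.log T * |y|) ^ 2)⁻¹ * P (t + y))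
          rw [← mul_assoc]
          calc P (t + y) = 1 * P (t + y) := (one_mul _).symm
            _ ≤ _ := mul_le_mul_of_nonneg_right h6 (hP0 _)
      refine h2.trans ?_
      rw [intervalIntegral.integral_const_mul]
      apply mul_le_mul_of_nonneg_left _ (by positivity)
      have h3 : ∫ b in (-1:ℝ)..1, g (y₁ + b / Real.log t) = Real.log t * ∫ y in (y₁ + -1 / Real.log t)..(y₁ + 1 / Real.log t), g y := by
        rw [intervalIntegral.integral_comp_add_div (fun y => g y) hΛ0.ne', smul_eq_mul]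
      rw [h3]
      have e : -1 / Real.log t = -(1 / Real.log t) := by ring
      have hΛp : 0 < 1 / Real.log t := by positivity
      have hΛi : 1 / Real.log t ≤ 1 := by rw [div_le_one hΛ0]; exact hΛ1
      have hc1 := abs_le.1 (by linarith : |y₁| ≤ W - 1)
      have h4 : ∫ y in (y₁ + -1 / Real.log t)..(y₁ + 1 / Real.log t), g y ≤ ∫ y in (-W)..W, g y := by
        rw [e]
        apply intervalIntegral.integral_mono_interval (by linarith) (by linarith) (by linarith)
        · exact Filter.Eventually.of_forall hg0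
        · exact hgc.intervalIntegrable _ _
      have h5 : 0 ≤ ∫ y in (y₁ + -1 / Real.log t)..(y₁ + 1 / Real.log t), g y := by
        apply intervalIntegral.integral_nonneg _ fun y _ => hg0 y
        rw [e]; linarith
      exact mul_le_mul hTt h4 h5 hLT.le
    -- conclusion
    have hVp : 0 < V ^ p := by positivity
    have h5 : V ^ p ≤ A' ^ p / E * (4 * X ^ 2 * (Real.log T * ∫ y in (-W)..W, g y)) := by
      have h6 : E ≤ A' ^ p * (V ^ p)⁻¹ * (4 * X ^ 2 * (Real.log T * ∫ y in (-W)..W, g y)) :=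
        hI1.trans (mul_le_mul_of_nonneg_left hI2 (by positivity))
      have h7 : A' ^ p * (V ^ p)⁻¹ * (4 * X ^ 2 * (Real.log T * ∫ y in (-W)..W, g y)) =
          A' ^ p * (4 * X ^ 2 * (Real.log T * ∫ y in (-W)..W, g y)) / V ^ p := by ring
      rw [h7, le_div_iff₀ hVp] at h6
      have h8 : A' ^ p / E * (4 * X ^ 2 * (Real.log T * ∫ y in (-W)..W, g y)) =
          A' ^ p * (4 * X ^ 2 * (Real.log T * ∫ y in (-W)..W, g y)) / E := by ring
      rw [h8, le_div_iff₀ hE0]
      linarith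
    have h6 : X ^ (k + 3) * ‖F t z‖ ^ p ≤ V ^ p * E₀ ^ p := by
      have h7 : X ^ m * ‖F t z‖ ≤ V * E₀ := hdec z hzn
      have h8 := Real.rpow_le_rpow (by positivity) h7 hp.le
      rw [Real.mul_rpow (by positivity) (norm_nonneg _), ← Real.rpow_natCast X m, ← Real.rpow_mul hX0.le,
        Real.mul_rpow hV.le hE₀0.le] at h8
      refine le_trans ?_ h8
      apply mul_le_mul_of_nonneg_right _ (Real.rpow_nonneg (norm_nonneg _) _)
      rw [← Real.rpow_natCast X (k + 3)]
      exact Real.rpow_le_rpow_of_exponent_le hX1 hm2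
    have hn : mz Z ≤ C₁ * X := by
      have hXR : X + R₀ ≤ 2 * R₀ * X := by nlinarith
      by_cases hc : 2 * (3 * (X + R₀)) ≤ Real.log t
      · have h7 := peak_count (by linarith : 0 ≤ K) ht8 hR₀ hVd hV hX hc hbd' Z fun ρ hρ => (hZ ρ hρ).2
        have h8 : 3 * K * (X + R₀) ≤ 3 * K * (2 * R₀ * X) := mul_le_mul_of_nonneg_left hXR (by linarith)
        have h9 : 0 ≤ 12 * C₀ * R₀ * X := by positivity
        have h10 : C₁ * X = 3 * K * (2 * R₀ * X) + 12 * C₀ * R₀ * X := by rw [hC₁]; ring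
        rw [h10]
        unfold mz
        linarith
      · push Not at hc
        have h8 : C₀ * Real.log t ≤ C₀ * (6 * (2 * R₀ * X)) :=
          mul_le_mul_of_nonneg_left (by linarith) hC₀.le
        have hK0 : 0 < K := by linarith
        have h9 : 0 ≤ 6 * K * R₀ * X := by positivity
        have h10 : C₁ * X = 6 * K * R₀ * X + C₀ * (6 * (2 * R₀ * X)) := by rw [hC₁]; ring
        rw [h10]
        linarith
    have hn2 : mz Y ≤ C₂ * (K₁ * X) := by
      have hXR : X + K₁ ≤ 2 * (K₁ * X) := by nlinarith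
      have hK0 : 0 < K := by linarith
      have hKX : 0 < K₁ * X := by positivity
      by_cases hc : 2 * (3 * (X + K₁)) ≤ Real.log t
      · have h7 := peak_count (by linarith : 0 ≤ K) ht8 hK₁ hVd hV hX hc hbd' Y hYK
        have h8 : 3 * K * (X + K₁) ≤ 3 * K * (2 * (K₁ * X)) := mul_le_mul_of_nonneg_left hXR (by linarith)
        have h9 : 0 ≤ 12 * C₀ * (K₁ * X) := by positivity
        have h10 : C₂ * (K₁ * X) = 3 * K * (2 * (K₁ * X)) + 12 * C₀ * (K₁ * X) := by rw [hC₂]; ring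
        rw [h10]
        unfold mz
        linarith
      · push Not at hc
        have h8 : C₀ * Real.log t ≤ C₀ * (6 * (2 * (K₁ * X))) :=
          mul_le_mul_of_nonneg_left (by linarith) hC₀.le
        have h9 : 0 ≤ 6 * K * (K₁ * X) := by positivity
        have h10 : C₂ * (K₁ * X) = 6 * K * (K₁ * X) + C₀ * (6 * (2 * (K₁ * X))) := by rw [hC₂]; ring
        rw [h10]
        linarith
    have hnk : mz Z * mz Y ^ k ≤ C₁ * X * (C₂ ^ k * (K₁ ^ k * X ^ k)) := by
      have e1 : C₂ ^ k * (K₁ ^ k * X ^ k) = (C₂ * (K₁ * X)) ^ k := by rw [mul_pow, mul_pow]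
      rw [e1]
      exact mul_le_mul hn (pow_le_pow_left₀ hmy hn2 k) (pow_nonneg hmy k) (by positivity)
    have h7 : mz Z * mz Y ^ k * ‖F t z‖ ^ p ≤
        K₁ ^ k * (4 * A' ^ p / E * E₀ ^ p * (C₁ * C₂ ^ k) * (Real.log T * ∫ y in (-W)..W, g y)) := by
      have hFp : 0 ≤ ‖F t z‖ ^ p := Real.rpow_nonneg (norm_nonneg _) _
      have h8 : X ^ (k + 3) * (mz Z * mz Y ^ k * ‖F t z‖ ^ p) ≤
          X ^ (k + 3) * (K₁ ^ k * (4 * A' ^ p / E * E₀ ^ p * (C₁ * C₂ ^ k) * (Real.log T * ∫ y in (-W)..W, g y))) := by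
        calc X ^ (k + 3) * (mz Z * mz Y ^ k * ‖F t z‖ ^ p) ≤
              X ^ (k + 3) * (C₁ * X * (C₂ ^ k * (K₁ ^ k * X ^ k)) * ‖F t z‖ ^ p) :=
              mul_le_mul_of_nonneg_left (mul_le_mul_of_nonneg_right hnk hFp) (by positivity)
          _ = C₁ * X * (C₂ ^ k * (K₁ ^ k * X ^ k)) * (X ^ (k + 3) * ‖F t z‖ ^ p) := by ring
          _ ≤ C₁ * X * (C₂ ^ k * (K₁ ^ k * X ^ k)) * (V ^ p * E₀ ^ p) := mul_le_mul_of_nonneg_left h6 (by positivity)
          _ ≤ C₁ * X * (C₂ ^ k * (K₁ ^ k * X ^ k)) *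
                (A' ^ p / E * (4 * X ^ 2 * (Real.log T * ∫ y in (-W)..W, g y)) * E₀ ^ p) := by
              apply mul_le_mul_of_nonneg_left _ (by positivity)
              exact mul_le_mul_of_nonneg_right h5 (by positivity)
          _ = _ := by ring
      exact le_of_mul_le_mul_left h8 (by positivity)
    have h8 : 4 * A' ^ p / E * E₀ ^ p * (C₁ * C₂ ^ k) * (Real.log T * ∫ y in (-W)..W, g y) ≤
        K' * t ^ (-(δ * p / 2)) + K' * Real.log T * ∫ y in (-W)..W, g y := by
      have h9 : 0 ≤ K' * t ^ (-(δ * p / 2)) := by positivity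
      calc 4 * A' ^ p / E * E₀ ^ p * (C₁ * C₂ ^ k) * (Real.log T * ∫ y in (-W)..W, g y)
          ≤ K' * (Real.log T * ∫ y in (-W)..W, g y) := mul_le_mul_of_nonneg_right hK'2 (by positivity)
        _ = K' * Real.log T * ∫ y in (-W)..W, g y := by ring
        _ ≤ _ := by linarith
    exact h7.trans (mul_le_mul_of_nonneg_left h8 (by positivity))

end Pool.Agent.Helper156_SP
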