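import Mathlib
import Pool.Agent.Helper156_SP.Dis5

set_option autoImplicit false

/-!
# Sums over the zeros near the critical line, with the number of zeros at any larger scale
-/

open Complex Set MeasureTheory Filter Topology

namespace Pool.Agent.Helper156_SP

/-- a family of nontrivial zeros with ordinates in `(0, T]` -/
def AllZ (T : ℝ) (U : Finset ℂ) : Prop :=
  ∀ s ∈ U, riemannZeta s = 0 ∧ 0 < s.re ∧ s.re < 1 ∧ 0 < s.im ∧ s.im ≤ T

open Pool.Agent.TH804.MS in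
/-- **sums over the zeros near the critical line**, uniformly in the scale of the clusters -/
theorem disc_sum2 {p A : ℝ} (k : ℕ) (hp : 0 < p) (hA : 0 ≤ A) :
    ∃ C W T₀ : ℝ, 0 < C ∧ 0 < W ∧ ∀ T : ℝ, T₀ ≤ T → ∀ Z : Finset ℂ, NearZ A T Z → ∀ U : Finset ℂ, AllZ T U →
      ∀ σ : ℂ → ℂ, (∀ ρ ∈ Z, ‖σ ρ‖ ≤ A / Real.log T) → ∀ K₀ : ℝ, 1 ≤ K₀ → K₀ ≤ Real.log T / 2 →
      ∑ ρ ∈ Z, (analyticOrderNatAt riemannZeta ρ : ℝ) * mz (U.filter fun s => ‖s - ρ‖ ≤ K₀ / Real.log T) ^ k *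
        ‖riemannZeta (ρ + σ ρ)‖ ^ p ≤ C * (K₀ ^ k * (Real.log T * ∫ t in (0:ℝ)..(T + W), az t ^ p)) := by
  classical
  obtain ⟨R₀, hR₀d⟩ : ∃ R₀ : ℝ, R₀ = 2 * A + 1 := ⟨_, rfl⟩
  have hR₀ : 1 ≤ R₀ := by rw [hR₀d]; linarith
  have hk0 : (0:ℝ) ≤ k := Nat.cast_nonneg k
  obtain ⟨κ, hκ⟩ : ∃ κ : ℝ, κ = 1 / (2 * (2 * k + 2 + p)) := ⟨_, rfl⟩
  have hκ0 : 0 < κ := by rw [hκ]; positivity
  have hκ1 : κ ≤ 1 := by
    rw [hκ, div_le_one (by positivity)]; linarith
  have hκp : κ * (2 * k + 2 + p) = 1 / 2 := by rw [hκ]; field_simp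
  obtain ⟨W, δ, K, T₁, hW, hδ, hK, hT₁, hT₁W, hz⟩ := zeta_cnt2 (p := p) 0 k hR₀ hp hκ0 hκ1
  have hK0 : 0 < K := by linarith
  have hpi := Real.pi_pos
  obtain ⟨Cz, hCz, hlc⟩ := low_count
  obtain ⟨η, hη⟩ : ∃ η : ℝ, η = min (κ * δ / 2) (1 / 4) := ⟨_, rfl⟩
  have hη0 : 0 < η := by rw [hη]; exact lt_min (by positivity) (by norm_num)
  have hη1 : η ≤ κ * δ / 2 := by rw [hη]; exact min_le_left _ _
  have hη2 : η ≤ 1 / 4 := by rw [hη]; exact min_le_right _ _
  have hev2 : ∀ᶠ T : ℝ in atTop, max T₁ 1 ≤ T ^ κ := (tendsto_rpow_atTop hκ0).eventually_ge_atTop _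
  have hev3 : ∀ᶠ T : ℝ in atTop, max 16 (16 * A) ≤ Real.log T := Real.tendsto_log_atTop.eventually_ge_atTop _
  obtain ⟨T₀, hT₀⟩ := eventually_atTop.1 ((mom_low hp hη0 1).and (hev2.and (hev3.and (eventually_ge_atTop (2:ℝ)))))
  obtain ⟨C₃, hC₃⟩ : ∃ C₃ : ℝ, C₃ = (9 * Cz) ^ (k + 1) * 48 ^ p := ⟨_, rfl⟩
  obtain ⟨C₄, hC₄⟩ : ∃ C₄ : ℝ, C₄ = 2 ^ p * ((A + 2) ^ k * (K + K * (Real.pi / κ))) := ⟨_, rfl⟩
  have hC₃0 : 0 < C₃ := by rw [hC₃]; positivity
  have hC₄0 : 0 < C₄ := by rw [hC₄]; positivity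
  refine ⟨C₃ + C₄, W, T₀, by positivity, by linarith, fun T hT Z hZ U hU σ hσ K₀ hK₀ hK₀L => ?_⟩
  obtain ⟨hm, h2, h3, hT2⟩ := hT₀ T hT
  have hT0 : 0 < T := by linarith
  obtain ⟨L, hL⟩ : ∃ L : ℝ, L = Real.log T := ⟨_, rfl⟩
  rw [← hL] at h3 hσ hK₀L ⊢
  have hL16 : 16 ≤ L := (le_max_left _ _).trans h3
  have hL1 : 1 ≤ L := by linarith
  have hLA : 16 * A ≤ L := (le_max_right _ _).trans h3
  have hL0 : 0 < L := by linarith
  have hAL : A / L ≤ 1 / 16 := by rw [div_le_iff₀ hL0]; linarith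
  have hAL0 : 0 ≤ A / L := by positivity
  have hL1' : 1 / L ≤ 1 / 16 := by rw [div_le_div_iff₀ hL0 (by norm_num)]; linarith
  have hKL : K₀ / L ≤ 1 / 2 := by rw [div_le_iff₀ hL0]; linarith
  have hKk : 1 ≤ K₀ ^ k := one_le_pow₀ hK₀
  have hL0' : 0 < 1 / L := by positivity
  obtain ⟨a, ha⟩ : ∃ a : ℝ, a = T ^ κ := ⟨_, rfl⟩
  rw [← ha] at h2
  have ha1 : 1 ≤ a := (le_max_right _ _).trans h2
  have haT1 : T₁ ≤ a := (le_max_left _ _).trans h2
  have haT : a ≤ T := by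
    calc a ≤ T ^ (1:ℝ) := by rw [ha]; exact Real.rpow_le_rpow_of_exponent_le (by linarith) hκ1
      _ = T := Real.rpow_one T
  have ha0 : 0 < a := by linarith
  obtain ⟨l, hl⟩ : ∃ l : ℝ, l = κ * Real.log T := ⟨_, rfl⟩
  have hl0 : 0 < l := by rw [hl, ← hL]; positivity
  have hla : Real.log a = l := by rw [ha, hl, Real.log_rpow hT0]
  have hGc : Continuous fun t => az t ^ p := azp_cont hp
  have hG0 : ∀ t, 0 ≤ az t ^ p := fun t => Real.rpow_nonneg (az_nonneg t) _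
  obtain ⟨M, hM⟩ : ∃ M : ℝ, M = ∫ t in (0:ℝ)..(T + W), az t ^ p := ⟨_, rfl⟩
  rw [← hM]
  have hmM : T ^ (1 - η) ≤ M := by
    rw [one_mul] at hm
    rw [hM]
    exact hm.trans (az_mono hp (by linarith))
  have hM0 : 0 < M := lt_of_lt_of_le (by positivity) hmM
  obtain ⟨c, hc⟩ : ∃ c : ℂ → ℝ, c = fun ρ => (analyticOrderNatAt riemannZeta ρ : ℝ) *
    mz (U.filter fun s => ‖s - ρ‖ ≤ K₀ / L) ^ k * ‖riemannZeta (ρ + σ ρ)‖ ^ p := ⟨_, rfl⟩
  have hmu : ∀ ρ : ℂ, 0 ≤ (analyticOrderNatAt riemannZeta ρ : ℝ) := fun ρ => Nat.cast_nonneg _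
  have hsumc : ∑ ρ ∈ Z, (analyticOrderNatAt riemannZeta ρ : ℝ) *
      mz (U.filter fun s => ‖s - ρ‖ ≤ K₀ / L) ^ k * ‖riemannZeta (ρ + σ ρ)‖ ^ p = ∑ ρ ∈ Z, c ρ := by rw [hc]
  rw [hsumc, ← Finset.sum_filter_add_sum_filter_not Z (fun ρ => a + 1 / L ≤ ρ.im)]
  have hre : ∀ ρ ∈ Z, 0 < ρ.re ∧ ρ.re < 1 := by
    intro ρ hρ
    have h4 := abs_le.1 (hZ ρ hρ).2.1
    rw [← hL] at h4
    exact ⟨by linarith [h4.1], by linarith [h4.2]⟩
  -- the zeros of small height
  have hpart2 : ∑ ρ ∈ Z.filter (fun ρ => ¬ (a + 1 / L ≤ ρ.im)), c ρ ≤ C₃ * M := by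
    have g1 : ∀ ρ ∈ Z.filter (fun ρ => ¬ (a + 1 / L ≤ ρ.im)), c ρ ≤
        (analyticOrderNatAt riemannZeta ρ : ℝ) * ((Cz * (3 * a) ^ 2) ^ k * (48 * a) ^ p) := by
      intro ρ hρ
      rw [Finset.mem_filter] at hρ
      obtain ⟨hρZ, hρ2⟩ := hρ
      push Not at hρ2
      obtain ⟨z1, z2, z3, z4⟩ := hZ ρ hρZ
      rw [← hL] at z2
      have hρim : ρ.im ≤ 2 * a := by linarith
      have g2 : mz (U.filter fun s => ‖s - ρ‖ ≤ K₀ / L) ≤ Cz * (3 * a) ^ 2 := by
        refine hlc (3 * a) (by linarith) _ fun s hs => ?_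
        rw [Finset.mem_filter] at hs
        obtain ⟨hsU, hs2⟩ := hs
        have h5 := (Complex.abs_im_le_norm (s - ρ)).trans hs2
        rw [Complex.sub_im] at h5
        have h6 := (abs_le.1 h5).2
        obtain ⟨u1, u2, u3, u4, -⟩ := hU s hsU
        exact ⟨u1, u2, u3, u4, by linarith⟩
      have g3 : ‖riemannZeta (ρ + σ ρ)‖ ≤ 48 * a := by
        have h5 := hσ ρ hρZ
        have h6 := (Complex.abs_re_le_norm (σ ρ)).trans h5
        have h7 := (Complex.abs_im_le_norm (σ ρ)).trans h5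
        have h8 := abs_le.1 h6
        have h9 := abs_le.1 h7
        have h10 := abs_le.1 z2
        have h11 := Pool.Agent.W184.zn_le' (σ := (ρ + σ ρ).re) (t := (ρ + σ ρ).im)
          (by rw [Complex.add_re]; linarith [h8.1, h10.1]) (by rw [Complex.add_re]; linarith [h8.2, h10.2])
        unfold Pool.Agent.W184.zn at h11
        rw [Complex.re_add_im] at h11
        refine h11.trans ?_
        have h12 : |(ρ + σ ρ).im| ≤ 3 * a := by
          rw [Complex.add_im, abs_le]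
          constructor
          · linarith [h9.1]
          · linarith [h9.2]
        linarith
      rw [hc]
      simp only
      rw [mul_assoc]
      apply mul_le_mul_of_nonneg_left _ (hmu ρ)
      apply mul_le_mul
      · exact pow_le_pow_left₀ (mz_nonneg _) g2 k
      · exact Real.rpow_le_rpow (norm_nonneg _) g3 hp.le
      · exact Real.rpow_nonneg (norm_nonneg _) _
      · positivity
    have g4 : ∑ ρ ∈ Z.filter (fun ρ => ¬ (a + 1 / L ≤ ρ.im)), (analyticOrderNatAt riemannZeta ρ : ℝ) ≤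
        Cz * (3 * a) ^ 2 := by
      refine hlc (3 * a) (by linarith) _ fun s hs => ?_
      rw [Finset.mem_filter] at hs
      obtain ⟨hsZ, hs2⟩ := hs
      push Not at hs2
      exact ⟨(hZ s hsZ).1, (hre s hsZ).1, (hre s hsZ).2, (hZ s hsZ).2.2.1, by linarith⟩
    refine (Finset.sum_le_sum g1).trans ?_
    rw [← Finset.sum_mul]
    calc (∑ ρ ∈ Z.filter (fun ρ => ¬ (a + 1 / L ≤ ρ.im)), (analyticOrderNatAt riemannZeta ρ : ℝ)) *
          ((Cz * (3 * a) ^ 2) ^ k * (48 * a) ^ p)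
        ≤ Cz * (3 * a) ^ 2 * ((Cz * (3 * a) ^ 2) ^ k * (48 * a) ^ p) :=
          mul_le_mul_of_nonneg_right g4 (by positivity)
      _ = C₃ * T ^ (1 / 2 : ℝ) := by
          have e1 : Cz * (3 * a) ^ 2 * ((Cz * (3 * a) ^ 2) ^ k * (48 * a) ^ p) =
              (Cz * (3 * a) ^ 2) ^ (k + 1) * (48 * a) ^ p := by ring
          have e2 : (Cz * (3 * a) ^ 2) ^ (k + 1) = (9 * Cz) ^ (k + 1) * a ^ (2 * (k + 1)) := by
            rw [pow_mul, ← mul_pow]
            congr 1; ring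
          have e3 : (T:ℝ) ^ (1 / 2 : ℝ) = a ^ (2 * (k + 1)) * a ^ p := by
            rw [← Real.rpow_natCast a, ← Real.rpow_add ha0, ha, ← Real.rpow_mul hT0.le, ← hκp]
            congr 2
            push_cast; ring
          rw [e1, e2, Real.mul_rpow (by norm_num) ha0.le, e3, hC₃]
          ring
      _ ≤ C₃ * M := by
          apply mul_le_mul_of_nonneg_left _ hC₃0.le
          refine le_trans ?_ hmM
          exact Real.rpow_le_rpow_of_exponent_le (by linarith) (by linarith)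
  -- the zeros of large height
  have hpart1 : ∑ ρ ∈ Z.filter (fun ρ => a + 1 / L ≤ ρ.im), c ρ ≤ C₄ * (K₀ ^ k * (L * M)) := by
    obtain ⟨K₁, hK₁⟩ : ∃ K₁ : ℝ, K₁ = K₀ + A + 1 := ⟨_, rfl⟩
    have hK₁1 : 1 ≤ K₁ := by rw [hK₁]; linarith
    obtain ⟨H, hH⟩ : ∃ H : ℝ → ℝ, H = fun t => 2 ^ p * K₁ ^ k * (K * a ^ (-δ) + K * L *
      ∫ y in (-W)..W, ((1 + l * |y|) ^ 2)⁻¹ * az (t + y) ^ p) := ⟨_, rfl⟩
    have hkc : Continuous fun t : ℝ => ∫ y in (-W)..W, ((1 + l * |y|) ^ 2)⁻¹ * az (t + y) ^ p := by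
      have : (fun t : ℝ => ∫ y in (-W)..W, ((1 + l * |y|) ^ 2)⁻¹ * az (t + y) ^ p) =
          fun t : ℝ => ∫ y in (-W)..W, (Function.uncurry fun t y : ℝ => ((1 + l * |y|) ^ 2)⁻¹ * az (t + y) ^ p) (t, y) := rfl
      rw [this]
      apply intervalIntegral.continuous_parametric_intervalIntegral_of_continuous'
      apply Continuous.mul
      · have hk : Continuous fun y : ℝ => ((1 + l * |y|) ^ 2)⁻¹ := by
          apply Continuous.inv₀ (by fun_prop)
          intro y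
          positivity
        exact hk.comp continuous_snd
      · exact hGc.comp (continuous_fst.add continuous_snd)
    have hHc : Continuous H := by
      rw [hH]
      exact continuous_const.mul (continuous_const.add (continuous_const.mul hkc))
    have hpt : ∀ t ∈ Icc a T, ∑ ρ ∈ (Z.filter (fun ρ => a + 1 / L ≤ ρ.im)).filter
        (fun ρ => ρ.im - 1 / L < t ∧ t ≤ ρ.im), c ρ ≤ H t := by
      intro t ht
      have ht8 : 8 ≤ t := by linarith [ht.1]
      have ht0 : 0 < t := by linarith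
      have hlt : l ≤ Real.log t := by rw [← hla]; exact Real.log_le_log ha0 ht.1
      have hlt0 : 0 < Real.log t := by linarith
      have hlogle : Real.log t ≤ L := by rw [hL]; exact Real.log_le_log ht0 ht.2
      have hRL : R₀ / L ≤ R₀ / Real.log t := div_le_div_of_nonneg_left (by linarith) hlt0 hlogle
      have hRLs : R₀ / L = A / L + A / L + 1 / L := by rw [hR₀d]; ring
      have hRL9 : R₀ / L ≤ 4 := by rw [hRLs]; linarith
      rw [hl] at hlt
      obtain ⟨Y, hY⟩ : ∃ Y : Finset ℂ, Y = U.filter fun s => ‖s - (1 / 2 + t * I)‖ ≤ K₁ / L := ⟨_, rfl⟩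
      have hKLs : K₁ / L = K₀ / L + (A / L + 1 / L) := by rw [hK₁]; ring
      have hKLt : K₁ / L ≤ K₁ / Real.log t := div_le_div_of_nonneg_left (by linarith) hlt0 hlogle
      have hYz : ∀ s ∈ Y, riemannZeta s = 0 ∧ 0 < s.re ∧ s.re < 1 ∧ ‖s - (1 / 2 + t * I)‖ ≤ 3 / 4 := by
        intro s hs
        rw [hY, Finset.mem_filter] at hs
        obtain ⟨u1, u2, u3, -⟩ := hU s hs.1
        exact ⟨u1, u2, u3, hs.2.trans (by rw [hKLs]; linarith)⟩
      have hYK : ∀ s ∈ Y, ‖s - (1 / 2 + t * I)‖ ≤ K₁ / Real.log t := by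
        intro s hs
        rw [hY, Finset.mem_filter] at hs
        exact hs.2.trans hKLt
      obtain ⟨Zt, hZt⟩ : ∃ Zt : Finset ℂ, Zt = (Z.filter (fun ρ => a + 1 / L ≤ ρ.im)).filter
        (fun ρ => ρ.im - 1 / L < t ∧ t ≤ ρ.im) := ⟨_, rfl⟩
      rw [← hZt]
      have hnear : ∀ ρ ∈ Zt, ρ ∈ Z ∧ ‖ρ - (1 / 2 + t * I)‖ ≤ A / L + 1 / L := by
        intro ρ hρ
        rw [hZt, Finset.mem_filter, Finset.mem_filter] at hρ
        obtain ⟨⟨hρZ, -⟩, h5, h6⟩ := hρ
        refine ⟨hρZ, ?_⟩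
        have h7 := Complex.norm_le_abs_re_add_abs_im (ρ - (1 / 2 + t * I))
        have e3 : (ρ - (1 / 2 + t * I)).re = ρ.re - 1 / 2 := by simp
        have e4 : (ρ - (1 / 2 + t * I)).im = ρ.im - t := by simp
        rw [e3, e4] at h7
        have h8 := (hZ ρ hρZ).2.1
        rw [← hL] at h8
        have h9 : |ρ.im - t| ≤ 1 / L := by rw [abs_le]; constructor <;> linarith
        linarith
      have hZtz : ∀ ρ ∈ Zt, riemannZeta ρ = 0 ∧ ‖ρ - (1 / 2 + t * I)‖ ≤ R₀ / Real.log t := by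
        intro ρ hρ
        obtain ⟨h5, h6⟩ := hnear ρ hρ
        refine ⟨(hZ ρ h5).1, le_trans ?_ hRL⟩
        rw [hRLs]; linarith
      have hHt : ∀ z : ℂ, ‖z‖ ≤ R₀ / L → mz Zt * mz Y ^ k * (2 ^ p * ‖F t z‖ ^ p) ≤ H t := by
        intro z hzn
        have h5 := hz T t (haT1.trans ht.1) ht.2 hlt 1 (fun _ => 0) (fun _ => p) (fun _ => le_rfl) (fun _ => hp.le)
          (by simp) z (hzn.trans hRL) Zt hZtz Y K₁ hK₁1 hYz hYK
        have h4 : ∫ y in (-W)..W, ((1 + κ * Real.log T * |y|) ^ 2)⁻¹ *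
            ∏ j : Fin 1, (dz ((fun _ => 0) j) (t + y) / Real.log T ^ ((fun _ => 0) j)) ^ ((fun _ => p) j) =
            ∫ y in (-W)..W, ((1 + l * |y|) ^ 2)⁻¹ * az (t + y) ^ p := by
          refine intervalIntegral.integral_congr fun y _ => ?_
          simp only [Finset.univ_unique, Finset.prod_const, Finset.card_singleton, pow_one, pow_zero, div_one]
          rw [hl]
          rfl
        rw [h4, ← hL] at h5
        have h6 : K * t ^ (-δ) ≤ K * a ^ (-δ) :=
          mul_le_mul_of_nonneg_left (Real.rpow_le_rpow_of_nonpos ha0 ht.1 (by linarith)) hK0.le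
        rw [hH]
        calc mz Zt * mz Y ^ k * (2 ^ p * ‖F t z‖ ^ p) = 2 ^ p * (mz Zt * mz Y ^ k * ‖F t z‖ ^ p) := by ring
          _ ≤ 2 ^ p * (K₁ ^ k * (K * a ^ (-δ) + K * L * ∫ y in (-W)..W, ((1 + l * |y|) ^ 2)⁻¹ * az (t + y) ^ p)) := by
              apply mul_le_mul_of_nonneg_left _ (by positivity)
              refine h5.trans (mul_le_mul_of_nonneg_left ?_ (by positivity))
              linarith
          _ = _ := by ring
      have hH0 : 0 ≤ H t := le_trans (by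
        have := mz_nonneg Y
        have := mz_nonneg Zt
        positivity) (hHt 0 (by rw [norm_zero]; positivity))
      have hcle : ∀ ρ ∈ Zt, mz Zt * c ρ ≤ (analyticOrderNatAt riemannZeta ρ : ℝ) * H t := by
        intro ρ hρ
        obtain ⟨hρZ, hρn⟩ := hnear ρ hρ
        have hsub : (U.filter fun s => ‖s - ρ‖ ≤ K₀ / L) ⊆ Y := by
          intro s hs
          rw [Finset.mem_filter] at hs
          rw [hY, Finset.mem_filter]
          refine ⟨hs.1, ?_⟩
          have e : s - (1 / 2 + t * I) = (s - ρ) + (ρ - (1 / 2 + t * I)) := by ring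
          rw [e, hKLs]
          refine (norm_add_le _ _).trans ?_
          linarith [hs.2]
        have h5 := pow_le_pow_left₀ (mz_nonneg _) (mz_mono hsub) k
        obtain ⟨z, hzd⟩ : ∃ z : ℂ, z = (ρ - (1 / 2 + t * I)) + σ ρ := ⟨_, rfl⟩
        have hzn : ‖z‖ ≤ R₀ / L := by
          rw [hzd, hRLs]
          refine (norm_add_le _ _).trans ?_
          have := hσ ρ hρZ
          linarith
        have h6 := le_F ht8 (z := z) (by
          refine (Complex.abs_im_le_norm z).trans (hzn.trans ?_)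
          linarith)
        have e2 : (1 / 2 + (t : ℂ) * I + z) = ρ + σ ρ := by rw [hzd]; ring
        rw [e2] at h6
        have h7 : ‖riemannZeta (ρ + σ ρ)‖ ^ p ≤ 2 ^ p * ‖F t z‖ ^ p := by
          rw [← Real.mul_rpow (by norm_num) (norm_nonneg _)]
          exact Real.rpow_le_rpow (norm_nonneg _) h6 hp.le
        have h8 := hHt z hzn
        rw [hc]
        simp only
        have hmY := mz_nonneg Zt
        calc mz Zt * ((analyticOrderNatAt riemannZeta ρ : ℝ) * mz (U.filter fun s => ‖s - ρ‖ ≤ K₀ / L) ^ k *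
              ‖riemannZeta (ρ + σ ρ)‖ ^ p)
            ≤ mz Zt * ((analyticOrderNatAt riemannZeta ρ : ℝ) * mz Y ^ k * (2 ^ p * ‖F t z‖ ^ p)) := by
              apply mul_le_mul_of_nonneg_left _ hmY
              apply mul_le_mul (mul_le_mul_of_nonneg_left h5 (hmu ρ)) h7 (Real.rpow_nonneg (norm_nonneg _) _)
              have := hmu ρ
              have := mz_nonneg Y
              positivity
          _ = (analyticOrderNatAt riemannZeta ρ : ℝ) * (mz Zt * mz Y ^ k * (2 ^ p * ‖F t z‖ ^ p)) := by ring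
          _ ≤ _ := mul_le_mul_of_nonneg_left h8 (hmu ρ)
      have hall : mz Zt * ∑ ρ ∈ Zt, c ρ ≤ mz Zt * H t := by
        rw [Finset.mul_sum]
        refine (Finset.sum_le_sum hcle).trans ?_
        rw [← Finset.sum_mul]
        exact le_refl _
      rcases (mz_nonneg Zt).eq_or_lt with h0 | h0
      · have h5 : ∑ ρ ∈ Zt, c ρ = 0 := by
          refine Finset.sum_eq_zero fun ρ hρ => ?_
          have h6 : (analyticOrderNatAt riemannZeta ρ : ℝ) ≤ mz Zt :=
            Finset.single_le_sum (f := fun ρ => (analyticOrderNatAt riemannZeta ρ : ℝ)) (fun _ _ => Nat.cast_nonneg _) hρ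
          rw [← h0] at h6
          have h7 : (analyticOrderNatAt riemannZeta ρ : ℝ) = 0 := le_antisymm h6 (hmu ρ)
          rw [hc]
          simp only
          rw [h7, zero_mul, zero_mul]
        rw [h5]
        exact hH0
      · exact le_of_mul_le_mul_left hall h0
    have hst := step_sum haT hL0'.le (Z.filter (fun ρ => a + 1 / L ≤ ρ.im)) c (fun ρ hρ => by
      rw [Finset.mem_filter] at hρ
      exact ⟨by linarith [hρ.2], (hZ ρ hρ.1).2.2.2⟩) hHc hpt
    have hint : ∫ t in a..T, H t ≤ 2 ^ p * K₁ ^ k * (K * a ^ (-δ) * T + K * L * (Real.pi / l * M)) := by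
      rw [hH]
      rw [intervalIntegral.integral_const_mul]
      apply mul_le_mul_of_nonneg_left _ (by positivity)
      have hkI : IntervalIntegrable (fun t : ℝ => K * L *
          ∫ y in (-W)..W, ((1 + l * |y|) ^ 2)⁻¹ * az (t + y) ^ p) volume a T :=
        (continuous_const.mul hkc).intervalIntegrable _ _
      rw [intervalIntegral.integral_add (by simp) hkI]
      apply add_le_add
      · rw [intervalIntegral.integral_const, smul_eq_mul]
        have h4 : 0 ≤ K * a ^ (-δ) := by positivity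
        have h5 : T - a ≤ T := by linarith
        calc (T - a) * (K * a ^ (-δ)) ≤ T * (K * a ^ (-δ)) := mul_le_mul_of_nonneg_right h5 h4
          _ = _ := by ring
      · rw [intervalIntegral.integral_const_mul]
        apply mul_le_mul_of_nonneg_left _ (by positivity)
        rw [hM]
        exact avg_ker hl0 (by linarith) (by linarith) haT hGc hG0
    have hXT : K * a ^ (-δ) * T ≤ K * M := by
      rw [mul_assoc]
      apply mul_le_mul_of_nonneg_left _ hK0.le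
      refine le_trans ?_ hmM
      rw [ha, ← Real.rpow_mul hT0.le, ← Real.rpow_add_one hT0.ne']
      apply Real.rpow_le_rpow_of_exponent_le (by linarith)
      have : 0 < κ * δ := by positivity
      nlinarith
    have hKM : K * L * (Real.pi / l * M) = K * (Real.pi / κ) * M := by
      rw [hl, ← hL]
      field_simp
    rw [hKM] at hint
    have hK₁k : K₁ ^ k ≤ (A + 2) ^ k * K₀ ^ k := by
      rw [← mul_pow]
      apply pow_le_pow_left₀ (by linarith)
      rw [hK₁]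
      nlinarith
    have h9 : (1 / L) * ∑ ρ ∈ Z.filter (fun ρ => a + 1 / L ≤ ρ.im), c ρ ≤ C₄ * (K₀ ^ k * M) := by
      refine hst.trans (hint.trans ?_)
      have e9 : C₄ * (K₀ ^ k * M) = 2 ^ p * ((A + 2) ^ k * K₀ ^ k) * (K * M + K * (Real.pi / κ) * M) := by
        rw [hC₄]; ring
      rw [e9]
      have g9 : 0 ≤ K * M + K * (Real.pi / κ) * M := by positivity
      calc 2 ^ p * K₁ ^ k * (K * a ^ (-δ) * T + K * (Real.pi / κ) * M)
          ≤ 2 ^ p * K₁ ^ k * (K * M + K * (Real.pi / κ) * M) := by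
            apply mul_le_mul_of_nonneg_left _ (by positivity)
            linarith
        _ ≤ _ := mul_le_mul_of_nonneg_right (mul_le_mul_of_nonneg_left hK₁k (by positivity)) g9
    obtain ⟨S, hS⟩ : ∃ S : ℝ, S = ∑ ρ ∈ Z.filter (fun ρ => a + 1 / L ≤ ρ.im), c ρ := ⟨_, rfl⟩
    rw [← hS] at h9 ⊢
    have h11 := mul_le_mul_of_nonneg_left h9 hL0.le
    have e11 : L * (1 / L * S) = S := by field_simp
    rw [e11] at h11
    calc S ≤ L * (C₄ * (K₀ ^ k * M)) := h11
      _ = _ := by ring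
  have hML : M ≤ K₀ ^ k * (L * M) := by
    have h12 : M ≤ L * M := le_mul_of_one_le_left hM0.le hL1
    exact h12.trans (le_mul_of_one_le_left (by positivity) hKk)
  have h10 : C₃ * M ≤ C₃ * (K₀ ^ k * (L * M)) := mul_le_mul_of_nonneg_left hML hC₃0.le
  calc _ ≤ C₄ * (K₀ ^ k * (L * M)) + C₃ * M := add_le_add hpart1 hpart2
    _ ≤ (C₃ + C₄) * (K₀ ^ k * (L * M)) := by
        rw [add_mul]
        linarith

end Pool.Agent.Helper156_SP
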