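import Mathlib
import Pool.Agent.Helper156_SP.Dis6

set_option autoImplicit false

/-!
# Sums of the derivatives of zeta over the zeros near the critical line, uniformly in the scale of the clusters
-/

open Complex Set MeasureTheory Filter Topology

namespace Pool.Agent.Helper156_SP

theorem disc_der2 {p A : ℝ} (N k : ℕ) (hp : 0 < p) (hA : 0 ≤ A) :
    ∃ C W T₀ : ℝ, 0 < C ∧ 0 < W ∧ ∀ T : ℝ, T₀ ≤ T → ∀ Z : Finset ℂ, NearZ A T Z → ∀ U : Finset ℂ, AllZ T U →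
      ∀ σ : ℂ → ℂ, (∀ ρ ∈ Z, ‖σ ρ‖ ≤ A / Real.log T) → ∀ K₀ : ℝ, 1 ≤ K₀ → K₀ ≤ Real.log T / 2 → ∀ m : ℕ, m ≤ N →
      ∑ ρ ∈ Z, (analyticOrderNatAt riemannZeta ρ : ℝ) * mz (U.filter fun s => ‖s - ρ‖ ≤ K₀ / Real.log T) ^ k *
        ‖iteratedDeriv m riemannZeta (ρ + σ ρ)‖ ^ p ≤
          C * (K₀ ^ k * (Real.log T ^ (1 + m * p) * ∫ t in (0:ℝ)..(T + W), az t ^ p)) := by
  classical
  obtain ⟨C, W, T₀, hC, hW, h⟩ := disc_sum2 (p := p) (A := A + 1) k hp (by linarith)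
  have hev : ∀ᶠ T : ℝ in atTop, max 1 (8 * (2 * A + 1)) ≤ Real.log T := Real.tendsto_log_atTop.eventually_ge_atTop _
  obtain ⟨T₁, hT₁⟩ := eventually_atTop.1 (hev.and (eventually_ge_atTop T₀))
  refine ⟨(N.factorial : ℝ) ^ p * C, W, T₁, by positivity, hW, fun T hT Z hZ U hU σ hσ K₀ hK₀ hK₀L m hm => ?_⟩
  obtain ⟨h3, hT0⟩ := hT₁ T hT
  obtain ⟨L, hL⟩ : ∃ L : ℝ, L = Real.log T := ⟨_, rfl⟩
  have hh := h T hT0 Z
  rw [← hL] at h3 hσ hh hK₀L ⊢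
  have hL1 : 1 ≤ L := (le_max_left _ _).trans h3
  have hLA : 8 * (2 * A + 1) ≤ L := (le_max_right _ _).trans h3
  have hL0 : 0 < L := by linarith
  have hLi : 0 < 1 / L := by positivity
  have hAA : A / L ≤ (A + 1) / L := div_le_div_of_nonneg_right (by linarith) hL0.le
  have hsum : (A + 1) / L = A / L + 1 / L := by ring
  have hsm : A / L + A / L + 1 / L ≤ 1 / 8 := by
    have e : A / L + A / L + 1 / L = (2 * A + 1) / L := by ring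
    rw [e, div_le_iff₀ hL0]; linarith
  have hw : ∀ ρ : ℂ, ∃ w : ℂ, ρ ∈ Z → ‖w - ρ‖ ≤ (A + 1) / L ∧
      ‖iteratedDeriv m riemannZeta (ρ + σ ρ)‖ ≤ m.factorial * ‖riemannZeta w‖ / (1 / L) ^ m := by
    intro ρ
    by_cases hρ : ρ ∈ Z
    · have h1 := (hZ ρ hρ).2.1
      rw [← hL] at h1
      have h2 := hσ ρ hρ
      have h4 := (abs_le.1 ((Complex.abs_re_le_norm (σ ρ)).trans h2)).2
      have h5 := (abs_le.1 h1).2
      obtain ⟨w, hw1, hw2⟩ := der_near m (c := ρ + σ ρ) hLi (by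
        rw [Complex.add_re]
        linarith)
      refine ⟨w, fun _ => ⟨?_, hw2⟩⟩
      have e : w - ρ = (w - (ρ + σ ρ)) + σ ρ := by ring
      rw [e, hsum]
      refine (norm_add_le _ _).trans ?_
      linarith
    · exact ⟨0, fun h => absurd h hρ⟩
  choose w hw using hw
  have hmain := hh (fun ρ hρ => ⟨(hZ ρ hρ).1, by
    have := (hZ ρ hρ).2.1
    rw [← hL] at this ⊢
    linarith, (hZ ρ hρ).2.2⟩) U hU (fun ρ => w ρ - ρ) (fun ρ hρ => (hw ρ hρ).1) K₀ hK₀ hK₀L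
  have hfac : (m.factorial : ℝ) ≤ N.factorial := by exact_mod_cast Nat.factorial_le hm
  have hLm : L ^ (1 + m * p) = L * L ^ (m * p) := by
    rw [Real.rpow_add hL0, Real.rpow_one]
  have hterm : ∀ ρ ∈ Z, (analyticOrderNatAt riemannZeta ρ : ℝ) * mz (U.filter fun s => ‖s - ρ‖ ≤ K₀ / L) ^ k *
        ‖iteratedDeriv m riemannZeta (ρ + σ ρ)‖ ^ p ≤
      (N.factorial : ℝ) ^ p * L ^ (m * p) * ((analyticOrderNatAt riemannZeta ρ : ℝ) *
        mz (U.filter fun s => ‖s - ρ‖ ≤ K₀ / L) ^ k * ‖riemannZeta (ρ + (w ρ - ρ))‖ ^ p) := by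
    intro ρ hρ
    have h4 : ‖iteratedDeriv m riemannZeta (ρ + σ ρ)‖ ^ p ≤
        (N.factorial : ℝ) ^ p * L ^ (m * p) * ‖riemannZeta (ρ + (w ρ - ρ))‖ ^ p := by
      have h5 : ‖iteratedDeriv m riemannZeta (ρ + σ ρ)‖ ≤ N.factorial * L ^ m * ‖riemannZeta (ρ + (w ρ - ρ))‖ := by
        have e : ρ + (w ρ - ρ) = w ρ := by ring
        rw [e]
        refine (hw ρ hρ).2.trans ?_
        have e2 : (m.factorial : ℝ) * ‖riemannZeta (w ρ)‖ / (1 / L) ^ m = m.factorial * (L ^ m * ‖riemannZeta (w ρ)‖) := by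
          rw [one_div, inv_pow, div_inv_eq_mul]; ring
        rw [e2, mul_assoc]
        exact mul_le_mul_of_nonneg_right hfac (by positivity)
      refine (Real.rpow_le_rpow (norm_nonneg _) h5 hp.le).trans (le_of_eq ?_)
      rw [Real.mul_rpow (by positivity) (norm_nonneg _), Real.mul_rpow (by positivity) (by positivity),
        ← Real.rpow_natCast L m, ← Real.rpow_mul hL0.le]
    have h0 : 0 ≤ (analyticOrderNatAt riemannZeta ρ : ℝ) := Nat.cast_nonneg _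
    have h00 : 0 ≤ mz (U.filter fun s => ‖s - ρ‖ ≤ K₀ / L) ^ k := pow_nonneg (mz_nonneg _) k
    calc (analyticOrderNatAt riemannZeta ρ : ℝ) * mz (U.filter fun s => ‖s - ρ‖ ≤ K₀ / L) ^ k *
          ‖iteratedDeriv m riemannZeta (ρ + σ ρ)‖ ^ p
        ≤ (analyticOrderNatAt riemannZeta ρ : ℝ) * mz (U.filter fun s => ‖s - ρ‖ ≤ K₀ / L) ^ k *
          ((N.factorial : ℝ) ^ p * L ^ (m * p) * ‖riemannZeta (ρ + (w ρ - ρ))‖ ^ p) :=
          mul_le_mul_of_nonneg_left h4 (mul_nonneg h0 h00)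
      _ = _ := by ring
  refine (Finset.sum_le_sum hterm).trans ?_
  rw [← Finset.mul_sum, hLm]
  calc (N.factorial : ℝ) ^ p * L ^ (m * p) * ∑ ρ ∈ Z, ((analyticOrderNatAt riemannZeta ρ : ℝ) *
        mz (U.filter fun s => ‖s - ρ‖ ≤ K₀ / L) ^ k * ‖riemannZeta (ρ + (w ρ - ρ))‖ ^ p)
      ≤ (N.factorial : ℝ) ^ p * L ^ (m * p) * (C * (K₀ ^ k * (L * ∫ t in (0:ℝ)..(T + W), az t ^ p))) :=
        mul_le_mul_of_nonneg_left hmain (by positivity)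
    _ = _ := by ring

/-- **discrete moments near the critical line** -/
theorem disc_final2 {p A : ℝ} (N k : ℕ) (hp : 0 < p) (hA : 0 ≤ A) :
    ∃ C W T₀ : ℝ, 0 < C ∧ ∀ T : ℝ, T₀ ≤ T → ∀ Z : Finset ℂ, NearZ A T Z → ∀ U : Finset ℂ, AllZ T U →
      ∀ σ : ℂ → ℂ, (∀ ρ ∈ Z, ‖σ ρ‖ ≤ A / Real.log T) → ∀ K₀ : ℝ, 1 ≤ K₀ → K₀ ≤ Real.log T / 2 → ∀ m : ℕ, m ≤ N →
      (∑ ρ ∈ Z, (analyticOrderNatAt riemannZeta ρ : ℝ) * mz (U.filter fun s => ‖s - ρ‖ ≤ K₀ / Real.log T) ^ k *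
        ‖iteratedDeriv m riemannZeta (ρ + σ ρ)‖ ^ p ≤
          C * (K₀ ^ k * (Real.log T ^ (1 + m * p) * ∫ t in (0:ℝ)..(T + W), az t ^ p))) ∧
      (p ≤ 4 → ∑ ρ ∈ Z, (analyticOrderNatAt riemannZeta ρ : ℝ) *
        mz (U.filter fun s => ‖s - ρ‖ ≤ K₀ / Real.log T) ^ k * ‖iteratedDeriv m riemannZeta (ρ + σ ρ)‖ ^ p ≤
          C * (K₀ ^ k * (T * Real.log T ^ (1 + m * p + p ^ 2 / 4)))) := by
  obtain ⟨C₁, W, T₁, hC₁, hW, h₁⟩ := disc_der2 (p := p) (A := A) N k hp hA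
  have hb : 0 ≤ p ^ 2 / 4 := by positivity
  obtain ⟨C₄, T₄, hC₄, h₄⟩ : ∃ C₄ T₄ : ℝ, 0 < C₄ ∧ ∀ T : ℝ, T₄ ≤ T → p ≤ 4 →
      ∫ t in (0:ℝ)..(T + W), az t ^ p ≤ C₄ * (T * Real.log T ^ (p ^ 2 / 4)) := by
    by_cases h : p ≤ 4
    · obtain ⟨C, hC, hev⟩ := up_shift (W := W) hb (by linarith) (mom_upper_all hp h)
      obtain ⟨T₄, hT₄⟩ := eventually_atTop.1 hev
      exact ⟨C, T₄, hC, fun T hT _ => hT₄ T hT⟩
    · exact ⟨1, 0, one_pos, fun T _ h' => absurd h' h⟩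
  refine ⟨max C₁ (C₁ * C₄), W, max (max T₁ T₄) 2, lt_max_of_lt_left hC₁,
    fun T hT Z hZ U hU σ hσ K₀ hK₀ hK₀L m hm => ?_⟩
  have hT1 : T₁ ≤ T := ((le_max_left _ _).trans (le_max_left _ _)).trans hT
  have hT4 : T₄ ≤ T := ((le_max_right _ _).trans (le_max_left _ _)).trans hT
  have hT2 : 2 ≤ T := (le_max_right _ _).trans hT
  have hlT : 0 < Real.log T := Real.log_pos (by linarith)
  have hT0 : 0 < T := by linarith
  have h := h₁ T hT1 Z hZ U hU σ hσ K₀ hK₀ hK₀L m hm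
  have hW0 : 0 ≤ T + W := by linarith
  have hK0 : 0 < K₀ := by linarith
  have hM0 : 0 ≤ ∫ t in (0:ℝ)..(T + W), az t ^ p :=
    intervalIntegral.integral_nonneg hW0 fun t _ => Real.rpow_nonneg (az_nonneg t) _
  refine ⟨h.trans (mul_le_mul_of_nonneg_right (le_max_left _ _) (by positivity)), fun h4 => ?_⟩
  have h5 := h₄ T hT4 h4
  refine h.trans ?_
  calc C₁ * (K₀ ^ k * (Real.log T ^ (1 + m * p) * ∫ t in (0:ℝ)..(T + W), az t ^ p)) ≤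
        C₁ * (K₀ ^ k * (Real.log T ^ (1 + m * p) * (C₄ * (T * Real.log T ^ (p ^ 2 / 4))))) := by gcongr
    _ = C₁ * C₄ * (K₀ ^ k * (T * Real.log T ^ (1 + m * p + p ^ 2 / 4))) := by
        rw [Real.rpow_add hlT (1 + m * p)]; ring
    _ ≤ _ := mul_le_mul_of_nonneg_right (le_max_right _ _) (by positivity)

end Pool.Agent.Helper156_SP
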