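import Mathlib
import Pool.Agent.Helper156_SP.Low
import Pool.Agent.W338.QS.Line

set_option autoImplicit false

/-!
# The phase of `ζ(1/2+i(t+a))^k conj ζ(1/2+i(t-a))^k` for even `k`
-/

open Complex Set MeasureTheory Filter Topology
open scoped ComplexConjugate

namespace Pool.Agent.Helper156_SP

open Pool.Agent.W188.QS (XX cp lam StLine)

lemma line : StLine := Pool.Agent.W338.QS.qs_line

lemma cp_deriv (t : ℝ) : HasDerivAt cp I t := by
  unfold cp
  have h1 : HasDerivAt (fun x : ℝ => (x : ℂ)) 1 t := by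
    simpa using (hasDerivAt_id t).ofReal_comp
  have h := (h1.mul_const I).const_add (1 / 2 : ℂ)
  simpa using h

lemma XX_deriv {t : ℝ} (ht : 50 ≤ t) :
    HasDerivAt (fun t : ℝ => XX (cp t)) (XX (cp t) * lam t * I) t := by
  have hr : 0 < (cp t).re := by simp [cp]
  have hi : 1 ≤ (cp t).im := by simp [cp]; linarith
  have h1 : HasDerivAt XX (XX (cp t) * H345.Chi.L2 (cp t)) (cp t) := H345.Chi.hasDerivAt_XX hr hi
  have h2 := (line.1 t ht).1
  rw [Pool.Agent.W338.QS.ld hr hi] at h2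
  rw [h2] at h1
  exact h1.comp t (cp_deriv t)

lemma XX_ratio {x y ℓ D : ℝ} (hx : 50 ≤ x) (hy : 50 ≤ y) (hD : ∀ s ∈ uIcc x y, |lam s - ℓ| ≤ D) :
    ‖XX (cp x) / XX (cp y) * exp (I * ((y - x) * ℓ : ℝ)) - 1‖ ≤ D * |x - y| := by
  have hs : ∀ s ∈ uIcc x y, 50 ≤ s := by
    intro s hs
    exact (le_min hx hy).trans hs.1
  have hd : ∀ s ∈ uIcc x y, HasDerivWithinAt (fun s : ℝ => XX (cp s) * exp (-(I * (s * ℓ))))
      (XX (cp s) * ((lam s - ℓ : ℝ) : ℂ) * I * exp (-(I * (s * ℓ)))) (uIcc x y) s := by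
    intro s hs'
    have h1 := XX_deriv (hs s hs')
    have h0 : HasDerivAt (fun x : ℝ => (x : ℂ)) 1 s := by
      simpa using (hasDerivAt_id s).ofReal_comp
    have h2 : HasDerivAt (fun s : ℝ => exp (-(I * (s * ℓ)))) (exp (-(I * (s * ℓ))) * (-(I * ℓ))) s := by
      have h3 : HasDerivAt (fun s : ℝ => -(I * (s * ℓ))) (-(I * ℓ)) s := by
        exact (((h0.mul_const (ℓ : ℂ)).const_mul I).neg).congr_deriv (by rw [one_mul])
      exact h3.cexp
    have h3 := h1.mul h2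
    refine (h3.congr_deriv ?_).hasDerivWithinAt
    push_cast
    ring
  have hnorm : ∀ s : ℝ, ‖exp (-(I * (s * ℓ)))‖ = 1 := by
    intro s
    have : -(I * ((s:ℂ) * ℓ)) = ((-(s * ℓ) : ℝ) : ℂ) * I := by push_cast; ring
    rw [this, Complex.norm_exp_ofReal_mul_I]
  have h := (convex_uIcc x y).norm_image_sub_le_of_norm_hasDerivWithin_le (C := D) hd (fun s hs' => by
    rw [norm_mul, norm_mul, norm_mul, line.2.1, hnorm, Complex.norm_I, Complex.norm_real, one_mul, mul_one,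
      mul_one, Real.norm_eq_abs]
    exact hD s hs') (right_mem_uIcc) (left_mem_uIcc)
  have hy1 : ‖XX (cp y) * exp (-(I * (y * ℓ)))‖ = 1 := by rw [norm_mul, line.2.1, hnorm, one_mul]
  have hy0 : XX (cp y) * exp (-(I * (y * ℓ))) ≠ 0 := by
    rw [← norm_ne_zero_iff, hy1]; norm_num
  have hX0 : XX (cp y) ≠ 0 := left_ne_zero_of_mul hy0
  have e : XX (cp x) / XX (cp y) * exp (I * ((y - x) * ℓ : ℝ)) - 1 =
      (XX (cp x) * exp (-(I * (x * ℓ))) - XX (cp y) * exp (-(I * (y * ℓ)))) /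
        (XX (cp y) * exp (-(I * (y * ℓ)))) := by
    rw [sub_div, div_self hy0]
    congr 1
    have h1 : exp (I * ((y - x) * ℓ : ℝ)) = exp (-(I * (x * ℓ))) / exp (-(I * (y * ℓ))) := by
      rw [← Complex.exp_sub]; congr 1; push_cast; ring
    rw [h1, div_mul_div_comm]
  rw [e, norm_div, hy1, div_one]
  simpa [Real.norm_eq_abs] using h

lemma pow_near {u : ℂ} (hu : ‖u‖ = 1) (m : ℕ) : ‖u ^ m - 1‖ ≤ m * ‖u - 1‖ := by
  induction m with
  | zero => simp
  | succ m ih =>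
    have e : u ^ (m + 1) - 1 = u ^ m * (u - 1) + (u ^ m - 1) := by ring
    rw [e]
    refine (norm_add_le _ _).trans ?_
    rw [norm_mul, norm_pow, hu, one_pow, one_mul]
    push_cast
    linarith

/-- `ζ(1/2+it)` -/
noncomputable def zc (t : ℝ) : ℂ := riemannZeta (1 / 2 + t * I)

lemma zc_cont : Continuous zc := by
  unfold zc
  rw [continuous_iff_continuousAt]
  intro t
  have hne : (1 / 2 + (t : ℂ) * I) ≠ 1 := by
    intro h
    have := congrArg Complex.re h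
    simp at this
  exact ContinuousAt.comp (f := fun t : ℝ => (1 / 2 + (t : ℂ) * I)) (g := riemannZeta)
    (differentiableAt_riemannZeta hne).continuousAt (by fun_prop)

lemma zc_norm (t : ℝ) : ‖zc t‖ = az t := rfl

/-- the integrand -/
noncomputable def J (k : ℕ) (a t : ℝ) : ℂ := zc (t + a) ^ k * conj (zc (t - a)) ^ k

lemma J_cont (k : ℕ) (a : ℝ) : Continuous (J k a) := by
  unfold J
  have h1 : Continuous fun t : ℝ => zc (t + a) := zc_cont.comp (by fun_prop)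
  have h2 : Continuous fun t : ℝ => conj (zc (t - a)) :=
    Complex.continuous_conj.comp (zc_cont.comp (by fun_prop))
  exact (h1.pow k).mul (h2.pow k)

lemma J_norm (k : ℕ) (a t : ℝ) : ‖J k a t‖ = az (t + a) ^ k * az (t - a) ^ k := by
  unfold J
  rw [norm_mul, norm_pow, norm_pow, RCLike.norm_conj, zc_norm, zc_norm]

lemma J_prob (k : ℕ) (α T t : ℝ) : riemannZeta (1 / 2 + I * α / Real.log T + I * t) ^ k *
    riemannZeta (1 / 2 + I * α / Real.log T - I * t) ^ k = J k (α / Real.log T) t := by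
  unfold J zc
  set a : ℝ := α / Real.log T with ha
  have e0 : (I * α / Real.log T : ℂ) = I * a := by rw [ha]; push_cast; ring
  have e1 : (1 / 2 + I * a + I * t : ℂ) = 1 / 2 + ((t + a : ℝ) : ℂ) * I := by push_cast; ring
  have e2 : (1 / 2 + I * a - I * t : ℂ) = conj (1 / 2 + ((t - a : ℝ) : ℂ) * I) := by
    rw [map_add, map_mul, conj_I, Complex.conj_ofReal, map_div₀, map_one, map_ofNat]
    push_cast
    ring
  rw [e0, e1, e2, riemannZeta_conj]

lemma zc_conj {t : ℝ} (ht : 1 ≤ t) : conj (zc t) = XX (cp t) * zc t := line.2.2.1 t ht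

lemma zc_sq {t : ℝ} (ht : 1 ≤ t) : zc t ^ 2 = ((az t ^ 2 : ℝ) : ℂ) / XX (cp t) := by
  have h0 : XX (cp t) ≠ 0 := by rw [← norm_ne_zero_iff, line.2.1]; norm_num
  have h1 : zc t * conj (zc t) = ((az t ^ 2 : ℝ) : ℂ) := by
    rw [Complex.mul_conj, Complex.normSq_eq_norm_sq, zc_norm]
  rw [eq_div_iff h0, ← h1, zc_conj ht]
  ring

lemma zc_conj_sq {t : ℝ} (ht : 1 ≤ t) : conj (zc t) ^ 2 = ((az t ^ 2 : ℝ) : ℂ) * XX (cp t) := by
  have h0 : XX (cp t) ≠ 0 := by rw [← norm_ne_zero_iff, line.2.1]; norm_num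
  rw [zc_conj ht, mul_pow, zc_sq ht]
  field_simp

lemma J_even (m : ℕ) {a t : ℝ} (h1 : 1 ≤ t + a) (h2 : 1 ≤ t - a) :
    J (2 * m) a t = ((az (t + a) ^ (2 * m) * az (t - a) ^ (2 * m) : ℝ) : ℂ) *
      (XX (cp (t - a)) / XX (cp (t + a))) ^ m := by
  unfold J
  rw [pow_mul, pow_mul, zc_sq h1, zc_conj_sq h2]
  push_cast
  rw [div_pow, div_pow, mul_pow, pow_mul, pow_mul]
  ring

/-- the real part of the rotated integrand -/
lemma J_re (m : ℕ) {a t ℓ D : ℝ} (h1 : 50 ≤ t + a) (h2 : 50 ≤ t - a)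
    {ε : ℝ} (hD : ∀ s ∈ uIcc (t - a) (t + a), |lam s - ℓ| ≤ D) (hm : m * (D * (2 * |a|)) ≤ ε) :
    (1 - ε) * (az (t + a) ^ (2 * m) * az (t - a) ^ (2 * m)) ≤
      (exp (I * ((2 * m * (a * ℓ) : ℝ) : ℂ)) * J (2 * m) a t).re := by
  have hr := XX_ratio h2 h1 hD
  set u : ℂ := XX (cp (t - a)) / XX (cp (t + a)) * exp (I * ((t + a - (t - a)) * ℓ : ℝ)) with hu
  have hu1 : ‖u‖ = 1 := by
    rw [hu, norm_mul, norm_div, line.2.1, line.2.1, mul_comm I, Complex.norm_exp_ofReal_mul_I]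
    norm_num
  have e : exp (I * ((2 * m * (a * ℓ) : ℝ) : ℂ)) * J (2 * m) a t =
      ((az (t + a) ^ (2 * m) * az (t - a) ^ (2 * m) : ℝ) : ℂ) * u ^ m := by
    rw [J_even m (by linarith) (by linarith), hu, mul_pow, ← Complex.exp_nat_mul]
    have : (m : ℂ) * (I * (((t + a - (t - a)) * ℓ : ℝ) : ℂ)) = I * ((2 * m * (a * ℓ) : ℝ) : ℂ) := by
      push_cast; ring
    rw [this]
    ring
  rw [e, Complex.re_ofReal_mul, mul_comm]
  have hG : 0 ≤ az (t + a) ^ (2 * m) * az (t - a) ^ (2 * m) :=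
    mul_nonneg (pow_nonneg (az_nonneg _) _) (pow_nonneg (az_nonneg _) _)
  apply mul_le_mul_of_nonneg_left _ hG
  have h3 := pow_near hu1 m
  have h4 : |(u ^ m - 1).re| ≤ ‖u ^ m - 1‖ := Complex.abs_re_le_norm _
  have h5 : |t - a - (t + a)| = 2 * |a| := by
    rw [show t - a - (t + a) = -(2 * a) by ring, abs_neg, abs_mul]; norm_num
  rw [h5] at hr
  have h6 : (m : ℝ) * ‖u - 1‖ ≤ ε := (mul_le_mul_of_nonneg_left hr (Nat.cast_nonneg m)).trans hm
  have h7 := neg_abs_le (u ^ m - 1).re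
  rw [Complex.sub_re, Complex.one_re] at h7 h4
  linarith

end Pool.Agent.Helper156_SP
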