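import Mathlib
import Pool.Agent.Helper156_SP.Fin4
import Pool.Agent.Helper156_SP.Ph

set_option autoImplicit false

/-!
# Shifted moments with phases
-/

open Complex Set MeasureTheory Filter Topology

namespace Pool.Agent.Helper156_SP

open Pool.Agent.W188.QS (XX cp lam StLine)

theorem growth {M : ℝ → ℝ} (hM : Monotone M) (hM0 : ∀ x, 0 ≤ x → 0 ≤ M x) {C β : ℝ} (hβ0 : 0 < β)
    (hβ1 : β < 1) (hC : 1 ≤ C) (B : ℕ) :
    ∃ n : ℕ, ∀ S y : ℝ, 1 ≤ S → y ≤ S ^ B → (∀ x ∈ Icc S y, M x ≤ C * M (x ^ β)) → M y ≤ C ^ n * M S := by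
  obtain ⟨n, hn⟩ := exists_pow_lt_of_lt_one (show (0:ℝ) < 1 / (B + 1) by positivity) hβ1
  refine ⟨n, fun S y hS hy h => ?_⟩
  have hS0 : 0 ≤ M S := hM0 S (by linarith)
  rcases lt_or_ge y S with h1 | h1
  · calc M y ≤ M S := hM h1.le
      _ = 1 * M S := (one_mul _).symm
      _ ≤ C ^ n * M S := mul_le_mul_of_nonneg_right (one_le_pow₀ hC) hS0
  have hy1 : 1 ≤ y := hS.trans h1
  have hy0 : 0 < y := by linarith
  have key : ∀ j : ℕ, M y ≤ C ^ j * M (max S (y ^ (β ^ j))) := by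
    intro j
    induction j with
    | zero => simp [max_eq_right h1]
    | succ j ih =>
      refine ih.trans ?_
      rw [pow_succ C j, mul_assoc]
      apply mul_le_mul_of_nonneg_left _ (by positivity)
      rcases le_or_gt (y ^ (β ^ j)) S with h2 | h2
      · rw [max_eq_left h2]
        calc M S = 1 * M S := (one_mul _).symm
          _ ≤ C * M S := mul_le_mul_of_nonneg_right hC hS0
          _ ≤ C * M (max S (y ^ (β ^ (j + 1)))) :=
              mul_le_mul_of_nonneg_left (hM (le_max_left _ _)) (by linarith)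
      · rw [max_eq_right h2.le]
        have h3 : y ^ (β ^ j) ≤ y := by
          calc y ^ (β ^ j) ≤ y ^ (1:ℝ) := Real.rpow_le_rpow_of_exponent_le hy1 (pow_le_one₀ hβ0.le hβ1.le)
            _ = y := Real.rpow_one _
        have h4 := h (y ^ (β ^ j)) ⟨h2.le, h3⟩
        rw [← Real.rpow_mul hy0.le, ← pow_succ] at h4
        exact h4.trans (mul_le_mul_of_nonneg_left (hM (le_max_right _ _)) (by linarith))
  have h2 : y ^ (β ^ n) ≤ S := by
    calc y ^ (β ^ n) ≤ (S ^ B) ^ (β ^ n) := Real.rpow_le_rpow hy0.le hy (by positivity)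
      _ = S ^ ((B : ℝ) * β ^ n) := by rw [← Real.rpow_natCast, ← Real.rpow_mul (by linarith)]
      _ ≤ S ^ (1:ℝ) := by
          apply Real.rpow_le_rpow_of_exponent_le hS
          have h3 : (B : ℝ) * β ^ n ≤ B * (1 / (B + 1)) := mul_le_mul_of_nonneg_left hn.le (Nat.cast_nonneg B)
          have h4 : (B : ℝ) * (1 / (B + 1)) ≤ 1 := by
            rw [mul_one_div, div_le_one (by positivity)]; linarith
          linarith
      _ = S := Real.rpow_one _
  have h3 := key n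
  rwa [max_eq_left h2] at h3

theorem exists_good {M : ℝ → ℝ} (hM : Monotone M) (hM0 : ∀ x, 0 ≤ x → 0 ≤ M x) {C β W K c : ℝ} {D : ℕ}
    (hβ0 : 0 < β) (hβ1 : β < 1) (hc : 0 < c) (hup : ∀ S : ℝ, 1 ≤ S → M S ≤ K * S ^ D)
    (hlow : ∀ᶠ x : ℝ in atTop, c * x ≤ M x) :
    ∃ S₀ : ℝ, ∀ S : ℝ, S₀ ≤ S → ∃ x ∈ Icc S (S ^ (D + 1) - W), C * M (x ^ β) < M x := by
  obtain ⟨n, hn⟩ := growth hM hM0 hβ0 hβ1 (le_max_right C 1) (D + 1)
  obtain ⟨x₀, hx₀⟩ := eventually_atTop.1 hlow
  set C' : ℝ := max C 1 with hC'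
  have hC'1 : 1 ≤ C' := le_max_right _ _
  refine ⟨max (max (max 1 (2 * (|W| + |x₀|))) (2 * (C' ^ n * |K|) / c + 1)) (2 * |W| + 1), fun S hS => ?_⟩
  have hS1 : 1 ≤ S := ((le_max_left _ _).trans ((le_max_left _ _).trans (le_max_left _ _))).trans hS
  have hS2 : 2 * (|W| + |x₀|) ≤ S := ((le_max_right _ _).trans ((le_max_left _ _).trans (le_max_left _ _))).trans hS
  have hS3 : 2 * (C' ^ n * |K|) / c + 1 ≤ S := ((le_max_right _ _).trans (le_max_left _ _)).trans hS
  by_contra hcon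
  push Not at hcon
  have h1 : S ≤ S ^ (D + 1) := le_self_pow₀ hS1 (by omega)
  have hWa := le_abs_self W
  have hWn := neg_abs_le W
  have hxa := le_abs_self x₀
  have hx0 := abs_nonneg x₀
  have hW0 := abs_nonneg W
  have h2 := hn S (S ^ (D + 1) - |W|) hS1 (by linarith) (fun x hx => by
    refine (hcon x ⟨hx.1, by linarith [hx.2]⟩).trans ?_
    apply mul_le_mul_of_nonneg_right (le_max_left _ _)
    apply hM0
    have : 0 ≤ x := by linarith [hx.1]
    positivity)
  have h3 := hx₀ (S ^ (D + 1) - |W|) (by linarith)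
  have h4 : c * (S ^ (D + 1) / 2) ≤ c * (S ^ (D + 1) - |W|) := by
    apply mul_le_mul_of_nonneg_left _ hc.le
    linarith
  have h5 := hup S hS1
  have hSD : 0 < S ^ D := by positivity
  have h6 : c * (S ^ (D + 1) / 2) ≤ C' ^ n * (|K| * S ^ D) := by
    refine h4.trans (h3.trans (h2.trans ?_))
    apply mul_le_mul_of_nonneg_left _ (by positivity)
    refine h5.trans ?_
    exact mul_le_mul_of_nonneg_right (le_abs_self K) hSD.le
  have h7 : c * S ≤ 2 * (C' ^ n * |K|) := by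
    have e1 : c * (S ^ (D + 1) / 2) = (c * S / 2) * S ^ D := by ring
    have e2 : C' ^ n * (|K| * S ^ D) = (C' ^ n * |K|) * S ^ D := by ring
    rw [e1, e2] at h6
    have := le_of_mul_le_mul_right h6 hSD
    linarith
  have h8 : c * (2 * (C' ^ n * |K|) / c + 1) ≤ c * S := mul_le_mul_of_nonneg_left hS3 hc.le
  have e3 : c * (2 * (C' ^ n * |K|) / c + 1) = 2 * (C' ^ n * |K|) + c := by field_simp
  rw [e3] at h8
  linarith

end Pool.Agent.Helper156_SP
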