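import Mathlib
import Pool.Agent.Helper156_SP.Fin5

set_option autoImplicit false

/-!
# Shifted moments with phases, final form
-/

open Complex Set MeasureTheory Filter Topology

namespace Pool.Agent.Helper156_SP

open Pool.Agent.W188.QS (XX cp lam StLine)

/-- the absolute value of the integrand -/
noncomputable def Gm (k : ℕ) (a t : ℝ) : ℝ := az (t + a) ^ k * az (t - a) ^ k

lemma Gm_nonneg (k : ℕ) (a t : ℝ) : 0 ≤ Gm k a t :=
  mul_nonneg (pow_nonneg (az_nonneg _) _) (pow_nonneg (az_nonneg _) _)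

lemma Gm_cont (k : ℕ) (a : ℝ) : Continuous (Gm k a) := by
  unfold Gm
  have h1 : Continuous fun t : ℝ => az (t + a) := az_cont.comp (by fun_prop)
  have h2 : Continuous fun t : ℝ => az (t - a) := az_cont.comp (by fun_prop)
  exact (h1.pow k).mul (h2.pow k)

/-- the moment of order `2k` -/
noncomputable def Mm (k : ℕ) (S : ℝ) : ℝ := ∫ t in (0:ℝ)..S, az t ^ (2 * k)

lemma az_int (n : ℕ) (a b : ℝ) : IntervalIntegrable (fun t => az t ^ n) volume a b :=
  (az_cont.pow n).intervalIntegrable _ _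

lemma Mm_mono (k : ℕ) : Monotone (Mm k) := by
  intro a b hab
  unfold Mm
  have h := intervalIntegral.integral_add_adjacent_intervals (az_int (2 * k) 0 a) (az_int (2 * k) a b)
  rw [← h]
  have h2 : 0 ≤ ∫ t in a..b, az t ^ (2 * k) :=
    intervalIntegral.integral_nonneg hab fun t _ => pow_nonneg (az_nonneg t) _
  linarith

lemma Mm_nonneg (k : ℕ) {x : ℝ} (hx : 0 ≤ x) : 0 ≤ Mm k x :=
  intervalIntegral.integral_nonneg hx fun t _ => pow_nonneg (az_nonneg t) _

lemma Mm_up (k : ℕ) : ∀ S : ℝ, 1 ≤ S → Mm k S ≤ (18:ℝ) ^ (2 * k) * S ^ (2 * k + 1) := by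
  intro S hS
  have h : ∫ t in (0:ℝ)..S, az t ^ (2 * k) ≤ ∫ _t in (0:ℝ)..S, (18 * S) ^ (2 * k) := by
    apply intervalIntegral.integral_mono_on (by linarith) (az_int _ _ _) intervalIntegrable_const
    intro t ht
    apply pow_le_pow_left₀ (az_nonneg t)
    have h1 := az_le t
    rw [abs_of_nonneg ht.1] at h1
    have h2 := ht.2
    linarith
  unfold Mm
  refine h.trans (le_of_eq ?_)
  rw [intervalIntegral.integral_const, sub_zero, smul_eq_mul, mul_pow]
  ring

lemma Gm_up (k : ℕ) {a R : ℝ} (ha : |a| ≤ 1) (hR : 0 ≤ R) :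
    ∫ t in (0:ℝ)..R, Gm k a t ≤ Mm k (R + 1) + ∫ t in (-1:ℝ)..0, az t ^ (2 * k) := by
  have h1 : ∫ t in (0:ℝ)..R, Gm k a t ≤
      ∫ t in (0:ℝ)..R, (1 / 2 * az (t + a) ^ (2 * k) + 1 / 2 * az (t - a) ^ (2 * k)) := by
    have c1 : Continuous fun t : ℝ => az (t + a) ^ (2 * k) := (az_cont.comp (by fun_prop)).pow _
    have c2 : Continuous fun t : ℝ => az (t - a) ^ (2 * k) := (az_cont.comp (by fun_prop)).pow _
    apply intervalIntegral.integral_mono_on hR ((Gm_cont k a).intervalIntegrable _ _)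
      (((continuous_const.mul c1).add (continuous_const.mul c2)).intervalIntegrable _ _)
    intro t _
    show az (t + a) ^ k * az (t - a) ^ k ≤ 1 / 2 * az (t + a) ^ (2 * k) + 1 / 2 * az (t - a) ^ (2 * k)
    have e1 : az (t + a) ^ (2 * k) = (az (t + a) ^ k) ^ 2 := by rw [← pow_mul, mul_comm]
    have e2 : az (t - a) ^ (2 * k) = (az (t - a) ^ k) ^ 2 := by rw [← pow_mul, mul_comm]
    rw [e1, e2]
    nlinarith [sq_nonneg (az (t + a) ^ k - az (t - a) ^ k)]
  refine h1.trans ?_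
  have i1 : IntervalIntegrable (fun t : ℝ => 1 / 2 * az (t + a) ^ (2 * k)) volume 0 R := by
    apply Continuous.intervalIntegrable
    exact continuous_const.mul ((az_cont.comp (by fun_prop)).pow _)
  have i2 : IntervalIntegrable (fun t : ℝ => 1 / 2 * az (t - a) ^ (2 * k)) volume 0 R := by
    apply Continuous.intervalIntegrable
    exact continuous_const.mul ((az_cont.comp (by fun_prop)).pow _)
  rw [intervalIntegral.integral_add i1 i2, intervalIntegral.integral_const_mul,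
    intervalIntegral.integral_const_mul, intervalIntegral.integral_comp_add_right (fun t => az t ^ (2 * k)),
    intervalIntegral.integral_comp_sub_right (fun t => az t ^ (2 * k))]
  have key : ∀ x y : ℝ, -1 ≤ x → x ≤ y → y ≤ R + 1 → ∫ t in x..y, az t ^ (2 * k) ≤
      Mm k (R + 1) + ∫ t in (-1:ℝ)..0, az t ^ (2 * k) := by
    intro x y hx hxy hy
    have h2 : ∫ t in x..y, az t ^ (2 * k) ≤ ∫ t in (-1:ℝ)..(R + 1), az t ^ (2 * k) := by
      apply intervalIntegral.integral_mono_interval hx hxy hy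
      · exact Filter.Eventually.of_forall fun t => pow_nonneg (az_nonneg t) _
      · exact az_int _ _ _
    have h3 := intervalIntegral.integral_add_adjacent_intervals (az_int (2 * k) (-1) 0) (az_int (2 * k) 0 (R + 1))
    unfold Mm
    linarith
  have ha1 := abs_le.1 ha
  have k1 := key (0 + a) (R + a) (by linarith) (by linarith) (by linarith)
  have k2 := key (0 - a) (R - a) (by linarith) (by linarith) (by linarith)
  linarith

/-- `lam` is close to `log T` for `T^(1-η) - 1 ≤ s ≤ T + 1` -/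
lemma lam_near {η T s : ℝ} (hη : 0 ≤ η) (hT : 1 ≤ T) (h1 : 102 ≤ T ^ (1 - η)) (hs1 : T ^ (1 - η) - 1 ≤ s)
    (hs2 : s ≤ T + 1) : |lam s - Real.log T| ≤ η * Real.log T + 13 := by
  have hs : 50 ≤ s := by linarith
  have hl := (line.1 s hs).2.1
  have h2 : 14 / s ≤ 1 := by rw [div_le_one (by linarith)]; linarith
  have hpi := Real.pi_gt_three
  have hpi2 := Real.pi_lt_d2
  have hlT : 0 ≤ Real.log T := Real.log_nonneg hT
  have hu : Real.log (s / (2 * Real.pi)) ≤ Real.log T := by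
    apply Real.log_le_log (by positivity)
    rw [div_le_iff₀ (by positivity)]
    nlinarith
  have hL : (1 - η) * Real.log T - 12 ≤ Real.log (s / (2 * Real.pi)) := by
    have h3 : T ^ (1 - η) / (4 * Real.pi) ≤ s / (2 * Real.pi) := by
      rw [div_le_div_iff₀ (by positivity) (by positivity)]
      nlinarith
    have h4 : Real.log (T ^ (1 - η) / (4 * Real.pi)) ≤ Real.log (s / (2 * Real.pi)) :=
      Real.log_le_log (by positivity) h3
    rw [Real.log_div (by positivity) (by positivity), Real.log_rpow (by linarith)] at h4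
    have h5 : Real.log (4 * Real.pi) ≤ 4 * Real.pi - 1 := Real.log_le_sub_one_of_pos (by positivity)
    norm_num at hpi2
    linarith
  have h6 : 0 ≤ η * Real.log T := by positivity
  rw [abs_le] at hl ⊢
  constructor
  · linarith [hl.1]
  · linarith [hl.2]

/-- the phase condition -/
lemma J_low {m : ℕ} {A ε η T t α : ℝ} (hη : 0 ≤ η) (hT : 1 ≤ T) (h1 : 102 ≤ T ^ (1 - η))
    (hTA : A ≤ Real.log T) (hT0 : 0 < Real.log T) (hε : 2 * m * A * (η + 13 / Real.log T) ≤ ε) (hα : |α| ≤ A)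
    (ht1 : T ^ (1 - η) ≤ t) (ht2 : t ≤ T) :
    (1 - ε) * Gm (2 * m) (α / Real.log T) t ≤
      (exp (I * ((2 * m * α : ℝ) : ℂ)) * J (2 * m) (α / Real.log T) t).re := by
  set a : ℝ := α / Real.log T with ha
  have ha1 : |a| ≤ A / Real.log T := by
    rw [ha, abs_div, abs_of_pos hT0]
    exact div_le_div_of_nonneg_right hα hT0.le
  have ha2 : |a| ≤ 1 := ha1.trans ((div_le_one hT0).2 hTA)
  have ha3 := abs_le.1 ha2
  have h := J_re m (a := a) (t := t) (ℓ := Real.log T) (D := η * Real.log T + 13) (ε := ε) (by linarith [ha3.1])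
    (by linarith [ha3.2]) (fun s hs => by
      apply lam_near hη hT h1
      · rcases le_total (t - a) (t + a) with h | h
        · rw [uIcc_of_le h] at hs; linarith [hs.1, ha3.2]
        · rw [uIcc_of_ge h] at hs; linarith [hs.1, ha3.1]
      · rcases le_total (t - a) (t + a) with h | h
        · rw [uIcc_of_le h] at hs; linarith [hs.2, ha3.2]
        · rw [uIcc_of_ge h] at hs; linarith [hs.2, ha3.1]) (by
      refine le_trans ?_ hε
      have h3 : (η * Real.log T + 13) * (2 * |a|) ≤ (η * Real.log T + 13) * (2 * (A / Real.log T)) := by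
        apply mul_le_mul_of_nonneg_left (by linarith) (by positivity)
      have h4 : (η * Real.log T + 13) * (2 * (A / Real.log T)) = 2 * A * (η + 13 / Real.log T) := by
        field_simp
      rw [h4] at h3
      calc (m : ℝ) * ((η * Real.log T + 13) * (2 * |a|)) ≤ m * (2 * A * (η + 13 / Real.log T)) :=
            mul_le_mul_of_nonneg_left h3 (Nat.cast_nonneg m)
        _ = _ := by ring)
  have e : 2 * m * (a * Real.log T) = 2 * m * α := by rw [ha, div_mul_cancel₀ _ hT0.ne']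
  rw [e] at h
  exact h

/-- splitting at `R` -/
lemma split {m : ℕ} {a θ ε₁ R T : ℝ} (hR : 0 ≤ R) (hRT : R ≤ T) (hε₁ : 0 ≤ ε₁)
    (h : ∀ t ∈ Icc R T, (1 - ε₁) * Gm (2 * m) a t ≤ (exp (I * (θ : ℂ)) * J (2 * m) a t).re)
    (h2 : 2 * ∫ t in (0:ℝ)..R, Gm (2 * m) a t ≤ ε₁ * ∫ t in (0:ℝ)..T, Gm (2 * m) a t) :
    (1 - 2 * ε₁) * ∫ t in (0:ℝ)..T, Gm (2 * m) a t ≤
      (exp (I * (θ : ℂ)) * ∫ t in (0:ℝ)..T, J (2 * m) a t).re := by
  have hJ : Continuous fun t => exp (I * (θ : ℂ)) * J (2 * m) a t := continuous_const.mul (J_cont _ _)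
  have hF : Continuous fun t => (exp (I * (θ : ℂ)) * J (2 * m) a t).re := Complex.continuous_re.comp hJ
  have hGi : ∀ x y : ℝ, IntervalIntegrable (Gm (2 * m) a) volume x y := fun x y => (Gm_cont _ _).intervalIntegrable _ _
  have hFi : ∀ x y : ℝ, IntervalIntegrable (fun t => (exp (I * (θ : ℂ)) * J (2 * m) a t).re) volume x y :=
    fun x y => hF.intervalIntegrable _ _
  have e1 : (exp (I * (θ : ℂ)) * ∫ t in (0:ℝ)..T, J (2 * m) a t).re =
      ∫ t in (0:ℝ)..T, (exp (I * (θ : ℂ)) * J (2 * m) a t).re := by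
    rw [← intervalIntegral.integral_const_mul]
    exact (Complex.reCLM.intervalIntegral_comp_comm (hJ.intervalIntegrable _ _)).symm
  rw [e1, ← intervalIntegral.integral_add_adjacent_intervals (hFi 0 R) (hFi R T)]
  have h3 : ∫ t in (0:ℝ)..R, -Gm (2 * m) a t ≤ ∫ t in (0:ℝ)..R, (exp (I * (θ : ℂ)) * J (2 * m) a t).re := by
    apply intervalIntegral.integral_mono_on hR ((Gm_cont _ _).neg.intervalIntegrable _ _) (hFi 0 R)
    intro t _
    have h4 : ‖exp (I * (θ : ℂ)) * J (2 * m) a t‖ = Gm (2 * m) a t := by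
      rw [norm_mul, J_norm, mul_comm I, Complex.norm_exp_ofReal_mul_I, one_mul]; rfl
    have h5 := Complex.abs_re_le_norm (exp (I * (θ : ℂ)) * J (2 * m) a t)
    rw [h4] at h5
    exact (abs_le.1 h5).1
  have h4 : ∫ t in R..T, (1 - ε₁) * Gm (2 * m) a t ≤ ∫ t in R..T, (exp (I * (θ : ℂ)) * J (2 * m) a t).re := by
    apply intervalIntegral.integral_mono_on hRT ((continuous_const.mul (Gm_cont _ _)).intervalIntegrable _ _)
      (hFi R T)
    exact h
  rw [intervalIntegral.integral_neg] at h3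
  rw [intervalIntegral.integral_const_mul] at h4
  have h5 := intervalIntegral.integral_add_adjacent_intervals (hGi 0 R) (hGi R T)
  have h6 : 0 ≤ ∫ t in (0:ℝ)..R, Gm (2 * m) a t :=
    intervalIntegral.integral_nonneg hR fun t _ => Gm_nonneg _ _ _
  set a0 := ∫ t in (0:ℝ)..R, Gm (2 * m) a t
  set a1 := ∫ t in R..T, Gm (2 * m) a t
  rw [← h5] at h2 ⊢
  nlinarith

theorem Q_phase {m : ℕ} (hm : 1 ≤ m) {A : ℝ} (hA : 0 ≤ A) :
    ∃ c T₀ : ℝ, 0 < c ∧ (∀ T : ℝ, T₀ ≤ T → ∀ α : ℝ, |α| ≤ A →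
        c * (T * Real.log T ^ ((2 * m) ^ 2)) ≤ ∫ t in (0:ℝ)..T, Gm (2 * m) (α / Real.log T) t) ∧
      ∀ ε : ℝ, 0 < ε → ∃ S₀ : ℝ, ∀ S : ℝ, S₀ ≤ S → ∃ T ∈ Icc S (S ^ (4 * m + 2)), ∀ α : ℝ, |α| ≤ A →
        (1 - ε) * ∫ t in (0:ℝ)..T, Gm (2 * m) (α / Real.log T) t ≤
          (exp (I * ((2 * m * α : ℝ) : ℂ)) * ∫ t in (0:ℝ)..T, J (2 * m) (α / Real.log T) t).re := by
  have hm0 : (0:ℝ) < m := by exact_mod_cast hm
  have hm1 : (1:ℝ) ≤ m := by exact_mod_cast hm
  set p : ℝ := 4 * m with hp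
  have hp0 : 0 < p := by positivity
  have hp2 : 2 ≤ p := by rw [hp]; linarith
  obtain ⟨c₁, W, T₁, hc₁, hW, hmain⟩ := shifts_main hA hp0
  have epow : ∀ x : ℝ, 0 ≤ x → x ^ p = x ^ (2 * (2 * m)) := by
    intro x _
    rw [← Real.rpow_natCast]
    congr 1
    rw [hp]; push_cast; ring
  have epow2 : ∀ x : ℝ, x ^ (p ^ 2 / 4) = x ^ ((2 * m) ^ 2) := by
    intro x
    rw [← Real.rpow_natCast x ((2 * m) ^ 2)]
    congr 1
    rw [hp]; push_cast; ring
  have hMm : ∀ S : ℝ, ∫ t in (0:ℝ)..S, az t ^ p = Mm (2 * m) S := by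
    intro S
    unfold Mm
    exact intervalIntegral.integral_congr fun t _ => epow _ (az_nonneg t)
  have hG1 : ∀ T : ℝ, T₁ ≤ T → ∀ α : ℝ, |α| ≤ A →
      c₁ * Mm (2 * m) (T - W) ≤ ∫ t in (0:ℝ)..T, Gm (2 * m) (α / Real.log T) t ∧
      c₁ * (T * Real.log T ^ ((2 * m) ^ 2)) ≤ ∫ t in (0:ℝ)..T, Gm (2 * m) (α / Real.log T) t := by
    intro T hT α hα
    obtain ⟨h1, h2⟩ := hmain T hT 2 ![α, -α] (fun _ => 2 * m) (by
      intro j
      fin_cases j
      · exact hα
      · show |(-α)| ≤ A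
        rw [abs_neg]; exact hα) (fun _ => by positivity) (by simp [hp]; ring)
    have h2 := h2 hp2
    have e : ∀ t : ℝ, ∏ j : Fin 2, az (t + (![α, -α] : Fin 2 → ℝ) j / Real.log T) ^ (2 * (m:ℝ)) =
        Gm (2 * m) (α / Real.log T) t := by
      intro t
      have e2 : (2 * (m:ℝ)) = ((2 * m : ℕ) : ℝ) := by push_cast; ring
      rw [Fin.prod_univ_two, e2, Real.rpow_natCast, Real.rpow_natCast]
      unfold Gm
      simp only [Matrix.cons_val_zero, Matrix.cons_val_one, neg_div]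
      rfl
    simp only [e] at h1 h2
    rw [hMm] at h1
    rw [epow2] at h2
    exact ⟨h1, h2⟩
  refine ⟨c₁, T₁, hc₁, fun T hT α hα => (hG1 T hT α hα).2, fun ε hε => ?_⟩
  obtain ⟨c₂, hc₂, hlow⟩ := mom_low_log hp2
  have hlow' : ∀ᶠ x : ℝ in atTop, c₂ * x ≤ Mm (2 * m) x := by
    filter_upwards [hlow, Real.tendsto_log_atTop.eventually_ge_atTop 1, eventually_ge_atTop 0] with x h1 h2 h3
    rw [hMm] at h1
    refine le_trans ?_ h1
    apply mul_le_mul_of_nonneg_left _ hc₂.le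
    have := Real.one_le_rpow h2 (by positivity : 0 ≤ p ^ 2 / 4)
    nlinarith
  set ε₁ : ℝ := ε / 2 with hε₁
  have hε₁0 : 0 < ε₁ := by positivity
  set η : ℝ := min (ε₁ / (4 * (m * A + 1))) (1 / 2) with hη
  have hη0 : 0 < η := lt_min (by positivity) (by norm_num)
  have hη1 : η ≤ 1 / 2 := min_le_right _ _
  have hηA : 2 * m * A * η ≤ ε₁ / 2 := by
    have h1 : η ≤ ε₁ / (4 * (m * A + 1)) := min_le_left _ _
    have h2 : 2 * m * A * η ≤ 2 * m * A * (ε₁ / (4 * (m * A + 1))) := mul_le_mul_of_nonneg_left h1 (by positivity)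
    refine h2.trans ?_
    rw [mul_div_assoc', div_le_div_iff₀ (by positivity) (by norm_num)]
    nlinarith [mul_nonneg hm0.le hA, hε₁0.le]
  set C₀ : ℝ := ∫ t in (-1:ℝ)..0, az t ^ (2 * (2 * m)) with hC₀
  obtain ⟨S₀, hS₀⟩ := exists_good (Mm_mono (2 * m)) (fun x hx => Mm_nonneg (2 * m) hx) (C := 4 / (ε₁ * c₁))
    (β := 1 - η / 2) (W := W) (K := (18:ℝ) ^ (2 * (2 * m))) (c := c₂) (D := 2 * (2 * m) + 1)
    (by linarith) (by linarith) hc₂ (Mm_up (2 * m)) hlow'
  have evT : ∀ᶠ T : ℝ in atTop, 102 ≤ T ^ (1 - η) ∧ max A 1 ≤ Real.log T ∧ 52 * m * A / ε₁ ≤ Real.log T ∧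
      max T₁ 1 ≤ T :=
    ((tendsto_rpow_atTop (by linarith)).eventually_ge_atTop 102).and
      ((Real.tendsto_log_atTop.eventually_ge_atTop _).and
        ((Real.tendsto_log_atTop.eventually_ge_atTop _).and (eventually_ge_atTop _)))
  have evx := (tendsto_atTop_add_const_right atTop W tendsto_id).eventually evT
  have ev5 : ∀ᶠ x : ℝ in atTop, 3 ≤ x ^ (η / 2) := (tendsto_rpow_atTop (by linarith)).eventually_ge_atTop 3
  have ev6 : ∀ᶠ x : ℝ in atTop, C₀ ≤ Mm (2 * m) (x ^ (1 - η / 2)) := by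
    have h1 : ∀ᶠ y : ℝ in atTop, C₀ ≤ Mm (2 * m) y := by
      filter_upwards [hlow', eventually_ge_atTop (C₀ / c₂)] with y h1 h2
      rw [div_le_iff₀ hc₂] at h2
      linarith
    exact (tendsto_rpow_atTop (by linarith)).eventually h1
  obtain ⟨x₁, hx₁⟩ := eventually_atTop.1 (evx.and (ev5.and (ev6.and (eventually_ge_atTop (max W 1)))))
  refine ⟨max S₀ x₁, fun S hS => ?_⟩
  obtain ⟨x, hx, hgood⟩ := hS₀ S ((le_max_left _ _).trans hS)
  have hxS : x₁ ≤ x := ((le_max_right _ _).trans hS).trans hx.1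
  obtain ⟨⟨p1, p2, p3, p4⟩, p5, p6, p7⟩ := hx₁ x hxS
  simp only [id] at p1 p2 p3 p4
  have hx1 : 1 ≤ x := (le_max_right _ _).trans p7
  have hxW : W ≤ x := (le_max_left _ _).trans p7
  set T : ℝ := x + W with hT
  have hT1 : T₁ ≤ T := (le_max_left _ _).trans p4
  have hT1' : 1 ≤ T := (le_max_right _ _).trans p4
  have hlT : 0 < Real.log T := lt_of_lt_of_le one_pos ((le_max_right _ _).trans p2)
  refine ⟨T, ⟨by linarith [hx.1], ?_⟩, fun α hα => ?_⟩
  · have h1 := hx.2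
    have e : 4 * m + 2 = 2 * (2 * m) + 1 + 1 := by ring
    rw [e, hT]
    linarith
  set R : ℝ := T ^ (1 - η) with hR
  have hR0 : 0 ≤ R := by positivity
  have hRT : R ≤ T := by
    calc T ^ (1 - η) ≤ T ^ (1:ℝ) := Real.rpow_le_rpow_of_exponent_le hT1' (by linarith)
      _ = T := Real.rpow_one _
  have hR1 : R + 1 ≤ x ^ (1 - η / 2) := by
    have h1 : T ^ (1 - η) ≤ (2 * x) ^ (1 - η) := Real.rpow_le_rpow (by linarith) (by linarith) (by linarith)
    rw [Real.mul_rpow (by norm_num) (by linarith)] at h1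
    have h2 : (2:ℝ) ^ (1 - η) ≤ 2 := by
      calc (2:ℝ) ^ (1 - η) ≤ (2:ℝ) ^ (1:ℝ) := Real.rpow_le_rpow_of_exponent_le (by norm_num) (by linarith)
        _ = 2 := Real.rpow_one _
    have h3 : 1 ≤ x ^ (1 - η) := Real.one_le_rpow hx1 (by linarith)
    have h4 : x ^ (1 - η / 2) = x ^ (η / 2) * x ^ (1 - η) := by
      rw [← Real.rpow_add (by linarith)]; congr 1; ring
    rw [h4]
    nlinarith
  set a : ℝ := α / Real.log T with ha
  have ha2 : |a| ≤ 1 := by
    rw [ha, abs_div, abs_of_pos hlT, div_le_one hlT]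
    exact hα.trans ((le_max_left _ _).trans p2)
  have h7 := Gm_up (2 * m) ha2 hR0
  have h8 : Mm (2 * m) (R + 1) ≤ Mm (2 * m) (x ^ (1 - η / 2)) := Mm_mono _ hR1
  have h9 := (hG1 T hT1 α hα).1
  have e1 : T - W = x := by rw [hT]; ring
  rw [e1, ← ha] at h9
  have h10 : 4 * Mm (2 * m) (x ^ (1 - η / 2)) ≤ ε₁ * (c₁ * Mm (2 * m) x) := by
    have h11 := hgood.le
    have hec : 0 < ε₁ * c₁ := by positivity
    rw [div_mul_eq_mul_div, div_le_iff₀ hec] at h11
    linarith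
  have h12 : ε₁ * (c₁ * Mm (2 * m) x) ≤ ε₁ * ∫ t in (0:ℝ)..T, Gm (2 * m) a t :=
    mul_le_mul_of_nonneg_left h9 hε₁0.le
  have hfin := split (m := m) (a := a) (θ := 2 * m * α) (ε₁ := ε₁) hR0 hRT hε₁0.le (fun t ht => by
    apply J_low hη0.le hT1' p1 ((le_max_left _ _).trans p2) hlT _ hα ht.1 ht.2
    have h13 : 2 * m * A * (13 / Real.log T) ≤ ε₁ / 2 := by
      rw [mul_div_assoc', div_le_iff₀ hlT]
      rw [div_le_iff₀ hε₁0] at p3
      linarith
    linarith [mul_add (2 * m * A) η (13 / Real.log T)]) (by linarith)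
  have e2 : 1 - ε = 1 - 2 * ε₁ := by rw [hε₁]; ring
  rw [e2]
  exact hfin

end Pool.Agent.Helper156_SP
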