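import Mathlib
import Pool.Agent.Helper156_SP.LogInt
import Pool.Agent.H370R2.Local

set_option autoImplicit false

/-!
# Joint moments of an entire function and its derivative with a negative exponent: the local inequality
-/

open Complex Set MeasureTheory Filter Topology Metric

namespace Pool.Agent.Helper156_SP

lemma abs_int {r : ℝ} (hr1 : r < 1) (a b : ℝ) : IntervalIntegrable (fun x : ℝ => |x| ^ (-r)) volume a b := by
  have h0 : ∀ b : ℝ, 0 ≤ b → IntervalIntegrable (fun x : ℝ => |x| ^ (-r)) volume 0 b := by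
    intro b hb
    have h1 : IntervalIntegrable (fun x : ℝ => x ^ (-r)) volume 0 b := intervalIntegral.intervalIntegrable_rpow' (by linarith)
    refine h1.congr fun x hx => ?_
    rw [uIoc_of_le hb] at hx
    rw [abs_of_pos hx.1]
  have h1 : ∀ b : ℝ, IntervalIntegrable (fun x : ℝ => |x| ^ (-r)) volume 0 b := by
    intro b
    rcases le_total 0 b with hb | hb
    · exact h0 b hb
    · have h2 := (h0 (-b) (by linarith)).comp_sub_left 0
      simp only [zero_sub, abs_neg, neg_zero, neg_neg, sub_zero] at h2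
      exact h2
  exact (h1 a).symm.trans (h1 b)

lemma abs_int_le {r : ℝ} (hr0 : 0 ≤ r) (hr1 : r < 1) (a : ℝ) :
    ∫ x in (-1:ℝ)..1, |x - a| ^ (-r) ≤ 2 + 2 / (1 - r) := by
  have hI : ∀ c d : ℝ, IntervalIntegrable (fun x : ℝ => |x - a| ^ (-r)) volume c d := by
    intro c d
    have h := (abs_int hr1 (c - a) (d - a)).comp_sub_right a
    simpa using h
  have hone : ∫ x in (0:ℝ)..1, |x| ^ (-r) = 1 / (1 - r) := by
    have h1 : ∫ x in (0:ℝ)..1, |x| ^ (-r) = ∫ x in (0:ℝ)..1, x ^ (-r) := by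
      apply intervalIntegral.integral_congr_uIoo
      intro x hx
      rw [uIoo_of_le (by norm_num)] at hx
      show |x| ^ (-r) = x ^ (-r)
      rw [abs_of_pos hx.1]
    rw [h1, integral_rpow (Or.inl (by linarith)), Real.one_rpow, Real.zero_rpow (by linarith)]
    congr 1 <;> ring
  have htwo : ∫ x in (-1:ℝ)..1, |x| ^ (-r) = 2 / (1 - r) := by
    have h1 : ∫ x in (-1:ℝ)..0, |x| ^ (-r) = 1 / (1 - r) := by
      have h2 := intervalIntegral.integral_comp_neg (a := (0:ℝ)) (b := 1) (fun x : ℝ => |x| ^ (-r))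
      simp only [abs_neg, neg_zero] at h2
      rw [← h2, hone]
    rw [← intervalIntegral.integral_add_adjacent_intervals (abs_int hr1 (-1) 0) (abs_int hr1 0 1), h1, hone]
    ring
  -- compare with the indicator of `[a - 1, a + 1]`
  have h3 : ∀ x : ℝ, |x - a| ^ (-r) ≤ 1 + (Ioc (a - 1) (a + 1)).indicator (fun x => |x - a| ^ (-r)) x := by
    intro x
    by_cases hx : x ∈ Ioc (a - 1) (a + 1)
    · rw [indicator_of_mem hx]; linarith
    · rw [indicator_of_notMem hx, add_zero]
      have h4 : 1 ≤ |x - a| := by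
        by_contra h5
        push Not at h5
        have h6 := abs_lt.1 h5
        exact hx ⟨by linarith [h6.1], by linarith [h6.2]⟩
      exact Real.rpow_le_one_of_one_le_of_nonpos h4 (by linarith)
  have hint : IntegrableOn (fun x : ℝ => |x - a| ^ (-r)) (Ioc (a - 1) (a + 1)) := (hI (a - 1) (a + 1)).1
  have hind : Integrable ((Ioc (a - 1) (a + 1)).indicator fun x : ℝ => |x - a| ^ (-r)) :=
    hint.integrable_indicator measurableSet_Ioc
  have h5 : ∫ x in (-1:ℝ)..1, |x - a| ^ (-r) ≤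
      ∫ x in (-1:ℝ)..1, (1 + (Ioc (a - 1) (a + 1)).indicator (fun x => |x - a| ^ (-r)) x) := by
    apply intervalIntegral.integral_mono_on (by norm_num) (hI _ _)
    · exact (by simp : IntervalIntegrable (fun _ : ℝ => (1:ℝ)) volume (-1) 1).add hind.intervalIntegrable
    · intro x _
      exact h3 x
  refine h5.trans ?_
  rw [intervalIntegral.integral_add (by simp) hind.intervalIntegrable]
  apply add_le_add
  · rw [intervalIntegral.integral_const, smul_eq_mul]; norm_num
  · rw [intervalIntegral.integral_of_le (by norm_num : (-1:ℝ) ≤ 1)]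
    calc ∫ x in Ioc (-1:ℝ) 1, (Ioc (a - 1) (a + 1)).indicator (fun x => |x - a| ^ (-r)) x
        ≤ ∫ x, (Ioc (a - 1) (a + 1)).indicator (fun x => |x - a| ^ (-r)) x :=
          setIntegral_le_integral hind (Eventually.of_forall fun x =>
            indicator_nonneg (fun y _ => Real.rpow_nonneg (abs_nonneg _) _) x)
      _ = ∫ x in Ioc (a - 1) (a + 1), |x - a| ^ (-r) := integral_indicator measurableSet_Ioc
      _ = ∫ x in (a - 1)..(a + 1), |x - a| ^ (-r) := (intervalIntegral.integral_of_le (by linarith)).symm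
      _ = ∫ x in (-1:ℝ)..1, |x| ^ (-r) := by
          have h6 := intervalIntegral.integral_comp_sub_right (a := a - 1) (b := a + 1) (fun x : ℝ => |x| ^ (-r)) a
          rw [h6]
          congr 1 <;> ring
      _ = 2 / (1 - r) := htwo
      _ ≤ 2 / (1 - r) := le_refl _

/-- a complex singularity -/
lemma sing_int {r : ℝ} (hr0 : 0 ≤ r) (hr1 : r < 1) (v : ℂ) :
    IntervalIntegrable (fun x : ℝ => ‖(x:ℂ) - v‖ ^ (-r)) volume (-1) 1 ∧
      ∫ x in (-1:ℝ)..1, ‖(x:ℂ) - v‖ ^ (-r) ≤ 2 + 2 / (1 - r) := by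
  have hI : IntervalIntegrable (fun x : ℝ => |x - v.re| ^ (-r)) volume (-1) 1 := by
    have h := (abs_int hr1 (-1 - v.re) (1 - v.re)).comp_sub_right v.re
    simpa using h
  have hle : ∀ x : ℝ, x ≠ v.re → ‖(x:ℂ) - v‖ ^ (-r) ≤ |x - v.re| ^ (-r) := by
    intro x hx
    have h1 : |x - v.re| ≤ ‖(x:ℂ) - v‖ := by
      have := Complex.abs_re_le_norm ((x:ℂ) - v)
      simpa using this
    exact Real.rpow_le_rpow_of_nonpos (abs_pos.2 (sub_ne_zero.2 hx)) h1 (by linarith)
  have hae : ∀ᵐ x : ℝ, x ≠ v.re := by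
    rw [ae_iff]
    simp
  have hm : Measurable fun x : ℝ => ‖(x:ℂ) - v‖ ^ (-r) := by fun_prop
  have hII : IntervalIntegrable (fun x : ℝ => ‖(x:ℂ) - v‖ ^ (-r)) volume (-1) 1 := by
    refine hI.mono_fun hm.aestronglyMeasurable ?_
    refine ae_restrict_of_ae ?_
    filter_upwards [hae] with x hx
    rw [Real.norm_of_nonneg (Real.rpow_nonneg (norm_nonneg _) _), Real.norm_of_nonneg (Real.rpow_nonneg (abs_nonneg _) _)]
    exact hle x hx
  refine ⟨hII, le_trans ?_ (abs_int_le hr0 hr1 v.re)⟩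
  apply intervalIntegral.integral_mono_ae (by norm_num) hII hI
  filter_upwards [hae] with x hx
  exact hle x hx

/-- the power of a sum -/
lemma sum_rpow {n : ℕ} {q B : ℝ} (hq : 0 < q) (hB : 0 ≤ B) (a : ℕ → ℝ) (ha : ∀ i < n, 0 ≤ a i) :
    (∑ i ∈ Finset.range n, a i + B) ^ q ≤ (n + 1) ^ q * (∑ i ∈ Finset.range n, a i ^ q + B ^ q) := by
  obtain ⟨R, hR⟩ : ∃ R : ℝ, R = ∑ i ∈ Finset.range n, a i ^ q + B ^ q := ⟨_, rfl⟩
  rw [← hR]
  have hs : 0 ≤ ∑ i ∈ Finset.range n, a i ^ q :=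
    Finset.sum_nonneg fun i hi => Real.rpow_nonneg (ha i (Finset.mem_range.1 hi)) _
  have hBq : 0 ≤ B ^ q := Real.rpow_nonneg hB _
  have hR0 : 0 ≤ R := by rw [hR]; linarith
  have h1 : ∀ i ∈ Finset.range n, a i ≤ R ^ q⁻¹ := by
    intro i hi
    have h2 : a i ^ q ≤ R := by
      rw [hR]
      have := Finset.single_le_sum (f := fun i => a i ^ q)
        (fun j hj => Real.rpow_nonneg (ha j (Finset.mem_range.1 hj)) _) hi
      linarith
    have h3 := Real.rpow_le_rpow (Real.rpow_nonneg (ha i (Finset.mem_range.1 hi)) _) h2 (inv_pos.2 hq).le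
    rwa [Real.rpow_rpow_inv (ha i (Finset.mem_range.1 hi)) hq.ne'] at h3
  have h2 : B ≤ R ^ q⁻¹ := by
    have h3 : B ^ q ≤ R := by rw [hR]; linarith
    have h4 := Real.rpow_le_rpow hBq h3 (inv_pos.2 hq).le
    rwa [Real.rpow_rpow_inv hB hq.ne'] at h4
  have h3 : ∑ i ∈ Finset.range n, a i ≤ n * R ^ q⁻¹ := by
    have := Finset.sum_le_sum h1
    simpa using this
  have h4 : ∑ i ∈ Finset.range n, a i + B ≤ (n + 1) * R ^ q⁻¹ := by linarith
  have h5 : 0 ≤ ∑ i ∈ Finset.range n, a i + B := by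
    have : 0 ≤ ∑ i ∈ Finset.range n, a i := Finset.sum_nonneg fun i hi => ha i (Finset.mem_range.1 hi)
    linarith
  have h6 := Real.rpow_le_rpow h5 h4 hq.le
  rwa [Real.mul_rpow (by positivity) (Real.rpow_nonneg hR0 _), Real.rpow_inv_rpow hR0 hq.ne'] at h6

end Pool.Agent.Helper156_SP
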