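import Mathlib
import Pool.Agent.Helper156_SP.Neg1

set_option autoImplicit false

/-!
# Joint moments of an entire function and its derivative with a negative exponent: the local inequality
-/

open Complex Set MeasureTheory Filter Topology Metric

namespace Pool.Agent.Helper156_SP

lemma fact_der {k g : ℂ → ℂ} {n : ℕ} {u : ℕ → ℂ} {m : ℝ} (hF : Fact k 4 n u g) (hgz : ∀ w : ℂ, ‖w‖ ≤ 4 → g w ≠ 0)
    (h0 : 1 ≤ ‖k 0‖) (hb : ∀ w : ℂ, ‖w‖ ≤ 3 * 4 → ‖k w‖ ≤ Real.exp m) (hm : 0 ≤ m) {w : ℂ} (hw : ‖w‖ ≤ 3)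
    (hkw : k w ≠ 0) :
    ‖deriv k w‖ ≤ ‖k w‖ * (∑ i ∈ Finset.range n, ‖w - u i‖⁻¹ + 28 * (m + 1)) := by
  have hgb : ∀ z ∈ closedBall (0:ℂ) 4, ‖g z‖ ≤ Real.exp m * ‖g 0‖ := by
    intro z hz
    rw [mem_closedBall_zero_iff] at hz
    have h1 := hF.bound (by norm_num) hb (w := z) (by linarith)
    have h2 := hF.low (by norm_num) h0
    have h3 : (1:ℝ) / (2 * 4) ^ n ≤ 1 / 4 ^ n := by
      apply one_div_le_one_div_of_le (by positivity)
      exact pow_le_pow_left₀ (by norm_num) (by norm_num) n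
    calc ‖g z‖ ≤ Real.exp m / (2 * 4) ^ n := h1
      _ = Real.exp m * (1 / (2 * 4) ^ n) := by ring
      _ ≤ Real.exp m * ‖g 0‖ := mul_le_mul_of_nonneg_left (h3.trans h2) (Real.exp_pos _).le
  obtain ⟨hg, hu, hfac⟩ := hF
  have hlg := H370.Loc.logDeriv_zero_free (g := g) (c := 0) (r := 4) (r1 := 7 / 2) (r2 := 3) (B := m) (by norm_num)
    (by norm_num) (by norm_num) hm (fun z _ => hg.analyticAt z)
    (fun z hz => hgz z (by rwa [mem_closedBall_zero_iff] at hz)) hgb (z := w) (by rwa [mem_closedBall_zero_iff])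
  have hlg' : ‖logDeriv g w‖ ≤ 28 * (m + 1) := by
    refine hlg.trans (le_of_eq ?_)
    ring
  have hk : k = fun z => (∏ i ∈ Finset.range n, (z - u i)) * g z := funext hfac
  have hne : (∏ i ∈ Finset.range n, (w - u i)) * g w ≠ 0 := by rw [← hfac w]; exact hkw
  have hne1 : ∏ i ∈ Finset.range n, (w - u i) ≠ 0 := left_ne_zero_of_mul hne
  have hne2 : g w ≠ 0 := right_ne_zero_of_mul hne
  have hi : ∀ i ∈ Finset.range n, w - u i ≠ 0 := fun i hi => Finset.prod_ne_zero_iff.1 hne1 i hi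
  have hl : logDeriv k w = ∑ i ∈ Finset.range n, 1 / (w - u i) + logDeriv g w := by
    rw [hk, logDeriv_mul w hne1 hne2 (by fun_prop) (hg w)]
    congr 1
    rw [logDeriv_prod (f := fun i z => z - u i) hi (fun i _ => by fun_prop)]
    refine Finset.sum_congr rfl fun i _ => ?_
    rw [logDeriv_apply]
    simp
  have hnl : ‖logDeriv k w‖ ≤ ∑ i ∈ Finset.range n, ‖w - u i‖⁻¹ + 28 * (m + 1) := by
    rw [hl]
    refine (norm_add_le _ _).trans (add_le_add ?_ hlg')
    refine (norm_sum_le _ _).trans (Finset.sum_le_sum fun i _ => ?_)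
    rw [norm_div, norm_one, one_div]
  have hd : deriv k w = k w * logDeriv k w := by
    rw [logDeriv_apply]; field_simp
  rw [hd, norm_mul]
  exact mul_le_mul_of_nonneg_left hnl (norm_nonneg _)

/-- near a zero -/
lemma near_zero {h : ℂ → ℂ} (hh : Differentiable ℂ h) {S₁ : ℝ} (hS : ∀ z : ℂ, ‖z‖ ≤ 2 → ‖h z‖ ≤ S₁) {x v : ℂ}
    (hx : ‖x‖ ≤ 1) (hv : h v = 0) : ‖h x‖ ≤ 2 * S₁ * ‖x - v‖ := by
  have hS0 : 0 ≤ S₁ := (norm_nonneg _).trans (hS 0 (by simp))
  rcases le_or_gt (1 / 2) ‖x - v‖ with h1 | h1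
  · have := hS x (by linarith)
    nlinarith
  · have hv2 : ‖v‖ ≤ 3 / 2 := by
      have : ‖v‖ ≤ ‖x‖ + ‖x - v‖ := by
        have e : v = x - (x - v) := by ring
        calc ‖v‖ = ‖x - (x - v)‖ := by rw [← e]
          _ ≤ _ := norm_sub_le _ _
      linarith
    have hder : ∀ z ∈ closedBall (0:ℂ) (3 / 2), ‖deriv h z‖ ≤ 2 * S₁ := by
      intro z hz
      rw [mem_closedBall_zero_iff] at hz
      have h2 := Complex.norm_deriv_le_of_forall_mem_sphere_norm_le (c := z) (R := 1 / 2) (C := S₁) (f := h)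
        (by norm_num) hh.diffContOnCl fun y hy => hS y (by
          rw [mem_sphere_iff_norm] at hy
          have e : y = z + (y - z) := by ring
          rw [e]
          refine (norm_add_le _ _).trans ?_
          linarith)
      refine h2.trans (le_of_eq ?_)
      ring
    have h3 := (convex_closedBall (0:ℂ) (3 / 2)).norm_image_sub_le_of_norm_deriv_le
      (fun z _ => hh z) hder (x := v) (y := x) (by rwa [mem_closedBall_zero_iff])
      (by rw [mem_closedBall_zero_iff]; linarith)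
    rwa [hv, sub_zero] at h3

/-- **the local inequality with a negative exponent** -/
theorem neg_core {p q : ℝ} (hp : 0 < p) (hpq : p < q) (hq : q < p + 1) : ∃ C : ℝ, 0 < C ∧
    ∀ h : ℂ → ℂ, Differentiable ℂ h → ∀ S : ℝ, (∀ w : ℂ, ‖w‖ ≤ 14 → ‖h w‖ ≤ S) →
      IntervalIntegrable (fun x : ℝ => ‖deriv h x‖ ^ q * ‖h x‖ ^ (p - q)) volume (-1) 1 ∧
      ∫ x in (-1:ℝ)..1, ‖deriv h x‖ ^ q * ‖h x‖ ^ (p - q) ≤ C * S ^ p := by
  have hq0 : 0 < q := by linarith
  obtain ⟨cr, hcr⟩ : ∃ cr : ℝ, cr = 2 + 2 / (1 - (q - p)) := ⟨_, rfl⟩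
  have hcr0 : 0 < cr := by
    rw [hcr]
    have : 0 < 1 - (q - p) := by linarith
    positivity
  obtain ⟨a, ha⟩ : ∃ a : ℝ, a = 2 * q + 1 := ⟨_, rfl⟩
  have ha0 : 0 < a := by rw [ha]; linarith
  obtain ⟨C₅, hC₅⟩ : ∃ C₅ : ℝ, C₅ = 2 ^ q * (2 ^ p * (2 * cr) + 2 * 28 ^ q) := ⟨_, rfl⟩
  have hC₅0 : 0 < C₅ := by rw [hC₅]; positivity
  obtain ⟨C₆, hC₆⟩ : ∃ C₆ : ℝ, C₆ = (a / p) ^ a * Real.exp p := ⟨_, rfl⟩
  have hC₆0 : 0 < C₆ := by rw [hC₆]; positivity
  refine ⟨C₅ * C₆, by positivity, fun h hh S hS => ?_⟩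
  have hS0 : 0 ≤ S := (norm_nonneg _).trans (hS 0 (by simp))
  have hSp : 0 ≤ S ^ p := Real.rpow_nonneg hS0 _
  obtain ⟨w₀, hw₀, hmax⟩ := (isCompact_closedBall (0:ℂ) 2).exists_isMaxOn ⟨0, by simp⟩ hh.continuous.norm.continuousOn
  rw [mem_closedBall_zero_iff] at hw₀
  obtain ⟨S₁, hS₁⟩ : ∃ S₁ : ℝ, S₁ = ‖h w₀‖ := ⟨_, rfl⟩
  have hS1 : ∀ z : ℂ, ‖z‖ ≤ 2 → ‖h z‖ ≤ S₁ := by
    intro z hz
    rw [hS₁]
    exact hmax (by rwa [mem_closedBall_zero_iff])
  have hS₁0 : 0 ≤ S₁ := by rw [hS₁]; exact norm_nonneg _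
  have hxn : ∀ x : ℝ, x ∈ Icc (-1:ℝ) 1 → ‖(x:ℂ)‖ ≤ 1 := by
    intro x hx
    rw [Complex.norm_real, Real.norm_eq_abs, abs_le]
    exact ⟨hx.1, hx.2⟩
  have hmeas : Measurable fun x : ℝ => ‖deriv h x‖ ^ q * ‖h x‖ ^ (p - q) := by
    have h1 : Continuous fun x : ℝ => ‖deriv h x‖ := by
      have : Continuous (deriv h) := (hh.deriv).continuous
      exact (this.comp Complex.continuous_ofReal).norm
    have h2 : Continuous fun x : ℝ => ‖h x‖ := (hh.continuous.comp Complex.continuous_ofReal).norm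
    exact (h1.measurable.pow_const q).mul (h2.measurable.pow_const (p - q))
  rcases hS₁0.eq_or_lt with hz | hpos
  · have hzero : ∀ x ∈ uIcc (-1:ℝ) 1, ‖deriv h x‖ ^ q * ‖h x‖ ^ (p - q) = 0 := by
      intro x hx
      rw [uIcc_of_le (by norm_num)] at hx
      have h1 := hS1 x (by linarith [hxn x hx])
      rw [← hz] at h1
      have h2 : ‖h x‖ = 0 := le_antisymm h1 (norm_nonneg _)
      rw [h2, Real.zero_rpow (by linarith), mul_zero]
    constructor
    · refine (by simp : IntervalIntegrable (fun _ : ℝ => (0:ℝ)) volume (-1) 1).congr fun x hx => ?_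
      exact (hzero x (uIoc_subset_uIcc hx)).symm
    · rw [intervalIntegral.integral_congr (g := fun _ => (0:ℝ)) (fun x hx => hzero x hx)]
      simp only [intervalIntegral.integral_zero]
      positivity
  · have hc : h w₀ ≠ 0 := by
      rw [← norm_pos_iff, ← hS₁]; exact hpos
    have hSS : S₁ ≤ S := by rw [hS₁]; exact hS w₀ (by linarith)
    have hSpos : 0 < S := by linarith
    obtain ⟨m, hm⟩ : ∃ m : ℝ, m = Real.log (S / S₁) := ⟨_, rfl⟩
    have hm0 : 0 ≤ m := by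
      rw [hm]
      exact Real.log_nonneg (by rwa [one_le_div hpos])
    have hem : Real.exp m = S / S₁ := by rw [hm, Real.exp_log (by positivity)]
    obtain ⟨k, hk⟩ : ∃ k : ℂ → ℂ, k = fun w => h (w₀ + w) / h w₀ := ⟨_, rfl⟩
    have hkd : Differentiable ℂ k := by
      rw [hk]
      exact (hh.comp (by fun_prop : Differentiable ℂ fun w : ℂ => w₀ + w)).div_const _
    have hk0 : 1 ≤ ‖k 0‖ := by
      rw [hk]
      simp only [add_zero]
      rw [div_self hc, norm_one]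
    have hkb : ∀ w : ℂ, ‖w‖ ≤ 3 * 4 → ‖k w‖ ≤ Real.exp m := by
      intro w hw
      rw [hk, hem]
      simp only
      rw [norm_div, ← hS₁]
      apply div_le_div_of_nonneg_right _ hpos.le
      apply hS
      refine (norm_add_le _ _).trans ?_
      linarith
    obtain ⟨n, u, g, hF, hgz⟩ := factor hkd (r := 4) (by norm_num) hk0 hkb
    have hn := hF.count (by norm_num) hk0 hkb
    have hn2 : (n:ℝ) ≤ 2 * m := by
      have h1 := Real.log_two_gt_d9
      have h2 : (0:ℝ) ≤ n := Nat.cast_nonneg n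
      nlinarith
    have hdk : ∀ w : ℂ, deriv k w = deriv h (w₀ + w) / h w₀ := by
      intro w
      rw [hk, deriv_div_const, deriv_comp_const_add]
    obtain ⟨B, hB⟩ : ∃ B : ℝ, B = 28 * (m + 1) := ⟨_, rfl⟩
    have hB0 : 0 < B := by rw [hB]; positivity
    obtain ⟨G, hG⟩ : ∃ G : ℝ → ℝ, G = fun x : ℝ => ((n:ℝ) + 1) ^ q * S₁ ^ p *
      (2 ^ p * ∑ i ∈ Finset.range n, ‖(x:ℂ) - (w₀ + u i)‖ ^ (-(q - p)) + B ^ q) := ⟨_, rfl⟩
    have hG0 : ∀ x, 0 ≤ G x := by
      intro x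
      rw [hG]
      simp only
      have : 0 ≤ ∑ i ∈ Finset.range n, ‖(x:ℂ) - (w₀ + u i)‖ ^ (-(q - p)) :=
        Finset.sum_nonneg fun i _ => Real.rpow_nonneg (norm_nonneg _) _
      positivity
    have hpt : ∀ x ∈ Icc (-1:ℝ) 1, ‖deriv h x‖ ^ q * ‖h x‖ ^ (p - q) ≤ G x := by
      intro x hx
      have hx1 := hxn x hx
      rcases eq_or_ne (h x) 0 with h0 | h0
      · rw [h0, norm_zero, Real.zero_rpow (by linarith), mul_zero]
        exact hG0 x
      have hH : 0 < ‖h x‖ := norm_pos_iff.2 h0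
      have hHS : ‖h x‖ ≤ S₁ := hS1 x (by linarith)
      have hw : ‖(x:ℂ) - w₀‖ ≤ 3 := (norm_sub_le _ _).trans (by linarith)
      have e1 : w₀ + ((x:ℂ) - w₀) = x := by ring
      have hkx : k ((x:ℂ) - w₀) = h x / h w₀ := by rw [hk]; simp only [e1]
      have h1 := fact_der hF hgz hk0 hkb hm0 hw (by rw [hkx]; exact div_ne_zero h0 hc)
      rw [hdk, hkx, e1, norm_div, norm_div, ← hS₁, ← hB] at h1
      obtain ⟨Sg, hSg⟩ : ∃ Sg : ℝ, Sg = ∑ i ∈ Finset.range n, ‖(x:ℂ) - w₀ - u i‖⁻¹ := ⟨_, rfl⟩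
      rw [← hSg] at h1
      have h2 : ‖deriv h x‖ ≤ ‖h x‖ * (Sg + B) := by
        rw [div_mul_eq_mul_div, div_le_div_iff_of_pos_right hpos] at h1
        exact h1
      have hSg0 : 0 ≤ Sg := by
        rw [hSg]
        exact Finset.sum_nonneg fun i _ => inv_nonneg.2 (norm_nonneg _)
      have h3 : ‖deriv h x‖ ^ q * ‖h x‖ ^ (p - q) ≤ ‖h x‖ ^ p * (Sg + B) ^ q := by
        have h4 := Real.rpow_le_rpow (norm_nonneg _) h2 hq0.le
        rw [Real.mul_rpow hH.le (by positivity)] at h4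
        calc ‖deriv h x‖ ^ q * ‖h x‖ ^ (p - q) ≤ ‖h x‖ ^ q * (Sg + B) ^ q * ‖h x‖ ^ (p - q) :=
              mul_le_mul_of_nonneg_right h4 (by positivity)
          _ = ‖h x‖ ^ q * ‖h x‖ ^ (p - q) * (Sg + B) ^ q := by ring
          _ = _ := by rw [← Real.rpow_add hH]; congr 2; ring
      have h4 : (Sg + B) ^ q ≤ (n + 1) ^ q * (∑ i ∈ Finset.range n, (‖(x:ℂ) - w₀ - u i‖⁻¹) ^ q + B ^ q) := by
        rw [hSg]
        exact sum_rpow hq0 hB0.le _ fun i _ => inv_nonneg.2 (norm_nonneg _)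
      have h5 : ∀ i ∈ Finset.range n, ‖h x‖ ^ p * (‖(x:ℂ) - w₀ - u i‖⁻¹) ^ q ≤
          S₁ ^ p * (2 ^ p * ‖(x:ℂ) - (w₀ + u i)‖ ^ (-(q - p))) := by
        intro i hi
        have e2 : (x:ℂ) - w₀ - u i = x - (w₀ + u i) := by ring
        rw [e2]
        have hv : h (w₀ + u i) = 0 := by
          have h6 : k (u i) = 0 := by
            rw [hF.2.2 (u i), Finset.prod_eq_zero hi (sub_self _), zero_mul]
          rw [hk] at h6
          simp only at h6
          exact (div_eq_zero_iff.1 h6).resolve_right hc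
        have h7 := near_zero hh hS1 hx1 hv
        have hd : 0 < ‖(x:ℂ) - (w₀ + u i)‖ := by
          rw [norm_pos_iff, sub_ne_zero]
          intro h8
          exact h0 (by rw [h8]; exact hv)
        obtain ⟨d, hdd⟩ : ∃ d : ℝ, d = ‖(x:ℂ) - (w₀ + u i)‖ := ⟨_, rfl⟩
        rw [← hdd] at h7 hd ⊢
        have h8 := Real.rpow_le_rpow hH.le h7 hp.le
        rw [Real.mul_rpow (by positivity) hd.le, Real.mul_rpow (by norm_num) hS₁0] at h8
        have h9 : (d⁻¹) ^ q = d ^ (-q) := by rw [Real.inv_rpow hd.le, Real.rpow_neg hd.le]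
        have h10 : d ^ (-(q - p)) = d ^ p * d ^ (-q) := by
          rw [← Real.rpow_add hd]; congr 1; ring
        rw [h9, h10]
        calc ‖h x‖ ^ p * d ^ (-q) ≤ 2 ^ p * S₁ ^ p * d ^ p * d ^ (-q) :=
              mul_le_mul_of_nonneg_right h8 (by positivity)
          _ = _ := by ring
      have h6 : ‖h x‖ ^ p * B ^ q ≤ S₁ ^ p * B ^ q :=
        mul_le_mul_of_nonneg_right (Real.rpow_le_rpow hH.le hHS hp.le) (by positivity)
      rw [hG]
      simp only
      calc ‖deriv h x‖ ^ q * ‖h x‖ ^ (p - q) ≤ ‖h x‖ ^ p * (Sg + B) ^ q := h3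
        _ ≤ ‖h x‖ ^ p * ((n + 1) ^ q * (∑ i ∈ Finset.range n, (‖(x:ℂ) - w₀ - u i‖⁻¹) ^ q + B ^ q)) :=
            mul_le_mul_of_nonneg_left h4 (by positivity)
        _ = (n + 1) ^ q * (∑ i ∈ Finset.range n, ‖h x‖ ^ p * (‖(x:ℂ) - w₀ - u i‖⁻¹) ^ q + ‖h x‖ ^ p * B ^ q) := by
            rw [← Finset.mul_sum]; ring
        _ ≤ (n + 1) ^ q * (∑ i ∈ Finset.range n, S₁ ^ p * (2 ^ p * ‖(x:ℂ) - (w₀ + u i)‖ ^ (-(q - p))) +
              S₁ ^ p * B ^ q) := by
            apply mul_le_mul_of_nonneg_left _ (by positivity)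
            exact add_le_add (Finset.sum_le_sum h5) h6
        _ = _ := by
            rw [← Finset.mul_sum, ← Finset.mul_sum]; ring
    have hsing : ∀ i ∈ Finset.range n, IntervalIntegrable (fun x : ℝ => ‖(x:ℂ) - (w₀ + u i)‖ ^ (-(q - p))) volume (-1) 1 :=
      fun i _ => (sing_int (by linarith) (by linarith) _).1
    have hsumI : IntervalIntegrable (fun x : ℝ => ∑ i ∈ Finset.range n, ‖(x:ℂ) - (w₀ + u i)‖ ^ (-(q - p))) volume (-1) 1 := by
      have h1 := IntervalIntegrable.sum (Finset.range n) hsing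
      refine h1.congr fun x _ => ?_
      rw [Finset.sum_apply]
    have hGI : IntervalIntegrable G volume (-1) 1 := by
      rw [hG]
      exact ((hsumI.const_mul _).add (by simp)).const_mul _
    have hfI : IntervalIntegrable (fun x : ℝ => ‖deriv h x‖ ^ q * ‖h x‖ ^ (p - q)) volume (-1) 1 := by
      refine hGI.mono_fun hmeas.aestronglyMeasurable ?_
      rw [uIoc_of_le (by norm_num), EventuallyLE, ae_restrict_iff' measurableSet_Ioc]
      refine Eventually.of_forall fun x hx => ?_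
      rw [Real.norm_of_nonneg (by positivity), Real.norm_of_nonneg (hG0 x)]
      exact hpt x ⟨hx.1.le, hx.2⟩
    refine ⟨hfI, ?_⟩
    refine (intervalIntegral.integral_mono_on (by norm_num) hfI hGI hpt).trans ?_
    have hGint : ∫ x in (-1:ℝ)..1, G x ≤ (n + 1) ^ q * S₁ ^ p * (2 ^ p * (n * cr) + 2 * B ^ q) := by
      rw [hG, intervalIntegral.integral_const_mul]
      apply mul_le_mul_of_nonneg_left _ (by positivity)
      rw [intervalIntegral.integral_add (hsumI.const_mul _) (by simp), intervalIntegral.integral_const_mul]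
      apply add_le_add
      · apply mul_le_mul_of_nonneg_left _ (by positivity)
        rw [intervalIntegral.integral_finsetSum hsing]
        have : ∑ i ∈ Finset.range n, (∫ x in (-1:ℝ)..1, ‖(x:ℂ) - (w₀ + u i)‖ ^ (-(q - p))) ≤
            ∑ _i ∈ Finset.range n, cr := Finset.sum_le_sum fun i _ => by
          rw [hcr]
          exact (sing_int (by linarith) (by linarith) _).2
        simpa using this
      · rw [intervalIntegral.integral_const, smul_eq_mul]; norm_num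
    refine hGint.trans ?_
    -- numbers
    obtain ⟨y, hy⟩ : ∃ y : ℝ, y = m + 1 := ⟨_, rfl⟩
    have hy1 : 1 ≤ y := by rw [hy]; linarith
    have hn3 : (n:ℝ) ≤ 2 * y := by rw [hy]; linarith
    have hn4 : (n:ℝ) + 1 ≤ 2 * y := by rw [hy]; linarith
    have hyq : y ≤ y ^ (q + 1) := by
      calc y = y ^ (1:ℝ) := (Real.rpow_one y).symm
        _ ≤ _ := Real.rpow_le_rpow_of_exponent_le hy1 (by linarith)
    have hyq2 : y ^ q ≤ y ^ (q + 1) := Real.rpow_le_rpow_of_exponent_le hy1 (by linarith)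
    have k1 : ((n:ℝ) + 1) ^ q ≤ 2 ^ q * y ^ q := by
      rw [← Real.mul_rpow (by norm_num) (by linarith)]
      exact Real.rpow_le_rpow (by positivity) hn4 hq0.le
    have k2 : 2 ^ p * (n * cr) + 2 * B ^ q ≤ (2 ^ p * (2 * cr) + 2 * 28 ^ q) * y ^ (q + 1) := by
      have k3 : B ^ q = 28 ^ q * y ^ q := by
        rw [hB, ← hy, Real.mul_rpow (by norm_num) (by linarith)]
      rw [k3, add_mul]
      apply add_le_add
      · calc 2 ^ p * (n * cr) ≤ 2 ^ p * (2 * y * cr) := by gcongr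
          _ = 2 ^ p * (2 * cr) * y := by ring
          _ ≤ _ := mul_le_mul_of_nonneg_left hyq (by positivity)
      · calc 2 * (28 ^ q * y ^ q) = 2 * 28 ^ q * y ^ q := by ring
          _ ≤ _ := mul_le_mul_of_nonneg_left hyq2 (by positivity)
    have k4 : ((n:ℝ) + 1) ^ q * S₁ ^ p * (2 ^ p * (n * cr) + 2 * B ^ q) ≤ C₅ * y ^ a * S₁ ^ p := by
      calc ((n:ℝ) + 1) ^ q * S₁ ^ p * (2 ^ p * (n * cr) + 2 * B ^ q)
          ≤ 2 ^ q * y ^ q * S₁ ^ p * ((2 ^ p * (2 * cr) + 2 * 28 ^ q) * y ^ (q + 1)) := by gcongr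
        _ = C₅ * (y ^ q * y ^ (q + 1)) * S₁ ^ p := by rw [hC₅]; ring
        _ = _ := by
            rw [← Real.rpow_add (by linarith), ha]
            congr 3; ring
    refine k4.trans ?_
    have k5 : S₁ ^ p = S ^ p * Real.exp (-(p * m)) := by
      have k6 : S₁ = S * Real.exp (-m) := by
        rw [Real.exp_neg, hem]; field_simp
      rw [k6, Real.mul_rpow hS0 (Real.exp_pos _).le, ← Real.exp_mul]
      congr 2; ring
    have k7 : y ^ a * Real.exp (-(p * m)) ≤ C₆ := by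
      have k8 : y ≤ a / p * Real.exp (p * y / a) := by
        have k9 : p * y / a ≤ Real.exp (p * y / a) := by
          have := Real.add_one_le_exp (p * y / a)
          linarith
        calc y = a / p * (p * y / a) := by field_simp
          _ ≤ _ := mul_le_mul_of_nonneg_left k9 (by positivity)
      have k10 := Real.rpow_le_rpow (by linarith) k8 ha0.le
      rw [Real.mul_rpow (by positivity) (Real.exp_pos _).le, ← Real.exp_mul] at k10
      have k11 : p * y / a * a = p * y := by field_simp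
      rw [k11] at k10
      calc y ^ a * Real.exp (-(p * m)) ≤ (a / p) ^ a * Real.exp (p * y) * Real.exp (-(p * m)) :=
            mul_le_mul_of_nonneg_right k10 (Real.exp_pos _).le
        _ = (a / p) ^ a * (Real.exp (p * y) * Real.exp (-(p * m))) := by ring
        _ = C₆ := by
            rw [← Real.exp_add, hC₆, hy]
            congr 2; ring
    rw [k5]
    calc C₅ * y ^ a * (S ^ p * Real.exp (-(p * m))) = C₅ * (y ^ a * Real.exp (-(p * m))) * S ^ p := by ring
      _ ≤ C₅ * C₆ * S ^ p := by gcongr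

end Pool.Agent.Helper156_SP
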