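import Mathlib
import Pool.Agent.Helper156_SP.Neg2
import Pool.Agent.Helper156_SP.Der12

set_option autoImplicit false

/-!
# Joint moments of zeta and its derivative with a negative exponent: short intervals
-/

open Complex Set MeasureTheory Filter Topology Metric

namespace Pool.Agent.Helper156_SP

/-- the integrand -/
noncomputable def XX2 (p q u : ℝ) : ℝ :=
  ‖deriv riemannZeta (1 / 2 + u * I)‖ ^ q * ‖riemannZeta (1 / 2 + u * I)‖ ^ (p - q)

lemma XX2_nonneg (p q u : ℝ) : 0 ≤ XX2 p q u := by unfold XX2; positivity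

lemma add_rpow_two {a b q : ℝ} (ha : 0 ≤ a) (hb : 0 ≤ b) (hq : 0 < q) : (a + b) ^ q ≤ 2 ^ q * (a ^ q + b ^ q) := by
  have h1 : a + b ≤ 2 * max a b := by
    have := le_max_left a b
    have := le_max_right a b
    linarith
  have h2 := Real.rpow_le_rpow (by positivity) h1 hq.le
  rw [Real.mul_rpow (by norm_num) (le_max_of_le_left ha)] at h2
  refine h2.trans (mul_le_mul_of_nonneg_left ?_ (by positivity))
  have h3 : 0 ≤ a ^ q := Real.rpow_nonneg ha _
  have h4 : 0 ≤ b ^ q := Real.rpow_nonneg hb _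
  rcases max_choice a b with h | h
  · rw [h]; linarith
  · rw [h]; linarith

open Pool.Agent.TH804.MS in
lemma neg_unit {p q : ℝ} (hp : 0 < p) (hpq : p < q) (hq : q < p + 1) : ∃ C : ℝ, 0 < C ∧
    ∀ t L S : ℝ, 8 ≤ t → 1 ≤ L → (∀ z : ℂ, ‖z‖ ≤ 14 / L → ‖F t z‖ ≤ S) →
      IntervalIntegrable (XX2 p q) volume t (t + 1 / L) ∧
      ∫ u in t..(t + 1 / L), XX2 p q u ≤ C * (L ^ (q - 1) * S ^ p) := by
  obtain ⟨C, hC, hcore⟩ := neg_core hp hpq hq
  have hq0 : 0 < q := by linarith
  obtain ⟨C', hC'⟩ : ∃ C' : ℝ, C' = 2 ^ q * 2 ^ (q - p) := ⟨_, rfl⟩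
  have hC'0 : 0 < C' := by rw [hC']; positivity
  refine ⟨C' * (C + 1), by positivity, fun t L S ht hL hS => ?_⟩
  have hL0 : 0 < L := by linarith
  have ht0 : 0 < t := by linarith
  have hLc : (L : ℂ) ≠ 0 := by exact_mod_cast hL0.ne'
  have htc : (t : ℂ) ≠ 0 := by exact_mod_cast ht0.ne'
  have hS0 : 0 ≤ S := (norm_nonneg _).trans (hS 0 (by rw [norm_zero]; positivity))
  have hSp : 0 ≤ S ^ p := Real.rpow_nonneg hS0 _
  obtain ⟨h, hh⟩ : ∃ h : ℂ → ℂ, h = fun w : ℂ => F t (I * w / L) := ⟨_, rfl⟩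
  have hhd : Differentiable ℂ h := by
    rw [hh]
    exact (F_diff t).comp (by fun_prop : Differentiable ℂ fun w : ℂ => I * w / L)
  have hhS : ∀ w : ℂ, ‖w‖ ≤ 14 → ‖h w‖ ≤ S := by
    intro w hw
    rw [hh]
    apply hS
    rw [norm_div, norm_mul, Complex.norm_I, one_mul, Complex.norm_real, Real.norm_eq_abs, abs_of_pos hL0]
    exact div_le_div_of_nonneg_right hw hL0.le
  obtain ⟨hI, hint⟩ := hcore h hhd S hhS
  obtain ⟨Y, hY⟩ : ∃ Y : ℝ → ℝ, Y = fun x : ℝ => ‖deriv h x‖ ^ q * ‖h x‖ ^ (p - q) := ⟨_, rfl⟩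
  rw [← hY] at hI hint
  have hY0 : ∀ x, 0 ≤ Y x := by intro x; rw [hY]; positivity
  have hI01 : IntervalIntegrable Y volume 0 1 := hI.mono_set (by
    rw [uIcc_of_le (by norm_num), uIcc_of_le (by norm_num)]
    exact Icc_subset_Icc (by norm_num) (le_refl _))
  have hint01 : ∫ x in (0:ℝ)..1, Y x ≤ C * S ^ p := by
    refine le_trans ?_ hint
    have h1 := intervalIntegral.integral_add_adjacent_intervals
      (hI.mono_set (by
        rw [uIcc_of_le (by norm_num), uIcc_of_le (by norm_num)]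
        exact Icc_subset_Icc (le_refl _) (by norm_num)) : IntervalIntegrable Y volume (-1) 0) hI01
    have h2 : 0 ≤ ∫ x in (-1:ℝ)..0, Y x := intervalIntegral.integral_nonneg (by norm_num) fun x _ => hY0 x
    linarith
  have hYc : IntervalIntegrable (fun u : ℝ => Y (L * (u - t))) volume t (t + 1 / L) := by
    have h1 := (hI01.comp_mul_left (c := L)).comp_sub_right t
    have e1 : 0 / L + t = t := by rw [zero_div, zero_add]
    have e2 : 1 / L + t = t + 1 / L := by ring
    rw [e1, e2] at h1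
    exact h1
  have hYi : ∫ u in t..(t + 1 / L), Y (L * (u - t)) ≤ L⁻¹ * (C * S ^ p) := by
    have h1 : ∫ u in t..(t + 1 / L), Y (L * (u - t)) = ∫ v in (0:ℝ)..(1 / L), Y (L * v) := by
      rw [intervalIntegral.integral_comp_sub_right (fun v => Y (L * v)) t]
      congr 1 <;> ring
    rw [h1, intervalIntegral.integral_comp_mul_left (fun v => Y v) hL0.ne', mul_zero, smul_eq_mul]
    have e : L * (1 / L) = 1 := by field_simp
    rw [e]
    exact mul_le_mul_of_nonneg_left hint01 (by positivity)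
  obtain ⟨Z, hZ⟩ : ∃ Z : ℝ → ℝ, Z = fun u => C' * (L ^ q * Y (L * (u - t)) + S ^ p) := ⟨_, rfl⟩
  have hZI : IntervalIntegrable Z volume t (t + 1 / L) := by
    rw [hZ]
    exact ((hYc.const_mul _).add (by simp)).const_mul _
  have hZ0 : ∀ u, 0 ≤ Z u := by
    intro u
    rw [hZ]
    simp only
    have := hY0 (L * (u - t))
    positivity
  have hpt : ∀ u ∈ Icc t (t + 1 / L), XX2 p q u ≤ Z u := by
    intro u hu
    obtain ⟨x, hx⟩ : ∃ x : ℝ, x = L * (u - t) := ⟨_, rfl⟩
    have hx0 : 0 ≤ x := by rw [hx]; exact mul_nonneg hL0.le (by linarith [hu.1])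
    have hx1 : x ≤ 1 := by
      rw [hx]
      have h1 : u - t ≤ 1 / L := by linarith [hu.2]
      calc L * (u - t) ≤ L * (1 / L) := mul_le_mul_of_nonneg_left h1 hL0.le
        _ = 1 := by field_simp
    have hux : u = t + x / L := by rw [hx]; field_simp; ring
    obtain ⟨s, hs⟩ : ∃ s : ℂ, s = 1 / 2 + (u : ℂ) * I := ⟨_, rfl⟩
    have hψ : ∀ w : ℂ, h w = riemannZeta₁ (1 / 2 + t * I + I * w / L) / t := by
      intro w; rw [hh]; rfl
    have hsx : (1 / 2 + (t:ℂ) * I + I * (x:ℂ) / L) = s := by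
      rw [hs, hux]; push_cast; ring
    have hsim : s.im = u := by rw [hs]; simp
    have hu8 : 8 ≤ u := by linarith [hu.1]
    have hs1 : s ≠ 1 := by
      intro h1
      rw [h1] at hsim
      simp at hsim
      linarith
    have hζd : HasDerivAt riemannZeta (deriv riemannZeta s) s := (differentiableAt_riemannZeta hs1).hasDerivAt
    have hder : deriv h x = ((I / L) * riemannZeta s + (s - 1) * (deriv riemannZeta s * (I / L))) / t := by
      have h1 : HasDerivAt (fun w : ℂ => 1 / 2 + (t:ℂ) * I + I * w / L) (I / L) (x:ℂ) := by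
        have h2 : HasDerivAt (fun w : ℂ => I * w / L) (I / L) (x:ℂ) := by
          have h3 := ((hasDerivAt_id (x:ℂ)).const_mul I).div_const (L:ℂ)
          simpa using h3
        exact h2.const_add _
      have h2 : HasDerivAt (fun w : ℂ => riemannZeta (1 / 2 + (t:ℂ) * I + I * w / L))
          (deriv riemannZeta s * (I / L)) (x:ℂ) := by
        have h3 := HasDerivAt.comp (h₂ := riemannZeta) (x:ℂ) (by rw [hsx]; exact hζd) h1
        exact h3
      have h3 : HasDerivAt (fun w : ℂ => ((1 / 2 + (t:ℂ) * I + I * w / L) - 1) *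
          riemannZeta (1 / 2 + (t:ℂ) * I + I * w / L) / t)
          (((I / L) * riemannZeta s + (s - 1) * (deriv riemannZeta s * (I / L))) / t) (x:ℂ) := by
        have h4 := ((h1.sub_const 1).mul h2).div_const (t:ℂ)
        rw [hsx] at h4
        exact h4
      have h5 : h =ᶠ[𝓝 (x:ℂ)] fun w : ℂ => ((1 / 2 + (t:ℂ) * I + I * w / L) - 1) *
          riemannZeta (1 / 2 + (t:ℂ) * I + I * w / L) / t := by
        have h6 : ∀ᶠ w : ℂ in 𝓝 (x:ℂ), 1 / 2 + (t:ℂ) * I + I * w / L ≠ 1 := by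
          have h7 : ContinuousAt (fun w : ℂ => 1 / 2 + (t:ℂ) * I + I * w / L) (x:ℂ) := h1.continuousAt
          exact h7.eventually_ne (by rw [hsx]; exact hs1)
        filter_upwards [h6] with w hw
        rw [hψ w, z1_ne hw]
      exact (h3.congr_of_eventuallyEq h5).deriv
    have hhx : h x = (s - 1) * riemannZeta s / t := by
      rw [hψ, hsx, z1_ne hs1]
    have hn1 : t ≤ ‖s - 1‖ := by
      have h1 := Complex.abs_im_le_norm (s - 1)
      rw [Complex.sub_im, hsim, Complex.one_im, sub_zero, abs_of_pos (by linarith)] at h1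
      linarith [hu.1]
    have hn2 : ‖s - 1‖ ≤ 2 * t := by
      have e : s - 1 = -1 / 2 + (u:ℂ) * I := by rw [hs]; ring
      rw [e]
      refine (norm_add_le _ _).trans ?_
      rw [norm_mul, Complex.norm_I, mul_one, Complex.norm_real, Real.norm_eq_abs, abs_of_pos (by linarith)]
      have h1 : ‖(-1 / 2 : ℂ)‖ = 1 / 2 := by
        rw [norm_div, norm_neg, norm_one]; simp
      rw [h1]
      have h2 : 1 / L ≤ 1 := by rw [div_le_one hL0]; exact hL
      linarith [hu.2]
    have hIL : ‖(I / L : ℂ)‖ = 1 / L := by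
      rw [norm_div, Complex.norm_I, Complex.norm_real, Real.norm_eq_abs, abs_of_pos hL0]
    have hhn : ‖h x‖ = ‖s - 1‖ * ‖riemannZeta s‖ / t := by
      rw [hhx, norm_div, norm_mul, Complex.norm_real, Real.norm_eq_abs, abs_of_pos ht0]
    obtain ⟨ζn, hζn⟩ : ∃ ζn : ℝ, ζn = ‖riemannZeta s‖ := ⟨_, rfl⟩
    have hζ0 : 0 ≤ ζn := by rw [hζn]; exact norm_nonneg _
    rw [← hζn] at hhn
    have hz1 : ζn ≤ ‖h x‖ := by
      rw [hhn, le_div_iff₀ ht0]
      nlinarith
    have hz2 : ‖h x‖ / 2 ≤ ζn := by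
      rw [hhn, div_div, div_le_iff₀ (by positivity)]
      nlinarith
    have hd1 : ‖deriv riemannZeta s‖ ≤ L * ‖deriv h x‖ + ‖h x‖ := by
      have e : (s - 1) * deriv riemannZeta s = L * t * (deriv h x) / I - riemannZeta s := by
        rw [hder]
        field_simp
        ring
      have h1 : ‖s - 1‖ * ‖deriv riemannZeta s‖ ≤ L * t * ‖deriv h x‖ + ζn := by
        rw [← norm_mul, e]
        refine (norm_sub_le _ _).trans ?_
        rw [norm_div, norm_mul, norm_mul, Complex.norm_I, div_one, Complex.norm_real, Complex.norm_real,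
          Real.norm_eq_abs, Real.norm_eq_abs, abs_of_pos hL0, abs_of_pos ht0, hζn]
      have h2 : t * ‖deriv riemannZeta s‖ ≤ t * (L * ‖deriv h x‖ + ‖h x‖) := by
        have h3 : t * ‖deriv riemannZeta s‖ ≤ ‖s - 1‖ * ‖deriv riemannZeta s‖ :=
          mul_le_mul_of_nonneg_right hn1 (norm_nonneg _)
        have h4 : ‖h x‖ ≤ t * ‖h x‖ := le_mul_of_one_le_left (norm_nonneg _) (by linarith)
        nlinarith
      exact le_of_mul_le_mul_left h2 ht0
    have hXe : XX2 p q u = ‖deriv riemannZeta s‖ ^ q * ζn ^ (p - q) := by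
      unfold XX2; rw [hζn, hs]
    rw [hXe, hZ]
    simp only
    rw [← hx, hY]
    simp only
    rcases eq_or_lt_of_le (norm_nonneg (h x)) with h0 | h0
    · have h1 : ζn = 0 := le_antisymm (by rw [h0]; exact hz1) hζ0
      rw [h1, Real.zero_rpow (by linarith), mul_zero]
      positivity
    · have h1 : ζn ^ (p - q) ≤ 2 ^ (q - p) * ‖h x‖ ^ (p - q) := by
        have h2 := Real.rpow_le_rpow_of_nonpos (by positivity : 0 < ‖h x‖ / 2) hz2 (by linarith : p - q ≤ 0)
        refine h2.trans (le_of_eq ?_)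
        rw [Real.div_rpow h0.le (by norm_num), div_eq_mul_inv, ← Real.rpow_neg (by norm_num)]
        have e : -(p - q) = q - p := by ring
        rw [e, mul_comm]
      have h2 := (Real.rpow_le_rpow (norm_nonneg _) hd1 hq0.le).trans
        (add_rpow_two (by positivity : 0 ≤ L * ‖deriv h x‖) h0.le hq0)
      rw [Real.mul_rpow hL0.le (norm_nonneg _)] at h2
      have h3 : ‖h x‖ ^ q * ‖h x‖ ^ (p - q) = ‖h x‖ ^ p := by
        rw [← Real.rpow_add h0]; congr 1; ring
      have h4 : ‖h x‖ ^ p ≤ S ^ p := by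
        apply Real.rpow_le_rpow h0.le _ hp.le
        apply hhS
        rw [Complex.norm_real, Real.norm_eq_abs, abs_of_nonneg hx0]
        linarith
      calc ‖deriv riemannZeta s‖ ^ q * ζn ^ (p - q)
          ≤ 2 ^ q * (L ^ q * ‖deriv h x‖ ^ q + ‖h x‖ ^ q) * (2 ^ (q - p) * ‖h x‖ ^ (p - q)) :=
            mul_le_mul h2 h1 (by positivity) (by positivity)
        _ = C' * (L ^ q * (‖deriv h x‖ ^ q * ‖h x‖ ^ (p - q)) + ‖h x‖ ^ q * ‖h x‖ ^ (p - q)) := by
            rw [hC']; ring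
        _ ≤ C' * (L ^ q * (‖deriv h x‖ ^ q * ‖h x‖ ^ (p - q)) + S ^ p) := by
            rw [h3]; gcongr
  have hmeas : AEStronglyMeasurable (XX2 p q) (volume.restrict (uIoc t (t + 1 / L))) := by
    have h1 : Continuous fun u : ℝ => ‖deriv riemannZeta (1 / 2 + u * I)‖ := dz_cont 1
    have h2 : Continuous fun u : ℝ => ‖riemannZeta (1 / 2 + u * I)‖ := az_cont
    exact ((h1.measurable.pow_const q).mul (h2.measurable.pow_const (p - q))).aestronglyMeasurable
  have hle : t ≤ t + 1 / L := by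
    have : 0 < 1 / L := by positivity
    linarith
  have hXI : IntervalIntegrable (XX2 p q) volume t (t + 1 / L) := by
    refine hZI.mono_fun hmeas ?_
    rw [uIoc_of_le hle, EventuallyLE, ae_restrict_iff' measurableSet_Ioc]
    refine Eventually.of_forall fun x hx => ?_
    rw [Real.norm_of_nonneg (XX2_nonneg _ _ _), Real.norm_of_nonneg (hZ0 x)]
    exact hpt x ⟨hx.1.le, hx.2⟩
  refine ⟨hXI, (intervalIntegral.integral_mono_on hle hXI hZI hpt).trans ?_⟩
  have e1 : ∫ u in t..(t + 1 / L), Z u = C' * (L ^ q * (∫ u in t..(t + 1 / L), Y (L * (u - t))) + 1 / L * S ^ p) := by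
    rw [hZ, intervalIntegral.integral_const_mul, intervalIntegral.integral_add (hYc.const_mul _) (by simp),
      intervalIntegral.integral_const_mul, intervalIntegral.integral_const, smul_eq_mul]
    congr 3; ring
  rw [e1]
  have e2 : L ^ q * L⁻¹ = L ^ (q - 1) := by
    rw [Real.rpow_sub_one hL0.ne']; ring
  have e3 : 1 / L ≤ L ^ (q - 1) := by
    rw [← e2, one_div]
    exact le_mul_of_one_le_left (by positivity) (Real.one_le_rpow hL hq0.le)
  calc C' * (L ^ q * (∫ u in t..(t + 1 / L), Y (L * (u - t))) + 1 / L * S ^ p)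
      ≤ C' * (L ^ q * (L⁻¹ * (C * S ^ p)) + L ^ (q - 1) * S ^ p) := by gcongr
    _ = C' * (L ^ q * L⁻¹ * (C * S ^ p) + L ^ (q - 1) * S ^ p) := by ring
    _ = _ := by rw [e2]; ring

end Pool.Agent.Helper156_SP
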