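import Mathlib
import Pool.Agent.Helper156_SP.Neg3

set_option autoImplicit false

/-!
# Joint moments of zeta and its derivative with a negative exponent
-/

open Complex Set MeasureTheory Filter Topology Metric

namespace Pool.Agent.Helper156_SP

open Pool.Agent.TH804.MS in
theorem neg_main {p q : ℝ} (hp : 0 < p) (hpq : p < q) (hq : q < p + 1) :
    ∃ C W T₀ : ℝ, 0 < C ∧ 0 < W ∧ ∀ T : ℝ, T₀ ≤ T → IntervalIntegrable (XX2 p q) volume T (2 * T) ∧
      ∫ u in T..(2 * T), XX2 p q u ≤ C * (Real.log T ^ q * ∫ t in (0:ℝ)..(2 * T + W), az t ^ p) := by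
  obtain ⟨C, hC, hunit⟩ := neg_unit hp hpq hq
  have hq0 : 0 < q := by linarith
  obtain ⟨W, δ, K, T₁, hW, hδ, hK, hT₁, hT₁W, hz⟩ := zeta_der2 (p := p) (κ := 1 / 2) (R₀ := 15) 0 (by norm_num) hp
    (by norm_num) (by norm_num)
  have hK0 : 0 < K := by linarith
  have hpi := Real.pi_pos
  obtain ⟨c, hc, hlow⟩ := mom_lower_all hp
  have h2T : Tendsto (fun T : ℝ => 2 * T + 1) atTop atTop :=
    tendsto_atTop_add_const_right _ _ (tendsto_id.const_mul_atTop (by norm_num))
  obtain ⟨T₀, hT₀⟩ := eventually_atTop.1 ((h2T.eventually hlow).and ((eventually_ge_atTop T₁).and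
    (eventually_ge_atTop (16:ℝ))))
  obtain ⟨C₂, hC₂⟩ : ∃ C₂ : ℝ, C₂ = C * 2 ^ p * 2 ^ q * (K / c + K * (2 * Real.pi)) := ⟨_, rfl⟩
  have hC₂0 : 0 < C₂ := by rw [hC₂]; positivity
  refine ⟨C₂, W + 1, T₀, hC₂0, by linarith, fun T hT => ?_⟩
  obtain ⟨hm, hTT₁, hT16⟩ := hT₀ T hT
  obtain ⟨U, hU⟩ : ∃ U : ℝ, U = 2 * T + 1 := ⟨_, rfl⟩
  rw [← hU] at hm
  have hT0 : 0 < T := by linarith
  have hU0 : 0 < U := by rw [hU]; linarith
  obtain ⟨L, hL⟩ : ∃ L : ℝ, L = Real.log U := ⟨_, rfl⟩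
  have hL1 : 1 ≤ L := by
    rw [hL, Real.le_log_iff_exp_le hU0]
    have := Real.exp_one_lt_d9
    linarith
  have hL0 : 0 < L := by linarith
  have hL2 : L ≤ 2 * Real.log T := by
    have h1 : U ≤ T ^ 2 := by rw [hU]; nlinarith
    have h2 := Real.log_le_log hU0 h1
    rw [Real.log_pow] at h2
    rw [hL]
    exact_mod_cast h2
  obtain ⟨l, hl⟩ : ∃ l : ℝ, l = 1 / 2 * Real.log U := ⟨_, rfl⟩
  have hl0 : 0 < l := by rw [hl, ← hL]; positivity
  have hGc : Continuous fun t => az t ^ p := azp_cont hp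
  have hG0 : ∀ t, 0 ≤ az t ^ p := fun t => Real.rpow_nonneg (az_nonneg t) _
  obtain ⟨H, hH⟩ : ∃ H : ℝ → ℝ, H = fun t => K + K * L *
      ∫ y in (-W)..W, ((1 + l * |y|) ^ 2)⁻¹ * az (t + y) ^ p := ⟨_, rfl⟩
  have hkc : Continuous fun t : ℝ => ∫ y in (-W)..W, ((1 + l * |y|) ^ 2)⁻¹ * az (t + y) ^ p := by
    have : (fun t : ℝ => ∫ y in (-W)..W, ((1 + l * |y|) ^ 2)⁻¹ * az (t + y) ^ p) =
        fun t : ℝ => ∫ y in (-W)..W, (Function.uncurry fun t y : ℝ => ((1 + l * |y|) ^ 2)⁻¹ * az (t + y) ^ p) (t, y) := rfl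
    rw [this]
    apply intervalIntegral.continuous_parametric_intervalIntegral_of_continuous'
    apply Continuous.mul
    · have hk : Continuous fun y : ℝ => ((1 + l * |y|) ^ 2)⁻¹ := by
        apply Continuous.inv₀ (by fun_prop)
        intro y
        positivity
      exact hk.comp continuous_snd
    · exact hGc.comp (continuous_fst.add continuous_snd)
  have hHc : Continuous H := by
    rw [hH]
    exact continuous_const.add (continuous_const.mul hkc)
  have hkn : ∀ t, 0 ≤ ∫ y in (-W)..W, ((1 + l * |y|) ^ 2)⁻¹ * az (t + y) ^ p := fun t =>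
    intervalIntegral.integral_nonneg (by linarith) fun y _ => mul_nonneg (by positivity) (hG0 _)
  have hHn : ∀ t, 0 ≤ H t := by
    intro t
    rw [hH]
    simp only
    have := hkn t
    positivity
  have hF : ∀ t ∈ Icc T U, ∀ z : ℂ, ‖z‖ ≤ 15 / L → ‖F t z‖ ^ p ≤ H t := by
    intro t ht z hzn
    have ht0 : 0 < t := by linarith [ht.1]
    have hlt : 1 / 2 * Real.log U ≤ Real.log t := by
      have h1 : Real.log T ≤ Real.log t := Real.log_le_log hT0 ht.1
      rw [← hL]; linarith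
    have hlt0 : 0 < Real.log t := by rw [← hL] at hlt; linarith
    have hlogle : Real.log t ≤ L := by rw [hL]; exact Real.log_le_log ht0 ht.2
    have h3 := hz U t (hTT₁.trans ht.1) ht.2 hlt 1 (fun _ => 0) (fun _ => p) (fun _ => le_rfl) (fun _ => hp.le)
      (by simp) z (hzn.trans (div_le_div_of_nonneg_left (by norm_num) hlt0 hlogle))
    have h4 : ∫ y in (-W)..W, ((1 + 1 / 2 * Real.log U * |y|) ^ 2)⁻¹ *
        ∏ j : Fin 1, (dz ((fun _ => 0) j) (t + y) / Real.log U ^ ((fun _ => 0) j)) ^ ((fun _ => p) j) =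
        ∫ y in (-W)..W, ((1 + l * |y|) ^ 2)⁻¹ * az (t + y) ^ p := by
      refine intervalIntegral.integral_congr fun y _ => ?_
      simp only [Finset.univ_unique, Finset.prod_const, Finset.card_singleton, pow_one, pow_zero, div_one]
      rw [hl]
      rfl
    rw [h4, ← hL] at h3
    have h7 : t ^ (-δ) ≤ 1 := Real.rpow_le_one_of_one_le_of_nonpos (by linarith [ht.1]) (by linarith)
    have h8 : K * t ^ (-δ) ≤ K := mul_le_of_le_one_right hK0.le h7
    rw [hH]
    simp only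
    linarith
  -- one cell
  have hcell : ∀ b : ℝ, T ≤ b → b + 1 / L ≤ U → IntervalIntegrable (XX2 p q) volume b (b + 1 / L) ∧
      ∫ u in b..(b + 1 / L), XX2 p q u ≤ C * 2 ^ p * L ^ q * ∫ t in b..(b + 1 / L), H t := by
    intro b hb hbU
    have hb0 : 0 < b := by linarith
    have hLi : 0 < 1 / L := by positivity
    have hS : ∀ t ∈ Icc b (b + 1 / L), ∀ z : ℂ, ‖z‖ ≤ 14 / L → ‖F b z‖ ≤ 2 * H t ^ p⁻¹ := by
      intro t ht z hzn
      have ht0 : 0 < t := by linarith [ht.1]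
      have hbc : (b : ℂ) ≠ 0 := by exact_mod_cast hb0.ne'
      have htc : (t : ℂ) ≠ 0 := by exact_mod_cast ht0.ne'
      obtain ⟨z', hz'⟩ : ∃ z' : ℂ, z' = z - ((t - b : ℝ) : ℂ) * I := ⟨_, rfl⟩
      have h1 : ‖z'‖ ≤ 15 / L := by
        rw [hz']
        refine (norm_sub_le _ _).trans ?_
        rw [norm_mul, Complex.norm_I, mul_one, Complex.norm_real, Real.norm_eq_abs, abs_of_nonneg (by linarith [ht.1])]
        have h2 : t - b ≤ 1 / L := by linarith [ht.2]
        have h3 : (15:ℝ) / L = 14 / L + 1 / L := by ring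
        rw [h3]
        linarith
      have h2 := hF t ⟨by linarith [ht.1], by linarith [ht.2]⟩ z' h1
      have h3 := Real.rpow_le_rpow (Real.rpow_nonneg (norm_nonneg _) _) h2 (inv_pos.2 hp).le
      rw [Real.rpow_rpow_inv (norm_nonneg _) hp.ne'] at h3
      have h4 : F b z = (t / b : ℂ) * F t z' := by
        unfold F
        have e : (1 / 2 + (t:ℂ) * Complex.I + z') = 1 / 2 + (b:ℂ) * Complex.I + z := by
          rw [hz']; push_cast; ring
        rw [e]
        field_simp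
      have h5 : ‖(t / b : ℂ)‖ ≤ 2 := by
        rw [norm_div, Complex.norm_real, Complex.norm_real, Real.norm_eq_abs, Real.norm_eq_abs, abs_of_pos ht0,
          abs_of_pos hb0, div_le_iff₀ hb0]
        have h6 : 1 / L ≤ 1 := by rw [div_le_one hL0]; exact hL1
        linarith [ht.2]
      rw [h4, norm_mul]
      exact mul_le_mul h5 h3 (norm_nonneg _) (by norm_num)
    have hI := (hunit b L _ (by linarith) hL1 (hS b ⟨le_refl _, by linarith⟩)).1
    refine ⟨hI, ?_⟩
    have h1 : ∀ t ∈ Icc b (b + 1 / L), ∫ u in b..(b + 1 / L), XX2 p q u ≤ C * (L ^ (q - 1) * (2 ^ p * H t)) := by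
      intro t ht
      have h2 := (hunit b L _ (by linarith) hL1 (hS t ht)).2
      rwa [Real.mul_rpow (by norm_num) (Real.rpow_nonneg (hHn t) _), Real.rpow_inv_rpow (hHn t) hp.ne'] at h2
    have h2 : ∫ _t in b..(b + 1 / L), (∫ u in b..(b + 1 / L), XX2 p q u) ≤
        ∫ t in b..(b + 1 / L), C * (L ^ (q - 1) * (2 ^ p * H t)) := by
      apply intervalIntegral.integral_mono_on (by linarith) (by simp) _ h1
      exact ((continuous_const.mul (continuous_const.mul (continuous_const.mul hHc)))).intervalIntegrable _ _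
    rw [intervalIntegral.integral_const, smul_eq_mul, intervalIntegral.integral_const_mul,
      intervalIntegral.integral_const_mul, intervalIntegral.integral_const_mul] at h2
    obtain ⟨Q, hQ⟩ : ∃ Q : ℝ, Q = ∫ u in b..(b + 1 / L), XX2 p q u := ⟨_, rfl⟩
    obtain ⟨J, hJ⟩ : ∃ J : ℝ, J = ∫ t in b..(b + 1 / L), H t := ⟨_, rfl⟩
    rw [← hQ, ← hJ] at h2 ⊢
    have e1 : b + 1 / L - b = 1 / L := by ring
    rw [e1] at h2
    have h3 := mul_le_mul_of_nonneg_left h2 hL0.le
    have e2 : L * (1 / L * Q) = Q := by field_simp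
    have e3 : L * (C * (L ^ (q - 1) * (2 ^ p * J))) = C * 2 ^ p * (L ^ (q - 1) * L) * J := by ring
    have e4 : L ^ (q - 1) * L = L ^ q := by
      rw [← Real.rpow_add_one hL0.ne']; congr 1; ring
    rw [e2, e3, e4] at h3
    exact h3
  -- all cells
  obtain ⟨N, hN⟩ : ∃ N : ℕ, N = ⌈T * L⌉₊ := ⟨_, rfl⟩
  have hTL : 0 ≤ T * L := by positivity
  have hN1 : T * L ≤ N := by rw [hN]; exact Nat.le_ceil _
  have hN2 : (N:ℝ) ≤ T * L + 1 := by rw [hN]; exact (Nat.ceil_lt_add_one hTL).le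
  obtain ⟨a, ha⟩ : ∃ a : ℕ → ℝ, a = fun j : ℕ => T + (j : ℝ) / L := ⟨_, rfl⟩
  have ha0 : a 0 = T := by rw [ha]; simp
  have hstep : ∀ j, a (j + 1) = a j + 1 / L := by
    intro j; rw [ha]; push_cast; ring
  have haN1 : 2 * T ≤ a N := by
    rw [ha]
    simp only
    have : T ≤ N / L := by rw [le_div_iff₀ hL0]; exact hN1
    linarith
  have haU : ∀ j : ℕ, j ≤ N → a j ≤ U := by
    intro j hj
    rw [ha]
    simp only
    have h1 : (j:ℝ) ≤ N := by exact_mod_cast hj
    have h2 : (j:ℝ) / L ≤ T + 1 := by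
      rw [div_le_iff₀ hL0]
      nlinarith
    rw [hU]; linarith
  have haT : ∀ j : ℕ, T ≤ a j := by
    intro j
    rw [ha]
    simp only
    have : (0:ℝ) ≤ j / L := by positivity
    linarith
  have hcj : ∀ j < N, IntervalIntegrable (XX2 p q) volume (a j) (a (j + 1)) := by
    intro j hj
    rw [hstep]
    exact (hcell (a j) (haT j) (by rw [← hstep]; exact haU (j + 1) hj)).1
  have hall := IntervalIntegrable.trans_iterate hcj
  rw [ha0] at hall
  have hTaN : T ≤ a N := haT N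
  have hXI : IntervalIntegrable (XX2 p q) volume T (2 * T) := hall.mono_set (by
    rw [uIcc_of_le (by linarith), uIcc_of_le hTaN]
    exact Icc_subset_Icc (le_refl _) haN1)
  refine ⟨hXI, ?_⟩
  have hsum1 := intervalIntegral.sum_integral_adjacent_intervals hcj
  have hsum2 := intervalIntegral.sum_integral_adjacent_intervals (a := a) (n := N) (f := H) (μ := volume)
    fun j _ => hHc.intervalIntegrable _ _
  rw [ha0] at hsum1 hsum2
  have h1 : ∫ u in T..(2 * T), XX2 p q u ≤ ∫ u in T..(a N), XX2 p q u := by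
    apply intervalIntegral.integral_mono_interval (le_refl _) (by linarith) haN1
    · exact Eventually.of_forall fun x => XX2_nonneg _ _ _
    · exact hall
  have h2 : ∫ u in T..(a N), XX2 p q u ≤ C * 2 ^ p * L ^ q * ∫ t in T..(a N), H t := by
    rw [← hsum1, ← hsum2, Finset.mul_sum]
    refine Finset.sum_le_sum fun j hj => ?_
    rw [hstep]
    exact (hcell (a j) (haT j) (by rw [← hstep]; exact haU (j + 1) (Finset.mem_range.1 hj))).2
  have h3 : ∫ t in T..(a N), H t ≤ ∫ t in T..U, H t := by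
    apply intervalIntegral.integral_mono_interval (le_refl _) hTaN (haU N (le_refl _))
    · exact Eventually.of_forall hHn
    · exact hHc.intervalIntegrable _ _
  have hTU : T ≤ U := by rw [hU]; linarith
  have h4 : ∫ t in T..U, H t ≤ K * U + K * L * (Real.pi / l * ∫ u in (0:ℝ)..(U + W), az u ^ p) := by
    rw [hH]
    have hkI : IntervalIntegrable (fun t : ℝ => K * L *
        ∫ y in (-W)..W, ((1 + l * |y|) ^ 2)⁻¹ * az (t + y) ^ p) volume T U :=
      (continuous_const.mul hkc).intervalIntegrable _ _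
    rw [intervalIntegral.integral_add (by simp) hkI]
    apply add_le_add
    · rw [intervalIntegral.integral_const, smul_eq_mul]
      nlinarith
    · rw [intervalIntegral.integral_const_mul]
      apply mul_le_mul_of_nonneg_left _ (by positivity)
      exact avg_ker hl0 (by linarith) (by linarith) hTU hGc hG0
  obtain ⟨M, hM⟩ : ∃ M : ℝ, M = ∫ u in (0:ℝ)..(U + W), az u ^ p := ⟨_, rfl⟩
  have hUW : 2 * T + (W + 1) = U + W := by rw [hU]; ring
  rw [hUW, ← hM]
  rw [← hM] at h4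
  have h5 : c * U ≤ M := by
    have h6 := az_mono hp (by linarith : U ≤ U + W)
    rw [← hM] at h6
    refine le_trans ?_ (hm.trans h6)
    apply mul_le_mul_of_nonneg_left _ hc.le
    rw [← hL]
    exact le_mul_of_one_le_right hU0.le (Real.one_le_rpow hL1 (by positivity))
  have h6 : K * U ≤ K / c * M := by
    rw [div_mul_eq_mul_div, le_div_iff₀ hc]
    nlinarith
  have h7 : K * L * (Real.pi / l * M) = K * (2 * Real.pi) * M := by
    rw [hl, ← hL]
    field_simp
  rw [h7] at h4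
  have hM0 : 0 ≤ M := by
    have : 0 ≤ c * U := by positivity
    linarith
  have hlT : 0 < Real.log T := by linarith
  have h8 : L ^ q ≤ 2 ^ q * Real.log T ^ q := by
    rw [← Real.mul_rpow (by norm_num) hlT.le]
    exact Real.rpow_le_rpow hL0.le hL2 hq0.le
  calc ∫ u in T..(2 * T), XX2 p q u ≤ C * 2 ^ p * L ^ q * ∫ t in T..(a N), H t := h1.trans h2
    _ ≤ C * 2 ^ p * L ^ q * (K / c * M + K * (2 * Real.pi) * M) := by
        apply mul_le_mul_of_nonneg_left _ (by positivity)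
        linarith
    _ ≤ C * 2 ^ p * (2 ^ q * Real.log T ^ q) * (K / c * M + K * (2 * Real.pi) * M) := by gcongr
    _ = _ := by rw [hC₂]; ring

/-- **joint moments with a negative exponent** -/
theorem neg_final {p q : ℝ} (hp : 0 < p) (hpq : p < q) (hq : q < p + 1) :
    ∃ C W T₀ : ℝ, 0 < C ∧ ∀ T : ℝ, T₀ ≤ T → IntervalIntegrable (XX2 p q) volume T (2 * T) ∧
      ∫ u in T..(2 * T), XX2 p q u ≤ C * (Real.log T ^ q * ∫ t in (0:ℝ)..(2 * T + W), az t ^ p) ∧
      (p ≤ 4 → ∫ u in T..(2 * T), XX2 p q u ≤ C * (T * Real.log T ^ (p ^ 2 / 4 + q))) := by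
  obtain ⟨C₁, W, T₁, hC₁, hW, h₁⟩ := neg_main hp hpq hq
  have hb : 0 ≤ p ^ 2 / 4 := by positivity
  have h2T : Tendsto (fun T : ℝ => 2 * T) atTop atTop := tendsto_id.const_mul_atTop (by norm_num)
  obtain ⟨C₄, T₄, hC₄, h₄⟩ : ∃ C₄ T₄ : ℝ, 0 < C₄ ∧ ∀ T : ℝ, T₄ ≤ T → p ≤ 4 →
      ∫ t in (0:ℝ)..(2 * T + W), az t ^ p ≤ C₄ * (T * Real.log T ^ (p ^ 2 / 4)) := by
    by_cases h : p ≤ 4
    · obtain ⟨C, hC, hev⟩ := up_shift (W := W) hb (by linarith) (mom_upper_all hp h)
      obtain ⟨T₄, hT₄⟩ := eventually_atTop.1 ((h2T.eventually hev).and (eventually_ge_atTop (2:ℝ)))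
      refine ⟨C * 2 * 2 ^ (p ^ 2 / 4), T₄, by positivity, fun T hT _ => ?_⟩
      obtain ⟨h5, h6⟩ := hT₄ T hT
      refine h5.trans ?_
      have hT0 : 0 < T := by linarith
      have hlT : 0 < Real.log T := Real.log_pos (by linarith)
      have h7 : Real.log (2 * T) ≤ 2 * Real.log T := by
        have h8 : Real.log (2 * T) ≤ Real.log (T ^ 2) := Real.log_le_log (by linarith) (by nlinarith)
        rwa [Real.log_pow] at h8
      have h8 : 0 ≤ Real.log (2 * T) := Real.log_nonneg (by linarith)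
      have h9 : Real.log (2 * T) ^ (p ^ 2 / 4) ≤ 2 ^ (p ^ 2 / 4) * Real.log T ^ (p ^ 2 / 4) := by
        rw [← Real.mul_rpow (by norm_num) hlT.le]
        exact Real.rpow_le_rpow h8 h7 hb
      calc C * (2 * T * Real.log (2 * T) ^ (p ^ 2 / 4)) ≤
            C * (2 * T * (2 ^ (p ^ 2 / 4) * Real.log T ^ (p ^ 2 / 4))) := by gcongr
        _ = _ := by ring
    · exact ⟨1, 0, one_pos, fun T _ h' => absurd h' h⟩
  refine ⟨max C₁ (C₁ * C₄), W, max (max T₁ T₄) 2, lt_max_of_lt_left hC₁, fun T hT => ?_⟩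
  have hT1 : T₁ ≤ T := ((le_max_left _ _).trans (le_max_left _ _)).trans hT
  have hT4 : T₄ ≤ T := ((le_max_right _ _).trans (le_max_left _ _)).trans hT
  have hT2 : 2 ≤ T := (le_max_right _ _).trans hT
  have hlT : 0 < Real.log T := Real.log_pos (by linarith)
  have hT0 : 0 < T := by linarith
  obtain ⟨hI, h⟩ := h₁ T hT1
  have hM0 : 0 ≤ ∫ t in (0:ℝ)..(2 * T + W), az t ^ p :=
    intervalIntegral.integral_nonneg (by linarith) fun t _ => Real.rpow_nonneg (az_nonneg t) _
  refine ⟨hI, h.trans (mul_le_mul_of_nonneg_right (le_max_left _ _) (by positivity)), fun h4 => ?_⟩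
  have h5 := h₄ T hT4 h4
  refine h.trans ?_
  calc C₁ * (Real.log T ^ q * ∫ t in (0:ℝ)..(2 * T + W), az t ^ p) ≤
        C₁ * (Real.log T ^ q * (C₄ * (T * Real.log T ^ (p ^ 2 / 4)))) := by gcongr
    _ = C₁ * C₄ * (T * Real.log T ^ (p ^ 2 / 4 + q)) := by
        rw [Real.rpow_add hlT]; ring
    _ ≤ _ := mul_le_mul_of_nonneg_right (le_max_right _ _) (by positivity)

end Pool.Agent.Helper156_SP
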