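import Mathlib
import Pool.Agent.Helper156_SP.Neg4
import Pool.Agent.H370R2.Dyadic

set_option autoImplicit false

/-!
# Joint moments of zeta and its derivative with a negative exponent: the exact order
-/

open Complex Set MeasureTheory Filter Topology Metric

namespace Pool.Agent.Helper156_SP

lemma joint_dyadic {p q : ℝ} (hp : 0 < p) (hp4 : p ≤ 4) (hpq : p < q) (hq : q < p + 1) (n : ℕ) :
    ∃ C T₀ : ℝ, 0 < C ∧ ∀ T : ℝ, T₀ ≤ T → IntervalIntegrable (XX2 p q) volume T (2 ^ n * T) ∧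
      ∫ u in T..(2 ^ n * T), XX2 p q u ≤ C * (T * Real.log T ^ (p ^ 2 / 4 + q)) := by
  obtain ⟨C₁, W, T₁, hC₁, h₁⟩ := neg_final hp hpq hq
  have hq0 : 0 < q := by linarith
  have he : 0 ≤ p ^ 2 / 4 + q := by positivity
  induction n with
  | zero =>
    refine ⟨1, 2, one_pos, fun T hT => ?_⟩
    have hlT : 0 < Real.log T := Real.log_pos (by linarith)
    have hT0 : 0 < T := by linarith
    rw [pow_zero, one_mul]
    refine ⟨IntervalIntegrable.refl, ?_⟩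
    rw [intervalIntegral.integral_same]
    positivity
  | succ n ih =>
    obtain ⟨C, T₀, hC, h⟩ := ih
    refine ⟨C + C₁ * (2 ^ n * 2 ^ (p ^ 2 / 4 + q)), max (max T₀ T₁) (2 ^ n + 2), by positivity, fun T hT => ?_⟩
    have hT0 : T₀ ≤ T := ((le_max_left _ _).trans (le_max_left _ _)).trans hT
    have hT1 : T₁ ≤ T := ((le_max_right _ _).trans (le_max_left _ _)).trans hT
    have hT2 : 2 ^ n + 2 ≤ T := (le_max_right _ _).trans hT
    have h2n : (1:ℝ) ≤ 2 ^ n := one_le_pow₀ (by norm_num)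
    have hTp : 0 < T := by linarith
    have hTT : T ≤ 2 ^ n * T := le_mul_of_one_le_left hTp.le h2n
    obtain ⟨hI, hu⟩ := h T hT0
    obtain ⟨hI', _, hu'⟩ := h₁ (2 ^ n * T) (hT1.trans hTT)
    have hu' := hu' hp4
    have e : (2:ℝ) ^ (n + 1) * T = 2 * (2 ^ n * T) := by ring
    rw [e]
    refine ⟨hI.trans hI', ?_⟩
    rw [← intervalIntegral.integral_add_adjacent_intervals hI hI']
    have hlT : 0 < Real.log T := Real.log_pos (by linarith)
    have hlog : Real.log (2 ^ n * T) ≤ 2 * Real.log T := by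
      have h3 : Real.log (2 ^ n * T) ≤ Real.log (T ^ 2) := Real.log_le_log (by positivity) (by nlinarith)
      rwa [Real.log_pow] at h3
    have hlog0 : 0 ≤ Real.log (2 ^ n * T) := Real.log_nonneg (by linarith)
    have h4 : Real.log (2 ^ n * T) ^ (p ^ 2 / 4 + q) ≤ 2 ^ (p ^ 2 / 4 + q) * Real.log T ^ (p ^ 2 / 4 + q) := by
      rw [← Real.mul_rpow (by norm_num) hlT.le]
      exact Real.rpow_le_rpow hlog0 hlog he
    have h5 : C₁ * (2 ^ n * T * Real.log (2 ^ n * T) ^ (p ^ 2 / 4 + q)) ≤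
        C₁ * (2 ^ n * T * (2 ^ (p ^ 2 / 4 + q) * Real.log T ^ (p ^ 2 / 4 + q))) := by gcongr
    calc (∫ u in T..(2 ^ n * T), XX2 p q u) + ∫ u in (2 ^ n * T)..(2 * (2 ^ n * T)), XX2 p q u
        ≤ C * (T * Real.log T ^ (p ^ 2 / 4 + q)) +
          C₁ * (2 ^ n * T * (2 ^ (p ^ 2 / 4 + q) * Real.log T ^ (p ^ 2 / 4 + q))) :=
          add_le_add hu (hu'.trans h5)
      _ = _ := by ring

lemma der_pt {p q a b ν : ℝ} (hp : 0 < p) (hpq : p < q) (ha : 0 < a) (hb : 0 ≤ b) (hν : 0 < ν) :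
    b ^ p ≤ ν ^ p * a ^ p + ν ^ (p - q) * (b ^ q * a ^ (p - q)) := by
  rcases le_or_gt b (ν * a) with h | h
  · have h1 := Real.rpow_le_rpow hb h hp.le
    rw [Real.mul_rpow hν.le ha.le] at h1
    have : 0 ≤ ν ^ (p - q) * (b ^ q * a ^ (p - q)) := by positivity
    linarith
  · have hna : 0 < ν * a := by positivity
    have hb0 : 0 < b := hna.trans h
    have h1 : b ^ (p - q) ≤ (ν * a) ^ (p - q) := Real.rpow_le_rpow_of_nonpos hna h.le (by linarith)
    have h2 : b ^ p = b ^ q * b ^ (p - q) := by rw [← Real.rpow_add hb0]; congr 1; ring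
    rw [Real.mul_rpow hν.le ha.le] at h1
    have h3 : b ^ q * b ^ (p - q) ≤ b ^ q * (ν ^ (p - q) * a ^ (p - q)) := mul_le_mul_of_nonneg_left h1 (by positivity)
    have h4 : 0 ≤ ν ^ p * a ^ p := by positivity
    have h5 : b ^ q * (ν ^ (p - q) * a ^ (p - q)) = ν ^ (p - q) * (b ^ q * a ^ (p - q)) := by ring
    rw [h2]
    linarith

lemma crit_null (T U : ℝ) (hT : 0 < T) : ∀ᵐ t : ℝ, t ∈ Icc T U → 0 < az t := by
  have hfin : {t : ℝ | t ∈ Icc T U ∧ az t = 0}.Finite := by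
    have h1 := (H370.zeta_zeros_finite U).image (fun s : ℂ => s.im)
    refine h1.subset fun t ht => ?_
    obtain ⟨⟨ht1, ht2⟩, ht3⟩ := ht
    refine ⟨1 / 2 + (t:ℂ) * I, ?_, by simp⟩
    have hz : riemannZeta (1 / 2 + t * I) = 0 := norm_eq_zero.1 ht3
    refine ⟨?_, ?_, ?_, ?_, hz⟩
    · simp
    · simp; norm_num
    · simpa using lt_of_lt_of_le hT ht1
    · simpa using ht2
  have h2 := measure_eq_zero_iff_ae_notMem.1 (hfin.measure_zero volume)
  filter_upwards [h2] with t ht hI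
  rcases (az_nonneg t).eq_or_lt with h | h
  · exact absurd ⟨hI, h.symm⟩ ht
  · exact h

/-- the exact order of the joint moments with a negative exponent -/
theorem joint_exact {p q : ℝ} (hp : 0 < p) (hp4 : p ≤ 4) (hpq : p < q) (hq : q < p + 1) :
    ∃ (n : ℕ) (c C T₀ : ℝ), 0 < c ∧ 0 < C ∧ ∀ T : ℝ, T₀ ≤ T →
      IntervalIntegrable (XX2 p q) volume T (2 ^ n * T) ∧
      c * (T * Real.log T ^ (p ^ 2 / 4 + q)) ≤ ∫ u in T..(2 ^ n * T), XX2 p q u ∧
      ∫ u in T..(2 ^ n * T), XX2 p q u ≤ C * (T * Real.log T ^ (p ^ 2 / 4 + q)) := by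
  obtain ⟨c₁, C₁, W, T₁, hc₁, hC₁, h₁⟩ := der_final2 1 hp
  obtain ⟨C₂, hC₂, hev2⟩ := mom_upper_all hp hp4
  obtain ⟨n, hn⟩ : ∃ n : ℕ, (C₁ + 1) / c₁ ≤ 2 ^ n := by
    obtain ⟨n, hn⟩ := pow_unbounded_of_one_lt ((C₁ + 1) / c₁) (by norm_num : (1:ℝ) < 2)
    exact ⟨n, hn.le⟩
  obtain ⟨C₃, T₃, hC₃, h₃⟩ := joint_dyadic hp hp4 hpq hq n
  obtain ⟨T₂, hT₂⟩ := eventually_atTop.1 hev2
  obtain ⟨C₄, hC₄⟩ : ∃ C₄ : ℝ, C₄ = C₂ * (2 ^ n * 2 ^ (p ^ 2 / 4)) := ⟨_, rfl⟩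
  have hC₄0 : 0 < C₄ := by rw [hC₄]; positivity
  obtain ⟨ν, hν⟩ : ∃ ν : ℝ, ν = (1 / (2 * C₄)) ^ p⁻¹ := ⟨_, rfl⟩
  have hν0 : 0 < ν := by rw [hν]; positivity
  have hνp : ν ^ p = 1 / (2 * C₄) := by
    rw [hν, Real.rpow_inv_rpow (by positivity) hp.ne']
  refine ⟨n, 1 / 2 * ν ^ (q - p), C₃, max (max (max T₁ T₂) T₃) (2 ^ n + 2), by positivity, hC₃, fun T hT => ?_⟩
  have hT1 : T₁ ≤ T := (((le_max_left _ _).trans (le_max_left _ _)).trans (le_max_left _ _)).trans hT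
  have hT2 : T₂ ≤ T := (((le_max_right _ _).trans (le_max_left _ _)).trans (le_max_left _ _)).trans hT
  have hT3 : T₃ ≤ T := ((le_max_right _ _).trans (le_max_left _ _)).trans hT
  have hT4 : 2 ^ n + 2 ≤ T := (le_max_right _ _).trans hT
  have h2n : (1:ℝ) ≤ 2 ^ n := one_le_pow₀ (by norm_num)
  have hTp : 0 < T := by linarith
  have hTT : T ≤ 2 ^ n * T := le_mul_of_one_le_left hTp.le h2n
  obtain ⟨hI, hu⟩ := h₃ T hT3
  refine ⟨hI, ?_, hu⟩
  obtain ⟨U, hU⟩ : ∃ U : ℝ, U = 2 ^ n * T := ⟨_, rfl⟩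
  rw [← hU] at hI hTT ⊢
  obtain ⟨L, hL⟩ : ∃ L : ℝ, L = Real.log T := ⟨_, rfl⟩
  have hL0 : 0 < L := by rw [hL]; exact Real.log_pos (by linarith)
  rw [← hL]
  have hLU : L ≤ Real.log U := by rw [hL]; exact Real.log_le_log hTp hTT
  have hLU2 : Real.log U ≤ 2 * L := by
    have h3 : Real.log U ≤ Real.log (T ^ 2) := Real.log_le_log (by linarith) (by rw [hU]; nlinarith)
    rw [Real.log_pow] at h3
    rw [hL]
    exact_mod_cast h3
  have hU0 : 0 < U := by linarith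
  obtain ⟨b, hb⟩ : ∃ b : ℝ, b = p ^ 2 / 4 := ⟨_, rfl⟩
  have hb0 : 0 ≤ b := by rw [hb]; positivity
  rw [← hb]
  rw [← hb] at hC₄
  have hd : ∀ V : ℝ, T₁ ≤ V → c₁ * (V * Real.log V ^ (b + p)) ≤ ∫ t in (0:ℝ)..V, dz 1 t ^ p ∧
      ∫ t in (0:ℝ)..V, dz 1 t ^ p ≤ C₁ * (V * Real.log V ^ (b + p)) := by
    intro V hV
    obtain ⟨_, h2, h3⟩ := h₁ V hV 1 (fun _ => 1) (fun _ => p) (fun _ => le_rfl) (fun _ => hp.le) (by simp)
    have h3 := h3 hp4
    simp only [Finset.univ_unique, Finset.prod_const, Finset.sum_const, Finset.card_singleton, pow_one, one_smul,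
      Nat.cast_one, one_mul, ← hb] at h2 h3
    exact ⟨h2, h3⟩
  have hDI : ∀ x y, IntervalIntegrable (fun t => dz 1 t ^ p) volume x y := fun x y =>
    ((dz_cont 1).rpow_const fun _ => Or.inr hp.le).intervalIntegrable _ _
  have hlow : T * L ^ (b + p) ≤ ∫ t in T..U, dz 1 t ^ p := by
    have hs := intervalIntegral.integral_add_adjacent_intervals (hDI 0 T) (hDI T U)
    have h5 := (hd U (hT1.trans hTT)).1
    have h6 := (hd T hT1).2
    rw [← hL] at h6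
    have h7 : L ^ (b + p) ≤ Real.log U ^ (b + p) := Real.rpow_le_rpow hL0.le hLU (by linarith)
    have h8 : C₁ + 1 ≤ c₁ * 2 ^ n := by
      rw [div_le_iff₀ hc₁] at hn
      linarith
    have h9 : (C₁ + 1) * (T * L ^ (b + p)) ≤ c₁ * (U * Real.log U ^ (b + p)) := by
      calc (C₁ + 1) * (T * L ^ (b + p)) ≤ (c₁ * 2 ^ n) * (T * L ^ (b + p)) := by gcongr
        _ = c₁ * (U * L ^ (b + p)) := by rw [hU]; ring
        _ ≤ c₁ * (U * Real.log U ^ (b + p)) := by gcongr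
    linarith
  have hmom : ∫ t in T..U, az t ^ p ≤ C₄ * (T * L ^ b) := by
    have hs := intervalIntegral.integral_add_adjacent_intervals (azp_int hp 0 T) (azp_int hp T U)
    have h5 : 0 ≤ ∫ t in (0:ℝ)..T, az t ^ p :=
      intervalIntegral.integral_nonneg hTp.le fun t _ => Real.rpow_nonneg (az_nonneg t) _
    have h6 := hT₂ U (hT2.trans hTT)
    rw [← hb] at h6
    have h7 : Real.log U ^ b ≤ 2 ^ b * L ^ b := by
      rw [← Real.mul_rpow (by norm_num) hL0.le]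
      exact Real.rpow_le_rpow (by linarith) hLU2 hb0
    have h8 : C₂ * (U * Real.log U ^ b) ≤ C₂ * (U * (2 ^ b * L ^ b)) := by gcongr
    have h9 : C₂ * (U * (2 ^ b * L ^ b)) = C₄ * (T * L ^ b) := by rw [hC₄, hU]; ring
    linarith
  obtain ⟨Y, hY⟩ : ∃ Y : ℝ, Y = ν * L := ⟨_, rfl⟩
  have hY0 : 0 < Y := by rw [hY]; positivity
  have hint : ∫ t in T..U, dz 1 t ^ p ≤ ∫ t in T..U, (Y ^ p * az t ^ p + Y ^ (p - q) * XX2 p q t) := by
    apply intervalIntegral.integral_mono_ae_restrict hTT (hDI T U)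
      (((azp_int hp T U).const_mul _).add (hI.const_mul _))
    rw [EventuallyLE, ae_restrict_iff' measurableSet_Icc]
    filter_upwards [crit_null T U hTp] with t ht hmem
    exact der_pt (a := az t) (b := dz 1 t) (ν := Y) hp hpq (ht hmem) (dz_nonneg 1 t) hY0
  rw [intervalIntegral.integral_add ((azp_int hp T U).const_mul _) (hI.const_mul _),
    intervalIntegral.integral_const_mul, intervalIntegral.integral_const_mul] at hint
  have h10 : Y ^ p * ∫ t in T..U, az t ^ p ≤ 1 / 2 * (T * L ^ (b + p)) := by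
    calc Y ^ p * ∫ t in T..U, az t ^ p ≤ Y ^ p * (C₄ * (T * L ^ b)) := by gcongr
      _ = 1 / 2 * (T * L ^ (b + p)) := by
        rw [hY, Real.mul_rpow hν0.le hL0.le, hνp, Real.rpow_add hL0]
        field_simp
  have h11 : 1 / 2 * (T * L ^ (b + p)) ≤ Y ^ (p - q) * ∫ t in T..U, XX2 p q t := by linarith
  have h12 := mul_le_mul_of_nonneg_left h11 (Real.rpow_nonneg hY0.le (q - p))
  have h13 : Y ^ (q - p) * (Y ^ (p - q) * ∫ t in T..U, XX2 p q t) = ∫ t in T..U, XX2 p q t := by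
    rw [← mul_assoc, ← Real.rpow_add hY0]
    have e : q - p + (p - q) = 0 := by ring
    rw [e, Real.rpow_zero, one_mul]
  rw [h13] at h12
  refine le_trans (le_of_eq ?_) h12
  rw [hY, Real.mul_rpow hν0.le hL0.le]
  have e : L ^ (b + q) = L ^ (q - p) * L ^ (b + p) := by
    rw [← Real.rpow_add hL0]; congr 1; ring
  rw [e]
  ring

end Pool.Agent.Helper156_SP
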