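import Mathlib
import Pool.Agent.Helper156_SP.Neg5

set_option autoImplicit false

/-!
# Joint moments of zeta and its derivative with a negative exponent: lower bounds for all orders
-/

open Complex Set MeasureTheory Filter Topology Metric

namespace Pool.Agent.Helper156_SP

lemma good_V {p W : ℝ} (hp : 0 < p) (hW : 0 < W) : ∃ δ : ℝ, 0 < δ ∧ ∀ᶠ T : ℝ in atTop,
    ∃ V ∈ Icc (T / 2) T, δ * ∫ t in (0:ℝ)..V, az t ^ p ≤ ∫ t in (0:ℝ)..(V - W), az t ^ p := by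
  obtain ⟨c, hc, hlow⟩ := mom_lower_all hp
  have h2T : Tendsto (fun T : ℝ => T / 2) atTop atTop := tendsto_id.atTop_div_const (by norm_num)
  have hlog : ∀ᶠ T : ℝ in atTop, (Real.log T + 1) * W ≤ T / 2 := by
    have h1 := Real.isLittleO_log_id_atTop.bound (by positivity : (0:ℝ) < 1 / (4 * W))
    filter_upwards [h1, eventually_ge_atTop (4 * W), eventually_ge_atTop (1:ℝ)] with T h1 h2 h3
    rw [Real.norm_of_nonneg (Real.log_nonneg h3), id, Real.norm_of_nonneg (by linarith)] at h1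
    have h4 : Real.log T * W ≤ T / 4 := by
      calc Real.log T * W ≤ 1 / (4 * W) * T * W := by gcongr
        _ = T / 4 := by field_simp
    linarith
  refine ⟨Real.exp (-(p + 1)), Real.exp_pos _, ?_⟩
  filter_upwards [h2T.eventually hlow, hlog, eventually_ge_atTop (6:ℝ), eventually_gt_atTop (2 * 18 ^ p / c)]
    with T h1 h2 h3 h4
  by_contra hcon
  push Not at hcon
  obtain ⟨J, hJ⟩ : ∃ J : ℕ, J = ⌈Real.log T⌉₊ := ⟨_, rfl⟩
  have hlT : 0 ≤ Real.log T := Real.log_nonneg (by linarith)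
  have hJ1 : Real.log T ≤ J := by rw [hJ]; exact Nat.le_ceil _
  have hJ2 : (J:ℝ) ≤ Real.log T + 1 := by rw [hJ]; exact (Nat.ceil_lt_add_one hlT).le
  have hind : ∀ j : ℕ, j ≤ J → ∫ t in (0:ℝ)..(T - j * W), az t ^ p ≤
      Real.exp (-(p + 1)) ^ j * ∫ t in (0:ℝ)..T, az t ^ p := by
    intro j
    induction j with
    | zero => intro _; simp
    | succ j ih =>
      intro hj
      have h5 := ih (by omega)
      have hjJ : (j:ℝ) ≤ J := by exact_mod_cast (by omega : j ≤ J)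
      have h6 : (j:ℝ) * W ≤ T / 2 := (mul_le_mul_of_nonneg_right (hjJ.trans hJ2) hW.le).trans h2
      have hj0 : 0 ≤ (j:ℝ) * W := by positivity
      have h7 := hcon (T - j * W) ⟨by linarith, by linarith⟩
      have e : T - ((j + 1 : ℕ) : ℝ) * W = T - j * W - W := by push_cast; ring
      rw [e, pow_succ]
      refine h7.le.trans ?_
      have h8 := mul_le_mul_of_nonneg_left h5 (Real.exp_pos (-(p + 1))).le
      refine h8.trans (le_of_eq (by ring))
  have h5 := hind J le_rfl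
  have h6 : (J:ℝ) * W ≤ T / 2 := (mul_le_mul_of_nonneg_right hJ2 hW.le).trans h2
  have h7 := az_mono hp (by linarith : T / 2 ≤ T - J * W)
  have h8 := int_small hp (by linarith : (1:ℝ) ≤ T)
  have h9 : Real.exp (-(p + 1)) ^ J * (18 ^ p * T ^ (p + 1)) ≤ 18 ^ p := by
    rw [← Real.exp_nat_mul]
    have h13 : Real.exp (J * -(p + 1)) ≤ T ^ (-(p + 1)) := by
      rw [Real.rpow_def_of_pos (by linarith)]
      apply Real.exp_le_exp.2
      nlinarith
    calc Real.exp (J * -(p + 1)) * (18 ^ p * T ^ (p + 1)) ≤ T ^ (-(p + 1)) * (18 ^ p * T ^ (p + 1)) := by gcongr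
      _ = 18 ^ p * (T ^ (-(p + 1)) * T ^ (p + 1)) := by ring
      _ = 18 ^ p := by rw [← Real.rpow_add (by linarith), neg_add_cancel, Real.rpow_zero, mul_one]
  have h10 : T / 2 ≤ T / 2 * Real.log (T / 2) ^ (p ^ 2 / 4) :=
    le_mul_of_one_le_right (by linarith) (Real.one_le_rpow (by
      rw [Real.le_log_iff_exp_le (by linarith)]
      have := Real.exp_one_lt_d9
      linarith) (by positivity))
  have h11 : c * (T / 2) ≤ c * (T / 2 * Real.log (T / 2) ^ (p ^ 2 / 4)) := mul_le_mul_of_nonneg_left h10 hc.le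
  have h12 := mul_le_mul_of_nonneg_left h8 (pow_nonneg (Real.exp_pos (-(p + 1))).le J)
  rw [div_lt_iff₀ hc] at h4
  linarith

/-- the lower bound of the expected order for the joint moments with a negative exponent -/
theorem joint_low_all {p q : ℝ} (hp : 0 < p) (hpq : p < q) (hq : q < p + 1) :
    ∃ T₁ c T₀ : ℝ, 0 < T₁ ∧ T₁ ≤ T₀ ∧ 0 < c ∧ ∀ T : ℝ, T₀ ≤ T → IntervalIntegrable (XX2 p q) volume T₁ T ∧
      c * (T * Real.log T ^ (p ^ 2 / 4 + q)) ≤ ∫ u in T₁..T, XX2 p q u := by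
  obtain ⟨_, _, Tn, _, _, hn⟩ := neg_main hp hpq hq
  obtain ⟨c₁, C₁, W₀, Ta, hc₁, hC₁, h₁⟩ := der_final2 1 hp
  obtain ⟨W, hW⟩ : ∃ W : ℝ, W = max W₀ 1 := ⟨_, rfl⟩
  have hW0 : 0 < W := by rw [hW]; exact lt_max_of_lt_right one_pos
  have hWW : W₀ ≤ W := by rw [hW]; exact le_max_left _ _
  obtain ⟨δ, hδ, hgood⟩ := good_V hp hW0
  obtain ⟨c₃, hc₃, hlow⟩ := mom_lower_all hp
  obtain ⟨T₁, hT₁⟩ : ∃ T₁ : ℝ, T₁ = max Tn 1 := ⟨_, rfl⟩
  have hT₁1 : 1 ≤ T₁ := by rw [hT₁]; exact le_max_right _ _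
  have hT₁n : Tn ≤ T₁ := by rw [hT₁]; exact le_max_left _ _
  have hq0 : 0 < q := by linarith
  have hpow : ∀ k : ℕ, IntervalIntegrable (XX2 p q) volume T₁ (2 ^ k * T₁) := by
    intro k
    induction k with
    | zero => rw [pow_zero, one_mul]
    | succ k ih =>
      have h2k : (1:ℝ) ≤ 2 ^ k := one_le_pow₀ (by norm_num)
      have h1 := (hn (2 ^ k * T₁) (hT₁n.trans (le_mul_of_one_le_left (by linarith) h2k))).1
      have e : (2:ℝ) ^ (k + 1) * T₁ = 2 * (2 ^ k * T₁) := by ring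
      rw [e]
      exact ih.trans h1
  have hInt : ∀ T : ℝ, T₁ ≤ T → IntervalIntegrable (XX2 p q) volume T₁ T := by
    intro T hT
    obtain ⟨k, hk⟩ := pow_unbounded_of_one_lt T (by norm_num : (1:ℝ) < 2)
    have h2k : (0:ℝ) < 2 ^ k := by positivity
    have h1 : T ≤ 2 ^ k * T₁ := hk.le.trans (le_mul_of_one_le_right h2k.le hT₁1)
    refine (hpow k).mono_set ?_
    rw [uIcc_of_le hT, uIcc_of_le (hT.trans h1)]
    exact Icc_subset_Icc (le_refl _) h1
  obtain ⟨D₁, hD₁⟩ : ∃ D₁ : ℝ, D₁ = ∫ t in (0:ℝ)..T₁, dz 1 t ^ p := ⟨_, rfl⟩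
  obtain ⟨c₂, hc₂⟩ : ∃ c₂ : ℝ, c₂ = c₁ * δ := ⟨_, rfl⟩
  have hc₂0 : 0 < c₂ := by rw [hc₂]; positivity
  obtain ⟨b, hb⟩ : ∃ b : ℝ, b = p ^ 2 / 4 := ⟨_, rfl⟩
  have hb0 : 0 ≤ b := by rw [hb]; positivity
  rw [← hb]
  rw [← hb] at hlow
  obtain ⟨ν, hν⟩ : ∃ ν : ℝ, ν = (c₂ / 4) ^ p⁻¹ := ⟨_, rfl⟩
  have hν0 : 0 < ν := by rw [hν]; positivity
  have hνp : ν ^ p = c₂ / 4 := by
    rw [hν, Real.rpow_inv_rpow (by positivity) hp.ne']
  obtain ⟨V₀, hV₀⟩ := eventually_atTop.1 hlow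
  obtain ⟨T₂, hT₂⟩ := eventually_atTop.1 hgood
  obtain ⟨c₄, hc₄⟩ : ∃ c₄ : ℝ, c₄ = ν ^ (q - p) * (c₂ / 4) * c₃ := ⟨_, rfl⟩
  have hc₄0 : 0 < c₄ := by rw [hc₄]; positivity
  obtain ⟨V₁, hV₁⟩ : ∃ V₁ : ℝ, V₁ = max (max (max V₀ Ta) (max T₁ 3)) (2 * D₁ / (c₂ * c₃)) := ⟨_, rfl⟩
  have hV1T : T₁ ≤ V₁ := by
    rw [hV₁]; exact (le_max_left _ _).trans ((le_max_right _ _).trans (le_max_left _ _))
  refine ⟨T₁, c₄ * (1 / 2 * (1 / 2) ^ (b + q)), max T₂ (2 * V₁), by linarith, ?_, by positivity, fun T hT => ?_⟩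
  · refine le_trans ?_ (le_max_right _ _)
    linarith
  have hTT₂ : T₂ ≤ T := (le_max_left _ _).trans hT
  have hTV₁ : 2 * V₁ ≤ T := (le_max_right _ _).trans hT
  have hT1T : T₁ ≤ T := by linarith
  refine ⟨hInt T hT1T, ?_⟩
  obtain ⟨V, ⟨hVT1, hVT2⟩, hgoodV⟩ := hT₂ T hTT₂
  have hVV₁ : V₁ ≤ V := by linarith
  have h3 : V₀ ≤ V := by
    refine le_trans ?_ hVV₁
    rw [hV₁]; exact (le_max_left _ _).trans ((le_max_left _ _).trans (le_max_left _ _))
  have h4 : Ta ≤ V := by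
    refine le_trans ?_ hVV₁
    rw [hV₁]; exact (le_max_right _ _).trans ((le_max_left _ _).trans (le_max_left _ _))
  have h5 : 3 ≤ V := by
    refine le_trans ?_ hVV₁
    rw [hV₁]; exact (le_max_right _ _).trans ((le_max_right _ _).trans (le_max_left _ _))
  have h6 : 2 * D₁ / (c₂ * c₃) ≤ V := by
    refine le_trans ?_ hVV₁
    rw [hV₁]; exact le_max_right _ _
  have hT1V : T₁ ≤ V := hV1T.trans hVV₁
  obtain ⟨L, hL⟩ : ∃ L : ℝ, L = Real.log V := ⟨_, rfl⟩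
  have hL1 : 1 ≤ L := by
    rw [hL, Real.le_log_iff_exp_le (by linarith)]
    have := Real.exp_one_lt_d9
    linarith
  have hL0 : 0 < L := by linarith
  obtain ⟨M, hM⟩ : ∃ M : ℝ, M = ∫ t in (0:ℝ)..V, az t ^ p := ⟨_, rfl⟩
  have h7 := hV₀ V h3
  rw [← hL, ← hM] at h7
  rw [← hM] at hgoodV
  have hMc : c₃ * V ≤ M := by
    refine le_trans ?_ h7
    apply mul_le_mul_of_nonneg_left _ hc₃.le
    exact le_mul_of_one_le_right (by linarith) (Real.one_le_rpow hL1 hb0)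
  have hM0 : 0 ≤ M := le_trans (by positivity) hMc
  have hDI : ∀ x y, IntervalIntegrable (fun t => dz 1 t ^ p) volume x y := fun x y =>
    ((dz_cont 1).rpow_const fun _ => Or.inr hp.le).intervalIntegrable _ _
  have hD : c₂ * (L ^ p * M) ≤ ∫ t in (0:ℝ)..V, dz 1 t ^ p := by
    obtain ⟨⟨h8, _⟩, _, _⟩ := h₁ V h4 1 (fun _ => 1) (fun _ => p) (fun _ => le_rfl) (fun _ => hp.le) (by simp)
    simp only [Finset.univ_unique, Finset.prod_const, Finset.sum_const, Finset.card_singleton, pow_one, one_smul,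
      Nat.cast_one, one_mul, ← hL] at h8
    have h9 := az_mono hp (by linarith : V - W ≤ V - W₀)
    have h10 : δ * M ≤ ∫ t in (0:ℝ)..(V - W₀), az t ^ p := hgoodV.trans h9
    calc c₂ * (L ^ p * M) = c₁ * (L ^ p * (δ * M)) := by rw [hc₂]; ring
      _ ≤ c₁ * (L ^ p * ∫ t in (0:ℝ)..(V - W₀), az t ^ p) := by gcongr
      _ ≤ _ := h8
  have hLp : 1 ≤ L ^ p := Real.one_le_rpow hL1 hp.le
  have hD1 : D₁ ≤ c₂ / 2 * (L ^ p * M) := by
    rw [div_le_iff₀ (by positivity)] at h6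
    have h8 : c₃ * V ≤ L ^ p * M := hMc.trans (le_mul_of_one_le_left hM0 hLp)
    have h9 := mul_le_mul_of_nonneg_left h8 hc₂0.le
    nlinarith
  have hs := intervalIntegral.integral_add_adjacent_intervals (hDI 0 T₁) (hDI T₁ V)
  rw [← hD₁] at hs
  have hlow2 : c₂ / 2 * (L ^ p * M) ≤ ∫ t in T₁..V, dz 1 t ^ p := by linarith
  have hmom : ∫ t in T₁..V, az t ^ p ≤ M := by
    have hs := intervalIntegral.integral_add_adjacent_intervals (azp_int hp 0 T₁) (azp_int hp T₁ V)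
    have h8 : 0 ≤ ∫ t in (0:ℝ)..T₁, az t ^ p :=
      intervalIntegral.integral_nonneg (by linarith) fun t _ => Real.rpow_nonneg (az_nonneg t) _
    rw [← hM] at hs
    linarith
  obtain ⟨Y, hY⟩ : ∃ Y : ℝ, Y = ν * L := ⟨_, rfl⟩
  have hY0 : 0 < Y := by rw [hY]; positivity
  have hI := hInt V hT1V
  have hint : ∫ t in T₁..V, dz 1 t ^ p ≤ ∫ t in T₁..V, (Y ^ p * az t ^ p + Y ^ (p - q) * XX2 p q t) := by
    apply intervalIntegral.integral_mono_ae_restrict hT1V (hDI T₁ V)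
      (((azp_int hp T₁ V).const_mul _).add (hI.const_mul _))
    rw [EventuallyLE, ae_restrict_iff' measurableSet_Icc]
    filter_upwards [crit_null T₁ V (by linarith)] with t ht hmem
    exact der_pt (a := az t) (b := dz 1 t) (ν := Y) hp hpq (ht hmem) (dz_nonneg 1 t) hY0
  rw [intervalIntegral.integral_add ((azp_int hp T₁ V).const_mul _) (hI.const_mul _),
    intervalIntegral.integral_const_mul, intervalIntegral.integral_const_mul] at hint
  have h10 : Y ^ p * ∫ t in T₁..V, az t ^ p ≤ c₂ / 4 * (L ^ p * M) := by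
    calc Y ^ p * ∫ t in T₁..V, az t ^ p ≤ Y ^ p * M := by gcongr
      _ = c₂ / 4 * (L ^ p * M) := by
        rw [hY, Real.mul_rpow hν0.le hL0.le, hνp]
        ring
  have h11 : c₂ / 4 * (L ^ p * M) ≤ Y ^ (p - q) * ∫ t in T₁..V, XX2 p q t := by linarith
  have h12 := mul_le_mul_of_nonneg_left h11 (Real.rpow_nonneg hY0.le (q - p))
  have h13 : Y ^ (q - p) * (Y ^ (p - q) * ∫ t in T₁..V, XX2 p q t) = ∫ t in T₁..V, XX2 p q t := by
    rw [← mul_assoc, ← Real.rpow_add hY0]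
    have e : q - p + (p - q) = 0 := by ring
    rw [e, Real.rpow_zero, one_mul]
  rw [h13] at h12
  have h14 : ∫ t in T₁..V, XX2 p q t ≤ ∫ t in T₁..T, XX2 p q t := by
    apply intervalIntegral.integral_mono_interval (le_refl _) hT1V hVT2
    · exact Eventually.of_forall fun x => XX2_nonneg _ _ _
    · exact hInt T hT1T
  refine le_trans ?_ (h12.trans h14)
  have e1 : Y ^ (q - p) * (c₂ / 4 * (L ^ p * M)) = ν ^ (q - p) * (c₂ / 4) * (L ^ q * M) := by
    rw [hY, Real.mul_rpow hν0.le hL0.le]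
    have e : L ^ q = L ^ (q - p) * L ^ p := by
      rw [← Real.rpow_add hL0]; congr 1; ring
    rw [e]
    ring
  rw [e1]
  have hlogT : 1 / 2 * Real.log T ≤ L := by
    have h15 : Real.log T ≤ Real.log (V ^ 2) := by
      apply Real.log_le_log (by linarith)
      nlinarith
    rw [Real.log_pow] at h15
    rw [hL]
    push_cast at h15
    linarith
  have hlT0 : 0 ≤ Real.log T := Real.log_nonneg (by linarith)
  have h16 : (1 / 2) ^ (b + q) * Real.log T ^ (b + q) ≤ L ^ (b + q) := by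
    rw [← Real.mul_rpow (by norm_num) hlT0]
    exact Real.rpow_le_rpow (by positivity) hlogT (by linarith)
  calc c₄ * (1 / 2 * (1 / 2) ^ (b + q)) * (T * Real.log T ^ (b + q))
      = c₄ * (T / 2 * ((1 / 2) ^ (b + q) * Real.log T ^ (b + q))) := by ring
    _ ≤ c₄ * (V * L ^ (b + q)) := by gcongr
    _ = ν ^ (q - p) * (c₂ / 4) * (L ^ q * (c₃ * (V * L ^ b))) := by
        rw [hc₄, Real.rpow_add hL0]; ring
    _ ≤ ν ^ (q - p) * (c₂ / 4) * (L ^ q * M) := by gcongr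

end Pool.Agent.Helper156_SP
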